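import Pool.Agent.EXK.LatK
import Pool.Agent.EXG.SharpB
import Pool.Agent.EXL.FinalPre

/-!
# EXK: the sharp asymptotics of `K_T` and the ratio `K_T / (T B_T)`
-/

set_option autoImplicit false

open Filter Topology

namespace EXK

/-- the sharp asymptotics of the bridges -/
theorem bT_asym : Tendsto (fun n : ℕ => HexObs.bT n * (n : ℝ) ^ (1 / 4 : ℝ)) atTop (𝓝 EXG.bB) :=
  EXG.sharp_b (fun n => HexObs.bT_nonneg n) (fun _ _ h => Pool.Agent.EXL.bT_anti h) (fun _ => rfl)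
    Pool.Agent.EXL.Glue.relE_bT

/-- **the ratio** -/
theorem K_ratio : Tendsto (fun n : ℕ => KR n / ((n : ℝ) * HexObs.bT n)) atTop
    (𝓝 (Real.sqrt 3 / (4 * Real.sin (3 * Real.pi / 8)))) :=
  ratio KR_asym bT_asym

/-- the constant -/
theorem const_eq : EXG.bB * (Real.sqrt 3 / (4 * Real.sin (3 * Real.pi / 8))) =
    2 ^ (5 / 4 : ℝ) * 3 ^ (-(3 / 8) : ℝ) * (Real.sqrt 2 - 1) * Real.Gamma (3 / 4) / Real.sqrt Real.pi := by
  have h1 := s1_pos
  have h2 := c1_pos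
  have hs : Real.sin (Real.pi / 8) = (Real.sqrt 2 - 1) * Real.cos (Real.pi / 8) := by
    have e1 := Real.sin_two_mul (Real.pi / 8)
    have e2 := Real.cos_two_mul (Real.pi / 8)
    rw [show 2 * (Real.pi / 8) = Real.pi / 4 by ring, Real.sin_pi_div_four] at e1
    rw [show 2 * (Real.pi / 8) = Real.pi / 4 by ring, Real.cos_pi_div_four] at e2
    have h3 : Real.sqrt 2 ^ 2 = 2 := Real.sq_sqrt (by norm_num)
    have : Real.cos (Real.pi / 8) * (Real.sin (Real.pi / 8) - (Real.sqrt 2 - 1) * Real.cos (Real.pi / 8)) = 0 := by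
      linear_combination (-1 / 2) * e1 + ((Real.sqrt 2 - 1) / 2) * e2 - (1 / 4) * h3
    rcases mul_eq_zero.1 this with h | h
    · exact absurd h h2.ne'
    · linarith
  rw [s3_eq]
  unfold EXG.bB
  have e3 : (3 : ℝ) ^ (-(7 / 8) : ℝ) * Real.sqrt 3 = 3 ^ (-(3 / 8) : ℝ) := by
    rw [Real.sqrt_eq_rpow, ← Real.rpow_add (by norm_num)]
    norm_num
  have e2 : (2 : ℝ) ^ (13 / 4 : ℝ) / 4 = 2 ^ (5 / 4 : ℝ) := by
    rw [show (4 : ℝ) = 2 ^ (2 : ℝ) by norm_num, ← Real.rpow_sub (by norm_num)]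
    norm_num
  rw [← e3, ← e2, hs]
  field_simp

/-- **the sharp asymptotics of `K_T`** -/
theorem K_asym : Tendsto (fun n : ℕ => KR n / (n : ℝ) ^ (3 / 4 : ℝ)) atTop
    (𝓝 (2 ^ (5 / 4 : ℝ) * 3 ^ (-(3 / 8) : ℝ) * (Real.sqrt 2 - 1) * Real.Gamma (3 / 4) / Real.sqrt Real.pi)) := by
  rw [← const_eq]
  exact KR_asym

end EXK
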