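import Pool.Agent.EXK.Step

/-!
# The order of the values of the double column (board EXK, K1)
-/

set_option autoImplicit false

namespace Pool.Agent.EXK

open Pool.Agent.EXL Pat Filter Topology Asymptotics

variable {α ι : Type*} [DecidableEq α] {fl : Filter ι}

/-- The behaviour of the weights: `e → 0`, `w` the weights of the line `r`, `w'` the weights of the
line `l`, `Kt`, `kt` the weights of the top. -/
structure Asy (fl : Filter ι) (e : ι → ℂ) (w w' : ι → Wt ℂ) (Kt kt : ι → ℂ)
    (a1 a2 b1 b2 o1 o2 Kt0 κ : ℂ) : Prop where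
  e0 : Tendsto e fl (𝓝 0)
  en : ∀ n, e n ≠ 0
  v : Tendsto (fun n => (w n).v) fl (𝓝 1)
  u1 : Tendsto (fun n => (w n).u1 / e n) fl (𝓝 a1)
  u2 : Tendsto (fun n => (w n).u2 / e n) fl (𝓝 a2)
  v' : Tendsto (fun n => (w' n).v) fl (𝓝 1)
  u1' : Tendsto (fun n => (w' n).u1 / e n) fl (𝓝 b1)
  u2' : Tendsto (fun n => (w' n).u2 / e n) fl (𝓝 b2)
  w1' : Tendsto (fun n => (w' n).w1) fl (𝓝 o1)
  w2' : Tendsto (fun n => (w' n).w2) fl (𝓝 o2)
  Kt : Tendsto Kt fl (𝓝 Kt0)
  kt : Tendsto (fun n => e n * kt n) fl (𝓝 κ)

/-- the exponent: one line occupied -/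
def ex (l r : α) (p : Pat α) : ℕ := if (p l = l ↔ p r = r) then 0 else 1

variable {e : ι → ℂ} {w w' : ι → Wt ℂ} {Kt kt : ι → ℂ} {a1 a2 b1 b2 o1 o2 Kt0 κ : ℂ}
  {l r t : α} {F : Pat α → ℂ}

/-- the rows above -/
noncomputable def GG (w w' : ι → Wt ℂ) (Kt kt : ι → ℂ) (l r t : α) (F : Pat α → ℂ) (L : List α)
    (p : Pat α) (n : ι) : ℂ :=
  MM (w n) (w' n) l r L (top (Kt n) (kt n) l r t F) p

abbrev O1 (fl : Filter ι) (f : ι → ℂ) : Prop := f =O[fl] (fun _ => (1 : ℝ))

omit [DecidableEq α] in
theorem O1.mul {f g : ι → ℂ} (hf : O1 fl f) (hg : O1 fl g) : O1 fl (fun n => f n * g n) := by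
  have := IsBigO.mul hf hg
  simpa using this

theorem O1.add {f g : ι → ℂ} (hf : O1 fl f) (hg : O1 fl g) : O1 fl (fun n => f n + g n) :=
  IsBigO.add hf hg

theorem O1.of {f : ι → ℂ} {c : ℂ} (hf : Tendsto f fl (𝓝 c)) : O1 fl f := hf.isBigO_one ℝ

theorem O1.cst (c : ℂ) : O1 fl (fun _ => c) := O1.of tendsto_const_nhds

theorem O1.congr {f g : ι → ℂ} (hf : O1 fl f) (h : ∀ n, f n = g n) : O1 fl g := by
  have : f = g := funext h
  rwa [← this]

/-- `o(1)` times `O(1)` -/
theorem O1.zero {f g : ι → ℂ} (hf : Tendsto f fl (𝓝 0)) (hg : O1 fl g) :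
    Tendsto (fun n => f n * g n) fl (𝓝 0) := by
  have h : (fun n => f n * g n) =o[fl] (fun _ => (1 : ℝ)) := by
    have := IsLittleO.mul_isBigO ((isLittleO_one_iff ℝ).2 hf) hg
    simpa using this
  exact (isLittleO_one_iff ℝ).1 h

section

variable (A : Asy fl e w w' Kt kt a1 a2 b1 b2 o1 o2 Kt0 κ)

include A

theorem Asy.u1_0 : Tendsto (fun n => (w n).u1) fl (𝓝 0) := by
  have := A.u1.mul A.e0
  rw [mul_zero] at this
  exact this.congr (fun n => div_mul_cancel₀ _ (A.en n))

theorem Asy.u2_0 : Tendsto (fun n => (w n).u2) fl (𝓝 0) := by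
  have := A.u2.mul A.e0
  rw [mul_zero] at this
  exact this.congr (fun n => div_mul_cancel₀ _ (A.en n))

theorem Asy.u1'_0 : Tendsto (fun n => (w' n).u1) fl (𝓝 0) := by
  have := A.u1'.mul A.e0
  rw [mul_zero] at this
  exact this.congr (fun n => div_mul_cancel₀ _ (A.en n))

theorem Asy.u2'_0 : Tendsto (fun n => (w' n).u2) fl (𝓝 0) := by
  have := A.u2'.mul A.e0
  rw [mul_zero] at this
  exact this.congr (fun n => div_mul_cancel₀ _ (A.en n))

/-- the orders at the top -/
theorem bd_top (hlr : l ≠ r) (p : Pat α) :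
    (¬ ((p l = l) ↔ (p r = r)) → O1 fl (fun n => e n * top (Kt n) (kt n) l r t F p)) ∧
    (((p l = l) ↔ (p r = r)) → O1 fl (fun n => top (Kt n) (kt n) l r t F p)) := by
  constructor
  · intro h
    by_cases hl : p l = l
    · have hr : p r ≠ r := fun h' => h (iff_of_true hl h')
      by_cases ht : p t = t
      · refine ((O1.of A.kt).mul (O1.cst (F (swap r t p)))).congr fun n => ?_
        rw [top_r hl hr ht rfl]; ring
      · refine (O1.cst 0).congr fun n => ?_
        rw [top_z1 hl hr ht]; ring
    · have hr : p r = r := by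
        by_contra h'
        exact h (iff_of_false hl h')
      by_cases ht : p t = t
      · refine ((O1.of A.kt).mul (O1.cst (F (swap l t p)))).congr fun n => ?_
        rw [top_l hl hr ht rfl]; ring
      · refine (O1.cst 0).congr fun n => ?_
        rw [top_z2 hl hr ht]; ring
  · intro h
    by_cases hl : p l = l
    · refine (O1.cst (F p)).congr fun n => ?_
      rw [top_0 hl (h.1 hl)]
    · have hr : p r ≠ r := fun h' => hl (h.2 h')
      by_cases hj : p l = r
      · refine (O1.cst 0).congr fun n => ?_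
        rw [top_z3 hlr hj]
      · refine ((O1.of A.Kt).mul (O1.cst (F (cut l r p)))).congr fun n => ?_
        rw [top_d hl hr hj rfl]

/-- the orders -/
theorem bd (hlr : l ≠ r) (L : List α) (hl : l ∉ L) (hr : r ∉ L) (p : Pat α)
    (hL : L.Nodup) (hp : ∀ k ∈ L, p k = k) :
    (¬ ((p l = l) ↔ (p r = r)) → O1 fl (fun n => e n * GG w w' Kt kt l r t F L p n)) ∧
    (((p l = l) ↔ (p r = r)) → O1 fl (fun n => GG w w' Kt kt l r t F L p n)) := by
  induction L generalizing p with
  | nil => exact bd_top A hlr p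
  | cons j L ih =>
    rw [List.mem_cons, not_or] at hl hr
    rw [List.nodup_cons] at hL
    have ih' := fun p hp => ih hl.2 hr.2 p hL.2 hp
    have hj : p j = j := hp j List.mem_cons_self
    have hp' : ∀ k ∈ L, p k = k := fun k hk => hp k (List.mem_cons_of_mem _ hk)
    obtain ⟨hlj, hl⟩ := hl
    obtain ⟨hrj, hr⟩ := hr
    have hlj : l ≠ j := hlj
    have hrj : r ≠ j := hrj
    have hjL := hL.1
    have eu1 := O1.of A.u1
    have eu2 := O1.of A.u2
    have eu1' := O1.of A.u1'
    have eu2' := O1.of A.u2'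
    have ev := O1.of A.v
    have ev' := O1.of A.v'
    have ew1 := O1.of A.w1'
    have ew2 := O1.of A.w2'
    have ee := O1.of A.e0
    by_cases h1 : p l = l <;> by_cases h2 : p r = r
    · -- both empty
      refine ⟨fun h => absurd (iff_of_true h1 h2) h, fun _ => ?_⟩
      have g0 := (ih' p hp').2 (iff_of_true h1 h2)
      have g1 := (ih' (cup l j p) (rows_cup hl hjL hp')).1 (by
        rw [cup_out p hlr.symm hrj]
        exact fun h => cup_left hlj h1 hj (h.2 h2))
      have g2 := (ih' (cup r j p) (rows_cup hr hjL hp')).1 (by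
        rw [cup_out p hlr hlj]
        exact fun h => cup_left hrj h2 hj (h.1 h1))
      have g3 := (ih' (swap l j (cup r j p)) (rows_swap hl hjL (rows_cup hr hjL hp'))).2 (by
        rw [swap_left, swap_fixed hlr.symm hrj]
        exact iff_of_false (cup_right hrj h2 hj) (cup_left hrj h2 hj))
      refine ((g0.add (eu2'.mul g1)).add ((eu2.mul (ev'.mul g2)).add
        ((ee.mul ee).mul ((eu2.mul eu1').mul g3)))).congr fun n => ?_
      have := A.en n
      show _ = R (w n) r j (R (w' n) l j _) p
      rw [step_00 hlr hlj hrj hj h1 h2]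
      unfold GG
      field_simp
    · -- r occupied
      refine ⟨fun _ => ?_, fun h => absurd (h.1 h1) h2⟩
      have g0 := (ih' p hp').1 (fun h => h2 (h.1 h1))
      have g1 := (ih' (cup l j p) (rows_cup hl hjL hp')).2 (by
        rw [cup_out p hlr.symm hrj]
        exact iff_of_false (cup_left hlj h1 hj) h2)
      have g2 := (ih' (swap r j p) (rows_swap hr hjL hp')).2 (by
        rw [swap_fixed hlr hlj, swap_left]
        exact iff_of_true h1 hj)
      have g3 := (ih' (swap l j (swap r j p)) (rows_swap hl hjL (rows_swap hr hjL hp'))).1 (by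
        rw [swap_left, swap_fixed hlr.symm hrj, swap_right, swap_left]
        exact fun h => h2 (h.2 hj))
      refine ((ev.mul g0).add ((ee.mul ee).mul (ev.mul (eu2'.mul g1)))).add ((ee.mul ee).mul
        (eu1.mul (ev'.mul g2))) |>.add ((ee.mul ee).mul ((eu1.mul eu1').mul g3)) |>.congr fun n => ?_
      have := A.en n
      show _ = e n * R (w n) r j (R (w' n) l j _) p
      rw [step_01 hlr hlj hj h1 h2]
      unfold GG
      field_simp
      ring
    · -- l occupied
      refine ⟨fun _ => ?_, fun h => absurd (h.2 h2) h1⟩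
      have hc : cup r j p l = p l := cup_out p hlr hlj
      have hc1 : cup r j p l ≠ l := by rw [hc]; exact h1
      have hcj : cup r j p j = r := by rw [cup_apply ⟨h2, hj⟩]; simp [hrj.symm]
      have hct : CtOK l j (cup r j p) := by
        refine ⟨hlj, hc1, by rw [hcj]; exact hrj, ?_⟩
        rw [hc]
        intro h
        apply hlj
        rw [← p.inv l, h, hj]
      have g0 := (ih' p hp').1 (fun h => h1 (h.2 h2))
      have g1 := (ih' (swap l j p) (rows_swap hl hjL hp')).2 (by
        rw [swap_left, swap_fixed hlr.symm hrj]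
        exact iff_of_true hj h2)
      have g2 := (ih' (swap l j (cup r j p)) (rows_swap hl hjL (rows_cup hr hjL hp'))).2 (by
        rw [swap_left, swap_fixed hlr.symm hrj]
        exact iff_of_false (cup_right hrj h2 hj) (cup_left hrj h2 hj))
      have g3 := (ih' (cut l j (cup r j p)) (rows_cut hl hjL (rows_cup hr hjL hp'))).1 (by
        rw [cut_fix_out _ hlr.symm hrj]
        exact fun h => cup_left hrj h2 hj (h.1 (cut_left hct)))
      have g4 := (ih' (cup l j (cut l j (cup r j p)))
        (rows_cup hl hjL (rows_cut hl hjL (rows_cup hr hjL hp')))).2 (by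
        rw [cup_out _ hlr.symm hrj, cut_fix_out _ hlr.symm hrj]
        exact iff_of_false (cup_left hlj (cut_left hct) (cut_right hct)) (cup_left hrj h2 hj))
      refine ((ev'.mul g0).add ((ee.mul ee).mul (eu1'.mul g1))).add ((ee.mul ee).mul
        (eu2.mul (ew1.mul g2))) |>.add ((ee.mul ee).mul ((eu2.mul eu2').mul g3)) |>.add
        ((ee.mul ee).mul (eu2.mul (ew2.mul g4))) |>.congr fun n => ?_
      have := A.en n
      show _ = e n * R (w n) r j (R (w' n) l j _) p
      rw [step_10 hlr hlj hrj hj h1 h2]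
      unfold GG
      field_simp
      ring
    · -- both occupied
      refine ⟨fun h => absurd (iff_of_false h1 h2) h, fun _ => ?_⟩
      have g0 := (ih' p hp').2 (iff_of_false h1 h2)
      have g1 := (ih' (swap l j p) (rows_swap hl hjL hp')).1 (by
        rw [swap_left, swap_fixed hlr.symm hrj]
        exact fun h => h2 (h.1 hj))
      by_cases h3 : p l = r
      · have g2 := (ih' (swap r j p) (rows_swap hr hjL hp')).1 (by
          rw [swap_fixed hlr hlj, swap_left]
          exact fun h => h1 (h.2 hj))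
        refine ((ev.mul (ev'.mul g0)).add (ev.mul (eu1'.mul g1))).add
          (eu1.mul (ew1.mul g2)) |>.congr fun n => ?_
        have := A.en n
        show _ = R (w n) r j (R (w' n) l j _) p
        rw [step_11j hlr hlj hj h3]
        unfold GG
        field_simp
      · have hpj : p l ≠ j := by
          intro h
          apply hlj
          rw [← p.inv l, h, hj]
        have hs : swap r j p l = p l := by
          rw [Pool.Agent.EXL.swap_apply, Equiv.swap_apply_of_ne_of_ne hlr hlj,
            Equiv.swap_apply_of_ne_of_ne h3 hpj]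
        have hct : CtOK l j (swap r j p) := by
          refine ⟨hlj, by rw [hs]; exact h1, fun h => h2 (swap_right.1 h), by rw [hs]; exact hpj⟩
        have g2 := (ih' (swap l j (swap r j p)) (rows_swap hl hjL (rows_swap hr hjL hp'))).1 (by
          rw [swap_left, swap_fixed hlr.symm hrj, swap_right, swap_left]
          exact fun h => h2 (h.2 hj))
        have g3 := (ih' (cut l j (swap r j p)) (rows_cut hl hjL (rows_swap hr hjL hp'))).2 (by
          rw [cut_fix_out _ hlr.symm hrj, swap_left]
          exact iff_of_true (cut_left hct) hj)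
        have g4 := (ih' (cup l j (cut l j (swap r j p)))
          (rows_cup hl hjL (rows_cut hl hjL (rows_swap hr hjL hp')))).1 (by
          rw [cup_out _ hlr.symm hrj, cut_fix_out _ hlr.symm hrj, swap_left]
          exact fun h => cup_left hlj (cut_left hct) (cut_right hct) (h.2 hj))
        refine ((ev.mul (ev'.mul g0)).add (ev.mul (eu1'.mul g1))).add
          (eu1.mul (ew1.mul g2)) |>.add ((ee.mul ee).mul ((eu1.mul eu2').mul g3)) |>.add
          (eu1.mul (ew2.mul g4)) |>.congr fun n => ?_
        have := A.en n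
        show _ = R (w n) r j (R (w' n) l j _) p
        rw [step_11 hlr hlj hj h1 h2 h3]
        unfold GG
        field_simp
        ring

end

end Pool.Agent.EXK
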