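import Pool.Agent.EXL.ClOne
import Pool.Agent.EXL.ClFF
import Pool.Agent.EXL.GlRel
import Pool.Agent.EXS.S1

/-!
# Closing for the subleading coefficient `β` of `b` (board EXK, module K2, helper38)

`β * (residual of sin 2v at p) = - 4 cos (3 π / 8) * (residual of sin 4v at p)`
-/

set_option autoImplicit false

open Filter Topology

namespace Pool.Agent.EXL.Cl

noncomputable section

/-- subleading coefficient: `b = 2 th⁻³ z + β + o(1)` at infinity, `b = 2 th³ / z + β + o(1)` at `0` -/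
structure Bs (b : ℂ → ℂ) (β : ℂ) : Prop where
  inf : Tendsto (fun z => b z - 2 * (th ^ 3)⁻¹ * z) (cocompact ℂ) (𝓝 β)
  zero : Tendsto (fun z => b z - 2 * th ^ 3 * z⁻¹) (𝓝[≠] 0) (𝓝 β)

/-- `sin 6v` -/
def S3 (z : ℂ) : ℂ := (z ^ 3 - (z⁻¹) ^ 3) / (2 * Complex.I)

variable {N : ℕ}

/-- residual of `sin 6v` -/
def res3 (x : Fin N → ℝ) (a : Fin N → ℂ) (z : ℂ) : ℂ := S3 z - ∑ k, a k * KK z (ep (x k))

/-- growth `z^m` with no lower terms up to `1/z` -/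
def Ax (m : ℕ) (F : ℂ → ℂ) : Prop :=
  ∃ c, Tendsto (fun z => z * (F z - z ^ m / (2 * Complex.I))) (cocompact ℂ) (𝓝 c)

theorem S3_odd (z : ℂ) : S3 z⁻¹ = - S3 z := by
  simp only [S3, inv_inv]; ring

theorem S3_diff {z : ℂ} (hz : z ≠ 0) : DifferentiableAt ℂ S3 z := by
  unfold S3
  fun_prop (disch := assumption)

theorem S3_fe (z : ℂ) : S3 z + S3 (ze ^ 2 * z) + S3 (ze ^ 4 * z) + S3 (ze ^ 6 * z) = 0 := by
  rw [ze_pow_four, ze_sq, ze_six]
  simp only [S3, mul_inv, Complex.inv_I, inv_neg, inv_one, mul_pow]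
  have h : (Complex.I : ℂ) ^ 3 = -Complex.I := by rw [pow_succ, Complex.I_sq]; ring
  have h' : (-(Complex.I : ℂ)) ^ 3 = Complex.I := by rw [neg_pow, h]; ring
  have h'' : (-(-(Complex.I : ℂ))) ^ 3 = -Complex.I := by rw [neg_neg, h]
  rw [h, h', h'']
  ring

theorem ax_res1 (x : Fin N → ℝ) (a : Fin N → ℂ) : Ax 1 (res1 x a) := by
  have hA : An (Sg x a) := An.sum _ (fun k => An.const_mul _ (An.KK (ep_ne_zero _)))
  obtain ⟨c, hc⟩ := hA.inf
  refine ⟨-(1 / (2 * Complex.I)) - c, ?_⟩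
  refine (tendsto_const_nhds.sub hc).congr' ?_
  filter_upwards [ev_ne_zero_cocompact] with z hz
  have he : res1 x a z = S1 z - Sg x a z := rfl
  rw [he]
  unfold S1
  field_simp
  ring

theorem ax_res3 (x : Fin N → ℝ) (a : Fin N → ℂ) : Ax 3 (res3 x a) := by
  have hA : An (Sg x a) := An.sum _ (fun k => An.const_mul _ (An.KK (ep_ne_zero _)))
  obtain ⟨c, hc⟩ := hA.inf
  have h1 := (tendsto_inv_cocompact'.pow 2).mul_const (-(1 / (2 * Complex.I)))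
  rw [zero_pow two_ne_zero, zero_mul] at h1
  refine ⟨0 - c, ?_⟩
  refine (h1.sub hc).congr' ?_
  filter_upwards [ev_ne_zero_cocompact] with z hz
  have he : res3 x a z = S3 z - Sg x a z := rfl
  rw [he]
  unfold S3
  field_simp
  ring

theorem ff_res3 {x : Fin N → ℝ} (hx : Nd x) (a : Fin N → ℂ)
    (h0 : ∀ k, res3 x a (ep (x k)) = 0) : ∃ r, FF x ∅ (res3 x a) r := by
  have he : res3 x a = fun z => S3 z - Sg x a z := rfl
  have ho : ∀ z, res3 x a z⁻¹ = - res3 x a z := by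
    intro z; rw [he]; simp only [S3_odd, Sg_odd]; ring
  refine ⟨fun u => 0 - rs a u, ?_⟩
  refine ⟨fun z _ => ho z, zero_yy ho h0, ?_, ?_, ?_, ?_⟩
  · intro z hz h3 h5 _
    rw [he]
    exact (S3_diff hz).sub (Sg_diff a h3 h5)
  · intro z _ h4 _
    have a1 := S3_fe z
    have a2 := Sg_fe a h4
    simp only [he]
    linear_combination a1 - a2
  · intro u
    exact (HR.of_cont (yyze_ne_zero u 3) (S3_diff (yyze_ne_zero u 3)).continuousAt).sub
      (Sg_HR3 hx a u)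
  · intro u
    refine ((HR.of_cont (yyze_ne_zero u 5) (S3_diff (yyze_ne_zero u 5)).continuousAt).sub
      (Sg_HR5 hx a u)).cast rfl ?_
    ring

/-! ### asymptotics of the bracket -/

theorem ax_dil {m : ℕ} {F : ℂ → ℂ} (h : Ax m F) {c : ℂ} (hc : c ≠ 0) :
    ∃ l, Tendsto (fun z => z * (F (c * z) - (c * z) ^ m / (2 * Complex.I))) (cocompact ℂ) (𝓝 l) := by
  obtain ⟨l, hl⟩ := h
  refine ⟨c⁻¹ * l, ((hl.comp (PartI.tendsto_dil_cocompact hc)).const_mul c⁻¹).congr fun z => ?_⟩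
  simp only [Function.comp]
  field_simp

/-- the bracket with two dilations -/
def Gb (F E : ℂ → ℂ) (c d z : ℂ) : ℂ := F (c * z) * E (d * z) - E (c * z) * F (d * z)

theorem Gb_lim {F E : ℂ → ℂ} (aF : Ax 1 F) (aE : Ax 3 E) {c d : ℂ} (hc : c ≠ 0) (hd : d ≠ 0) :
    Tendsto (fun z => z * (Gb F E c d z / z ^ 4 - -(1 / 4) * (c * d ^ 3 - c ^ 3 * d)))
      (cocompact ℂ) (𝓝 0) := by
  obtain ⟨f1, hf1⟩ := ax_dil aF hc
  obtain ⟨f2, hf2⟩ := ax_dil aF hd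
  obtain ⟨e1, he1⟩ := ax_dil aE hc
  obtain ⟨e2, he2⟩ := ax_dil aE hd
  have hi := tendsto_inv_cocompact'
  have t := ((((he2.mul (hi.pow 3)).const_mul (c / (2 * Complex.I))).add
    ((hf1.mul hi).const_mul (d ^ 3 / (2 * Complex.I)))).add ((hf1.mul he2).mul (hi.pow 5))).sub
    ((((he1.mul (hi.pow 3)).const_mul (d / (2 * Complex.I))).add
    ((hf2.mul hi).const_mul (c ^ 3 / (2 * Complex.I)))).add ((hf2.mul he1).mul (hi.pow 5)))
  simp only [zero_pow (show (3:ℕ) ≠ 0 by norm_num), zero_pow (show (5:ℕ) ≠ 0 by norm_num), mul_zero,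
    add_zero, sub_zero] at t
  refine t.congr' ?_
  filter_upwards [ev_ne_zero_cocompact] with z hz
  unfold Gb
  generalize F (c * z) = A
  generalize F (d * z) = B
  generalize E (c * z) = C
  generalize E (d * z) = D
  have hI : (Complex.I : ℂ) ^ 2 = -1 := Complex.I_sq
  have hI' : (1 / (2 * Complex.I)) * (1 / (2 * Complex.I)) = -(1 / 4) := by
    have : Complex.I ≠ 0 := Complex.I_ne_zero
    field_simp
    linear_combination (4 : ℂ) * hI
  have key : ∀ q : ℂ, q * q = -(1 / 4) →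
      c * q * (z * (D - (d * z) ^ 3 * q) * z⁻¹ ^ 3) + d ^ 3 * q * (z * (A - (c * z) ^ 1 * q) * z⁻¹) +
        z * (A - (c * z) ^ 1 * q) * (z * (D - (d * z) ^ 3 * q)) * z⁻¹ ^ 5 -
        (d * q * (z * (C - (c * z) ^ 3 * q) * z⁻¹ ^ 3) + c ^ 3 * q * (z * (B - (d * z) ^ 1 * q) * z⁻¹) +
        z * (B - (d * z) ^ 1 * q) * (z * (C - (c * z) ^ 3 * q)) * z⁻¹ ^ 5) =
      z * ((A * D - C * B) / z ^ 4 - -(1 / 4) * (c * d ^ 3 - c ^ 3 * d)) := by
    intro q hq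
    rw [← hq]
    field_simp
    ring
  have := key (1 / (2 * Complex.I)) hI'
  simp only [div_eq_mul_inv, one_mul] at this ⊢
  exact this

theorem QQ_lim : Tendsto (fun z => z * (z ^ 4 / PartI.QQ z - 1)) (cocompact ℂ) (𝓝 0) := by
  have h1 := (PartI.QQ_inf.inv₀ one_ne_zero)
  have h2 := (tendsto_inv_cocompact'.pow 7).mul h1
  rw [zero_pow (by norm_num), zero_mul] at h2
  have h3 : ∀ᶠ z : ℂ in cocompact ℂ, PartI.QQ z / z ^ 4 ≠ 0 :=
    PartI.QQ_inf.eventually_ne one_ne_zero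
  refine h2.congr' ?_
  filter_upwards [ev_ne_zero_cocompact, h3] with z hz hq
  have hq' : PartI.QQ z ≠ 0 := fun h => hq (by rw [h, zero_div])
  have e : PartI.QQ z = z ^ 4 - (z⁻¹) ^ 4 := rfl
  have e2 : z ^ 4 - PartI.QQ z = z⁻¹ ^ 4 := by rw [e]; ring
  have e3 : z ^ 4 / PartI.QQ z - 1 = z⁻¹ ^ 4 / PartI.QQ z := by
    rw [← e2]; field_simp
  rw [e3, inv_div]
  field_simp

theorem tendsto_inv_zero_cocompact : Tendsto (fun z : ℂ => z⁻¹) (𝓝[≠] 0) (cocompact ℂ) := by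
  rw [← Metric.cobounded_eq_cocompact]
  exact tendsto_inv₀_nhdsNE_zero

/-- product of the expansions -/
theorem prod_lim {b P R : ℂ → ℂ} {κ C β : ℂ} {l : Filter ℂ} {w : ℂ → ℂ}
    (hb : Tendsto (fun z => b z - κ * w z) l (𝓝 β))
    (hP : Tendsto (fun z => w z * (P z - C)) l (𝓝 0)) (hR : Tendsto (fun z => w z * (R z - 1)) l (𝓝 0))
    (hw : Tendsto (fun z => (w z)⁻¹) l (𝓝 0)) (hw0 : ∀ᶠ z in l, w z ≠ 0) :
    Tendsto (fun z => b z * P z * R z - κ * C * w z) l (𝓝 (β * C)) := by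
  have hP1 : Tendsto P l (𝓝 C) := by
    have := (hP.mul hw).add_const C
    rw [zero_mul, zero_add] at this
    refine this.congr' ?_
    filter_upwards [hw0] with z hz
    field_simp
    ring
  have hR1 : Tendsto R l (𝓝 1) := by
    have := (hR.mul hw).add_const 1
    rw [zero_mul, zero_add] at this
    refine this.congr' ?_
    filter_upwards [hw0] with z hz
    field_simp
    ring
  have h := (((hb.mul hP1).mul hR1).add ((hP.mul hR1).const_mul κ)).add (hR.const_mul (κ * C))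
  rw [mul_one, zero_mul, mul_zero, mul_zero, add_zero, add_zero] at h
  refine h.congr fun z => ?_
  ring

theorem zeC1 : -(1 / 4) * (ze ^ 3 * (ze ^ 2) ^ 3 - (ze ^ 3) ^ 3 * ze ^ 2) +
    -(1 / 4) * (ze ^ 5 * (ze ^ 6) ^ 3 - (ze ^ 5) ^ 3 * ze ^ 6) = -((Real.sqrt 2 : ℂ) / 2) := by
  have h8 := ze_pow_eight
  have h1 := ze_add
  have h2 := ze35
  have e1 : ze ^ 3 * (ze ^ 2) ^ 3 = ze := by linear_combination ze * h8
  have e2 : (ze ^ 3) ^ 3 * ze ^ 2 = ze ^ 3 := by linear_combination ze ^ 3 * h8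
  have e3 : ze ^ 5 * (ze ^ 6) ^ 3 = ze ^ 7 := by linear_combination (ze ^ 15 + ze ^ 7) * h8
  have e4 : (ze ^ 5) ^ 3 * ze ^ 6 = ze ^ 5 := by linear_combination (ze ^ 13 + ze ^ 5) * h8
  rw [e1, e2, e3, e4]
  linear_combination -(1 / 4) * h1 + (1 / 4) * h2

open PartI in
/-- **(I3)** the residue identity with the pair of growths `1`, `3` -/
theorem closeK {x : Fin N → ℝ} (hx : Nd x) {b : ℂ → ℂ} {B ρ β : ℂ} (hb : BF x b B ρ) (hs : Bs b β)
    {F E : ℂ → ℂ} {rF rE : Fin N × Bool → ℂ} (hF : FF x ∅ F rF) (aF : Ax 1 F)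
    (hE : FF x ∅ E rE) (aE : Ax 3 E) :
    ρ * (F th * E (th ^ 3) - E th * F (th ^ 3)) = -(Complex.I * ((Real.sqrt 2 : ℂ) / 2) * β) := by
  have n2 : (ze ^ 2 : ℂ) ≠ 0 := pow_ne_zero _ ze_ne_zero
  have n3 : (ze ^ 3 : ℂ) ≠ 0 := pow_ne_zero _ ze_ne_zero
  have n5 : (ze ^ 5 : ℂ) ≠ 0 := pow_ne_zero _ ze_ne_zero
  have n6 : (ze ^ 6 : ℂ) ≠ 0 := pow_ne_zero _ ze_ne_zero
  set C : ℂ := -(1 / 4) * (ze ^ 3 * (ze ^ 2) ^ 3 - (ze ^ 3) ^ 3 * ze ^ 2) with hC
  set C' : ℂ := -(1 / 4) * (ze ^ 5 * (ze ^ 6) ^ 3 - (ze ^ 5) ^ 3 * ze ^ 6) with hC'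
  set κ : ℂ := 2 * (th ^ 3)⁻¹ with hκ
  set κ' : ℂ := 2 * th ^ 3 with hκ'
  have li : Tendsto (fun z => gI b F E z - κ * C * z) (cocompact ℂ) (𝓝 (β * C)) := by
    have := prod_lim hs.inf (Gb_lim aF aE n3 n2) QQ_lim tendsto_inv_cocompact' ev_ne_zero_cocompact
    refine this.congr' ?_
    filter_upwards [ev_ne_zero_cocompact] with z hz
    have e : b z * (Gb F E (ze ^ 3) (ze ^ 2) z / z ^ 4) * (z ^ 4 / QQ z) = gI b F E z := by
      unfold gI Bk Gb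
      field_simp
    rw [e]
  have ww := tendsto_inv_zero_cocompact
  have l0 : Tendsto (fun z => -(gI b F E z) - κ' * C' * z⁻¹) (𝓝[≠] 0) (𝓝 (β * C')) := by
    have := prod_lim (w := fun z : ℂ => z⁻¹) hs.zero ((Gb_lim aF aE n5 n6).comp ww) (QQ_lim.comp ww)
      (by simpa only [inv_inv] using tendsto_id_punct)
      (by filter_upwards [self_mem_nhdsWithin] with z hz; exact inv_ne_zero hz)
    refine this.congr' ?_
    filter_upwards [self_mem_nhdsWithin] with z hz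
    have hz0 : z ≠ 0 := hz
    have s3 : ∀ {G : ℂ → ℂ} {r}, FF x ∅ G r → G (ze ^ 5 * z⁻¹) = - G (ze ^ 3 * z) := by
      intro G r hG
      rw [← hG.odd _ (mul_ne_zero n3 hz0)]
      congr 1
      rw [mul_inv]
      congr 1
      refine eq_inv_of_mul_eq_one_left ?_
      linear_combination ze_pow_eight
    have s2 : ∀ {G : ℂ → ℂ} {r}, FF x ∅ G r → G (ze ^ 6 * z⁻¹) = - G (ze ^ 2 * z) := by
      intro G r hG
      rw [← hG.odd _ (mul_ne_zero n2 hz0)]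
      congr 1
      rw [mul_inv]
      congr 1
      refine eq_inv_of_mul_eq_one_left ?_
      linear_combination ze_pow_eight
    have eG : Gb F E (ze ^ 5) (ze ^ 6) z⁻¹ = Bk F E z := by
      unfold Gb Bk
      rw [s3 hF, s3 hE, s2 hF, s2 hE]
      ring
    have eQ : QQ z⁻¹ = - QQ z := by
      unfold QQ
      rw [inv_inv]; ring
    have e : b z * (Gb F E (ze ^ 5) (ze ^ 6) z⁻¹ / z⁻¹ ^ 4) * (z⁻¹ ^ 4 / QQ z⁻¹) = -(gI b F E z) := by
      rw [eG, eQ]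
      unfold gI
      have : z⁻¹ ≠ 0 := inv_ne_zero hz0
      by_cases hQ : QQ z = 0
      · rw [hQ]; simp
      · field_simp
    change b z * (Gb F E (ze ^ 5) (ze ^ 6) z⁻¹ / z⁻¹ ^ 4) * (z⁻¹ ^ 4 / QQ z⁻¹) - κ' * C' * z⁻¹ = _
    rw [e]
  -- the corrected function
  set g : ℂ → ℂ := fun z => gI b F E z - (κ * C * z - κ' * C' * z⁻¹) with hg
  have hreg : ∀ z : ℂ, z ≠ 0 → DifferentiableAt ℂ (fun z : ℂ => κ * C * z - κ' * C' * z⁻¹) z := by
    intro z hz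
    fun_prop (disch := assumption)
  have gi : Tendsto g (cocompact ℂ) (𝓝 (β * C)) := by
    have := li.add (tendsto_inv_cocompact'.const_mul (κ' * C'))
    rw [mul_zero, add_zero] at this
    refine this.congr fun z => ?_
    rw [hg]; ring
  have g0 : Tendsto g (𝓝[≠] 0) (𝓝 (-(β * C'))) := by
    have := l0.neg.sub (tendsto_id_punct.const_mul (κ * C))
    rw [mul_zero, sub_zero] at this
    refine this.congr fun z => ?_
    rw [hg]; ring
  have hsum := res_sum (nd x) (nd_inj hx) (nd_ne_zero x) g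
    (fun z hz h => (gI_diff hb hF hE z hz h).sub (hreg z hz)) (rI x b F E rF rE ρ)
    (fun u => by
      have := (gI_HR hx hb hF hE u).sub (HR.of_cont (nd_ne_zero x u) (hreg _ (nd_ne_zero x u)).continuousAt)
      rw [sub_zero] at this
      exact this) (-(β * C')) (β * C) g0 gi
  rw [rI_sum hx hb hF hE] at hsum
  have hI := Complex.I_ne_zero
  have hCC := zeC1
  rw [← hC, ← hC'] at hCC
  have : β * C - -(β * C') = β * -((Real.sqrt 2 : ℂ) / 2) := by rw [← hCC]; ring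
  rw [this, div_eq_iff hI] at hsum
  rw [hsum]; ring

/-! ### the bilinear relations of the residuals -/

/-- `cos 8v` -/
def Cc (z : ℂ) : ℂ := (z ^ 4 + (z⁻¹) ^ 4) / 2

/-- the bilinear form -/
def GG (a b c a' b' c' : ℂ) : ℂ := 4 * (Real.sqrt 2 : ℂ) * (a * c' + c * a') - 8 * b * b'

theorem KI {z w : ℂ} (hz : z ≠ 0) (hw : w ≠ 0)
    (h1 : (z / w) ^ 2 + (Real.sqrt 2 : ℂ) * (z / w) + 1 ≠ 0)
    (h2 : (z * w) ^ 2 + (Real.sqrt 2 : ℂ) * (z * w) + 1 ≠ 0) :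
    GG (S1 z) (S2 z) (S3 z) (S1 w) (S2 w) (S3 w) = (Cc z + Cc w) * KK z w := by
  have h3 : z ^ 2 + (Real.sqrt 2 : ℂ) * (z * w) + w ^ 2 ≠ 0 := by
    intro h
    apply h1
    field_simp
    linear_combination h
  have e1 : Dh (z / w) = -(2 * (Real.sqrt 2 : ℂ)) * (z * w) / (z ^ 2 + (Real.sqrt 2 : ℂ) * (z * w) + w ^ 2) := by
    unfold Dh
    rw [div_eq_div_iff h1 h3]
    field_simp
  have hI : (Complex.I : ℂ) ^ 2 = -1 := Complex.I_sq
  have hr := sqrt2_sq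
  have hI' : (2 * Complex.I)⁻¹ * (2 * Complex.I)⁻¹ = -(1 / 4) := by
    have : Complex.I ≠ 0 := Complex.I_ne_zero
    field_simp
    linear_combination (4 : ℂ) * hI
  set r : ℂ := ((Real.sqrt 2 : ℝ) : ℂ) with hrdef
  have eK : KK z w = -(2 * r) * (z * w) * ((z ^ 2 - 1) * (w ^ 2 - 1)) /
      ((z ^ 2 + r * (z * w) + w ^ 2) * ((z * w) ^ 2 + r * (z * w) + 1)) := by
    unfold KK
    rw [e1]
    unfold Dh
    rw [← hrdef, div_sub_div _ _ h3 h2]
    congr 1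
    ring
  have eC : Cc z + Cc w = ((z ^ 2 + r * (z * w) + w ^ 2) * ((z * w) ^ 2 + r * (z * w) + 1)) *
      ((z ^ 2 + w ^ 2 - r * (z * w)) * ((z * w) ^ 2 + 1 - r * (z * w))) / (2 * (z ^ 4 * w ^ 4)) := by
    have e2 : (z ^ 2 + r * (z * w) + w ^ 2) * (z ^ 2 + w ^ 2 - r * (z * w)) = z ^ 4 + w ^ 4 := by
      linear_combination (-(z ^ 2 * w ^ 2)) * hr
    have e3 : ((z * w) ^ 2 + r * (z * w) + 1) * ((z * w) ^ 2 + 1 - r * (z * w)) = z ^ 4 * w ^ 4 + 1 := by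
      linear_combination (-(z ^ 2 * w ^ 2)) * hr
    have e4 : ((z ^ 2 + r * (z * w) + w ^ 2) * ((z * w) ^ 2 + r * (z * w) + 1)) *
      ((z ^ 2 + w ^ 2 - r * (z * w)) * ((z * w) ^ 2 + 1 - r * (z * w))) = (z ^ 4 + w ^ 4) * (z ^ 4 * w ^ 4 + 1) := by
      rw [← e2, ← e3]; ring
    rw [e4]
    unfold Cc
    field_simp
    ring
  have eR : (Cc z + Cc w) * KK z w = -r * (z * w) * ((z ^ 2 - 1) * (w ^ 2 - 1)) *
      ((z ^ 2 + w ^ 2 - r * (z * w)) * ((z * w) ^ 2 + 1 - r * (z * w))) / (z ^ 4 * w ^ 4) := by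
    have hD : (z ^ 2 + r * (z * w) + w ^ 2) * ((z * w) ^ 2 + r * (z * w) + 1) ≠ 0 := mul_ne_zero h3 h2
    rw [eC, eK]
    generalize (z ^ 2 + r * (z * w) + w ^ 2) * ((z * w) ^ 2 + r * (z * w) + 1) = D at hD
    field_simp
  rw [eR]
  unfold GG S1 S2 S3
  rw [← hrdef]
  simp only [div_eq_mul_inv _ (2 * Complex.I)]
  generalize (2 * Complex.I)⁻¹ = q at *
  have e : 4 * r * ((z - z⁻¹) * q * ((w ^ 3 - w⁻¹ ^ 3) * q) + (z ^ 3 - z⁻¹ ^ 3) * q * ((w - w⁻¹) * q)) -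
      8 * ((z ^ 2 - z⁻¹ ^ 2) * q) * ((w ^ 2 - w⁻¹ ^ 2) * q) =
      (q * q) * (4 * r * ((z - z⁻¹) * (w ^ 3 - w⁻¹ ^ 3) + (z ^ 3 - z⁻¹ ^ 3) * (w - w⁻¹)) -
      8 * (z ^ 2 - z⁻¹ ^ 2) * (w ^ 2 - w⁻¹ ^ 2)) := by ring
  rw [e, hI']
  have e5 : 4 * r * ((z - z⁻¹) * (w ^ 3 - w⁻¹ ^ 3) + (z ^ 3 - z⁻¹ ^ 3) * (w - w⁻¹)) -
      8 * (z ^ 2 - z⁻¹ ^ 2) * (w ^ 2 - w⁻¹ ^ 2) =
      (4 * r * (z * w * ((z ^ 2 - 1) * (w ^ 6 - 1) * z ^ 2 + (z ^ 6 - 1) * (w ^ 2 - 1) * w ^ 2)) -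
      8 * (z ^ 2 * w ^ 2 * ((z ^ 4 - 1) * (w ^ 4 - 1)))) / (z ^ 4 * w ^ 4) := by
    field_simp
  rw [e5, ← mul_div_assoc]
  congr 1
  linear_combination (-(z ^ 2 * w ^ 2 * (z ^ 4 - 1) * (w ^ 4 - 1) - r * z ^ 3 * w ^ 3 * (z ^ 2 - 1) * (w ^ 2 - 1))) * hr

theorem ep_den {y : ℝ} (hy : |y| < 3 * Real.pi / 8) :
    (ep y) ^ 2 + (Real.sqrt 2 : ℂ) * (ep y) + 1 ≠ 0 := by
  have h1 := Glue.ep_two y
  have h0 := ep_ne_zero y
  have h2 : ep y ^ 2 + (Real.sqrt 2 : ℂ) * ep y + 1 =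
      ep y * ((2 * (Real.cos (2 * y) + Real.cos (Real.pi / 4)) : ℝ) : ℂ) := by
    have h3 : ((2 * (Real.cos (2 * y) + Real.cos (Real.pi / 4)) : ℝ) : ℂ) =
        ep y + (ep y)⁻¹ + (Real.sqrt 2 : ℂ) := by
      rw [h1, Real.cos_pi_div_four]
      push_cast
      ring
    rw [h3]
    field_simp
    ring
  rw [h2]
  refine mul_ne_zero h0 ?_
  exact_mod_cast mul_ne_zero two_ne_zero (P2F.cos_ne hy)

theorem KI_ep {y z : ℝ} (hy : 0 < y) (hz : 0 < z)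
    (hyz : y + z < 3 * Real.pi / 8) :
    GG (S1 (ep y)) (S2 (ep y)) (S3 (ep y)) (S1 (ep z)) (S2 (ep z)) (S3 (ep z)) =
      (Cc (ep y) + Cc (ep z)) * KK (ep y) (ep z) := by
  have hpi := Real.pi_pos
  refine KI (ep_ne_zero _) (ep_ne_zero _) ?_ ?_
  · rw [← Glue.ep_sub]
    exact ep_den (abs_lt.2 ⟨by linarith, by linarith⟩)
  · rw [← Glue.ep_add]
    exact ep_den (abs_lt.2 ⟨by linarith, by linarith⟩)

theorem KK_symm (z w : ℂ) : KK z w = KK w z := by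
  unfold KK
  rw [← Dh_inv (z / w), inv_div, mul_comm z w]

/-- dual form of the residuals -/
theorem dual {x : Fin N → ℝ} {X : ℂ} {u : Fin N → ℂ}
    (hu : ∀ j, ∑ l, u l * KK (ep (x j)) (ep (x l)) = KK (ep (x j)) X) {a : Fin N → ℂ} {S : ℂ → ℂ}
    (ha : ∀ j, S (ep (x j)) - ∑ k, a k * KK (ep (x j)) (ep (x k)) = 0) :
    S X - ∑ k, a k * KK X (ep (x k)) = S X - ∑ l, u l * S (ep (x l)) := by
  congr 1
  have h1 : ∀ k, KK X (ep (x k)) = ∑ l, u l * KK (ep (x k)) (ep (x l)) := by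
    intro k
    rw [hu k, KK_symm]
  have h2 : ∀ l, S (ep (x l)) = ∑ k, a k * KK (ep (x l)) (ep (x k)) := by
    intro l
    linear_combination ha l
  simp_rw [h1, h2, Finset.mul_sum]
  rw [Finset.sum_comm]
  refine Finset.sum_congr rfl fun l _ => Finset.sum_congr rfl fun k _ => ?_
  rw [KK_symm (ep (x k)) (ep (x l))]
  ring

/-- the bilinear relation of the residuals at two points where `cos 8v = 0` -/
theorem GG_res {x : Fin N → ℝ} {X Y : ℂ} {u w : Fin N → ℂ}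
    (hu : ∀ j, ∑ l, u l * KK (ep (x j)) (ep (x l)) = KK (ep (x j)) X)
    (hw : ∀ j, ∑ l, w l * KK (ep (x j)) (ep (x l)) = KK (ep (x j)) Y)
    (hXY : GG (S1 X) (S2 X) (S3 X) (S1 Y) (S2 Y) (S3 Y) = 0)
    (hX : ∀ l, GG (S1 X) (S2 X) (S3 X) (S1 (ep (x l))) (S2 (ep (x l))) (S3 (ep (x l))) =
      Cc (ep (x l)) * KK (ep (x l)) X)
    (hY : ∀ l, GG (S1 (ep (x l))) (S2 (ep (x l))) (S3 (ep (x l))) (S1 Y) (S2 Y) (S3 Y) =
      Cc (ep (x l)) * KK (ep (x l)) Y)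
    (hN : ∀ l m, GG (S1 (ep (x l))) (S2 (ep (x l))) (S3 (ep (x l)))
      (S1 (ep (x m))) (S2 (ep (x m))) (S3 (ep (x m))) =
      (Cc (ep (x l)) + Cc (ep (x m))) * KK (ep (x l)) (ep (x m))) :
    GG (S1 X - ∑ l, u l * S1 (ep (x l))) (S2 X - ∑ l, u l * S2 (ep (x l))) (S3 X - ∑ l, u l * S3 (ep (x l)))
      (S1 Y - ∑ l, w l * S1 (ep (x l))) (S2 Y - ∑ l, w l * S2 (ep (x l))) (S3 Y - ∑ l, w l * S3 (ep (x l))) = 0 := by
  have lin1 : ∀ (b' c' d' : ℂ), GG (∑ l, u l * S1 (ep (x l))) (∑ l, u l * S2 (ep (x l)))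
      (∑ l, u l * S3 (ep (x l))) b' c' d' =
      ∑ l, u l * GG (S1 (ep (x l))) (S2 (ep (x l))) (S3 (ep (x l))) b' c' d' := by
    intro b' c' d'
    unfold GG
    simp only [Finset.sum_mul, Finset.mul_sum, mul_sub, mul_add, ← Finset.sum_sub_distrib,
      ← Finset.sum_add_distrib]
    refine Finset.sum_congr rfl fun l _ => ?_
    ring
  have lin2 : ∀ (b' c' d' : ℂ), GG b' c' d' (∑ l, w l * S1 (ep (x l))) (∑ l, w l * S2 (ep (x l)))
      (∑ l, w l * S3 (ep (x l))) =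
      ∑ l, w l * GG b' c' d' (S1 (ep (x l))) (S2 (ep (x l))) (S3 (ep (x l))) := by
    intro b' c' d'
    unfold GG
    simp only [Finset.mul_sum, mul_sub, mul_add, ← Finset.sum_sub_distrib,
      ← Finset.sum_add_distrib]
    refine Finset.sum_congr rfl fun l _ => ?_
    ring
  have split : ∀ a1 a2 a3 b1 b2 b3 c1 c2 c3 d1 d2 d3 : ℂ,
      GG (a1 - b1) (a2 - b2) (a3 - b3) (c1 - d1) (c2 - d2) (c3 - d3) =
      GG a1 a2 a3 c1 c2 c3 - GG b1 b2 b3 c1 c2 c3 - GG a1 a2 a3 d1 d2 d3 + GG b1 b2 b3 d1 d2 d3 := by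
    intros
    unfold GG
    ring
  rw [split, hXY, lin1, lin2, lin1]
  simp_rw [lin2, hX, hY, hN]
  have e1 : ∑ l, u l * ∑ m, w m * ((Cc (ep (x l)) + Cc (ep (x m))) * KK (ep (x l)) (ep (x m))) =
      ∑ l, u l * (Cc (ep (x l)) * KK (ep (x l)) Y) + ∑ m, w m * (Cc (ep (x m)) * KK (ep (x m)) X) := by
    have e2 : ∀ l, u l * ∑ m, w m * ((Cc (ep (x l)) + Cc (ep (x m))) * KK (ep (x l)) (ep (x m))) =
        u l * (Cc (ep (x l)) * KK (ep (x l)) Y) +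
        ∑ m, w m * Cc (ep (x m)) * (u l * KK (ep (x m)) (ep (x l))) := by
      intro l
      rw [← hw l, Finset.mul_sum, Finset.mul_sum, Finset.mul_sum, ← Finset.sum_add_distrib]
      refine Finset.sum_congr rfl fun m _ => ?_
      rw [KK_symm (ep (x m)) (ep (x l))]
      ring
    rw [Finset.sum_congr rfl fun l _ => e2 l, Finset.sum_add_distrib]
    congr 1
    rw [Finset.sum_comm]
    refine Finset.sum_congr rfl fun m _ => ?_
    rw [← hu m, ← Finset.mul_sum]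
    ring
  rw [e1]
  ring

theorem Cc_th : Cc th = 0 := by
  unfold Cc
  rw [inv_pow, th_pow_four, Complex.inv_I]
  ring

theorem Cc_th3 : Cc (th ^ 3) = 0 := by
  have h : (th ^ 3) ^ 4 = -Complex.I := by
    rw [← pow_mul, mul_comm, pow_mul, th_pow_four]
    rw [pow_succ, Complex.I_sq]; ring
  unfold Cc
  rw [inv_pow, h, inv_neg, Complex.inv_I]
  ring

/-- **K2: the closing theorem for `β`.** -/
theorem closing_beta {x : Fin N → ℝ} (hx : Nd x) {b : ℂ → ℂ} {B ρ β : ℂ} (hb : BF x b B ρ) (hs : Bs b β)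
    {a a' : Fin N → ℂ} (h1 : ∀ k, res1 x a (ep (x k)) = 0) (h2 : ∀ k, resE x 0 a' (ep (x k)) = 0) :
    β * res1 x a th = -(4 * (Real.cos (3 * Real.pi / 8) : ℝ)) * resE x 0 a' th := by
  have hpi := Real.pi_pos
  obtain ⟨a3, h3'⟩ := EXS.solv hx fun j => S3 (ep (x j))
  have h3 : ∀ k, res3 x a3 (ep (x k)) = 0 := by
    intro k
    unfold res3
    rw [h3' k, sub_self]
  obtain ⟨u, hu⟩ := EXS.solv hx fun j => KK (ep (x j)) th
  obtain ⟨w, hw⟩ := EXS.solv hx fun j => KK (ep (x j)) (th ^ 3)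
  -- the kernel identities
  have t1 := Glue.th_eq
  have t3 := Glue.th3_eq
  have kN : ∀ l m, GG (S1 (ep (x l))) (S2 (ep (x l))) (S3 (ep (x l)))
      (S1 (ep (x m))) (S2 (ep (x m))) (S3 (ep (x m))) =
      (Cc (ep (x l)) + Cc (ep (x m))) * KK (ep (x l)) (ep (x m)) := fun l m =>
    KI_ep (hx.pos l) (hx.pos m) (by linarith [hx.lt l, hx.lt m])
  have k1 : ∀ l, GG (S1 th) (S2 th) (S3 th) (S1 (ep (x l))) (S2 (ep (x l))) (S3 (ep (x l))) =
      Cc (ep (x l)) * KK (ep (x l)) th := by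
    intro l
    have := KI_ep (y := Real.pi / 16) (z := x l) (by positivity) (hx.pos l) (by linarith [hx.lt l])
    rw [← t1, Cc_th, zero_add, KK_symm th] at this
    exact this
  have k1' : ∀ l, GG (S1 (ep (x l))) (S2 (ep (x l))) (S3 (ep (x l))) (S1 th) (S2 th) (S3 th) =
      Cc (ep (x l)) * KK (ep (x l)) th := by
    intro l
    rw [← k1 l]
    unfold GG
    ring
  have k3' : ∀ l, GG (S1 (ep (x l))) (S2 (ep (x l))) (S3 (ep (x l))) (S1 (th ^ 3)) (S2 (th ^ 3))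
      (S3 (th ^ 3)) = Cc (ep (x l)) * KK (ep (x l)) (th ^ 3) := by
    intro l
    have := KI_ep (y := x l) (z := 3 * Real.pi / 16) (hx.pos l)
      (by positivity) (by linarith [hx.lt l])
    rw [← t3, Cc_th3, add_zero] at this
    exact this
  have k11 : GG (S1 th) (S2 th) (S3 th) (S1 th) (S2 th) (S3 th) = 0 := by
    have := KI_ep (y := Real.pi / 16) (z := Real.pi / 16) (by positivity)
      (by positivity) (by linarith)
    rw [← t1, Cc_th, zero_add, zero_mul] at this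
    exact this
  have k13 : GG (S1 th) (S2 th) (S3 th) (S1 (th ^ 3)) (S2 (th ^ 3)) (S3 (th ^ 3)) = 0 := by
    have := KI_ep (y := Real.pi / 16) (z := 3 * Real.pi / 16) (by positivity)
      (by positivity) (by linarith)
    rw [← t1, ← t3, Cc_th, Cc_th3, zero_add, zero_mul] at this
    exact this
  have g11 := GG_res hu hu k11 k1 k1' kN
  have g13 := GG_res hu hw k13 k1 k3' kN
  -- dual forms
  have h2' : ∀ j, S2 (ep (x j)) - ∑ k, a' k * KK (ep (x j)) (ep (x k)) = 0 := by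
    intro j
    have := h2 j
    unfold resE at this
    rwa [zero_mul, sub_zero] at this
  have hE : ∀ z, resE x 0 a' z = S2 z - ∑ k, a' k * KK z (ep (x k)) := by
    intro z
    unfold resE
    rw [zero_mul, sub_zero]
  have d1p : res1 x a th = S1 th - ∑ l, u l * S1 (ep (x l)) := dual hu h1
  have d2p : resE x 0 a' th = S2 th - ∑ l, u l * S2 (ep (x l)) := (hE th).trans (dual hu h2')
  have d3p : res3 x a3 th = S3 th - ∑ l, u l * S3 (ep (x l)) := dual hu h3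
  have d1t : res1 x a (th ^ 3) = S1 (th ^ 3) - ∑ l, w l * S1 (ep (x l)) := dual hw h1
  have d2t : resE x 0 a' (th ^ 3) = S2 (th ^ 3) - ∑ l, w l * S2 (ep (x l)) :=
    (hE (th ^ 3)).trans (dual hw h2')
  have d3t : res3 x a3 (th ^ 3) = S3 (th ^ 3) - ∑ l, w l * S3 (ep (x l)) := dual hw h3
  rw [← d1p, ← d2p, ← d3p] at g11
  rw [← d1p, ← d2p, ← d3p, ← d1t, ← d2t, ← d3t] at g13
  -- the residue identities
  obtain ⟨⟨r1, f1⟩, a1⟩ := ff_res1 hx a h1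
  obtain ⟨⟨r2, f2⟩, a2⟩ := ff_resE hx 0 a' h2
  obtain ⟨r3, f3⟩ := ff_res3 hx a3 h3
  have hI := closeI hx hb f1 a1 f2 a2
  have hI3 := closeK hx hb hs f1 (ax_res1 x a) f3 (ax_res3 x a3)
  have hsc : (Real.cos (3 * Real.pi / 8) : ℝ) = Real.sin (Real.pi / 8) := by
    rw [show 3 * Real.pi / 8 = Real.pi / 2 - Real.pi / 8 by ring, Real.cos_pi_div_two_sub]
  rw [hsc]
  set s : ℂ := ((Real.sin (Real.pi / 8) : ℝ) : ℂ)
  have hr := sqrt2_sq
  unfold GG at g11 g13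
  set r : ℂ := ((Real.sqrt 2 : ℝ) : ℂ)
  generalize res1 x a th = e1p at *
  generalize resE x 0 a' th = e2p at *
  generalize res3 x a3 th = e3p at *
  generalize res1 x a (th ^ 3) = e1t at *
  generalize resE x 0 a' (th ^ 3) = e2t at *
  generalize res3 x a3 (th ^ 3) = e3t at *
  -- e1p * E3 = r * e2p * E2
  have hG : e1p * (e1p * e3t - e3p * e1t) = r * e2p * (e1p * e2t - e2p * e1t) := by
    linear_combination (1 / 8) * r * e1p * g13 - (1 / 8) * r * e1t * g11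
      + ((1 / 2) * e1p * (e1t * e3p - e1p * e3t)) * hr
  have hIne : Complex.I ≠ 0 := Complex.I_ne_zero
  have hrne : r ≠ 0 := by
    intro h
    rw [h] at hr
    norm_num at hr
  have key : (Complex.I * r) * (β * e1p - -(4 * s) * e2p) = 0 := by
    linear_combination (2 * e1p) * hI3 - (2 * ρ) * hG - (2 * r * e2p) * hI
  rcases mul_eq_zero.1 key with h | h
  · exact absurd h (mul_ne_zero hIne hrne)
  · linear_combination h

end

end Pool.Agent.EXL.Cl
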