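import Pool.Agent.EXL.BFAll
import Pool.Agent.EXK.ClK

/-!
# EXK/BetaA (helper42): the subleading coefficient of `P(w) / (w D(w))` at infinity; Lagrange continuity
-/

set_option autoImplicit false

open Filter Topology Polynomial Complex

namespace EXK

open Pool.Agent.EXL Pool.Agent.EXL.Cl Pool.Agent.EXL.Fm

noncomputable section

variable {n : ℕ} {x : Fin n → ℝ}

/-- the subleading coefficient at infinity -/
def bet (P : ℂ[X]) (x : Fin n → ℝ) : ℂ :=
  P.coeff (4 * n + 3) + P.coeff (4 * n + 4) *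
    (th ^ 13 + th ^ 9 + ∑ u : Fin n × Bool, (yy x u * ze ^ 5 + yy x u * ze ^ 6))

/-- numerator at infinity -/
def Nr (P : ℂ[X]) (m : ℕ) : ℂ[X] := ∑ i ∈ Finset.range (m + 1), C (P.coeff i) * X ^ (m - i)

theorem Nr_eval (P : ℂ[X]) (m : ℕ) (t : ℂ) : (Nr P m).eval t = ∑ i ∈ Finset.range (m + 1), P.coeff i * t ^ (m - i) := by
  unfold Nr
  rw [eval_finsetSum]
  simp

theorem Nr_zero (P : ℂ[X]) (m : ℕ) : (Nr P m).coeff 0 = P.coeff m := by
  unfold Nr
  rw [finsetSum_coeff, Finset.sum_eq_single m]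
  · simp
  · intro i hi hne
    rw [coeff_C_mul, coeff_X_pow, if_neg, mul_zero]
    have := Finset.mem_range.1 hi
    omega
  · intro h
    exact absurd (Finset.mem_range.2 (Nat.lt_succ_self m)) h

theorem Nr_one (P : ℂ[X]) (m : ℕ) : (Nr P (m + 1)).coeff 1 = P.coeff m := by
  unfold Nr
  rw [finsetSum_coeff, Finset.sum_eq_single m]
  · simp
  · intro i hi hne
    rw [coeff_C_mul, coeff_X_pow, if_neg, mul_zero]
    have := Finset.mem_range.1 hi
    omega
  · intro h
    exact absurd (Finset.mem_range.2 (by omega)) h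

/-- the denominator at infinity -/
def Di (x : Fin n → ℝ) (t : ℂ) : ℂ := (1 - th ^ 13 * t) * (1 - th ^ 9 * t) *
  ∏ u : Fin n × Bool, ((1 - yy x u * ze ^ 5 * t) * (1 - yy x u * ze ^ 6 * t))

theorem Di_zero : Di x 0 = 1 := by
  unfold Di
  simp

theorem lin_deriv (a : ℂ) : HasDerivAt (fun t : ℂ => 1 - a * t) (-a) 0 := by
  have h := ((hasDerivAt_id' (0 : ℂ)).const_mul a).const_sub 1
  simpa using h

theorem lin2_deriv (a b : ℂ) : HasDerivAt (fun t : ℂ => (1 - a * t) * (1 - b * t)) (-(a + b)) 0 := by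
  refine ((lin_deriv a).mul (lin_deriv b)).congr_deriv ?_
  simp only [mul_zero, sub_zero, mul_one, one_mul]
  ring

theorem Di_deriv : HasDerivAt (Di x) (-(th ^ 13 + th ^ 9 + ∑ u : Fin n × Bool, (yy x u * ze ^ 5 + yy x u * ze ^ 6))) 0 := by
  have h1 := lin2_deriv (th ^ 13) (th ^ 9)
  have h2 : HasDerivAt (fun t : ℂ => ∏ u : Fin n × Bool, ((1 - yy x u * ze ^ 5 * t) * (1 - yy x u * ze ^ 6 * t)))
      (∑ u : Fin n × Bool, (∏ j ∈ Finset.univ.erase u, ((1 - yy x j * ze ^ 5 * 0) * (1 - yy x j * ze ^ 6 * 0))) •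
        (-(yy x u * ze ^ 5 + yy x u * ze ^ 6))) 0 :=
    HasDerivAt.fun_finsetProd fun u _ => lin2_deriv (yy x u * ze ^ 5) (yy x u * ze ^ 6)
  refine (h1.mul h2).congr_deriv ?_
  simp only [mul_zero, sub_zero, mul_one, one_mul, Finset.prod_const_one, one_smul, Finset.sum_neg_distrib]
  ring

theorem fr_inv (P : ℂ[X]) (hP : P.natDegree ≤ 4 * n + 4) {w : ℂ} (hw : w ≠ 0) :
    fr P x w = w * ((Nr P (4 * n + 4)).eval w⁻¹ / Di x w⁻¹) := by
  rw [fr, dx_inv hw, poly_inv P hP hw, Nr_eval, Di]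
  have hp : w ^ (4 * n + 4) = w ^ (4 * n + 2) * (w * w) := by ring
  rw [hp]
  have hw' : w ^ (4 * n + 2) ≠ 0 := pow_ne_zero _ hw
  generalize (∑ i ∈ Finset.range (4 * n + 4 + 1), P.coeff i * (w⁻¹) ^ (4 * n + 4 - i)) = A
  generalize ((1 - th ^ 13 * w⁻¹) * (1 - th ^ 9 * w⁻¹) * ∏ u : Fin n × Bool,
      ((1 - yy x u * ze ^ 5 * w⁻¹) * (1 - yy x u * ze ^ 6 * w⁻¹))) = D
  rcases eq_or_ne D 0 with rfl | hD
  · simp
  · field_simp

theorem fr_inf2 (P : ℂ[X]) (hP : P.natDegree ≤ 4 * n + 4) :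
    Tendsto (fun w => fr P x w - P.coeff (4 * n + 4) * w) (cocompact ℂ) (𝓝 (bet P x)) := by
  set N := Nr P (4 * n + 4) with hN
  have hd : HasDerivAt (fun t => N.eval t / Di x t) (bet P x) 0 := by
    have h1 := N.hasDerivAt 0
    have h2 : N.derivative.eval 0 = P.coeff (4 * n + 3) := by
      rw [← coeff_zero_eq_eval_zero, coeff_derivative, hN]
      have := Nr_one P (4 * n + 3)
      rw [show 4 * n + 3 + 1 = 4 * n + 4 by ring] at this
      rw [zero_add, this]
      simp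
    have h3 : N.eval 0 = P.coeff (4 * n + 4) := by
      rw [← coeff_zero_eq_eval_zero, hN, Nr_zero]
    refine (h1.div (Di_deriv (x := x)) (by rw [Di_zero]; exact one_ne_zero)).congr_deriv ?_
    rw [h2, h3, Di_zero]
    unfold bet
    ring
  have h5 := (hasDerivAt_iff_tendsto_slope.1 hd).comp tendsto_inv_cocompact
  refine h5.congr' ?_
  have h2 : ∀ᶠ w : ℂ in cocompact ℂ, w ≠ 0 := ev_ne_zero_cocompact
  filter_upwards [h2] with w hw
  rw [fr_inv P hP hw, Function.comp, slope_def_field, ← hN, Di_zero]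
  have h3 : N.eval 0 = P.coeff (4 * n + 4) := by
    rw [← coeff_zero_eq_eval_zero, hN, Nr_zero]
  rw [h3, sub_zero, div_one, div_inv_eq_mul]
  ring

/-- continuity of the coefficients from continuity of the values -/
theorem coeff_cont {Z : Type*} [TopologicalSpace Z] {x0 : Z} {P : Z → ℂ[X]} {m : ℕ}
    (hdeg : ∀ᶠ x in 𝓝 x0, (P x).natDegree ≤ m) {S : Set ℂ} (hS : S.Infinite)
    (hc : ∀ w ∈ S, ContinuousAt (fun x => (P x).eval w) x0) (k : ℕ) :
    ContinuousAt (fun x => (P x).coeff k) x0 := by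
  obtain ⟨s, hs, hcard⟩ := hS.exists_subset_card_eq (m + 1)
  have h1 : ∀ᶠ x in 𝓝 x0, ∑ w ∈ s, (P x).eval w * (Lagrange.basis s id w).coeff k = (P x).coeff k := by
    filter_upwards [hdeg] with x hx
    have h2 : (P x).degree < (s.card : WithBot ℕ) := by
      refine lt_of_le_of_lt degree_le_natDegree ?_
      rw [hcard]
      exact_mod_cast Nat.lt_succ_of_le hx
    have h3 := Lagrange.eq_interpolate (s := s) (v := id) (f := P x) (Set.injOn_id _) h2
    conv_rhs => rw [h3]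
    rw [Lagrange.interpolate_apply, finsetSum_coeff]
    refine Finset.sum_congr rfl fun w _ => ?_
    rw [coeff_C_mul]
    rfl
  have h2 : ContinuousAt (fun x => ∑ w ∈ s, (P x).eval w * (Lagrange.basis s id w).coeff k) x0 := by
    refine tendsto_finsetSum _ fun w hw => ?_
    exact (hc w (hs hw)).mul continuousAt_const
  exact h2.congr h1

end

end EXK
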