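import Pool.Agent.EXK.Full
import Pool.Agent.EXL.Form

/-!
# The weights of the double column at `+ i ∞` for the honeycomb rows (board EXK, K1)
-/

set_option autoImplicit false

namespace Pool.Agent.EXK

open Pool.Agent.EXL Pat Filter Topology Complex Fm

noncomputable section

/-- `e^{iπ/16}` -/
def hs : ℂ := exp (I * (lam / 2))

theorem hs_exp (n : ℕ) : exp (I * (n * (lam / 2))) = hs ^ n := by
  rw [hs, ← exp_nat_mul]; congr 1; ring

theorem hs16 : hs ^ 16 = -1 := by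
  rw [← hs_exp, ← exp_8lam]; congr 1; push_cast; ring

theorem hs8 : hs ^ 8 = I := by
  rw [← hs_exp, lam]
  have : I * (((8 : ℕ) : ℂ) * ((Real.pi : ℂ) / 8 / 2)) = (Real.pi / 2 : ℂ) * I := by
    push_cast; ring
  rw [this, exp_pi_div_two_mul_I]

theorem hs_ne : hs ≠ 0 := exp_ne_zero _

theorem hs_neg (n : ℕ) : exp (-(I * (n * (lam / 2)))) = (hs ^ n)⁻¹ := by
  rw [exp_neg, hs_exp]

/-- `v → + i ∞` -/
def flt : Filter ℂ := comap (fun v => exp (I * v)) (𝓝 0)

/-- `e^{iv}` -/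
def ev (v : ℂ) : ℂ := exp (I * v)

theorem ev_ne (v : ℂ) : ev v ≠ 0 := exp_ne_zero _

theorem ev_0 : Tendsto ev flt (𝓝 0) := tendsto_comap

theorem ev_sin_add (v c : ℂ) : ev v * sin (v + c) =
    I / 2 * (exp (-(I * c)) - ev v ^ 2 * exp (I * c)) := by
  rw [Complex.sin, show -(v + c) * I = -(I * v) + -(I * c) by ring,
    show (v + c) * I = I * v + I * c by ring, exp_add, exp_add]
  have h : exp (I * v) * exp (-(I * v)) = 1 := by rw [← exp_add]; simp
  unfold ev
  linear_combination (I / 2 * exp (-(I * c))) * h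

theorem ev_sin_sub (v c : ℂ) : ev v * sin (c - v) =
    -(I / 2) * (exp (I * c) - ev v ^ 2 * exp (-(I * c))) := by
  have h := ev_sin_add v (-c)
  rw [show c - v = -(v + -c) by ring, sin_neg, mul_neg, h]
  rw [show -(I * -c) = I * c by ring, show I * -c = -(I * c) by ring]
  ring

theorem lp (n : ℕ) : Tendsto (fun v => ev v * sin (v + n * (lam / 2))) flt
    (𝓝 (I / 2 * (hs ^ n)⁻¹)) := by
  have h := ((ev_0.pow 2).mul_const (hs ^ n)).const_sub ((hs ^ n)⁻¹) |>.const_mul (I / 2)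
  rw [zero_pow two_ne_zero, zero_mul, sub_zero] at h
  refine h.congr fun v => ?_
  rw [ev_sin_add, hs_neg, hs_exp]

theorem lm (n : ℕ) : Tendsto (fun v => ev v * sin (n * (lam / 2) - v)) flt
    (𝓝 (-(I / 2) * hs ^ n)) := by
  have h := ((ev_0.pow 2).mul_const ((hs ^ n)⁻¹)).const_sub (hs ^ n) |>.const_mul (-(I / 2))
  rw [zero_pow two_ne_zero, zero_mul, sub_zero] at h
  refine h.congr fun v => ?_
  rw [ev_sin_sub, hs_neg, hs_exp]

theorem lq (n : ℕ) : Tendsto (fun v => ev v * sin (v - n * (lam / 2))) flt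
    (𝓝 (I / 2 * hs ^ n)) := by
  have h := (lm n).neg
  rw [show -(-(I / 2) * hs ^ n) = I / 2 * hs ^ n by ring] at h
  refine h.congr fun v => ?_
  rw [show v - n * (lam / 2) = -(n * (lam / 2) - v) by ring, sin_neg]; ring

/-- one sine over the denominator -/
theorem quot1 {f A B : ℂ → ℂ} {a b c x : ℂ} (hf : Tendsto (fun v => ev v * f v) flt (𝓝 a))
    (hA : Tendsto (fun v => ev v * A v) flt (𝓝 b)) (hB : Tendsto (fun v => ev v * B v) flt (𝓝 c))
    (hb : b ≠ 0) (hc : c ≠ 0) :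
    Tendsto (fun v => (A v * B v)⁻¹ * (x * f v) / ev v) flt (𝓝 (x * a / (b * c))) := by
  refine ((hf.const_mul x).div (hA.mul hB) (mul_ne_zero hb hc)).congr fun v => ?_
  have h : ev v * (ev v)⁻¹ = 1 := mul_inv_cancel₀ (ev_ne v)
  show x * (ev v * f v) / (ev v * A v * (ev v * B v)) = _
  simp only [div_eq_mul_inv, mul_inv]
  linear_combination (x * f v * (ev v)⁻¹ * (A v)⁻¹ * (B v)⁻¹) * h

/-- two sines over the denominator -/
theorem quot2 {f g A B : ℂ → ℂ} {a a' b c : ℂ} (hf : Tendsto (fun v => ev v * f v) flt (𝓝 a))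
    (hg : Tendsto (fun v => ev v * g v) flt (𝓝 a'))
    (hA : Tendsto (fun v => ev v * A v) flt (𝓝 b)) (hB : Tendsto (fun v => ev v * B v) flt (𝓝 c))
    (hb : b ≠ 0) (hc : c ≠ 0) :
    Tendsto (fun v => (A v * B v)⁻¹ * (f v * g v)) flt (𝓝 (a * a' / (b * c))) := by
  refine ((hf.mul hg).div (hA.mul hB) (mul_ne_zero hb hc)).congr fun v => ?_
  have h : ev v * (ev v)⁻¹ = 1 := mul_inv_cancel₀ (ev_ne v)
  show (ev v * f v) * (ev v * g v) / (ev v * A v * (ev v * B v)) = _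
  simp only [div_eq_mul_inv, mul_inv]
  linear_combination (f v * g v * (A v)⁻¹ * (B v)⁻¹ * (ev v * (ev v)⁻¹ + 1)) * h

/-- a constant over the denominator -/
theorem quot0 {A B : ℂ → ℂ} {b c x : ℂ}
    (hA : Tendsto (fun v => ev v * A v) flt (𝓝 b)) (hB : Tendsto (fun v => ev v * B v) flt (𝓝 c))
    (hb : b ≠ 0) (hc : c ≠ 0) :
    Tendsto (fun v => (A v * B v)⁻¹ * x / ev v ^ 2) flt (𝓝 (x / (b * c))) := by
  refine ((tendsto_const_nhds (x := x)).div (hA.mul hB) (mul_ne_zero hb hc)).congr fun v => ?_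
  show x / (ev v * A v * (ev v * B v)) = _
  simp only [div_eq_mul_inv, mul_inv]
  ring

/-- the weights of the line `r` -/
def wr (v : ℂ) : Wt ℂ := Wc (v - lam / 2)

/-- the weights of the line `l` -/
def wl (v : ℂ) : Wt ℂ := Wc (3 * lam - v - lam / 2)

theorem s2_eq : sin (2 * lam) = (hs ^ 4 - hs ^ 12) / 2 := by
  rw [Complex.sin, show -(2 * lam) * I = -(I * ((4 : ℕ) * (lam / 2))) by push_cast; ring,
    show 2 * lam * I = I * ((4 : ℕ) * (lam / 2)) by push_cast; ring, hs_neg, hs_exp, ← hs8]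
  have h := hs16
  have h4 : (hs ^ 4)⁻¹ = -hs ^ 12 := by
    apply inv_eq_of_mul_eq_one_right
    linear_combination -h
  rw [h4]
  linear_combination (-(hs ^ 4) / 2) * h

theorem s1_eq : sin lam = (hs ^ 6 - hs ^ 10) / 2 := by
  rw [Complex.sin, show -lam * I = -(I * ((2 : ℕ) * (lam / 2))) by push_cast; ring,
    show lam * I = I * ((2 : ℕ) * (lam / 2)) by push_cast; ring, hs_neg, hs_exp, ← hs8]
  have h := hs16
  have h4 : (hs ^ 2)⁻¹ = -hs ^ 14 := by
    apply inv_eq_of_mul_eq_one_right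
    linear_combination -h
  rw [h4]
  linear_combination (-(hs ^ 6) / 2) * h

theorem c1_eq : cos lam = (hs ^ 2 - hs ^ 14) / 2 := by
  rw [Complex.cos, show -lam * I = -(I * ((2 : ℕ) * (lam / 2))) by push_cast; ring,
    show lam * I = I * ((2 : ℕ) * (lam / 2)) by push_cast; ring, hs_neg, hs_exp]
  have h := hs16
  have h4 : (hs ^ 2)⁻¹ = -hs ^ 14 := by
    apply inv_eq_of_mul_eq_one_right
    linear_combination -h
  rw [h4]
  ring

theorem c3_eq : cos (3 * lam) = (hs ^ 6 - hs ^ 10) / 2 := by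
  rw [Complex.cos, show -(3 * lam) * I = -(I * ((6 : ℕ) * (lam / 2))) by push_cast; ring,
    show 3 * lam * I = I * ((6 : ℕ) * (lam / 2)) by push_cast; ring, hs_neg, hs_exp]
  have h := hs16
  have h4 : (hs ^ 6)⁻¹ = -hs ^ 10 := by
    apply inv_eq_of_mul_eq_one_right
    linear_combination -h
  rw [h4]
  ring

theorem c6_eq : cos (6 * lam) = (hs ^ 12 - hs ^ 4) / 2 := by
  rw [Complex.cos, show -(6 * lam) * I = -(I * ((12 : ℕ) * (lam / 2))) by push_cast; ring,
    show 6 * lam * I = I * ((12 : ℕ) * (lam / 2)) by push_cast; ring, hs_neg, hs_exp]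
  have h := hs16
  have h4 : (hs ^ 12)⁻¹ = -hs ^ 4 := by
    apply inv_eq_of_mul_eq_one_right
    linear_combination -h
  rw [h4]
  ring

end

end Pool.Agent.EXK
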