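import Pool.Agent.EXK.BetaA
import Pool.Agent.EXK.Wts
import Pool.Agent.EXL.ContOps
import Pool.Agent.EXL.H1e

/-!
# EXK/BetaB (helper42): the subleading coefficient `β` of `b` (board EXK, module K1b)
-/

set_option autoImplicit false

open Filter Topology Polynomial Complex

namespace EXK

open Pool.Agent.EXL Pool.Agent.EXL.Cl Pool.Agent.EXL.Fm Pool.Agent.EXK

noncomputable section

variable {ι α : Type*} [DecidableEq ι] [DecidableEq α] {n : ℕ}

/-- Near every point all parameters are admissible. -/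
theorem ev_adm0 {L : LabMap ι α} {z : ι → ℂ} (rows : List ι) (s : ℂ) :
    ∀ᶠ w in 𝓝[≠] s, ∀ v, exp (2 * I * v) = w →
      Glob.Adm (ops L) okR okC z rows v ∧
      Glob.Adm (ops L) okR okC z rows ((ops L).h + (ops L).h - v) ∧
      okR (v + v - ((ops L).h + (ops L).h)) := by
  have hh : (ops L).h = 3 * lam / 2 := by rw [ops_h, lam]; ring
  have E1 : ∀ c : ℂ, ∀ᶠ w in 𝓝[≠] s, ∀ v, exp (2 * I * v) = w → sin (c + v) ≠ 0 := by
    intro c
    filter_upwards [ev_ne s (exp (-(2 * I * c)))] with w h v hv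
    exact sin_ne_add hv h
  have E2 : ∀ c : ℂ, ∀ᶠ w in 𝓝[≠] s, ∀ v, exp (2 * I * v) = w → sin (c - v) ≠ 0 := by
    intro c
    filter_upwards [ev_ne s (exp (2 * I * c))] with w h v hv
    exact sin_ne_sub hv h
  have E3 : ∀ c : ℂ, ∀ᶠ w in 𝓝[≠] s, ∀ v, exp (2 * I * v) = w → sin (c + 2 * v) ≠ 0 := by
    intro c
    filter_upwards [ev_sq_ne s (exp (-(2 * I * c)))] with w h v hv
    exact sin_ne_two hv h
  have D1 : ∀ c : ℂ, ∀ᶠ w in 𝓝[≠] s, ∀ v, exp (2 * I * v) = w → okR (v - c) := by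
    intro c
    filter_upwards [E1 (2 * lam - c), E1 (3 * lam - c)] with w h1 h2 v hv
    rw [Fm.okR_iff, Fm.Dn]
    refine mul_ne_zero ?_ ?_
    · rw [show 2 * lam + (v - c) = (2 * lam - c) + v by ring]; exact h1 v hv
    · rw [show 3 * lam + (v - c) = (3 * lam - c) + v by ring]; exact h2 v hv
  have D2 : ∀ c : ℂ, ∀ᶠ w in 𝓝[≠] s, ∀ v, exp (2 * I * v) = w → okR (c - v) := by
    intro c
    filter_upwards [E2 (2 * lam + c), E2 (3 * lam + c)] with w h1 h2 v hv
    rw [Fm.okR_iff, Fm.Dn]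
    refine mul_ne_zero ?_ ?_
    · rw [show 2 * lam + (c - v) = (2 * lam + c) - v by ring]; exact h1 v hv
    · rw [show 3 * lam + (c - v) = (3 * lam + c) - v by ring]; exact h2 v hv
  have D3 : ∀ᶠ w in 𝓝[≠] s, ∀ v, exp (2 * I * v) = w → okR (v + v - ((ops L).h + (ops L).h)) := by
    filter_upwards [E3 (-lam), E3 0] with w h1 h2 v hv
    rw [Fm.okR_iff, Fm.Dn, hh]
    refine mul_ne_zero ?_ ?_
    · rw [show 2 * lam + (v + v - (3 * lam / 2 + 3 * lam / 2)) = -lam + 2 * v by ring]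
      exact h1 v hv
    · rw [show 3 * lam + (v + v - (3 * lam / 2 + 3 * lam / 2)) = 0 + 2 * v by ring]
      exact h2 v hv
  have C1 : ∀ᶠ w in 𝓝[≠] s, ∀ v, exp (2 * I * v) = w → okC v := by
    filter_upwards [E1 (3 * lam / 2)] with w h v hv
    rw [Fm.okC_iff, Sc]; exact h v hv
  have C2 : ∀ᶠ w in 𝓝[≠] s, ∀ v, exp (2 * I * v) = w → okC ((ops L).h + (ops L).h - v) := by
    filter_upwards [E2 (9 * lam / 2)] with w h v hv
    rw [Fm.okC_iff, Sc, hh]
    rw [show 3 * lam / 2 + (3 * lam / 2 + 3 * lam / 2 - v) = 9 * lam / 2 - v by ring]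
    exact h v hv
  have R1 : ∀ᶠ w in 𝓝[≠] s, ∀ r ∈ rows, ∀ v, exp (2 * I * v) = w → okR (v - z r) := by
    have := (Filter.eventually_all_finset rows.toFinset).2
      (fun r _ => D1 (z r) : ∀ r ∈ rows.toFinset, _)
    filter_upwards [this] with w h r hr
    exact h r (List.mem_toFinset.2 hr)
  have R2 : ∀ᶠ w in 𝓝[≠] s, ∀ r ∈ rows, ∀ v, exp (2 * I * v) = w →
      okR (((ops L).h + (ops L).h - z r) - v) := by
    have := (Filter.eventually_all_finset rows.toFinset).2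
      (fun r _ => D2 ((ops L).h + (ops L).h - z r) : ∀ r ∈ rows.toFinset, _)
    filter_upwards [this] with w h r hr
    exact h r (List.mem_toFinset.2 hr)
  filter_upwards [D1 (ops L).h, D2 (ops L).h, D3, C1, C2, R1, R2] with w d1 d2 d3 c1 c2 r1 r2 v hv
  have e1 : (ops L).h + (ops L).h - v - (ops L).h = (ops L).h - v := by ring
  have e2 : (ops L).h - ((ops L).h + (ops L).h - v) = v - (ops L).h := by ring
  have e3 : (ops L).h + (ops L).h - ((ops L).h + (ops L).h - v) = v := by ring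
  refine ⟨⟨d1 v hv, d2 v hv, c1 v hv, c2 v hv, fun r hr => r1 r hr v hv, fun r hr => ?_⟩,
    ⟨?_, ?_, c2 v hv, ?_, fun r hr => ?_, fun r hr => ?_⟩, d3 v hv⟩
  · have := r2 r hr v hv
    rwa [show (ops L).h + (ops L).h - z r - v = (ops L).h + (ops L).h - v - z r by ring] at this
  · rw [e1]; exact d2 v hv
  · rw [e2]; exact d1 v hv
  · rw [e3]; exact c1 v hv
  · have := r2 r hr v hv
    rwa [show (ops L).h + (ops L).h - z r - v = (ops L).h + (ops L).h - v - z r by ring] at this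
  · rw [e3]; exact r1 r hr v hv


/-- `h + h - v` in the variable `w` -/
theorem exp_cross {L : LabMap ι α} {v w : ℂ} (hv : exp (2 * I * v) = w) :
    exp (2 * I * ((ops L).h + (ops L).h - v)) = ze ^ 3 / w := by
  have hh : (ops L).h = 3 * lam / 2 := by rw [ops_h, lam]; ring
  have ze3 : exp (2 * I * (3 * lam)) = ze ^ 3 := by
    have := exp_lam 6
    push_cast at this
    rw [ze, ← pow_mul, ← this]; congr 1; ring
  rw [hh, ← ze3, ← hv, ← exp_sub]; congr 1; ring

theorem tendsto_cross : Tendsto (fun w : ℂ => ze ^ 3 / w) (𝓝[≠] 0) (cocompact ℂ) := by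
  rw [← Metric.cobounded_eq_cocompact]
  have h := (tendsto_mul_left_cobounded (α := ℂ) (pow_ne_zero 3 ze_ne_zero)).comp
    (tendsto_inv₀_nhdsNE_zero (α := ℂ))
  exact h

theorem tendsto_cross' : Tendsto (fun w : ℂ => ze ^ 3 / w) (cocompact ℂ) (𝓝[≠] 0) := by
  have h1 : Tendsto (fun w : ℂ => ze ^ 3 * w⁻¹) (cocompact ℂ) (𝓝 (ze ^ 3 * 0)) :=
    tendsto_inv_cocompact'.const_mul _
  rw [mul_zero] at h1
  refine tendsto_nhdsWithin_iff.2 ⟨h1, ?_⟩
  filter_upwards [ev_ne_zero_cocompact] with w hw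
  exact div_ne_zero (pow_ne_zero _ ze_ne_zero) hw

/-- the limits of a function that is `b` at the admissible parameters -/
theorem Bs_of {x : Fin n → ℝ} {L : LabMap ι α} (W : Glob.Laws (ops L) okR okC) {z : ι → ℂ} {rows : List ι}
    {a : Set ι} (hn : rows.Nodup) {i j : ι} (hi : i ∈ a) (hj : j ∈ a) (hij : i ≠ j) (hri : i ∉ rows) (hrj : j ∉ rows)
    {N : Submodule ℂ (Pat α → ℂ)} {F e : Pat α → ℂ} {b : ℂ → ℂ} {B : ℂ}
    (H : Glob.Half (ops L) okR okC z rows a N F e b B)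
    {P : ℂ[X]} (hP1 : P.natDegree ≤ 4 * n + 4) (hP2 : P.coeff (4 * n + 4) = 2 * th ^ 13)
    (hP3 : ∀ v : ℂ, Glob.Adm (ops L) okR okC z rows v → fr P x (exp (2 * I * v)) = b v)
    {f : ℂ → ℂ} (hf : ∀ v : ℂ, Glob.Adm (ops L) okR okC z rows v → f (exp (2 * I * v)) = b v) :
    Cl.Bs f (bet P x) := by
  have z3 : (ze ^ 3 : ℂ) ≠ 0 := pow_ne_zero _ ze_ne_zero
  have t3 : (th ^ 3 : ℂ) ≠ 0 := pow_ne_zero _ th_ne_zero
  have hinv : (2 : ℂ) * th ^ 13 = 2 * (th ^ 3)⁻¹ := by
    have : th ^ 13 * th ^ 3 = 1 := by rw [← pow_add]; exact th_16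
    rw [eq_inv_of_mul_eq_one_left this]
  -- near 0 both parameters are admissible
  have small : ∀ᶠ w : ℂ in 𝓝[≠] 0, ∃ v, exp (2 * I * v) = w ∧ Glob.Adm (ops L) okR okC z rows v ∧
      Glob.Adm (ops L) okR okC z rows ((ops L).h + (ops L).h - v) ∧
      b ((ops L).h + (ops L).h - v) = b v := by
    filter_upwards [ev_adm0 (L := L) (z := z) rows 0, self_mem_nhdsWithin] with w hw hw0
    obtain ⟨y, hy⟩ : ∃ y, exp y = w := ⟨Complex.log w, exp_log hw0⟩
    have hv : exp (2 * I * (y / (2 * I))) = w := by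
      rw [mul_div_cancel₀ _ (mul_ne_zero two_ne_zero I_ne_zero), hy]
    obtain ⟨A1, A2, A3⟩ := hw _ hv
    exact ⟨_, hv, A1, A2, H.b_cross W hn hi hj hij hri hrj A1 A2 A3⟩
  have hinf0 := fr_inf2 (x := x) P hP1
  have large : ∀ᶠ w : ℂ in cocompact ℂ, f w = fr P x w := by
    filter_upwards [tendsto_cross'.eventually small, ev_ne_zero_cocompact] with w hw hw0
    obtain ⟨v, hv, A1, A2, -⟩ := hw
    have e := exp_cross (L := L) hv
    have e2 : ze ^ 3 / (ze ^ 3 / w) = w := by rw [div_div_eq_mul_div, mul_div_cancel_left₀ _ z3]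
    rw [e2] at e
    rw [← e, hf _ A2, hP3 _ A2]
  have hinf : Tendsto (fun w => f w - 2 * (th ^ 3)⁻¹ * w) (cocompact ℂ) (𝓝 (bet P x)) := by
    refine hinf0.congr' ?_
    filter_upwards [large] with w hw
    rw [hw, hP2, hinv]
  refine ⟨hinf, ?_⟩
  refine (hinf.comp tendsto_cross).congr' ?_
  filter_upwards [small, self_mem_nhdsWithin] with w hw hw0
  obtain ⟨v, hv, A1, A2, hb⟩ := hw
  have hw0' : w ≠ 0 := hw0
  have e := exp_cross (L := L) hv
  simp only [Function.comp]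
  have e1 : f (ze ^ 3 / w) = f w := by
    rw [← e, hf _ A2, hb, ← hf _ A1, hv]
  rw [e1]
  have e3 : (th ^ 3)⁻¹ * (ze ^ 3 / w) = th ^ 3 * w⁻¹ := by
    rw [ze]
    field_simp
  rw [mul_assoc, e3, mul_assoc]

/-- there are infinitely many admissible points -/
theorem inf_adm {L : LabMap ι α} {z : ι → ℂ} (rows : List ι) :
    {w : ℂ | ∃ v, exp (2 * I * v) = w ∧ Glob.Adm (ops L) okR okC z rows v}.Infinite := by
  have h1 : {w : ℂ | ∃ v, exp (2 * I * v) = w ∧ Glob.Adm (ops L) okR okC z rows v} ∈ 𝓝[≠] (0 : ℂ) := by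
    filter_upwards [ev_adm0 (L := L) (z := z) rows 0, self_mem_nhdsWithin] with w hw hw0
    obtain ⟨y, hy⟩ : ∃ y, exp y = w := ⟨Complex.log w, exp_log hw0⟩
    have hv : exp (2 * I * (y / (2 * I))) = w := by
      rw [mul_div_cancel₀ _ (mul_ne_zero two_ne_zero I_ne_zero), hy]
    exact ⟨_, hv, (hw _ hv).1⟩
  have h2 := infinite_of_mem_nhds (0 : ℂ) (insert_mem_nhds_iff.2 h1)
  intro hfin
  exact h2 (hfin.insert 0)

theorem ep_cont : Continuous Cl.ep := by
  unfold Cl.ep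
  fun_prop

theorem yy_cont (u : Fin n × Bool) : Continuous fun x : Fin n → ℝ => yy x u := by
  unfold yy
  by_cases h : u.2 = true
  · simp only [h, if_true]
    exact ep_cont.comp (continuous_apply _)
  · simp only [h]
    exact (ep_cont.comp (continuous_apply _)).inv₀ fun x => ep_ne_zero _

theorem dx_cont (w : ℂ) : Continuous fun x : Fin n → ℝ => dx x w := by
  unfold dx
  refine continuous_const.mul (continuous_finsetProd _ fun u _ => ?_)
  exact (continuous_const.sub ((yy_cont u).mul continuous_const)).mul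
    (continuous_const.sub ((yy_cont u).mul continuous_const))

theorem bet_cont {P : (Fin n → ℝ) → ℂ[X]} {x0 : Fin n → ℝ}
    (h : ∀ k, ContinuousAt (fun x => (P x).coeff k) x0) : ContinuousAt (fun x => bet (P x) x) x0 := by
  unfold bet
  refine (h _).add ((h _).mul (continuousAt_const.add ?_))
  refine tendsto_finsetSum _ fun u _ => ?_
  exact (((yy_cont u).mul continuous_const).add ((yy_cont u).mul continuous_const)).continuousAt

/-- the double column at the limit filter -/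
theorem flt_neBot : (Pool.Agent.EXK.flt : Filter ℂ).NeBot := by
  unfold Pool.Agent.EXK.flt
  refine comap_neBot_iff.2 fun t ht => ?_
  obtain ⟨w, hw, hw0⟩ : ∃ w ∈ t, w ≠ 0 := by
    have h1 : t ∈ 𝓝[≠] (0 : ℂ) := mem_nhdsWithin_of_mem_nhds ht
    obtain ⟨w, hw⟩ := (nonempty_of_mem (inter_mem h1 self_mem_nhdsWithin))
    exact ⟨w, hw.1, hw.2⟩
  refine ⟨Complex.log w / I, ?_⟩
  rw [mul_div_cancel₀ _ I_ne_zero, exp_log hw0]
  exact hw

theorem flt_w : Tendsto (fun v : ℂ => exp (2 * I * v)) Pool.Agent.EXK.flt (𝓝[≠] 0) := by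
  refine tendsto_nhdsWithin_iff.2 ⟨?_, Eventually.of_forall fun v => exp_ne_zero _⟩
  have h := (ev_0.pow 2)
  rw [zero_pow two_ne_zero] at h
  refine h.congr fun v => ?_
  rw [ev, ← exp_nat_mul]
  congr 1
  push_cast
  ring

/-- the Laurent part in terms of the cosine -/
theorem cos_part (v : ℂ) : 4 * cos (2 * v - 3 * lam) =
    2 * th ^ 3 * (exp (2 * I * v))⁻¹ + 2 * th ^ 13 * exp (2 * I * v) := by
  have h3 := exp_lam 3
  push_cast at h3
  have h13 := exp_neg_3lam
  rw [Complex.cos, ← h3, ← h13, ← exp_neg]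
  have e1 : exp ((2 * v - 3 * lam) * I) = exp (-(I * (3 * lam))) * exp (2 * I * v) := by
    rw [← exp_add]; congr 1; ring
  have e2 : exp (-(2 * v - 3 * lam) * I) = exp (I * (3 * lam)) * exp (-(2 * I * v)) := by
    rw [← exp_add]; congr 1; ring
  rw [e1, e2]
  ring

end

end EXK
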