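import Pool.Agent.EXK.BetaB
import Pool.Agent.EXL.GlLat

/-!
# EXK/BetaC (helper42): the lattice side with the subleading coefficient (board EXK, K1b)
-/

set_option autoImplicit false

open Filter Topology Polynomial

namespace EXK

open Pool.Agent.EXL Pool.Agent.EXL.Cl Pool.Agent.EXL.Fm Pool.Agent.EXL.Glue

variable {ι α : Type*} [DecidableEq ι] [DecidableEq α]

/-- **the lattice side with the subleading coefficient** -/
theorem lat_atK {n : ℕ} [Finite α] {L : LabMap ι α} {rows : List ι} {a : Set ι}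
    {A : Pat α → Prop} (S : HS.Setup L rows a A) (W : Glob.Laws (ops L) okR okC)
    {row : Fin n → ι} (hrow : Function.Injective row) (hrows : rows = (List.finRange n).map row)
    {i j i' j' c : ι} (ha : Aux4 a rows i j i' j') (hc : c ∈ a)
    (inj : HS.Inj L.flo L.cei A (fun F => (ops L).C (fun _ => ((Real.pi / 16 : ℝ) : ℂ)) c rows F))
    {F₀ : Pat α → ℂ} {β : ℂ}
    (h₀ : HS.Half L.flo L.cei A (fun F => (ops L).C (fun _ => ((Real.pi / 16 : ℝ) : ℂ)) c rows F) β F₀)
    (h₀e : F₀ Pat.empty = 0) (h₀A : ∀ p, ¬ A p → F₀ p = 0) {β₀ : ℂ}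
    (hβ₀ : Tendsto (fun v => (ops L).T (fun _ => ((Real.pi / 16 : ℝ) : ℂ)) i j v rows F₀ Pat.empty -
      4 * Complex.cos (2 * v - 3 * lam)) Pool.Agent.EXK.flt (𝓝 β₀)) :
    ∃ Bx bx : (Fin n → ℝ) → ℂ,
      Tendsto Bx (𝓝[{x | Cl.Nd x}] fun _ => Real.pi / 16) (𝓝 β) ∧
      Tendsto bx (𝓝[{x | Cl.Nd x}] fun _ => Real.pi / 16) (𝓝 β₀) ∧
      ∀ᶠ x in 𝓝[{x | Cl.Nd x}] (fun _ : Fin n => Real.pi / 16),
        ∃ (b : ℂ → ℂ) (ρ : ℂ), Cl.BF x b (Bx x) ρ ∧ Cl.Bs b (bx x) := by
  have hpi := Real.pi_pos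
  set x0 : Fin n → ℝ := fun _ => Real.pi / 16 with hx0
  have hz0 : zrow row x0 = fun _ => ((Real.pi / 16 : ℝ) : ℂ) := zrow_const hrow
  have hlen : rows.length = n := by rw [hrows]; simp
  have hn : rows.Nodup := by
    rw [hrows]; exact (List.nodup_finRange n).map hrow
  have hcont : ∀ r ∈ rows, ContinuousAt (fun x : Fin n → ℝ => zrow row x r) x0 := by
    intro r hr
    rw [hrows, List.mem_map] at hr
    obtain ⟨k, -, rfl⟩ := hr
    have e : (fun x : Fin n → ℝ => zrow row x (row k)) = fun x => ((x k : ℝ) : ℂ) :=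
      funext fun x => zrow_row hrow x k
    rw [e]
    exact (Complex.continuous_ofReal.comp (continuous_apply k)).continuousAt
  have hok : ∀ r ∈ rows, okR ((ops L).h - zrow row x0 r) := by
    intro r _
    rw [hz0]
    have := okR_main (u := 3 * Real.pi / 16 - Real.pi / 16) (by linarith) (by linarith)
    rw [ops_h]
    push_cast at this ⊢
    exact this
  obtain ⟨F, B, hBc, hFc, hFe, hFA, hev⟩ := HS.H1 S W (zrow row) hcont hok hc ha.mi ha.mj ha.ij
    (by rw [hz0]; exact inj)
  have hevx0 := hev.self_of_nhds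
  have huniq : B x0 = β ∧ ∀ p, A p → p ≠ Pat.empty → F x0 p = F₀ p := by
    obtain ⟨-, -, h1, h2, -⟩ := hevx0
    rw [hz0] at h1 h2
    exact HS.Half.unique L.flo_ne S.empty (HS.good_opsC _ (S.nmem c hc)) (S.presC _ c hc) inj h1 h₀
  have hF0 : F x0 = F₀ := by
    funext p
    by_cases hp : A p
    · by_cases hpe : p = Pat.empty
      · rw [hpe, hFe, h₀e]
      · exact huniq.2 p hp hpe
    · rw [hFA x0 p hp, h₀A p hp]
  -- the polynomials
  have hform : ∀ x : Fin n → ℝ, ∃ P : ℂ[X], F x (Pat.cup L.flo L.cei Pat.empty) = 1 →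
      P.natDegree ≤ 4 * n + 4 ∧ P.coeff (4 * n + 4) = 2 * th ^ 13 ∧
      ∀ v : ℂ, dx x (Complex.exp (2 * Complex.I * v)) ≠ 0 →
        (ops L).T (zrow row x) i j v rows (F x) Pat.empty *
          (Complex.exp (2 * Complex.I * v) * dx x (Complex.exp (2 * Complex.I * v))) =
        P.eval (Complex.exp (2 * Complex.I * v)) := by
    intro x
    by_cases h : F x (Pat.cup L.flo L.cei Pat.empty) = 1
    · obtain ⟨P, h1, h2, -, h4⟩ := form_ops (L := L) (z := zrow row x) ha.ij ha.ri ha.rj h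
      rw [hlen] at h1 h2
      rw [exp_neg_3lam] at h2
      refine ⟨P, fun _ => ⟨h1, h2, fun v hv => ?_⟩⟩
      have h5 := h4 v
      rw [dz_dx hrows (zrow_row hrow x)] at h5
      exact h5 hv
    · exact ⟨0, fun h' => absurd h' h⟩
  choose P hP using hform
  have hfull : ∀ᶠ x in 𝓝 x0, F x (Pat.cup L.flo L.cei Pat.empty) = 1 := hev.mono fun x hx => hx.2.1
  -- values of the fraction at admissible parameters
  have hval : ∀ x, F x (Pat.cup L.flo L.cei Pat.empty) = 1 → ∀ v : ℂ,
      Glob.Adm (ops L) okR okC (zrow row x) rows v →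
      fr (P x) x (Complex.exp (2 * Complex.I * v)) = (ops L).T (zrow row x) i j v rows (F x) Pat.empty := by
    intro x hx v hv
    have h5 := dz_ne_of_adm hv
    rw [dz_dx hrows (zrow_row hrow x)] at h5
    rw [fr, ← (hP x hx).2.2 v h5]
    exact mul_div_cancel_right₀ _ (mul_ne_zero (Complex.exp_ne_zero _) h5)
  -- continuity of the coefficients
  have hcoeff : ∀ k, ContinuousAt (fun x => (P x).coeff k) x0 := by
    refine coeff_cont (m := 4 * n + 4) (hfull.mono fun x hx => (hP x hx).1)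
      (inf_adm (L := L) (z := zrow row x0) rows) ?_
    rintro w ⟨v, rfl, hv⟩
    have h5 := dz_ne_of_adm hv
    rw [dz_dx hrows (zrow_row hrow x0)] at h5
    have hd : ∀ᶠ x in 𝓝 x0, dx x (Complex.exp (2 * Complex.I * v)) ≠ 0 :=
      (dx_cont _).continuousAt.eventually_ne h5
    have hT : ContinuousAt (fun x => (ops L).T (zrow row x) i j v rows (F x) Pat.empty) x0 := by
      refine ocont_T (L := L) (i := i) (j := j) (v := fun _ => v) (z := zrow row) (rows := rows)
        continuousAt_const hcont hv.k ?_ hv.r ?_ F hFc Pat.empty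
      · have h := hv.k'
        rw [ops_h] at h
        rw [show (3 * (Real.pi : ℂ) / 8 - v) = 3 * Real.pi / 16 + 3 * Real.pi / 16 - v by ring]
        exact h
      · intro r hr
        have h := hv.r' r hr
        rw [ops_h] at h
        exact h
    have hcc : ContinuousAt (fun x => (ops L).T (zrow row x) i j v rows (F x) Pat.empty *
        (Complex.exp (2 * Complex.I * v) * dx x (Complex.exp (2 * Complex.I * v)))) x0 :=
      hT.mul (continuousAt_const.mul (dx_cont _).continuousAt)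
    refine hcc.congr ?_
    filter_upwards [hd, hfull] with x h1 h2
    exact (hP x h2).2.2 v h1
  -- the value at the honeycomb point
  have hb0 : bet (P x0) x0 = β₀ := by
    have hg := hevx0.2.2.2.2
    have hx1 := hevx0.2.1
    have hBs := Bs_of (x := x0) (P := P x0) (f := fr (P x0) x0) W hn ha.mi ha.mj ha.ij ha.ri ha.rj hg
      (hP x0 hx1).1 (hP x0 hx1).2.1 (hval x0 hx1) (hval x0 hx1)
    have h1 := hBs.zero.comp flt_w
    have h2 : Tendsto (fun v : ℂ => 2 * th ^ 13 * Complex.exp (2 * Complex.I * v)) Pool.Agent.EXK.flt (𝓝 0) := by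
      have h3 : Tendsto (fun v : ℂ => Complex.exp (2 * Complex.I * v)) Pool.Agent.EXK.flt (𝓝 0) :=
        flt_w.mono_right nhdsWithin_le_nhds
      have := h3.const_mul (2 * th ^ 13)
      rwa [mul_zero] at this
    have h4 := h1.sub h2
    rw [sub_zero] at h4
    have h5 : ∀ᶠ v in Pool.Agent.EXK.flt, Glob.Adm (ops L) okR okC (zrow row x0) rows v := by
      have := flt_w.eventually (ev_adm0 (L := L) (z := zrow row x0) rows 0)
      filter_upwards [this] with v hv
      exact (hv v rfl).1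
    have h6 := h4.congr' (f₂ := fun v => (ops L).T (fun _ => ((Real.pi / 16 : ℝ) : ℂ)) i j v rows F₀ Pat.empty -
      4 * Complex.cos (2 * v - 3 * lam)) (by
      filter_upwards [h5] with v hv
      simp only [Function.comp]
      rw [hval x0 hx1 v hv, hF0, hz0, cos_part]
      ring)
    haveI := flt_neBot
    exact tendsto_nhds_unique h6 hβ₀
  refine ⟨B, fun x => bet (P x) x, ?_, ?_, ?_⟩
  · rw [← huniq.1]
    exact hBc.tendsto.mono_left nhdsWithin_le_nhds
  · rw [← hb0]
    exact (bet_cont hcoeff).tendsto.mono_left nhdsWithin_le_nhds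
  · filter_upwards [mem_nhdsWithin_of_mem_nhds hev, self_mem_nhdsWithin] with x hx hnd
    obtain ⟨-, hfullx, -, -, hg⟩ := hx
    obtain ⟨f, ρ, hBF, hf⟩ := Fm.bf_all' hnd W hrow hrows (zrow_row hrow x) ha hg hfullx (fun v _ => rfl)
    exact ⟨f, ρ, hBF, Bs_of (x := x) (P := P x) W hn ha.mi ha.mj ha.ij ha.ri ha.rj hg
      (hP x hfullx).1 (hP x hfullx).2.1 (hval x hfullx) hf⟩

end EXK
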