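import Pool.Agent.EXG.Carl5

/-!
# EXK/CarlR (helper42): the Carleman equation on (0,1) with right side X^s, s ≥ 0 real

`W s = X^s + K (W s)`, boundary values `w s = W s 1`, scaling `(i+s+1) ∫ Y^i W_s = w_i w_s`, and
`w (1/2) = 8 / (3 √6)`.
-/

open MeasureTheory Set Filter Topology Real
open EXG.Carl (Bd KK ph th KK_abs KK_nonneg KK_mono KK_cont KK_add KK_sub KK_smul KK_unique ker_int ph_int ph_pos
  ph_one one_le_ph th_lt th_pos KK_meas KK_Bd fub fub2 split_int)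

namespace EXK

noncomputable section

theorem Bd_rpow {s : ℝ} (hs : 0 ≤ s) : Bd 1 (fun Y : ℝ => Y ^ s) where
  meas := (measurable_id.pow_const s).aestronglyMeasurable
  le Y h1 h2 := by
    rw [abs_of_nonneg (Real.rpow_nonneg h1.le s), one_mul]
    exact (Real.rpow_le_one h1.le h2 hs).trans (one_le_ph h1 h2)

theorem Bd.rpow_mul {C : ℝ} {f : ℝ → ℝ} (h : Bd C f) {s : ℝ} (hs : 0 ≤ s) : Bd C (fun Y => Y ^ s * f Y) where
  meas := ((measurable_id.pow_const s).aestronglyMeasurable).mul h.meas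
  le Y h1 h2 := by
    rw [abs_mul, abs_of_nonneg (Real.rpow_nonneg h1.le s)]
    calc Y ^ s * |f Y| ≤ 1 * |f Y| := mul_le_mul_of_nonneg_right (Real.rpow_le_one h1.le h2 hs) (abs_nonneg _)
      _ ≤ C * ph Y := by rw [one_mul]; exact h.le Y h1 h2

/-- the Neumann iteration -/
def wn (s : ℝ) : ℕ → ℝ → ℝ
  | 0 => fun _ => 0
  | n + 1 => fun X => X ^ s + KK (wn s n) X

theorem wn_succ (s : ℝ) (n : ℕ) (X : ℝ) : wn s (n + 1) X = X ^ s + KK (wn s n) X := rfl

theorem Bd_step {s : ℝ} (hs : 0 ≤ s) {f : ℝ → ℝ} (hf : Bd 4 f) : Bd 4 (fun X => X ^ s + KK f X) := by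
  refine ⟨(Bd_rpow hs).meas.add (KK_meas hf), fun Y h1 h2 => ?_⟩
  have a1 := (Bd_rpow hs).le Y h1 h2
  have a2 := KK_abs hf h1
  have a3 : th * 4 * ph Y ≤ 3 * ph Y :=
    mul_le_mul_of_nonneg_right (by linarith [th_lt]) (ph_pos h1).le
  calc |Y ^ s + KK f Y| ≤ |Y ^ s| + |KK f Y| := abs_add_le _ _
    _ ≤ 4 * ph Y := by linarith

theorem wn_Bd {s : ℝ} (hs : 0 ≤ s) (n : ℕ) : Bd 4 (wn s n) := by
  induction n with
  | zero =>
    refine ⟨aestronglyMeasurable_const, fun Y h1 _ => ?_⟩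
    show |(0 : ℝ)| ≤ _
    rw [abs_zero]
    have := ph_pos h1
    positivity
  | succ n ih => exact Bd_step hs ih

theorem wn_nonneg (s : ℝ) (n : ℕ) {X : ℝ} (hX : 0 < X) : 0 ≤ wn s n X := by
  induction n generalizing X with
  | zero => exact le_rfl
  | succ n ih =>
    rw [wn_succ]
    exact add_nonneg (Real.rpow_nonneg hX.le s) (KK_nonneg (fun Y h1 _ => ih h1) hX)

theorem wn_mono_step {s : ℝ} (hs : 0 ≤ s) (n : ℕ) {X : ℝ} (hX : 0 < X) : wn s n X ≤ wn s (n + 1) X := by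
  induction n generalizing X with
  | zero =>
    exact wn_nonneg s 1 hX
  | succ n ih =>
    rw [wn_succ, wn_succ s (n + 1)]
    have := KK_mono (wn_Bd hs n) (wn_Bd hs (n + 1)) (fun Y h1 _ => ih h1) hX
    linarith

theorem wn_mono {s : ℝ} (hs : 0 ≤ s) {X : ℝ} (hX : 0 < X) : Monotone (fun n => wn s n X) :=
  monotone_nat_of_le_succ fun n => wn_mono_step hs n hX

theorem wn_le {s : ℝ} (hs : 0 ≤ s) (n : ℕ) {X : ℝ} (hX : 0 < X) : wn s n X ≤ X ^ s + th * 4 * ph X := by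
  have h := wn_mono_step hs n hX
  rw [wn_succ] at h
  have := le_of_abs_le (KK_abs (wn_Bd hs n) hX)
  linarith

/-- the solution of `W = X^s + K W` -/
def W (s : ℝ) (X : ℝ) : ℝ := ⨆ n, wn s n X

theorem W_lim {s : ℝ} (hs : 0 ≤ s) {X : ℝ} (hX : 0 < X) : Tendsto (fun n => wn s n X) atTop (𝓝 (W s X)) := by
  refine tendsto_atTop_ciSup (wn_mono hs hX) ⟨X ^ s + th * 4 * ph X, ?_⟩
  rintro _ ⟨n, rfl⟩
  exact wn_le hs n hX

theorem W_Bd {s : ℝ} (hs : 0 ≤ s) : Bd 4 (W s) := by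
  refine ⟨?_, fun Y h1 h2 => ?_⟩
  · refine aestronglyMeasurable_of_tendsto_ae atTop (fun n => (wn_Bd hs n).meas) ?_
    filter_upwards [ae_restrict_mem measurableSet_Ioc] with Y hY
    exact W_lim hs hY.1
  · have h3 : Tendsto (fun n => |wn s n Y|) atTop (𝓝 |W s Y|) := (W_lim hs h1).abs
    exact le_of_tendsto' h3 fun n => (wn_Bd hs n).le Y h1 h2

theorem W_eq {s : ℝ} (hs : 0 ≤ s) {X : ℝ} (hX : 0 < X) : W s X = X ^ s + KK (W s) X := by
  have h1 : Tendsto (fun n => wn s (n + 1) X) atTop (𝓝 (W s X)) :=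
    (W_lim hs hX).comp (tendsto_add_atTop_nat 1)
  have h2 : Tendsto (fun n => X ^ s + KK (wn s n) X) atTop (𝓝 (X ^ s + KK (W s) X)) := by
    refine Tendsto.const_add _ ?_
    unfold KK
    refine Tendsto.const_mul _ ?_
    refine tendsto_integral_of_dominated_convergence (fun Y => 4 * (ph Y / (X + Y))) ?_ ?_ ?_ ?_
    · intro n
      exact ((wn_Bd hs n).meas.aemeasurable.div
        (measurable_const.add measurable_id).aemeasurable).aestronglyMeasurable
    · exact ((ker_int hX).mono_set (Ioc_subset_Ioi_self)).const_mul _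
    · intro n
      filter_upwards [ae_restrict_mem measurableSet_Ioc] with Y hY
      have hY0 : 0 < Y := hY.1
      rw [Real.norm_eq_abs, abs_div, abs_of_pos (show 0 < X + Y by linarith), mul_div_assoc']
      exact div_le_div_of_nonneg_right ((wn_Bd hs n).le Y hY0 hY.2) (by linarith)
    · filter_upwards [ae_restrict_mem measurableSet_Ioc] with Y hY
      exact (W_lim hs hY.1).div_const _
  exact tendsto_nhds_unique h1 h2

theorem W_nonneg {s : ℝ} (hs : 0 ≤ s) {X : ℝ} (hX : 0 < X) : 0 ≤ W s X :=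
  ge_of_tendsto' (W_lim hs hX) fun n => wn_nonneg s n hX

theorem W_ge {s : ℝ} (hs : 0 ≤ s) {X : ℝ} (hX : 0 < X) : X ^ s ≤ W s X := by
  rw [W_eq hs hX]
  have := KK_nonneg (f := W s) (fun Y h1 _ => W_nonneg hs h1) hX
  linarith

theorem rpow_cont (s : ℝ) : ContinuousOn (fun X : ℝ => X ^ s) (Ioi 0) :=
  ContinuousOn.rpow_const continuousOn_id fun _ hx => Or.inl (ne_of_gt hx)

theorem W_cont {s : ℝ} (hs : 0 ≤ s) : ContinuousOn (W s) (Ioi 0) := by
  have h : ContinuousOn (fun X => X ^ s + KK (W s) X) (Ioi 0) := (rpow_cont s).add (KK_cont (W_Bd hs))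
  exact h.congr fun X hX => W_eq hs hX

/-- the solutions with integer exponent agree -/
theorem W_nat (p : ℕ) {X : ℝ} (hX : 0 < X) : W (p : ℝ) X = EXG.Carl.W p X := by
  have hp : (0 : ℝ) ≤ p := Nat.cast_nonneg p
  have h1 : Bd (4 + 4) (fun X => W (p : ℝ) X - EXG.Carl.W p X) := (W_Bd hp).sub (EXG.Carl.W_Bd p)
  have h2 := KK_unique h1 (fun X hX => by
    rw [KK_sub (W_Bd hp) (EXG.Carl.W_Bd p) hX]
    have e1 := W_eq hp hX
    have e2 := EXG.Carl.W_eq p hX
    rw [Real.rpow_natCast] at e1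
    linarith) X hX
  linarith

/-- the moments -/
def m (i s : ℝ) : ℝ := ∫ Y in Ioc (0 : ℝ) 1, Y ^ i * W s Y

/-- boundary values -/
def w (s : ℝ) : ℝ := W s 1

/-- multiplication by `X²` -/
theorem W_mul {s : ℝ} (hs : 0 ≤ s) {X : ℝ} (hX : 0 < X) :
    X ^ 2 * W s X = W (s + 2) X - 1 / (2 * π) * (m 1 s * W 0 X - m 0 s * W 1 X) := by
  have hs2 : 0 ≤ s + 2 := by linarith
  have h00 : (0 : ℝ) ≤ 0 := le_rfl
  have h01 : (0 : ℝ) ≤ 1 := zero_le_one
  have hB := W_Bd hs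
  have hB2 := hB.pow_mul 2
  have hI0 : IntegrableOn (fun Y => Y ^ (0 : ℝ) * W s Y) (Ioc 0 1) := (Bd.rpow_mul hB h00).int
  have hI1 : IntegrableOn (fun Y => Y ^ (1 : ℝ) * W s Y) (Ioc 0 1) := (Bd.rpow_mul hB h01).int
  have hKm : ∀ X, 0 < X → KK (fun Y => Y ^ 2 * W s Y) X =
      1 / (2 * π) * (m 1 s - X * m 0 s) + X ^ 2 * KK (W s) X := by
    intro X hX
    have hs : IntegrableOn (fun Y => Y ^ (1 : ℝ) * W s Y - X * (Y ^ (0 : ℝ) * W s Y)) (Ioc 0 1) :=
      hI1.sub (hI0.const_mul X)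
    have e : ∫ Y in Ioc (0 : ℝ) 1, Y ^ 2 * W s Y / (X + Y) =
        (m 1 s - X * m 0 s) + X ^ 2 * ∫ Y in Ioc (0 : ℝ) 1, W s Y / (X + Y) := by
      unfold m
      rw [← integral_const_mul, ← integral_const_mul, ← integral_sub hI1 (hI0.const_mul X),
        ← integral_add hs ((hB.kint hX).const_mul (X ^ 2))]
      refine setIntegral_congr_fun measurableSet_Ioc fun Y hY => ?_
      have hY0 : 0 < Y := hY.1
      have hne : X + Y ≠ 0 := by linarith
      show Y ^ 2 * W s Y / (X + Y) =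
        Y ^ (1 : ℝ) * W s Y - X * (Y ^ (0 : ℝ) * W s Y) + X ^ 2 * (W s Y / (X + Y))
      rw [Real.rpow_one, Real.rpow_zero]
      field_simp
      ring
    unfold KK
    rw [e]
    ring
  set a : ℝ := 1 / (2 * π) * m 1 s with ha
  set b : ℝ := 1 / (2 * π) * m 0 s with hb
  have hd : ∀ X, 0 < X → (X ^ 2 * W s X - W (s + 2) X) + (a * W 0 X - b * W 1 X) = 0 := by
    have h1 : Bd (4 + 4) (fun X => X ^ 2 * W s X - W (s + 2) X) := hB2.sub (W_Bd hs2)
    have h2 : Bd (|a| * 4 + |b| * 4) (fun X => a * W 0 X - b * W 1 X) :=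
      ((W_Bd h00).smul a).sub ((W_Bd h01).smul b)
    refine KK_unique (h1.add h2) fun X hX => ?_
    rw [KK_add h1 h2 hX, KK_sub hB2 (W_Bd hs2) hX, KK_sub ((W_Bd h00).smul a) ((W_Bd h01).smul b) hX,
      KK_smul, KK_smul, hKm X hX]
    have e1 := W_eq hs hX
    have e2 := W_eq hs2 hX
    have e3 := W_eq h00 hX
    have e4 := W_eq h01 hX
    have e5 : KK (W s) X = W s X - X ^ s := by linarith
    have e6 : KK (W (s + 2)) X = W (s + 2) X - X ^ (s + 2) := by linarith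
    have e7 : KK (W 0) X = W 0 X - X ^ (0 : ℝ) := by linarith
    have e8 : KK (W 1) X = W 1 X - X ^ (1 : ℝ) := by linarith
    rw [e5, e6, e7, e8]
    have hpow : X ^ (s + 2) = X ^ 2 * X ^ s := by
      rw [Real.rpow_add hX, ← Real.rpow_natCast]
      push_cast
      ring
    rw [hpow, ha, hb, Real.rpow_zero, Real.rpow_one]
    ring
  have := hd X hX
  rw [mul_sub, ← mul_assoc, ← mul_assoc, ← ha, ← hb]
  linarith

/-- the solution on `(0, L)` -/
def aL (s L X : ℝ) : ℝ := L ^ s * W s (X / L)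

theorem aL_cont {s : ℝ} (hs : 0 ≤ s) {L : ℝ} (hL : 1 ≤ L) : ContinuousOn (aL s L) (Ioi 0) := by
  have hL0 : 0 < L := by linarith
  refine ContinuousOn.mul continuousOn_const ?_
  refine (W_cont hs).comp (continuousOn_id.div_const L) fun X hX => ?_
  exact div_pos hX hL0

theorem aL_Bd {s : ℝ} (hs : 0 ≤ s) {L : ℝ} (hL : 1 ≤ L) : Bd (L ^ s * (4 * L ^ (1 / 3 : ℝ))) (aL s L) := by
  have hL0 : 0 < L := by linarith
  refine ⟨((aL_cont hs hL).mono (fun _ hx => hx.1)).aestronglyMeasurable measurableSet_Ioc,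
    fun Y h1 h2 => ?_⟩
  have h3 : 0 < Y / L := div_pos h1 hL0
  have h4 : Y / L ≤ 1 := (div_le_one hL0).2 (h2.trans hL)
  have h5 := (W_Bd hs).le _ h3 h4
  have h6 : ph (Y / L) = L ^ (1 / 3 : ℝ) * ph Y := by
    unfold ph
    rw [Real.div_rpow h1.le hL0.le, Real.rpow_neg hL0.le (1 / 3)]
    field_simp
  unfold aL
  rw [abs_mul, abs_of_nonneg (Real.rpow_nonneg hL0.le s), mul_assoc]
  refine mul_le_mul_of_nonneg_left ?_ (Real.rpow_nonneg hL0.le s)
  rw [h6] at h5
  linarith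

theorem aL_int_out {s : ℝ} (hs : 0 ≤ s) {L : ℝ} (hL : 1 ≤ L) {g : ℝ → ℝ} (hg : ContinuousOn g (Icc 1 L)) :
    IntegrableOn (fun X => g X * aL s L X) (Ioc 1 L) := by
  have h : ContinuousOn (fun X => g X * aL s L X) (Icc 1 L) :=
    hg.mul ((aL_cont hs hL).mono fun X hX => lt_of_lt_of_le one_pos hX.1)
  exact h.integrableOn_Icc.mono_set Ioc_subset_Icc_self

theorem aL_eq {s : ℝ} (hs : 0 ≤ s) {L : ℝ} (hL : 1 ≤ L) {X : ℝ} (hX : 0 < X) :
    aL s L X = X ^ s + KK (aL s L) X + 1 / (2 * π) * ∫ Y in Ioc 1 L, aL s L Y / (X + Y) := by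
  have hL0 : 0 < L := by linarith
  have hXL : 0 < X / L := div_pos hX hL0
  have h1 : ∫ Y in Ioc (0 : ℝ) 1, W s Y / (X / L + Y) = ∫ Y in Ioc (0 : ℝ) L, W s (Y / L) / (X + Y) := by
    rw [← intervalIntegral.integral_of_le zero_le_one, ← intervalIntegral.integral_of_le hL0.le]
    have e : ∀ Y : ℝ, W s (Y / L) / (X + Y) = (fun Z => W s Z / (X + L * Z)) (Y / L) := by
      intro Y
      show _ = W s (Y / L) / (X + L * (Y / L))
      rw [mul_div_cancel₀ _ hL0.ne']
    simp_rw [e]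
    rw [intervalIntegral.integral_comp_div (fun Z => W s Z / (X + L * Z)) hL0.ne', zero_div,
      div_self hL0.ne', smul_eq_mul, ← intervalIntegral.integral_const_mul]
    refine intervalIntegral.integral_congr fun Z _ => ?_
    show W s Z / (X / L + Z) = L * (W s Z / (X + L * Z))
    have : X / L + Z = (X + L * Z) / L := by field_simp
    rw [this, div_div_eq_mul_div]
    ring
  have h2 : ∫ Y in Ioc (0 : ℝ) L, aL s L Y / (X + Y) = L ^ s * ∫ Y in Ioc (0 : ℝ) L, W s (Y / L) / (X + Y) := by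
    rw [← integral_const_mul]
    refine integral_congr_ae (Eventually.of_forall fun Y => ?_)
    show L ^ s * W s (Y / L) / (X + Y) = _
    rw [mul_div_assoc]
  have h3 : ∫ Y in Ioc (0 : ℝ) L, aL s L Y / (X + Y) = (∫ Y in Ioc (0 : ℝ) 1, aL s L Y / (X + Y)) +
      ∫ Y in Ioc 1 L, aL s L Y / (X + Y) := by
    refine split_int hL ((aL_Bd hs hL).kint hX) ?_
    have hg : ContinuousOn (fun Y : ℝ => (X + Y)⁻¹) (Icc 1 L) := by
      refine ContinuousOn.inv₀ (by fun_prop) fun Y hY => ?_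
      have := hY.1
      linarith
    refine (aL_int_out hs hL hg).congr_fun (fun Y _ => ?_) measurableSet_Ioc
    show (X + Y)⁻¹ * aL s L Y = aL s L Y / (X + Y)
    rw [div_eq_inv_mul]
  have h4 : aL s L X = X ^ s + 1 / (2 * π) * ∫ Y in Ioc (0 : ℝ) L, aL s L Y / (X + Y) := by
    rw [h2, ← h1]
    unfold aL
    rw [W_eq hs hXL, Real.div_rpow hX.le hL0.le, mul_add,
      mul_div_cancel₀ _ (Real.rpow_pos_of_pos hL0 s).ne']
    unfold KK
    ring
  rw [h4, h3]
  unfold KK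
  ring

theorem aL_mom {i s : ℝ} {L : ℝ} (hL : 1 ≤ L) :
    ∫ X in Ioc 0 L, X ^ i * aL s L X = L ^ (i + s + 1) * m i s := by
  have hL0 : 0 < L := by linarith
  unfold m
  rw [← intervalIntegral.integral_of_le zero_le_one, ← intervalIntegral.integral_of_le hL0.le]
  have e : ∫ X in (0 : ℝ)..L, X ^ i * aL s L X =
      ∫ X in (0 : ℝ)..L, (fun Z => L ^ (i + s) * (Z ^ i * W s Z)) (X / L) := by
    refine intervalIntegral.integral_congr fun X hX => ?_
    rw [uIcc_of_le hL0.le] at hX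
    show X ^ i * (L ^ s * W s (X / L)) = L ^ (i + s) * ((X / L) ^ i * W s (X / L))
    rw [Real.div_rpow hX.1 hL0.le, Real.rpow_add hL0]
    have := (Real.rpow_pos_of_pos hL0 i).ne'
    field_simp
  rw [e, intervalIntegral.integral_comp_div (fun Z => L ^ (i + s) * (Z ^ i * W s Z)) hL0.ne', zero_div,
      div_self hL0.ne', smul_eq_mul, intervalIntegral.integral_const_mul, Real.rpow_add hL0 (i + s) 1,
      Real.rpow_one]
  ring

theorem scale_id {i s : ℝ} (hi : 0 ≤ i) (hs : 0 ≤ s) {L : ℝ} (hL : 1 ≤ L) :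
    L ^ (i + s + 1) * m i s = m s i + ∫ X in Ioc 1 L, W i X * aL s L X := by
  have ha := aL_Bd hs hL
  have hW := W_Bd hi
  have hKa := KK_Bd ha
  have hKW := KK_Bd hW
  have hWc : ContinuousOn (W i) (Icc 1 L) := (W_cont hi).mono fun X hX => lt_of_lt_of_le one_pos hX.1
  have hac : ContinuousOn (aL s L) (Icc 1 L) :=
    (aL_cont hs hL).mono fun X hX => lt_of_lt_of_le one_pos hX.1
  have hic : ContinuousOn (fun X : ℝ => X ^ i) (Icc 1 L) :=
    (rpow_cont i).mono fun X hX => lt_of_lt_of_le one_pos hX.1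
  -- first expression
  have s1 : ∫ X in Ioc (0 : ℝ) 1, W i X * aL s L X =
      (∫ X in Ioc (0 : ℝ) 1, X ^ i * aL s L X) + ∫ X in Ioc (0 : ℝ) 1, KK (W i) X * aL s L X := by
    rw [← integral_add (Bd.rpow_mul ha hi).int (hKW.mul_int ha)]
    refine setIntegral_congr_fun measurableSet_Ioc fun X hX => ?_
    show W i X * aL s L X = X ^ i * aL s L X + KK (W i) X * aL s L X
    rw [W_eq hi hX.1]
    ring
  -- second expression
  have s2 : (∫ X in Ioc (0 : ℝ) 1, W i X * aL s L X) - (∫ X in Ioc (0 : ℝ) 1, X ^ s * W i X) -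
      (∫ X in Ioc (0 : ℝ) 1, W i X * KK (aL s L) X) =
      ∫ Y in Ioc 1 L, aL s L Y * KK (W i) Y := by
    have hs : IntegrableOn (fun X => W i X * aL s L X - X ^ s * W i X) (Ioc 0 1) :=
      (hW.mul_int ha).sub (Bd.rpow_mul hW hs).int
    rw [← fub2 hW hac, ← integral_sub (hW.mul_int ha) (Bd.rpow_mul hW ‹0 ≤ s›).int,
      ← integral_sub hs (hW.mul_int hKa)]
    refine setIntegral_congr_fun measurableSet_Ioc fun X hX => ?_
    show W i X * aL s L X - X ^ s * W i X - W i X * KK (aL s L) X =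
      W i X * (1 / (2 * π) * ∫ Y in Ioc 1 L, aL s L Y / (X + Y))
    have := aL_eq ‹0 ≤ s› hL hX.1
    have e : 1 / (2 * π) * ∫ Y in Ioc 1 L, aL s L Y / (X + Y) = aL s L X - X ^ s - KK (aL s L) X := by
      linarith
    rw [e]
    ring
  have s3 := fub hW ha
  -- outer part
  have s4 : ∫ Y in Ioc 1 L, aL s L Y * KK (W i) Y =
      (∫ X in Ioc 1 L, W i X * aL s L X) - ∫ X in Ioc 1 L, X ^ i * aL s L X := by
    rw [← integral_sub (aL_int_out hs hL hWc) (aL_int_out hs hL hic)]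
    refine setIntegral_congr_fun measurableSet_Ioc fun X hX => ?_
    show aL s L X * KK (W i) X = W i X * aL s L X - X ^ i * aL s L X
    have hX0 : 0 < X := lt_trans one_pos hX.1
    have := W_eq hi hX0
    have e : KK (W i) X = W i X - X ^ i := by linarith
    rw [e]
    ring
  have s5 : ∫ X in Ioc 0 L, X ^ i * aL s L X = (∫ X in Ioc (0 : ℝ) 1, X ^ i * aL s L X) +
      ∫ X in Ioc 1 L, X ^ i * aL s L X :=
    split_int hL (Bd.rpow_mul ha hi).int (aL_int_out hs hL hic)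
  rw [aL_mom hL] at s5
  have s6 : m s i = ∫ X in Ioc (0 : ℝ) 1, X ^ s * W i X := rfl
  rw [s6]
  linarith

theorem m_symm {i s : ℝ} (hi : 0 ≤ i) (hs : 0 ≤ s) : m i s = m s i := by
  have h := scale_id hi hs (le_refl (1 : ℝ))
  rw [Real.one_rpow, one_mul, Ioc_self, setIntegral_empty, add_zero] at h
  exact h

/-- the mean of `W_i a_L` over `(1, L)` tends to `W_i(1) W_s(1)` -/
theorem mean_lim {i s : ℝ} (hi : 0 ≤ i) (hs : 0 ≤ s) :
    Tendsto (fun L : ℝ => (∫ X in Ioc 1 L, W i X * aL s L X) / (L - 1)) (𝓝[>] 1)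
      (𝓝 (W i 1 * W s 1)) := by
  have hc : ContinuousAt (fun z : ℝ × ℝ => W i z.2 * (z.1 ^ s * W s (z.2 / z.1))) (1, 1) := by
    have hWi : ContinuousAt (W i) 1 := (W_cont hi).continuousAt (Ioi_mem_nhds one_pos)
    have hWp : ContinuousAt (W s) ((1 : ℝ) / 1) := by
      rw [div_one]
      exact (W_cont hs).continuousAt (Ioi_mem_nhds one_pos)
    refine ContinuousAt.mul ?_ (ContinuousAt.mul ?_ ?_)
    · exact ContinuousAt.comp (x := ((1 : ℝ), (1 : ℝ))) (f := fun z : ℝ × ℝ => z.2) (g := W i) hWi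
        continuous_snd.continuousAt
    · exact ContinuousAt.rpow_const continuous_fst.continuousAt (Or.inl one_ne_zero)
    · refine ContinuousAt.comp (x := ((1 : ℝ), (1 : ℝ))) (f := fun z : ℝ × ℝ => z.2 / z.1) (g := W s) hWp ?_
      exact ContinuousAt.div continuous_snd.continuousAt continuous_fst.continuousAt one_ne_zero
  rw [Metric.tendsto_nhdsWithin_nhds]
  intro ε hε
  obtain ⟨δ, hδ, h⟩ := Metric.continuousAt_iff.1 hc (ε / 2) (half_pos hε)
  refine ⟨δ, hδ, fun L hL hd => ?_⟩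
  have hL1 : 1 < L := hL
  have hLd : L - 1 < δ := by
    rw [Real.dist_eq, abs_of_pos (by linarith)] at hd
    exact hd
  have hb : ∀ X ∈ Ioc 1 L, ‖W i X * aL s L X - W i 1 * W s 1‖ ≤ ε / 2 := by
    intro X hX
    have h1 : dist (L, X) ((1 : ℝ), (1 : ℝ)) < δ := by
      rw [Prod.dist_eq, max_lt_iff]
      constructor
      · show dist L 1 < δ
        rw [Real.dist_eq, abs_of_pos (by linarith)]
        exact hLd
      · show dist X 1 < δ
        rw [Real.dist_eq, abs_of_pos (by linarith [hX.1])]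
        linarith [hX.2]
    have h2 := (h h1).le
    have h3 : W i (1 : ℝ) * ((1 : ℝ) ^ s * W s ((1 : ℝ) / 1)) = W i 1 * W s 1 := by
      rw [Real.one_rpow, one_mul, div_one]
    simp only [h3] at h2
    rw [Real.dist_eq] at h2
    exact h2
  have hcont : ContinuousOn (W i) (Icc 1 L) := (W_cont hi).mono fun X hX => lt_of_lt_of_le one_pos hX.1
  have hint := aL_int_out hs hL1.le hcont
  have hvol : (volume (Ioc 1 L)).toReal = L - 1 := by
    rw [Real.volume_Ioc, ENNReal.toReal_ofReal (by linarith)]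
  have e1 : ∫ X in Ioc 1 L, (W i X * aL s L X - W i 1 * W s 1) =
      (∫ X in Ioc 1 L, W i X * aL s L X) - (L - 1) * (W i 1 * W s 1) := by
    rw [integral_sub hint (integrableOn_const (by rw [Real.volume_Ioc]; exact ENNReal.ofReal_ne_top)),
      setIntegral_const]
    rw [measureReal_def, hvol, smul_eq_mul]
  have e2 : ‖∫ X in Ioc 1 L, (W i X * aL s L X - W i 1 * W s 1)‖ ≤ ε / 2 * (L - 1) := by
    have := norm_setIntegral_le_of_norm_le_const (μ := volume) (s := Ioc 1 L)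
      (by rw [Real.volume_Ioc]; exact ENNReal.ofReal_lt_top) hb
    rw [measureReal_def, hvol] at this
    exact this
  rw [Real.dist_eq]
  have hpos : 0 < L - 1 := by linarith
  have e3 : (∫ X in Ioc 1 L, W i X * aL s L X) / (L - 1) - W i 1 * W s 1 =
      (∫ X in Ioc 1 L, (W i X * aL s L X - W i 1 * W s 1)) / (L - 1) := by
    rw [e1]
    field_simp
  rw [e3, abs_div, abs_of_pos hpos, div_lt_iff₀ hpos]
  rw [Real.norm_eq_abs] at e2
  calc |∫ X in Ioc 1 L, (W i X * aL s L X - W i 1 * W s 1)| ≤ ε / 2 * (L - 1) := e2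
    _ < ε * (L - 1) := by
      apply mul_lt_mul_of_pos_right _ hpos
      linarith

/-- the scaling identity -/
theorem scaling {i s : ℝ} (hi : 0 ≤ i) (hs : 0 ≤ s) : (i + s + 1) * m i s = w i * w s := by
  have hd : HasDerivAt (fun L : ℝ => L ^ (i + s + 1)) ((i + s + 1) * (1 : ℝ) ^ (i + s + 1 - 1)) 1 :=
    Real.hasDerivAt_rpow_const (Or.inl one_ne_zero)
  rw [Real.one_rpow, mul_one] at hd
  have h1 : Tendsto (fun L : ℝ => slope (fun L : ℝ => L ^ (i + s + 1)) 1 L * m i s) (𝓝[>] 1)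
      (𝓝 ((i + s + 1) * m i s)) :=
    ((hasDerivAt_iff_tendsto_slope.1 hd).mono_left (nhdsWithin_mono _ fun x hx => (ne_of_gt hx))).mul_const _
  have h2 := mean_lim hi hs
  have h3 : (fun L : ℝ => slope (fun L : ℝ => L ^ (i + s + 1)) 1 L * m i s) =ᶠ[𝓝[>] 1]
      (fun L : ℝ => (∫ X in Ioc 1 L, W i X * aL s L X) / (L - 1)) := by
    filter_upwards [self_mem_nhdsWithin] with L hL
    have hL1 : 1 < L := hL
    have h := scale_id hi hs hL1.le
    rw [m_symm hs hi] at h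
    have hpos : L - 1 ≠ 0 := by
      have : 0 < L - 1 := by linarith
      exact this.ne'
    rw [slope_def_field, Real.one_rpow, div_mul_eq_mul_div, div_left_inj' hpos]
    linarith
  exact tendsto_nhds_unique (h1.congr' h3) h2

theorem w_ge {s : ℝ} (hs : 0 ≤ s) : 1 ≤ w s := by
  have := W_ge hs one_pos
  rw [Real.one_rpow] at this
  exact this

theorem w_pos {s : ℝ} (hs : 0 ≤ s) : 0 < w s := lt_of_lt_of_le one_pos (w_ge hs)

theorem w_nat (p : ℕ) : w (p : ℝ) = EXG.Carl.w p := W_nat p one_pos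

theorem w_zero_eq : w 0 = EXG.Carl.w 0 := by
  have := w_nat 0
  simpa using this

theorem w_one_eq : w 1 = EXG.Carl.w 1 := by
  have := w_nat 1
  simpa using this

theorem cc_val : w 0 * w 1 / (2 * π) = 7 / 36 := by
  rw [w_zero_eq, w_one_eq]
  have h := EXG.Carl.nu_eq
  rw [EXG.Carl.nu_val] at h
  unfold EXG.Carl.cc at h
  rw [← h]
  norm_num

theorem w_fac {s : ℝ} (hs : 0 ≤ s) : w (s + 2) = w s * ((s + 5 / 6) * (s + 13 / 6) / ((s + 1) * (s + 2))) := by
  have h := W_mul hs one_pos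
  have h1 := scaling zero_le_one hs
  have h0 := scaling le_rfl hs
  have hc := cc_val
  have p1 : s + 1 ≠ 0 := by positivity
  have p2 : s + 2 ≠ 0 := by positivity
  have e1 : m 1 s = w 1 * w s / (s + 2) := by
    rw [eq_div_iff p2, ← h1]
    ring
  have e0 : m 0 s = w 0 * w s / (s + 1) := by
    rw [eq_div_iff p1, ← h0]
    ring
  rw [e1, e0, one_pow, one_mul] at h
  have hw : w 0 * w 1 = 7 / 36 * (2 * π) := by
    rw [← hc]
    field_simp
  have h' : w (s + 2) = w s + 1 / (2 * π) * (w 0 * w 1) * w s * (1 / (s + 2) - 1 / (s + 1)) := by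
    have e2 : w s = w (s + 2) - 1 / (2 * π) * (w 1 * w s / (s + 2) * w 0 - w 0 * w s / (s + 1) * w 1) := h
    have e3 : 1 / (2 * π) * (w 1 * w s / (s + 2) * w 0 - w 0 * w s / (s + 1) * w 1) =
        1 / (2 * π) * (w 0 * w 1) * w s * (1 / (s + 2) - 1 / (s + 1)) := by ring
    rw [e3] at e2
    linarith
  rw [h', hw]
  have := Real.pi_pos
  field_simp
  ring

theorem m_le {s t : ℝ} (hs : 0 ≤ s) (hst : s ≤ t) : m 0 t ≤ m 0 s := by
  have ht := hs.trans hst
  rw [m_symm le_rfl ht, m_symm le_rfl hs]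
  unfold m
  refine setIntegral_mono_on (Bd.rpow_mul (W_Bd le_rfl) ht).int (Bd.rpow_mul (W_Bd le_rfl) hs).int
    measurableSet_Ioc fun Y hY => ?_
  exact mul_le_mul_of_nonneg_right (Real.rpow_le_rpow_of_exponent_ge hY.1 hY.2 hst) (W_nonneg le_rfl hY.1)

theorem w_le {s : ℝ} (hs : 0 ≤ s) : w s ≤ 1 + 1 / (2 * π) * m 0 s := by
  have h := W_eq hs one_pos
  rw [Real.one_rpow] at h
  unfold w
  rw [h]
  unfold KK m
  have h1 : ∫ Y in Ioc (0 : ℝ) 1, W s Y / (1 + Y) ≤ ∫ Y in Ioc (0 : ℝ) 1, Y ^ (0 : ℝ) * W s Y := by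
    refine setIntegral_mono_on ((W_Bd hs).kint one_pos) (Bd.rpow_mul (W_Bd hs) le_rfl).int measurableSet_Ioc
      fun Y hY => ?_
    rw [Real.rpow_zero, one_mul]
    exact div_le_self (W_nonneg hs hY.1) (by linarith [hY.1])
  have := mul_le_mul_of_nonneg_left h1 (by positivity : (0:ℝ) ≤ 1 / (2 * π))
  linarith

theorem w_lim (s : ℝ) (hs : 0 ≤ s) : Tendsto (fun n : ℕ => w (s + n)) atTop (𝓝 1) := by
  set B : ℝ := 1 + 1 / (2 * π) * m 0 0 with hB
  have hsn : ∀ n : ℕ, 0 ≤ s + n := fun n => by positivity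
  have hwB : ∀ n : ℕ, w (s + n) ≤ B := by
    intro n
    have h1 := w_le (hsn n)
    have h2 := mul_le_mul_of_nonneg_left (m_le le_rfl (hsn n)) (by positivity : (0:ℝ) ≤ 1 / (2 * π))
    linarith
  have hm : ∀ n : ℕ, m 0 (s + n) ≤ w 0 * B * (1 / ((n : ℝ) + 1)) := by
    intro n
    have h0 := scaling le_rfl (hsn n)
    have p1 : 0 < s + n + 1 := by positivity
    have e0 : m 0 (s + n) = w 0 * w (s + n) / (s + n + 1) := by
      rw [eq_div_iff p1.ne', ← h0]
      ring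
    rw [e0, mul_one_div]
    have hw0 := w_pos (le_refl (0 : ℝ))
    have hB0 : 0 < B := lt_of_lt_of_le (w_pos (hsn 0)) (hwB 0)
    calc w 0 * w (s + n) / (s + n + 1) ≤ w 0 * B / (s + n + 1) :=
          div_le_div_of_nonneg_right (mul_le_mul_of_nonneg_left (hwB n) hw0.le) p1.le
      _ ≤ w 0 * B / ((n : ℝ) + 1) :=
          div_le_div_of_nonneg_left (mul_pos hw0 hB0).le (by positivity) (by linarith)
  have hup : ∀ n : ℕ, w (s + n) ≤ 1 + 1 / (2 * π) * (w 0 * B * (1 / ((n : ℝ) + 1))) := by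
    intro n
    have h1 := w_le (hsn n)
    have h2 := mul_le_mul_of_nonneg_left (hm n) (by positivity : (0:ℝ) ≤ 1 / (2 * π))
    linarith
  have hl : Tendsto (fun n : ℕ => 1 + 1 / (2 * π) * (w 0 * B * (1 / ((n : ℝ) + 1)))) atTop
      (𝓝 (1 + 1 / (2 * π) * (w 0 * B * 0))) :=
    (((tendsto_one_div_add_atTop_nhds_zero_nat).const_mul _).const_mul _).const_add _
  rw [mul_zero, mul_zero, add_zero] at hl
  exact tendsto_of_tendsto_of_tendsto_of_le_of_le tendsto_const_nhds hl (fun n => w_ge (hsn n)) hup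

theorem w_even {s : ℝ} (hs : 0 ≤ s) (n : ℕ) : w (s + (2 * n : ℕ)) = w s * ∏ k ∈ Finset.range n,
    (((s / 2 + 5 / 12 : ℝ) + k) * ((s / 2 + 13 / 12 : ℝ) + k) / (((s / 2 + 1 / 2 : ℝ) + k) * ((s / 2 + 1) + k))) := by
  induction n with
  | zero => simp
  | succ n ih =>
    have h0 : 0 ≤ s + (2 * n : ℕ) := by positivity
    have e : s + ((2 * (n + 1) : ℕ) : ℝ) = s + ((2 * n : ℕ) : ℝ) + 2 := by
      push_cast
      ring
    rw [e, w_fac h0, Finset.prod_range_succ, ih]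
    push_cast
    have h1 : s + 2 * (n : ℝ) + 1 ≠ 0 := by positivity
    have h2 : s + 2 * (n : ℝ) + 2 ≠ 0 := by positivity
    have h3 : (s / 2 + 1 / 2 : ℝ) + n ≠ 0 := by positivity
    have h4 : (s / 2 + 1) + (n : ℝ) ≠ 0 := by positivity
    rw [mul_assoc]
    congr 2
    field_simp
    ring

/-- the boundary value `W_s(1)` -/
theorem w_val {s : ℝ} (hs : 0 ≤ s) : w s = Gamma (s / 2 + 5 / 12) * Gamma (s / 2 + 13 / 12) /
    (Gamma (s / 2 + 1 / 2) * Gamma (s / 2 + 1)) := by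
  set a : ℝ := s / 2 + 5 / 12 with ha
  set b : ℝ := s / 2 + 13 / 12 with hb
  set c : ℝ := s / 2 + 1 / 2 with hc
  set d : ℝ := s / 2 + 1 with hd
  have ha0 : 0 < a := by positivity
  have hb0 : 0 < b := by positivity
  have hc0 : 0 < c := by positivity
  have hd0 : 0 < d := by positivity
  have g1 := Real.GammaSeq_tendsto_Gamma a
  have g2 := Real.GammaSeq_tendsto_Gamma b
  have g3 := Real.GammaSeq_tendsto_Gamma c
  have g4 := Real.GammaSeq_tendsto_Gamma d
  have hG1 : 0 < Gamma a := Real.Gamma_pos_of_pos ha0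
  have hG2 : 0 < Gamma b := Real.Gamma_pos_of_pos hb0
  have hG3 : 0 < Gamma c := Real.Gamma_pos_of_pos hc0
  have hG4 : 0 < Gamma d := Real.Gamma_pos_of_pos hd0
  have h1 : Tendsto (fun n : ℕ => Real.GammaSeq c n * Real.GammaSeq d n /
      (Real.GammaSeq a n * Real.GammaSeq b n)) atTop
      (𝓝 (Gamma c * Gamma d / (Gamma a * Gamma b))) :=
    (g3.mul g4).div (g1.mul g2) (by positivity)
  have h2 : Tendsto (fun n : ℕ => w (s + (2 * (n + 1) : ℕ))) atTop (𝓝 1) := by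
    refine (w_lim s hs).comp (g := fun n : ℕ => w (s + (n : ℕ))) ?_
    refine tendsto_atTop_mono (fun n => ?_) (tendsto_id)
    show n ≤ 2 * (n + 1)
    omega
  have h3 : ∀ᶠ n : ℕ in atTop, w s * (Real.GammaSeq c n * Real.GammaSeq d n /
      (Real.GammaSeq a n * Real.GammaSeq b n)) = w (s + (2 * (n + 1) : ℕ)) := by
    filter_upwards [eventually_gt_atTop 0] with n hn
    have hn0 : (0 : ℝ) < n := by exact_mod_cast hn
    rw [w_even hs]
    congr 1
    rw [Finset.prod_div_distrib, Finset.prod_mul_distrib, Finset.prod_mul_distrib]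
    unfold Real.GammaSeq
    rw [← ha, ← hb, ← hc, ← hd]
    have p1 : (∏ j ∈ Finset.range (n + 1), (a + j)) ≠ 0 :=
      Finset.prod_ne_zero_iff.2 fun j _ => by positivity
    have p2 : (∏ j ∈ Finset.range (n + 1), (b + j)) ≠ 0 :=
      Finset.prod_ne_zero_iff.2 fun j _ => by positivity
    have p3 : (∏ j ∈ Finset.range (n + 1), (c + j)) ≠ 0 :=
      Finset.prod_ne_zero_iff.2 fun j _ => by positivity
    have p4 : (∏ j ∈ Finset.range (n + 1), (d + j)) ≠ 0 :=
      Finset.prod_ne_zero_iff.2 fun j _ => by positivity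
    have f : (n.factorial : ℝ) ≠ 0 := by exact_mod_cast n.factorial_ne_zero
    have e : (n : ℝ) ^ c * (n : ℝ) ^ d = (n : ℝ) ^ a * (n : ℝ) ^ b := by
      rw [← Real.rpow_add hn0, ← Real.rpow_add hn0]
      congr 1
      rw [ha, hb, hc, hd]
      ring
    have q1 : (n : ℝ) ^ a ≠ 0 := (Real.rpow_pos_of_pos hn0 _).ne'
    have q2 : (n : ℝ) ^ b ≠ 0 := (Real.rpow_pos_of_pos hn0 _).ne'
    rw [div_mul_div_comm, div_mul_div_comm, div_div_div_eq]
    rw [div_eq_div_iff (by positivity) (by positivity)]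
    linear_combination ((n.factorial : ℝ) * n.factorial) * (∏ j ∈ Finset.range (n + 1), (a + j)) *
      (∏ j ∈ Finset.range (n + 1), (b + j)) * ((∏ j ∈ Finset.range (n + 1), (c + j)) *
      (∏ j ∈ Finset.range (n + 1), (d + j))) * e
  have h4 := tendsto_nhds_unique ((h1.const_mul (w s)).congr' h3) h2
  rw [eq_div_iff (by positivity)]
  have h5 : Gamma a * Gamma b ≠ 0 := by positivity
  field_simp at h4
  linarith

theorem w_half : w (1 / 2) = 8 / (3 * √6) := by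
  rw [w_val (by norm_num)]
  rw [show (1 / 2 : ℝ) / 2 + 5 / 12 = 1 - 1 / 3 by norm_num, show (1 / 2 : ℝ) / 2 + 13 / 12 = 1 / 3 + 1 by norm_num,
    show (1 / 2 : ℝ) / 2 + 1 / 2 = 1 - 1 / 4 by norm_num, show (1 / 2 : ℝ) / 2 + 1 = 1 / 4 + 1 by norm_num,
    Gamma_add_one (by norm_num), Gamma_add_one (by norm_num)]
  have h3 : Gamma (1 / 3) * Gamma (1 - 1 / 3) = π / (√3 / 2) := by
    rw [Gamma_mul_Gamma_one_sub, show π * (1 / 3) = π / 3 by ring, sin_pi_div_three]
  have h4 : Gamma (1 / 4) * Gamma (1 - 1 / 4) = π / (√2 / 2) := by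
    rw [Gamma_mul_Gamma_one_sub, show π * (1 / 4) = π / 4 by ring, sin_pi_div_four]
  have g4 : 0 < Gamma (1 / 4) := Real.Gamma_pos_of_pos (by norm_num)
  have g4' : 0 < Gamma (1 - 1 / 4) := Real.Gamma_pos_of_pos (by norm_num)
  have e : Gamma (1 - 1 / 3) * (1 / 3 * Gamma (1 / 3)) / (Gamma (1 - 1 / 4) * (1 / 4 * Gamma (1 / 4))) =
      4 / 3 * (Gamma (1 / 3) * Gamma (1 - 1 / 3)) / (Gamma (1 / 4) * Gamma (1 - 1 / 4)) := by
    field_simp
  rw [e, h3, h4]
  have s2 : 0 < √2 := by positivity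
  have s3 : 0 < √3 := by positivity
  have s6 : √6 = √2 * √3 := by
    rw [← Real.sqrt_mul (by norm_num)]
    norm_num
  have s22 : √2 * √2 = 2 := Real.mul_self_sqrt (by norm_num)
  have := Real.pi_pos
  rw [s6]
  field_simp
  nlinarith

/-- the quadratic form -/
theorem m_diag {s : ℝ} (hs : 0 ≤ s) : m s s = w s ^ 2 / (2 * s + 1) := by
  have h := scaling hs hs
  rw [eq_div_iff (by positivity), sq, ← h]
  ring

end

end EXK
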