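import Pool.Agent.EXG.Coef
import Pool.Agent.EXG.Defs

/-!
# EXK/Coef3 (helper42): the coefficients of `F1f * 2 cos 2x`

`F1f t * (2 cf t) = K1 (1 + 2 hh t) / (1 - t)`, so the coefficients are `K1 (1 + 2 h0 (2 n + 1))`.
-/

set_option autoImplicit false

namespace EXK

open Filter Topology

theorem cf_eq {z : ℝ} (hz : |z| < 1 / 20) : EXG.cf z = Real.cos (2 * P2F.xx z) := by
  unfold EXG.cf
  rw [P2F.SS_eq hz]
  have h := Real.cos_three_mul (2 * P2F.xx z / 3)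
  rw [show 3 * (2 * P2F.xx z / 3) = 2 * P2F.xx z by ring] at h
  rw [h]
  ring

theorem F3_eq {t : ℝ} (ht : |t| < 1) : P2F.F1f t * (2 * EXG.cf t) =
    P2F.K1 * (1 + 2 * P2F.h0) * (1 - t)⁻¹ + 4 * P2F.K1 * P2F.h0 * (t / (1 - t) ^ 2) := by
  obtain ⟨h1, h2⟩ := abs_lt.1 ht
  have h4 : 0 < 1 - t := by linarith
  have hS := P2F.SS_pos t
  have hS2 := P2F.SS_sq t
  have h0 := P2F.h0_pos
  have hh : 0 ≤ P2F.hh t := by
    unfold P2F.hh
    exact div_nonneg (mul_nonneg h0.le (by linarith)) h4.le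
  have hE : √(2 + 2 * P2F.hh t) ^ 2 = 2 + 2 * P2F.hh t := Real.sq_sqrt (by linarith)
  have e1 : (P2F.SS t ^ 2 - 1) * (P2F.SS t ^ 2 - 3) = 1 + 2 * P2F.hh t := by
    rw [hS2]
    linear_combination hE
  have e2 : P2F.F1f t * (2 * EXG.cf t) = P2F.K1 * ((P2F.SS t ^ 2 - 1) * (P2F.SS t ^ 2 - 3)) / (1 - t) := by
    unfold P2F.F1f EXG.cf
    field_simp
  rw [e2, e1]
  unfold P2F.hh
  field_simp
  ring

theorem coefG3_val : ∃ F3 : ℕ → ℝ, (∀ z : ℝ, |z| < 1 → HasSum (fun j => F3 j * z ^ j) (P2F.F1f z * (2 * EXG.cf z))) ∧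
    Tendsto (fun i : ℕ => F3 i / (i : ℝ) ^ (1 : ℝ)) atTop (𝓝 (P2F.K1 * (4 * P2F.h0))) := by
  refine ⟨fun n => P2F.K1 * (1 + 2 * P2F.h0 * (2 * n + 1)), fun z hz => ?_, ?_⟩
  · rw [F3_eq hz]
    have hz' : ‖z‖ < 1 := hz
    have s1 := (hasSum_geometric_of_norm_lt_one hz').mul_left (P2F.K1 * (1 + 2 * P2F.h0))
    have s2 := (hasSum_coe_mul_geometric_of_norm_lt_one hz').mul_left (4 * P2F.K1 * P2F.h0)
    refine (s1.add s2).congr_fun_eq fun n => ?_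
    ring
  · have h1 : Tendsto (fun n : ℕ => P2F.K1 * (1 + 2 * P2F.h0) * (1 / (n : ℝ)) + P2F.K1 * (4 * P2F.h0)) atTop
        (𝓝 (P2F.K1 * (1 + 2 * P2F.h0) * 0 + P2F.K1 * (4 * P2F.h0))) :=
      ((tendsto_one_div_atTop_nhds_zero_nat).const_mul _).add_const _
    rw [mul_zero, zero_add] at h1
    refine h1.congr' ?_
    filter_upwards [eventually_gt_atTop 0] with n hn
    have hn0 : (n : ℝ) ≠ 0 := by positivity
    rw [Real.rpow_one]
    field_simp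
    ring

end EXK
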