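import Pool.Agent.EXG.Const3
import Pool.Agent.EXK.CarlR

/-!
# EXK/ConstR (helper42): the quadratic form of the limit problem with right side `C x^(1/4 + 3 s / 2)`

`q_valR : inner V U = C^2 * (2/3 * (w s ^ 2 / (2 s + 1)))`; for `s = 1/2` (V = C x) this is `C^2 * (32/81)`.
-/

set_option autoImplicit false

namespace EXK

open Real MeasureTheory Filter Topology Set Ex.P2
open EXG (X eps sw sw_int sw_cont vec_int pow_cont pow_maps q_cont ph_pow quarter ind_int den_le gam_int JJ PX PX_coe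
  PX_norm eps_coe dens kern)
open EXG.Carl (Bd KK ph th KK_abs KK_nonneg KK_cont th_lt ph_pos)

noncomputable section

/-- the explicit solution -/
def ut (s x : ℝ) : ℝ := (Iio (1 : ℝ)).indicator (fun x => x ^ (1 / 4 : ℝ) * W s (x ^ (3 / 2 : ℝ))) x

/-- its image -/
def Hf (s x : ℝ) : ℝ := x ^ (1 / 4 : ℝ) * KK (W s) (x ^ (3 / 2 : ℝ))

lemma ut_meas {s : ℝ} (hs : 0 ≤ s) : AEStronglyMeasurable (ut s) (volume.restrict (Ioi (0 : ℝ))) :=
  ((q_cont.mul ((W_cont hs).comp pow_cont pow_maps)).aestronglyMeasurable measurableSet_Ioi).indicator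
    measurableSet_Iio

lemma Hf_meas {s : ℝ} (hs : 0 ≤ s) : AEStronglyMeasurable (Hf s) (volume.restrict (Ioi (0 : ℝ))) :=
  (q_cont.mul ((KK_cont (W_Bd hs)).comp pow_cont pow_maps)).aestronglyMeasurable measurableSet_Ioi

lemma ut_abs {s : ℝ} (hs : 0 ≤ s) {x : ℝ} (hx : 0 < x) :
    |ut s x| ≤ (Iio (1 : ℝ)).indicator (fun x => 4 * x ^ (-(1 / 4) : ℝ)) x := by
  unfold ut
  by_cases h : x ∈ Iio (1 : ℝ)
  · rw [indicator_of_mem h, indicator_of_mem h]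
    have h1 : x < 1 := h
    have h2 := (W_Bd hs).le (x ^ (3 / 2 : ℝ)) (Real.rpow_pos_of_pos hx _)
      (Real.rpow_le_one hx.le h1.le (by norm_num))
    rw [ph_pow hx] at h2
    rw [abs_mul, abs_of_pos (Real.rpow_pos_of_pos hx _), ← quarter hx]
    have := mul_le_mul_of_nonneg_left h2 (Real.rpow_pos_of_pos hx (1 / 4 : ℝ)).le
    linarith
  · rw [indicator_of_notMem h, indicator_of_notMem h, abs_zero]

lemma ut_int {s : ℝ} (hs : 0 ≤ s) : Integrable (ut s) (volume.restrict (Ioi (0 : ℝ))) := by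
  refine Integrable.mono' ((ind_int (c := -(1 / 4)) (by norm_num)).const_mul 4) (ut_meas hs) ?_
  filter_upwards [ae_restrict_mem measurableSet_Ioi] with x hx
  refine (ut_abs hs hx).trans (le_of_eq ?_)
  by_cases h : x ∈ Iio (1 : ℝ)
  · rw [indicator_of_mem h, indicator_of_mem h]
  · rw [indicator_of_notMem h, indicator_of_notMem h, mul_zero]

lemma ut_memLp {s : ℝ} (hs : 0 ≤ s) : MemLp (ut s) 2 (volume.restrict (Ioi (0 : ℝ))) := by
  rw [memLp_two_iff_integrable_sq (ut_meas hs)]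
  refine Integrable.mono' ((ind_int (c := -(1 / 2)) (by norm_num)).const_mul 16) ((ut_meas hs).pow 2) ?_
  filter_upwards [ae_restrict_mem measurableSet_Ioi] with x hx
  have hx0 : 0 < x := hx
  rw [Real.norm_eq_abs, abs_pow]
  have h := ut_abs hs hx0
  by_cases h1 : x ∈ Iio (1 : ℝ)
  · rw [indicator_of_mem h1] at h ⊢
    calc |ut s x| ^ 2 ≤ (4 * x ^ (-(1 / 4) : ℝ)) ^ 2 := pow_le_pow_left₀ (abs_nonneg _) h 2
      _ = 16 * x ^ (-(1 / 2) : ℝ) := by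
        rw [mul_pow, ← Real.rpow_mul_natCast hx0.le]
        norm_num
  · rw [indicator_of_notMem h1] at h ⊢
    have h2 : |ut s x| = 0 := le_antisymm h (abs_nonneg _)
    rw [h2]
    norm_num

lemma KK_far {s : ℝ} (hs : 0 ≤ s) {X : ℝ} (hX : 0 < X) : |KK (W s) X| ≤ 1 / (2 * π) * m 0 s * X⁻¹ := by
  have hn := KK_nonneg (f := W s) (fun Y (h1 : (0 : ℝ) < Y) _ => W_nonneg hs h1) hX
  rw [abs_of_nonneg hn]
  unfold KK m
  have hp : (0 : ℝ) ≤ 1 / (2 * π) := by positivity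
  have e : 1 / (2 * π) * (∫ Y in Ioc (0 : ℝ) 1, Y ^ (0 : ℝ) * W s Y) * X⁻¹ =
      1 / (2 * π) * ∫ Y in Ioc (0 : ℝ) 1, X⁻¹ * (Y ^ (0 : ℝ) * W s Y) := by
    rw [integral_const_mul]
    ring
  rw [e]
  refine mul_le_mul_of_nonneg_left ?_ hp
  have hI := (W_Bd hs).int
  have hI' : IntegrableOn (fun Y => X⁻¹ * (Y ^ (0 : ℝ) * W s Y)) (Ioc 0 1) := by
    simp only [Real.rpow_zero, one_mul]
    exact hI.const_mul _
  refine setIntegral_mono_on ((W_Bd hs).kint hX) hI' measurableSet_Ioc fun Y hY => ?_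
  have hY0 : 0 < Y := hY.1
  have hW := W_nonneg hs hY0
  rw [Real.rpow_zero, one_mul, div_eq_inv_mul]
  refine mul_le_mul_of_nonneg_right ?_ hW
  exact inv_anti₀ hX (by linarith)

lemma Hf_memLp {s : ℝ} (hs : 0 ≤ s) : MemLp (Hf s) 2 (volume.restrict (Ioi (0 : ℝ))) := by
  rw [memLp_two_iff_integrable_sq (Hf_meas hs)]
  set c : ℝ := (1 / (2 * π) * m 0 s) ^ 2 with hc
  have h1 : Integrable ((Iio (1 : ℝ)).indicator fun x : ℝ => x ^ (-(1 / 2) : ℝ))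
    (volume.restrict (Ioi (0 : ℝ))) := ind_int (by norm_num)
  have h2 : Integrable ((Ici (1 : ℝ)).indicator fun x : ℝ => x ^ (-(5 / 2) : ℝ))
      (volume.restrict (Ioi (0 : ℝ))) := by
    rw [integrable_indicator_iff measurableSet_Ici]
    have h3 : IntegrableOn (fun x : ℝ => x ^ (-(5 / 2) : ℝ)) (Ioi (1 / 2 : ℝ)) :=
      integrableOn_Ioi_rpow_of_lt (by norm_num) (by norm_num)
    have h4 : IntegrableOn (fun x : ℝ => x ^ (-(5 / 2) : ℝ)) (Ici (1 : ℝ)) :=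
      h3.mono_set fun x hx => lt_of_lt_of_le (by norm_num) (show (1 : ℝ) ≤ x from hx)
    exact h4.mono_measure Measure.restrict_le_self
  refine Integrable.mono' ((h1.const_mul 9).add (h2.const_mul c)) ((Hf_meas hs).pow 2) ?_
  filter_upwards [ae_restrict_mem measurableSet_Ioi] with x hx
  have hx0 : 0 < x := hx
  have hX : 0 < x ^ (3 / 2 : ℝ) := Real.rpow_pos_of_pos hx0 _
  have hq : 0 < x ^ (1 / 4 : ℝ) := Real.rpow_pos_of_pos hx0 _
  rw [Real.norm_eq_abs, abs_pow]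
  show |Hf s x| ^ 2 ≤ 9 * (Iio (1 : ℝ)).indicator (fun x : ℝ => x ^ (-(1 / 2) : ℝ)) x +
    c * (Ici (1 : ℝ)).indicator (fun x : ℝ => x ^ (-(5 / 2) : ℝ)) x
  have habs : |Hf s x| = x ^ (1 / 4 : ℝ) * |KK (W s) (x ^ (3 / 2 : ℝ))| := by
    unfold Hf
    rw [abs_mul, abs_of_pos hq]
  rcases lt_or_ge x 1 with h | h
  · have h3 : x ∉ Ici (1 : ℝ) := notMem_Ici.2 h
    have h4 : x ∈ Iio (1 : ℝ) := h
    rw [indicator_of_mem h4, indicator_of_notMem h3, mul_zero, add_zero]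
    have h5 := KK_abs (W_Bd hs) hX
    rw [ph_pow hx0] at h5
    have h6 := th_lt
    have h7 : |Hf s x| ≤ 3 * x ^ (-(1 / 4) : ℝ) := by
      rw [habs, ← quarter hx0]
      have h8 : 0 < x ^ (-(1 / 2) : ℝ) := Real.rpow_pos_of_pos hx0 _
      have h9 : |KK (W s) (x ^ (3 / 2 : ℝ))| ≤ 3 * x ^ (-(1 / 2) : ℝ) := by
        refine h5.trans ?_
        have : th * 4 ≤ 3 := by linarith
        exact mul_le_mul_of_nonneg_right this h8.le
      have := mul_le_mul_of_nonneg_left h9 hq.le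
      linarith
    calc |Hf s x| ^ 2 ≤ (3 * x ^ (-(1 / 4) : ℝ)) ^ 2 := pow_le_pow_left₀ (abs_nonneg _) h7 2
      _ = 9 * x ^ (-(1 / 2) : ℝ) := by
        rw [mul_pow, ← Real.rpow_mul_natCast hx0.le]
        norm_num
  · have h3 : x ∈ Ici (1 : ℝ) := h
    have h4 : x ∉ Iio (1 : ℝ) := notMem_Iio.2 h
    rw [indicator_of_mem h3, indicator_of_notMem h4, mul_zero, zero_add]
    have h5 := KK_far hs hX
    have h7 : |Hf s x| ≤ (1 / (2 * π) * m 0 s) * x ^ (-(5 / 4) : ℝ) := by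
      rw [habs]
      have h8 : x ^ (-(5 / 4) : ℝ) = x ^ (1 / 4 : ℝ) * (x ^ (3 / 2 : ℝ))⁻¹ := by
        rw [← Real.rpow_neg hx0.le, ← Real.rpow_add hx0]
        norm_num
      rw [h8]
      have := mul_le_mul_of_nonneg_left h5 hq.le
      linarith
    calc |Hf s x| ^ 2 ≤ ((1 / (2 * π) * m 0 s) * x ^ (-(5 / 4) : ℝ)) ^ 2 :=
          pow_le_pow_left₀ (abs_nonneg _) h7 2
      _ = c * x ^ (-(5 / 2) : ℝ) := by
        rw [mul_pow, ← Real.rpow_mul_natCast hx0.le, hc]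
        norm_num

/-- the explicit solution as a vector -/
def uT {s : ℝ} (hs : 0 ≤ s) : X := (ut_memLp hs).toLp (ut s)

/-- its image as a vector -/
def hT {s : ℝ} (hs : 0 ≤ s) : X := (Hf_memLp hs).toLp (Hf s)

lemma uT_coe {s : ℝ} (hs : 0 ≤ s) : (uT hs : ℝ → ℝ) =ᵐ[volume.restrict (Ioi 0)] ut s := MemLp.coeFn_toLp _

lemma hT_coe {s : ℝ} (hs : 0 ≤ s) : (hT hs : ℝ → ℝ) =ᵐ[volume.restrict (Ioi 0)] Hf s := MemLp.coeFn_toLp _

lemma inner_uT {s : ℝ} (hs : 0 ≤ s) {b : ℝ} (hb : 0 < b) :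
    inner ℝ (uT hs) (eps b) = ∫ y in Ioi (0 : ℝ), ut s y * exp (-(b * y)) := by
  rw [L2.inner_def]
  refine integral_congr_ae ?_
  filter_upwards [uT_coe hs, eps_coe hb] with y h1 h2
  rw [h1, h2]
  simp [mul_comm]

lemma inner_hT {s : ℝ} (hs : 0 ≤ s) {b : ℝ} (hb : 0 < b) :
    inner ℝ (hT hs) (eps b) = ∫ y in Ioi (0 : ℝ), Hf s y * exp (-(b * y)) := by
  rw [L2.inner_def]
  refine integral_congr_ae ?_
  filter_upwards [hT_coe hs, eps_coe hb] with y h1 h2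
  rw [h1, h2]
  simp [mul_comm]

/-- Fubini 1 -/
lemma fub1 {s : ℝ} (hs : 0 ≤ s) {a : ℝ} (ha : 0 < a) :
    ∫ η : ℝ, sw η * (∫ y in Ioi (0 : ℝ), ut s y * exp (-(a * exp (-(4 * η / 3)) * y))) =
      ∫ y in Ioi (0 : ℝ), ut s y * ∫ η : ℝ, sw η * exp (-(a * exp (-(4 * η / 3)) * y)) := by
  have h1 : ∀ η : ℝ, sw η * (∫ y in Ioi (0 : ℝ), ut s y * exp (-(a * exp (-(4 * η / 3)) * y))) =
      ∫ y in Ioi (0 : ℝ), sw η * (ut s y * exp (-(a * exp (-(4 * η / 3)) * y))) := fun η => by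
    rw [integral_const_mul]
  have h2 : ∀ y : ℝ, ut s y * (∫ η : ℝ, sw η * exp (-(a * exp (-(4 * η / 3)) * y))) =
      ∫ η : ℝ, sw η * (ut s y * exp (-(a * exp (-(4 * η / 3)) * y))) := fun y => by
    rw [← integral_const_mul]
    congr 1
    funext η
    ring
  simp_rw [h1, h2]
  refine integral_integral_swap (f := fun η y => sw η * (ut s y * exp (-(a * exp (-(4 * η / 3)) * y)))) ?_
  have hprod : Integrable (fun z : ℝ × ℝ => sw z.1 * ut s z.2) (volume.prod (volume.restrict (Ioi (0 : ℝ)))) :=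
    sw_int.mul_prod (ut_int hs)
  have hg : Measurable fun z : ℝ × ℝ => exp (-(a * exp (-(4 * z.1 / 3)) * z.2)) := by fun_prop
  have hm : AEStronglyMeasurable (Function.uncurry fun η y => sw η * (ut s y * exp (-(a * exp (-(4 * η / 3)) * y))))
      (volume.prod (volume.restrict (Ioi (0 : ℝ)))) := by
    have := hprod.1.mul hg.aestronglyMeasurable
    refine this.congr (Eventually.of_forall fun z => ?_)
    simp only [Function.uncurry, Pi.mul_apply]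
    ring
  refine hprod.mono hm ?_
  have hpos : ∀ᵐ z : ℝ × ℝ ∂(volume.prod (volume.restrict (Ioi (0 : ℝ)))), 0 < z.2 := by
    have : volume.prod (volume.restrict (Ioi (0 : ℝ))) = (volume.prod volume).restrict
        ((univ : Set ℝ) ×ˢ (Ioi (0 : ℝ))) := by
      rw [← Measure.prod_restrict, Measure.restrict_univ]
    rw [this]
    filter_upwards [ae_restrict_mem (MeasurableSet.univ.prod measurableSet_Ioi)] with z hz
    exact hz.2
  filter_upwards [hpos] with z hz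
  simp only [Function.uncurry]
  rw [← mul_assoc, norm_mul]
  have h3 : ‖exp (-(a * exp (-(4 * z.1 / 3)) * z.2))‖ ≤ 1 := by
    rw [Real.norm_eq_abs, abs_of_pos (exp_pos _)]
    refine exp_le_one_iff.2 ?_
    have := mul_pos (mul_pos ha (exp_pos (-(4 * z.1 / 3)))) hz
    linarith
  exact mul_le_of_le_one_right (norm_nonneg _) h3

/-- substitution Y = y ^ (3/2) -/
lemma subst (s a : ℝ) : ∫ y in Ioi (0 : ℝ), ut s y * (3 / 2 * y ^ (1 / 4 : ℝ) * JJ a (y ^ (3 / 2 : ℝ))) =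
    ∫ Y in Ioc (0 : ℝ) 1, W s Y * JJ a Y := by
  have h1 := integral_comp_rpow_Ioi_of_pos (g := (Iio (1 : ℝ)).indicator fun Y => W s Y * JJ a Y)
    (p := 3 / 2) (by norm_num)
  have h2 : ∫ Y in Ioi (0 : ℝ), (Iio (1 : ℝ)).indicator (fun Y => W s Y * JJ a Y) Y =
      ∫ Y in Ioc (0 : ℝ) 1, W s Y * JJ a Y := by
    rw [integral_indicator measurableSet_Iio, Measure.restrict_restrict measurableSet_Iio, inter_comm,
      Ioi_inter_Iio, integral_Ioc_eq_integral_Ioo]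
  rw [← h2, ← h1]
  refine setIntegral_congr_fun measurableSet_Ioi fun y hy => ?_
  have hy0 : 0 < y := hy
  simp only [smul_eq_mul]
  by_cases h : y < 1
  · have h3 : y ^ (3 / 2 : ℝ) ∈ Iio (1 : ℝ) := Real.rpow_lt_one hy0.le h (by norm_num)
    have h4 : y ∈ Iio (1 : ℝ) := h
    unfold ut
    rw [indicator_of_mem h3, indicator_of_mem h4]
    have h5 : y ^ ((3 / 2 : ℝ) - 1) = y ^ (1 / 4 : ℝ) * y ^ (1 / 4 : ℝ) := by
      rw [← Real.rpow_add hy0]
      norm_num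
    rw [h5]
    ring
  · have h3 : y ^ (3 / 2 : ℝ) ∉ Iio (1 : ℝ) := notMem_Iio.2 (Real.one_le_rpow (not_lt.1 h) (by norm_num))
    have h4 : y ∉ Iio (1 : ℝ) := h
    unfold ut
    rw [indicator_of_notMem h3, indicator_of_notMem h4]
    simp

/-- Fubini 2 -/
lemma fub2 {s : ℝ} (hs : 0 ≤ s) {a : ℝ} (ha : 0 < a) : 1 / (2 * π) * ∫ Y in Ioc (0 : ℝ) 1, W s Y * JJ a Y =
    ∫ x in Ioi (0 : ℝ), Hf s x * exp (-(a * x)) := by
  have h1 : ∀ Y : ℝ, W s Y * JJ a Y = ∫ x in Ioi (0 : ℝ),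
      W s Y * (exp (-(a * x)) * x ^ (1 / 4 : ℝ) / (x ^ (3 / 2 : ℝ) + Y)) := fun Y => by
    rw [integral_const_mul, JJ]
  have h2 : ∀ x : ℝ, Hf s x * exp (-(a * x)) = 1 / (2 * π) * ∫ Y in Ioc (0 : ℝ) 1,
      W s Y * (exp (-(a * x)) * x ^ (1 / 4 : ℝ) / (x ^ (3 / 2 : ℝ) + Y)) := fun x => by
    unfold Hf KK
    have : ∀ Y : ℝ, W s Y * (exp (-(a * x)) * x ^ (1 / 4 : ℝ) / (x ^ (3 / 2 : ℝ) + Y)) =
        exp (-(a * x)) * x ^ (1 / 4 : ℝ) * (W s Y / (x ^ (3 / 2 : ℝ) + Y)) := fun Y => by ring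
    simp_rw [this]
    rw [integral_const_mul]
    ring
  simp_rw [h1, h2]
  rw [integral_const_mul]
  congr 1
  refine integral_integral_swap (f := fun Y x => W s Y *
    (exp (-(a * x)) * x ^ (1 / 4 : ℝ) / (x ^ (3 / 2 : ℝ) + Y))) ?_
  have hY : Integrable (fun Y : ℝ => 4 * Y ^ (-(5 / 6) : ℝ)) (volume.restrict (Ioc (0 : ℝ) 1)) := by
    have := (intervalIntegral.intervalIntegrable_rpow' (a := 0) (b := 1) (r := -(5 / 6)) (by norm_num))
    rw [intervalIntegrable_iff_integrableOn_Ioc_of_le zero_le_one] at this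
    exact this.const_mul 4
  have hprod := hY.mul_prod (gam_int ha)
  have hm : AEStronglyMeasurable (Function.uncurry fun Y x => W s Y *
      (exp (-(a * x)) * x ^ (1 / 4 : ℝ) / (x ^ (3 / 2 : ℝ) + Y)))
      ((volume.restrict (Ioc (0 : ℝ) 1)).prod (volume.restrict (Ioi (0 : ℝ)))) := by
    have hw : AEStronglyMeasurable (fun z : ℝ × ℝ => W s z.1)
        ((volume.restrict (Ioc (0 : ℝ) 1)).prod (volume.restrict (Ioi (0 : ℝ)))) := (W_Bd hs).meas.comp_fst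
    have hg : Measurable fun z : ℝ × ℝ => exp (-(a * z.2)) * z.2 ^ (1 / 4 : ℝ) / (z.2 ^ (3 / 2 : ℝ) + z.1) := by
      fun_prop
    exact hw.mul hg.aestronglyMeasurable
  refine hprod.mono hm ?_
  have hpos : ∀ᵐ z : ℝ × ℝ ∂((volume.restrict (Ioc (0 : ℝ) 1)).prod (volume.restrict (Ioi (0 : ℝ)))),
      z ∈ (Ioc (0 : ℝ) 1) ×ˢ (Ioi (0 : ℝ)) := by
    rw [Measure.prod_restrict]
    exact ae_restrict_mem (measurableSet_Ioc.prod measurableSet_Ioi)
  filter_upwards [hpos] with z hz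
  obtain ⟨hz1, hz2⟩ := hz
  have hY0 : 0 < z.1 := hz1.1
  have hx0 : 0 < z.2 := hz2
  simp only [Function.uncurry]
  have hX : 0 < z.2 ^ (3 / 2 : ℝ) := Real.rpow_pos_of_pos hx0 _
  have hq : 0 < z.2 ^ (1 / 4 : ℝ) := Real.rpow_pos_of_pos hx0 _
  have hW := (W_Bd hs).le z.1 hY0 hz1.2
  have hd := den_le hx0 hY0
  have hh : 0 < z.2 ^ (-(1 / 2) : ℝ) := Real.rpow_pos_of_pos hx0 _
  have hk : 0 < z.1 ^ (-(5 / 6) : ℝ) := Real.rpow_pos_of_pos hY0 _
  have he : 0 < exp (-(a * z.2)) := exp_pos _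
  have h56 : ph z.1 * z.1 ^ (-(1 / 2) : ℝ) = z.1 ^ (-(5 / 6) : ℝ) := by
    unfold ph
    rw [← Real.rpow_add hY0]
    norm_num
  have e1 : ‖W s z.1 * (exp (-(a * z.2)) * z.2 ^ (1 / 4 : ℝ) / (z.2 ^ (3 / 2 : ℝ) + z.1))‖ =
      |W s z.1| * (exp (-(a * z.2)) * (z.2 ^ (1 / 4 : ℝ) / (z.2 ^ (3 / 2 : ℝ) + z.1))) := by
    rw [norm_mul, Real.norm_eq_abs, Real.norm_eq_abs, mul_div_assoc,
      abs_of_pos (show 0 < exp (-(a * z.2)) * (z.2 ^ (1 / 4 : ℝ) / (z.2 ^ (3 / 2 : ℝ) + z.1)) by positivity)]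
  have e2 : ‖4 * z.1 ^ (-(5 / 6) : ℝ) * (exp (-(a * z.2)) * z.2 ^ (-(1 / 2) : ℝ))‖ =
      4 * z.1 ^ (-(5 / 6) : ℝ) * (exp (-(a * z.2)) * z.2 ^ (-(1 / 2) : ℝ)) := by
    rw [Real.norm_eq_abs, abs_of_pos (by positivity)]
  rw [e1, e2]
  calc |W s z.1| * (exp (-(a * z.2)) * (z.2 ^ (1 / 4 : ℝ) / (z.2 ^ (3 / 2 : ℝ) + z.1)))
      ≤ (4 * ph z.1) * (exp (-(a * z.2)) * (z.2 ^ (-(1 / 2) : ℝ) * z.1 ^ (-(1 / 2) : ℝ))) := by
        refine mul_le_mul hW (mul_le_mul_of_nonneg_left hd he.le) (by positivity) ?_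
        have := ph_pos hY0
        positivity
    _ = 4 * (ph z.1 * z.1 ^ (-(1 / 2) : ℝ)) * (exp (-(a * z.2)) * z.2 ^ (-(1 / 2) : ℝ)) := by ring
    _ = _ := by rw [h56]

/-- R maps the explicit solution to its image -/
lemma R_uT {s : ℝ} (hs : 0 ≤ s) {R : X →L[ℝ] X} (hsym : ∀ f g, inner ℝ (R f) g = inner ℝ f (R g))
    (hRe : ∀ a : ℝ, 0 < a → R (eps a) = (1 / (2 * π)) • ∫ η : ℝ, (exp (-(2 * η / 3)) / cosh η) •
      eps (a * exp (-(4 * η / 3)))) : R (uT hs) = hT hs := by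
  refine dens.eq_of_inner_left ℝ fun v hv => ?_
  induction hv using Submodule.span_induction with
  | mem x hx =>
    obtain ⟨k, rfl⟩ := hx
    have ha : (0 : ℝ) < (k : ℝ) + 1 := by positivity
    set a : ℝ := (k : ℝ) + 1 with ha'
    show inner ℝ (R (uT hs)) (eps a) = inner ℝ (hT hs) (eps a)
    rw [hsym, hRe a ha, inner_smul_right]
    have h1 := integral_inner (𝕜 := ℝ) (vec_int ha) (uT hs)
    have h2 : (∫ η : ℝ, (exp (-(2 * η / 3)) / cosh η) • eps (a * exp (-(4 * η / 3)))) =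
      ∫ η : ℝ, sw η • eps (a * exp (-(4 * η / 3))) := rfl
    rw [h2, ← h1]
    have h3 : ∀ η : ℝ, inner ℝ (uT hs) (sw η • eps (a * exp (-(4 * η / 3)))) =
        sw η * (∫ y in Ioi (0 : ℝ), ut s y * exp (-(a * exp (-(4 * η / 3)) * y))) := fun η => by
      rw [inner_smul_right, inner_uT hs (mul_pos ha (exp_pos _))]
    simp_rw [h3]
    rw [fub1 hs ha]
    have h4 : ∫ y in Ioi (0 : ℝ), ut s y * (∫ η : ℝ, sw η * exp (-(a * exp (-(4 * η / 3)) * y))) =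
        ∫ y in Ioi (0 : ℝ), ut s y * (3 / 2 * y ^ (1 / 4 : ℝ) * JJ a (y ^ (3 / 2 : ℝ))) := by
      refine setIntegral_congr_fun measurableSet_Ioi fun y hy => ?_
      have hy0 : 0 < y := hy
      have h5 := kern ha hy0
      congr 1
    rw [h4, subst, fub2 hs ha, inner_hT hs ha]
  | zero => rw [inner_zero_right, inner_zero_right]
  | add x y _ _ hx hy => rw [inner_add_right, inner_add_right, hx, hy]
  | smul c x _ hx => rw [inner_smul_right, inner_smul_right, hx]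

lemma pow_split {s x : ℝ} (hx : 0 < x) : x ^ (1 / 4 + 3 * s / 2 : ℝ) = x ^ (1 / 4 : ℝ) * (x ^ (3 / 2 : ℝ)) ^ s := by
  rw [← Real.rpow_mul hx.le, ← Real.rpow_add hx]
  congr 1
  ring

lemma uT_eq {s : ℝ} (hs : 0 ≤ s) {V : X} {C : ℝ} (hV : (V : ℝ → ℝ) =ᵐ[volume.restrict (Ioi (0 : ℝ))]
      fun x => C * x ^ (1 / 4 + 3 * s / 2 : ℝ) * (Iio (1 : ℝ)).indicator 1 x) :
    C • uT hs = V + PX (C • hT hs) := by
  apply Lp.ext
  filter_upwards [hV, uT_coe hs, hT_coe hs, Lp.coeFn_smul C (uT hs), Lp.coeFn_smul C (hT hs), PX_coe (C • hT hs),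
    Lp.coeFn_add V (PX (C • hT hs)), ae_restrict_mem measurableSet_Ioi] with x e1 e2 e3 e4 e5 e6 e7 hx
  have hx0 : 0 < x := hx
  have hX : 0 < x ^ (3 / 2 : ℝ) := Real.rpow_pos_of_pos hx0 _
  rw [e4, e7, Pi.smul_apply, Pi.add_apply, e1, e2, e6, pow_split hx0]
  unfold ut
  by_cases h : x ∈ Iio (1 : ℝ)
  · rw [indicator_of_mem h, indicator_of_mem h, indicator_of_mem h, e5, Pi.smul_apply, e3, Pi.one_apply,
      smul_eq_mul, smul_eq_mul]
    unfold Hf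
    rw [W_eq hs hX]
    ring
  · rw [indicator_of_notMem h, indicator_of_notMem h, indicator_of_notMem h]
    simp

/-- **the value of the quadratic form** -/
theorem q_valR {s : ℝ} (hs : 0 ≤ s) {R : X →L[ℝ] X} (hR : ‖R‖ ≤ 1 / 2)
    (hsym : ∀ f g, inner ℝ (R f) g = inner ℝ f (R g))
    (hRe : ∀ a : ℝ, 0 < a → R (eps a) = (1 / (2 * π)) • ∫ η : ℝ, (exp (-(2 * η / 3)) / cosh η) •
      eps (a * exp (-(4 * η / 3)))) {V U : X} {C : ℝ}
    (hV : (V : ℝ → ℝ) =ᵐ[volume.restrict (Ioi (0 : ℝ))]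
      fun x => C * x ^ (1 / 4 + 3 * s / 2 : ℝ) * (Iio (1 : ℝ)).indicator 1 x)
    (hU : U = V + PX (R U)) : inner ℝ V U = C ^ 2 * (2 / 3 * (w s ^ 2 / (2 * s + 1))) := by
  have h1 := R_uT hs hsym hRe
  have h2 := uT_eq hs hV
  have h3 : C • uT hs = V + PX (R (C • uT hs)) := by
    rw [map_smul, h1]
    exact h2
  have h4 : U - C • uT hs = PX (R (U - C • uT hs)) := by
    have : U - C • uT hs = (V + PX (R U)) - (V + PX (R (C • uT hs))) := congrArg₂ (fun a b => a - b) hU h3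
    refine this.trans ?_
    rw [map_sub, map_sub]
    abel
  have h5 : ‖U - C • uT hs‖ ≤ 1 / 2 * ‖U - C • uT hs‖ := by
    calc ‖U - C • uT hs‖ = ‖PX (R (U - C • uT hs))‖ := congrArg norm h4
      _ ≤ ‖R (U - C • uT hs)‖ := PX_norm _
      _ ≤ ‖R‖ * ‖U - C • uT hs‖ := R.le_opNorm _
      _ ≤ 1 / 2 * ‖U - C • uT hs‖ := mul_le_mul_of_nonneg_right hR (norm_nonneg _)
  have h6 : ‖U - C • uT hs‖ = 0 := by
    have := norm_nonneg (U - C • uT hs)
    linarith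
  have h7 : U = C • uT hs := sub_eq_zero.1 (norm_eq_zero.1 h6)
  rw [h7, inner_smul_right, ← m_diag hs]
  have h8 : inner ℝ V (uT hs) = C * (2 / 3 * m s s) := by
    rw [L2.inner_def]
    have h9 : ∫ x in Ioi (0 : ℝ), inner ℝ ((V : ℝ → ℝ) x) ((uT hs : ℝ → ℝ) x) =
        ∫ x in Ioi (0 : ℝ), (C * (2 / 3)) * ((3 / 2 * x ^ ((3 / 2 : ℝ) - 1)) •
          (Iio (1 : ℝ)).indicator (fun Y => Y ^ s * W s Y) (x ^ (3 / 2 : ℝ))) := by
      refine integral_congr_ae ?_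
      filter_upwards [hV, uT_coe hs, ae_restrict_mem measurableSet_Ioi] with x e1 e2 hx
      have hx0 : 0 < x := hx
      rw [e1, e2, pow_split hx0]
      unfold ut
      have h10 : x ^ ((3 / 2 : ℝ) - 1) = x ^ (1 / 4 : ℝ) * x ^ (1 / 4 : ℝ) := by
        rw [← Real.rpow_add hx0]
        norm_num
      by_cases h : x < 1
      · have h3 : x ^ (3 / 2 : ℝ) ∈ Iio (1 : ℝ) := Real.rpow_lt_one hx0.le h (by norm_num)
        have h4 : x ∈ Iio (1 : ℝ) := h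
        rw [indicator_of_mem h3, indicator_of_mem h4, indicator_of_mem h4, h10]
        simp
        ring
      · have h3 : x ^ (3 / 2 : ℝ) ∉ Iio (1 : ℝ) := notMem_Iio.2 (Real.one_le_rpow (not_lt.1 h) (by norm_num))
        have h4 : x ∉ Iio (1 : ℝ) := h
        rw [indicator_of_notMem h3, indicator_of_notMem h4, indicator_of_notMem h4]
        simp
    rw [h9, integral_const_mul, integral_comp_rpow_Ioi_of_pos (by norm_num : (0 : ℝ) < 3 / 2)
      (g := (Iio (1 : ℝ)).indicator fun Y => Y ^ s * W s Y)]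
    rw [integral_indicator measurableSet_Iio, Measure.restrict_restrict measurableSet_Iio, inter_comm,
      Ioi_inter_Iio, ← integral_Ioc_eq_integral_Ioo]
    unfold m
    ring
  rw [h8]
  ring

/-- the case V = C x -/
theorem q_half {R : X →L[ℝ] X} (hR : ‖R‖ ≤ 1 / 2)
    (hsym : ∀ f g, inner ℝ (R f) g = inner ℝ f (R g))
    (hRe : ∀ a : ℝ, 0 < a → R (eps a) = (1 / (2 * π)) • ∫ η : ℝ, (exp (-(2 * η / 3)) / cosh η) •
      eps (a * exp (-(4 * η / 3)))) {V U : X} {C : ℝ}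
    (hV : (V : ℝ → ℝ) =ᵐ[volume.restrict (Ioi (0 : ℝ))]
      fun x => C * x ^ (1 : ℝ) * (Iio (1 : ℝ)).indicator 1 x)
    (hU : U = V + PX (R U)) : inner ℝ V U = C ^ 2 * (32 / 81) := by
  have h := q_valR (s := 1 / 2) (by norm_num) hR hsym hRe (V := V) (U := U) (C := C) (by
    rw [show (1 / 4 + 3 * (1 / 2) / 2 : ℝ) = 1 by norm_num]
    exact hV) hU
  rw [h, w_half, div_pow, mul_pow, Real.sq_sqrt (by norm_num)]
  norm_num

end

end EXK
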