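import Pool.Agent.EXK.Wts

/-!
# The expansion of the double column at the empty state for the honeycomb rows (board EXK, K1)
-/

set_option autoImplicit false

namespace Pool.Agent.EXK

open Pool.Agent.EXL Pat Filter Topology Complex Fm

noncomputable section

theorem hsp {n : ℕ} (m : ℕ) (h : n + m = 16) : (hs ^ n)⁻¹ = -hs ^ m := by
  apply inv_eq_of_mul_eq_one_right
  rw [mul_neg, ← pow_add, h, hs16, neg_neg]

theorem ev2_sin (v c : ℂ) : ev v ^ 2 * sin (c - 2 * v) =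
    -(I / 2) * (exp (I * c) - ev v ^ 4 * exp (-(I * c))) := by
  rw [Complex.sin, show -(c - 2 * v) * I = I * v + (I * v) + -(I * c) by ring,
    show (c - 2 * v) * I = -(I * v) + -(I * v) + I * c by ring]
  simp only [exp_add]
  have h : exp (I * v) * exp (-(I * v)) = 1 := by rw [← exp_add]; simp
  unfold ev
  linear_combination (-(I / 2) * exp (I * c) * (exp (I * v) * exp (-(I * v)) + 1)) * h

theorem lm2 (n : ℕ) : Tendsto (fun v => ev v ^ 2 * sin (n * (lam / 2) - 2 * v)) flt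
    (𝓝 (-(I / 2) * hs ^ n)) := by
  have h := ((ev_0.pow 4).mul_const ((hs ^ n)⁻¹)).const_sub (hs ^ n) |>.const_mul (-(I / 2))
  rw [zero_pow (by norm_num), zero_mul, sub_zero] at h
  refine h.congr fun v => ?_
  rw [ev2_sin, hs_neg, hs_exp]

theorem lim_sin2 : Tendsto (fun v => ev v ^ 2 * sin (2 * v)) flt (𝓝 (hs ^ 8 / 2)) := by
  have h := (lm2 0).neg
  rw [show -(-(I / 2) * hs ^ 0) = hs ^ 8 / 2 by rw [hs8]; ring] at h
  refine h.congr fun v => ?_
  rw [show ((0 : ℕ) : ℂ) * (lam / 2) - 2 * v = -(2 * v) by push_cast; ring, sin_neg]; ring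

theorem asy : Asy flt ev wr wl (fun v => Kc v) (fun v => kc v)
    (-hs ^ 11 - hs ^ 3) (hs ^ 5 - hs ^ 13) (hs ^ 7 - hs ^ 15) (-hs ^ 13 - hs ^ 5) (hs ^ 12) (-hs ^ 4)
    (-hs ^ 6) (hs ^ 3) := by
  have h16 := hs16
  have hne := hs_ne
  -- the sines of the line r
  have A3 := lp 3
  have A5 := lp 5
  have A7 := lm 7
  have A1 := lq 1
  -- the sines of the line l
  have B9 := lm 9
  have B11 := lm 11
  have B5 := lm 5
  have B1 := lp 1
  have B3 := lm 3
  have B1m := lq 1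
  rw [hsp 13 rfl, ← hs8] at A3
  rw [hsp 11 rfl, ← hs8] at A5
  rw [← hs8] at A7 A1 B9 B11 B5 B3 B1m
  rw [hsp 15 rfl, ← hs8] at B1
  have e3 : hs ^ 8 / 2 * -hs ^ 13 = hs ^ 5 / 2 := by linear_combination (-(hs ^ 5) / 2) * h16
  have e5 : hs ^ 8 / 2 * -hs ^ 11 = hs ^ 3 / 2 := by linear_combination (-(hs ^ 3) / 2) * h16
  have e1 : hs ^ 8 / 2 * -hs ^ 15 = hs ^ 7 / 2 := by linear_combination (-(hs ^ 7) / 2) * h16
  have e9 : -(hs ^ 8 / 2) * hs ^ 9 = hs / 2 := by linear_combination (-hs / 2) * h16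
  have e11 : -(hs ^ 8 / 2) * hs ^ 11 = hs ^ 3 / 2 := by linear_combination (-(hs ^ 3) / 2) * h16
  rw [e3] at A3
  rw [e5] at A5
  rw [e1] at B1
  rw [e9] at B9
  rw [e11] at B11
  have n3 : hs ^ 5 / 2 ≠ 0 := div_ne_zero (pow_ne_zero _ hne) two_ne_zero
  have n5 : hs ^ 3 / 2 ≠ 0 := div_ne_zero (pow_ne_zero _ hne) two_ne_zero
  have n9 : hs / 2 ≠ 0 := div_ne_zero hne two_ne_zero
  refine ⟨ev_0, ev_ne, ?_, ?_, ?_, ?_, ?_, ?_, ?_, ?_, ?_, ?_⟩
  · have h := quot2 A1 A7 A3 A5 n3 n5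
    have e : hs ^ 8 / 2 * hs ^ 1 * (-(hs ^ 8 / 2) * hs ^ 7) / (hs ^ 5 / 2 * (hs ^ 3 / 2)) = 1 := by
      rw [div_eq_iff (mul_ne_zero n3 n5)]
      linear_combination (-(hs ^ 8) / 4) * h16
    rw [e] at h
    refine h.congr fun v => ?_
    simp only [wr, Wc, Wt.sc, Wn, Dn]
    rw [show v - lam / 2 = v - (1 : ℕ) * (lam / 2) by push_cast; ring,
      show 3 * lam - (v - (1 : ℕ) * (lam / 2)) = (7 : ℕ) * (lam / 2) - v by push_cast; ring,
      show 2 * lam + (v - (1 : ℕ) * (lam / 2)) = v + (3 : ℕ) * (lam / 2) by push_cast; ring,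
      show 3 * lam + (v - (1 : ℕ) * (lam / 2)) = v + (5 : ℕ) * (lam / 2) by push_cast; ring]
  · have h := quot1 (x := sin (2 * lam)) A7 A3 A5 n3 n5
    have e : sin (2 * lam) * (-(hs ^ 8 / 2) * hs ^ 7) / (hs ^ 5 / 2 * (hs ^ 3 / 2)) =
        -hs ^ 11 - hs ^ 3 := by
      rw [div_eq_iff (mul_ne_zero n3 n5), s2_eq]
      linear_combination (hs ^ 11 / 4) * h16
    rw [e] at h
    refine h.congr fun v => ?_
    simp only [wr, Wc, Wt.sc, Wn, Dn]
    rw [show v - lam / 2 = v - (1 : ℕ) * (lam / 2) by push_cast; ring,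
      show 3 * lam - (v - (1 : ℕ) * (lam / 2)) = (7 : ℕ) * (lam / 2) - v by push_cast; ring,
      show 2 * lam + (v - (1 : ℕ) * (lam / 2)) = v + (3 : ℕ) * (lam / 2) by push_cast; ring,
      show 3 * lam + (v - (1 : ℕ) * (lam / 2)) = v + (5 : ℕ) * (lam / 2) by push_cast; ring]
  · have h := quot1 (x := sin (2 * lam)) A1 A3 A5 n3 n5
    have e : sin (2 * lam) * (hs ^ 8 / 2 * hs ^ 1) / (hs ^ 5 / 2 * (hs ^ 3 / 2)) =
        hs ^ 5 - hs ^ 13 := by
      rw [div_eq_iff (mul_ne_zero n3 n5), s2_eq]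
      ring
    rw [e] at h
    refine h.congr fun v => ?_
    simp only [wr, Wc, Wt.sc, Wn, Dn]
    rw [show v - lam / 2 = v - (1 : ℕ) * (lam / 2) by push_cast; ring,
      show 2 * lam + (v - (1 : ℕ) * (lam / 2)) = v + (3 : ℕ) * (lam / 2) by push_cast; ring,
      show 3 * lam + (v - (1 : ℕ) * (lam / 2)) = v + (5 : ℕ) * (lam / 2) by push_cast; ring]
  · have h := quot2 B5 B1 B9 B11 n9 n5
    have e : -(hs ^ 8 / 2) * hs ^ 5 * (hs ^ 7 / 2) / (hs / 2 * (hs ^ 3 / 2)) = 1 := by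
      rw [div_eq_iff (mul_ne_zero n9 n5)]
      linear_combination (-(hs ^ 4) / 4) * h16
    rw [e] at h
    refine h.congr fun v => ?_
    simp only [wl, Wc, Wt.sc, Wn, Dn]
    rw [show 3 * lam - v - lam / 2 = (5 : ℕ) * (lam / 2) - v by push_cast; ring,
      show 3 * lam - ((5 : ℕ) * (lam / 2) - v) = v + (1 : ℕ) * (lam / 2) by push_cast; ring,
      show 2 * lam + ((5 : ℕ) * (lam / 2) - v) = (9 : ℕ) * (lam / 2) - v by push_cast; ring,
      show 3 * lam + ((5 : ℕ) * (lam / 2) - v) = (11 : ℕ) * (lam / 2) - v by push_cast; ring]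
  · have h := quot1 (x := sin (2 * lam)) B1 B9 B11 n9 n5
    have e : sin (2 * lam) * (hs ^ 7 / 2) / (hs / 2 * (hs ^ 3 / 2)) = hs ^ 7 - hs ^ 15 := by
      rw [div_eq_iff (mul_ne_zero n9 n5), s2_eq]
      ring
    rw [e] at h
    refine h.congr fun v => ?_
    simp only [wl, Wc, Wt.sc, Wn, Dn]
    rw [show 3 * lam - v - lam / 2 = (5 : ℕ) * (lam / 2) - v by push_cast; ring,
      show 3 * lam - ((5 : ℕ) * (lam / 2) - v) = v + (1 : ℕ) * (lam / 2) by push_cast; ring,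
      show 2 * lam + ((5 : ℕ) * (lam / 2) - v) = (9 : ℕ) * (lam / 2) - v by push_cast; ring,
      show 3 * lam + ((5 : ℕ) * (lam / 2) - v) = (11 : ℕ) * (lam / 2) - v by push_cast; ring]
  · have h := quot1 (x := sin (2 * lam)) B5 B9 B11 n9 n5
    have e : sin (2 * lam) * (-(hs ^ 8 / 2) * hs ^ 5) / (hs / 2 * (hs ^ 3 / 2)) =
        -hs ^ 13 - hs ^ 5 := by
      rw [div_eq_iff (mul_ne_zero n9 n5), s2_eq]
      linear_combination (hs ^ 9 / 4) * h16
    rw [e] at h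
    refine h.congr fun v => ?_
    simp only [wl, Wc, Wt.sc, Wn, Dn]
    rw [show 3 * lam - v - lam / 2 = (5 : ℕ) * (lam / 2) - v by push_cast; ring,
      show 2 * lam + ((5 : ℕ) * (lam / 2) - v) = (9 : ℕ) * (lam / 2) - v by push_cast; ring,
      show 3 * lam + ((5 : ℕ) * (lam / 2) - v) = (11 : ℕ) * (lam / 2) - v by push_cast; ring]
  · have h := quot2 B1m B1 B9 B11 n9 n5
    have e : hs ^ 8 / 2 * hs ^ 1 * (hs ^ 7 / 2) / (hs / 2 * (hs ^ 3 / 2)) = hs ^ 12 := by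
      rw [div_eq_iff (mul_ne_zero n9 n5)]
      ring
    rw [e] at h
    refine h.congr fun v => ?_
    simp only [wl, Wc, Wt.sc, Wn, Dn]
    rw [show 3 * lam - v - lam / 2 = (5 : ℕ) * (lam / 2) - v by push_cast; ring,
      show 3 * lam - ((5 : ℕ) * (lam / 2) - v) = v + (1 : ℕ) * (lam / 2) by push_cast; ring,
      show 2 * lam - ((5 : ℕ) * (lam / 2) - v) = v - (1 : ℕ) * (lam / 2) by push_cast; ring,
      show 2 * lam + ((5 : ℕ) * (lam / 2) - v) = (9 : ℕ) * (lam / 2) - v by push_cast; ring,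
      show 3 * lam + ((5 : ℕ) * (lam / 2) - v) = (11 : ℕ) * (lam / 2) - v by push_cast; ring]
  · have h := quot2 B5 B3 B9 B11 n9 n5
    have e : -(hs ^ 8 / 2) * hs ^ 5 * (-(hs ^ 8 / 2) * hs ^ 3) / (hs / 2 * (hs ^ 3 / 2)) =
        -hs ^ 4 := by
      rw [div_eq_iff (mul_ne_zero n9 n5)]
      linear_combination (hs ^ 8 / 4) * h16
    rw [e] at h
    refine h.congr fun v => ?_
    simp only [wl, Wc, Wt.sc, Wn, Dn]
    rw [show 3 * lam - v - lam / 2 = (5 : ℕ) * (lam / 2) - v by push_cast; ring,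
      show (5 : ℕ) * (lam / 2) - v - lam = (3 : ℕ) * (lam / 2) - v by push_cast; ring,
      show 2 * lam + ((5 : ℕ) * (lam / 2) - v) = (9 : ℕ) * (lam / 2) - v by push_cast; ring,
      show 3 * lam + ((5 : ℕ) * (lam / 2) - v) = (11 : ℕ) * (lam / 2) - v by push_cast; ring]
  · have h := B3.div A3 n3
    have e : -(hs ^ 8 / 2) * hs ^ 3 / (hs ^ 5 / 2) = -hs ^ 6 := by
      rw [div_eq_iff n3]
      ring
    rw [e] at h
    refine h.congr fun v => ?_
    show ev v * sin ((3 : ℕ) * (lam / 2) - v) / (ev v * sin (v + (3 : ℕ) * (lam / 2))) = Kc v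
    rw [mul_div_mul_left _ _ (ev_ne v), Kc, Sc]
    congr 2 <;> (push_cast; ring)
  · have h := lim_sin2.div A3 n3
    have e : hs ^ 8 / 2 / (hs ^ 5 / 2) = hs ^ 3 := by
      rw [div_eq_iff n3]
      ring
    rw [e] at h
    refine h.congr fun v => ?_
    show ev v ^ 2 * sin (2 * v) / (ev v * sin (v + (3 : ℕ) * (lam / 2))) = ev v * kc v
    rw [kc, Sc, show v + (3 : ℕ) * (lam / 2) = 3 * lam / 2 + v by push_cast; ring,
      pow_two, mul_assoc, mul_div_mul_left _ _ (ev_ne v), mul_div_assoc]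

end

end Pool.Agent.EXK
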