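import Pool.Agent.EXK.Exp

/-!
# The expansion of the double column at the empty state for the honeycomb rows (board EXK, K1)

Main result: `expansion`.
-/

set_option autoImplicit false

namespace Pool.Agent.EXK

open Pool.Agent.EXL Pat Filter Topology Complex Fm

noncomputable section

theorem den9 : Tendsto (fun v => ev v * sin ((9 : ℕ) * (lam / 2) - v)) flt (𝓝 (hs / 2)) := by
  have h := lm 9
  rw [← hs8] at h
  have e9 : -(hs ^ 8 / 2) * hs ^ 9 = hs / 2 := by linear_combination (-hs / 2) * hs16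
  rwa [e9] at h

theorem n9 : hs / 2 ≠ 0 := div_ne_zero hs_ne two_ne_zero

theorem lim_Kb : Tendsto (fun v => Kc (3 * lam - v)) flt (𝓝 (hs ^ 10)) := by
  have h := (lq 3).div den9 n9
  rw [← hs8] at h
  have e : hs ^ 8 / 2 * hs ^ 3 / (hs / 2) = hs ^ 10 := by
    rw [div_eq_iff n9]
    ring
  rw [e] at h
  refine h.congr fun v => ?_
  show ev v * sin (v - (3 : ℕ) * (lam / 2)) / (ev v * sin ((9 : ℕ) * (lam / 2) - v)) = _
  rw [mul_div_mul_left _ _ (ev_ne v), Kc, Sc]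
  congr 2 <;> (push_cast; ring)

theorem lim_kb : Tendsto (fun v => ev v * kc (3 * lam - v)) flt (𝓝 (hs ^ 3)) := by
  have h := (lm2 12).div den9 n9
  rw [← hs8] at h
  have e : -(hs ^ 8 / 2) * hs ^ 12 / (hs / 2) = hs ^ 3 := by
    rw [div_eq_iff n9]
    linear_combination (-(hs ^ 4) / 2) * hs16
  rw [e] at h
  refine h.congr fun v => ?_
  show ev v ^ 2 * sin ((12 : ℕ) * (lam / 2) - 2 * v) / (ev v * sin ((9 : ℕ) * (lam / 2) - v)) = _
  rw [kc, Sc, show ((12 : ℕ) : ℂ) * (lam / 2) - 2 * v = 2 * (3 * lam - v) by push_cast; ring,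
    show ((9 : ℕ) : ℂ) * (lam / 2) - v = 3 * lam / 2 + (3 * lam - v) by push_cast; ring,
    pow_two, mul_assoc, mul_div_mul_left _ _ (ev_ne v), mul_div_assoc]

/-- `2 s1 (c1 + c3) = 1` -/
theorem s1c : 2 * sin lam * (cos lam + cos (3 * lam)) = 1 := by
  rw [s1_eq, c1_eq, c3_eq]
  linear_combination (-1 + hs ^ 8 / 2) * hs16

theorem Wn_v (u : ℂ) : (Wn u).v - Dn u = -(cos lam + cos (3 * lam)) / 2 := by
  simp only [Wn, Dn]
  have h1 : sin u * sin (3 * lam - u) = (cos (2 * u - 3 * lam) - cos (3 * lam)) / 2 := by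
    rw [show 2 * u - 3 * lam = u - (3 * lam - u) by ring, cos_sub,
      show cos (3 * lam) = cos (u + (3 * lam - u)) by congr 1; ring, cos_add]
    ring
  have h2 : sin (2 * lam + u) * sin (3 * lam + u) =
      (cos lam - cos (2 * u + 5 * lam)) / 2 := by
    have e1 : cos lam = cos ((3 * lam + u) - (2 * lam + u)) := by congr 1; ring
    have e2 : cos (2 * u + 5 * lam) = cos ((3 * lam + u) + (2 * lam + u)) := by congr 1; ring
    rw [e1, e2, cos_sub (3 * lam + u) (2 * lam + u), cos_add (3 * lam + u) (2 * lam + u)]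
    ring
  have h3 : cos (2 * u + 5 * lam) = -cos (2 * u - 3 * lam) := by
    rw [show 2 * u + 5 * lam = (2 * u - 3 * lam) + Real.pi by rw [lam]; ring, cos_add_pi]
  rw [h1, h2, h3]
  ring

theorem dn_r : Tendsto (fun v => ev v * sin (v + (3 : ℕ) * (lam / 2))) flt (𝓝 (hs ^ 5 / 2)) ∧
    Tendsto (fun v => ev v * sin (v + (5 : ℕ) * (lam / 2))) flt (𝓝 (hs ^ 3 / 2)) := by
  have A3 := lp 3
  have A5 := lp 5
  rw [hsp 13 rfl, ← hs8] at A3
  rw [hsp 11 rfl, ← hs8] at A5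
  have e3 : hs ^ 8 / 2 * -hs ^ 13 = hs ^ 5 / 2 := by linear_combination (-(hs ^ 5) / 2) * hs16
  have e5 : hs ^ 8 / 2 * -hs ^ 11 = hs ^ 3 / 2 := by linear_combination (-(hs ^ 3) / 2) * hs16
  rw [e3] at A3
  rw [e5] at A5
  exact ⟨A3, A5⟩

theorem dn_l : Tendsto (fun v => ev v * sin ((11 : ℕ) * (lam / 2) - v)) flt (𝓝 (hs ^ 3 / 2)) := by
  have h := lm 11
  rw [← hs8] at h
  have e11 : -(hs ^ 8 / 2) * hs ^ 11 = hs ^ 3 / 2 := by linear_combination (-(hs ^ 3) / 2) * hs16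
  rwa [e11] at h

theorem ev_small (c : ℂ) : ∀ᶠ v in flt, ev v ^ 2 * c ≠ 1 := by
  have h := (ev_0.pow 2).mul_const c
  rw [zero_pow two_ne_zero, zero_mul] at h
  exact h.eventually_ne zero_ne_one

theorem ne_of_lim {f : ℂ → ℂ} {c : ℂ} (h : Tendsto (fun v => ev v * f v) flt (𝓝 c)) (hc : c ≠ 0) :
    ∀ᶠ v in flt, f v ≠ 0 := by
  filter_upwards [h.eventually_ne hc] with v hv h0
  exact hv (by rw [h0, mul_zero])

theorem lim_vr : Tendsto (fun v => ((wr v).v - 1) / ev v ^ 2) flt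
    (𝓝 (2 * (cos lam + cos (3 * lam)) * hs ^ 8)) := by
  obtain ⟨A3, A5⟩ := dn_r
  have n3 : hs ^ 5 / 2 ≠ 0 := div_ne_zero (pow_ne_zero _ hs_ne) two_ne_zero
  have n5 : hs ^ 3 / 2 ≠ 0 := div_ne_zero (pow_ne_zero _ hs_ne) two_ne_zero
  have h := quot0 (x := -(cos lam + cos (3 * lam)) / 2) A3 A5 n3 n5
  have e : -(cos lam + cos (3 * lam)) / 2 / (hs ^ 5 / 2 * (hs ^ 3 / 2)) =
      2 * (cos lam + cos (3 * lam)) * hs ^ 8 := by
    rw [div_eq_iff (mul_ne_zero n3 n5)]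
    linear_combination (-(cos lam + cos (3 * lam)) / 2) * hs16
  rw [e] at h
  refine h.congr' ?_
  filter_upwards [ne_of_lim A3 n3, ne_of_lim A5 n5] with v h3 h5
  simp only [wr, Wc, Wt.sc]
  have hD : Dn (v - lam / 2) = sin (v + (3 : ℕ) * (lam / 2)) * sin (v + (5 : ℕ) * (lam / 2)) := by
    rw [Dn, show 2 * lam + (v - lam / 2) = v + (3 : ℕ) * (lam / 2) by push_cast; ring,
      show 3 * lam + (v - lam / 2) = v + (5 : ℕ) * (lam / 2) by push_cast; ring]
  have hn : Dn (v - lam / 2) ≠ 0 := by rw [hD]; exact mul_ne_zero h3 h5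
  rw [← hD, ← Wn_v (v - lam / 2)]
  congr 1
  rw [mul_sub, inv_mul_cancel₀ hn]

theorem lim_vl : Tendsto (fun v => ((wl v).v - 1) / ev v ^ 2) flt
    (𝓝 (2 * (cos lam + cos (3 * lam)) * hs ^ 12)) := by
  have A3 := den9
  have A5 := dn_l
  have n3 := n9
  have n5 : hs ^ 3 / 2 ≠ 0 := div_ne_zero (pow_ne_zero _ hs_ne) two_ne_zero
  have h := quot0 (x := -(cos lam + cos (3 * lam)) / 2) A3 A5 n3 n5
  have e : -(cos lam + cos (3 * lam)) / 2 / (hs / 2 * (hs ^ 3 / 2)) =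
      2 * (cos lam + cos (3 * lam)) * hs ^ 12 := by
    rw [div_eq_iff (mul_ne_zero n3 n5)]
    linear_combination (-(cos lam + cos (3 * lam)) / 2) * hs16
  rw [e] at h
  refine h.congr' ?_
  filter_upwards [ne_of_lim A3 n3, ne_of_lim A5 n5] with v h3 h5
  simp only [wl, Wc, Wt.sc]
  have hD : Dn (3 * lam - v - lam / 2) = sin ((9 : ℕ) * (lam / 2) - v) *
      sin ((11 : ℕ) * (lam / 2) - v) := by
    rw [Dn, show 2 * lam + (3 * lam - v - lam / 2) = (9 : ℕ) * (lam / 2) - v by push_cast; ring,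
      show 3 * lam + (3 * lam - v - lam / 2) = (11 : ℕ) * (lam / 2) - v by push_cast; ring]
  have hn : Dn (3 * lam - v - lam / 2) ≠ 0 := by rw [hD]; exact mul_ne_zero h3 h5
  rw [← hD, ← Wn_v (3 * lam - v - lam / 2)]
  congr 1
  rw [mul_sub, inv_mul_cancel₀ hn]

/-- the leading term -/
def X4 (v : ℂ) : ℂ := 4 * cos (2 * v - 3 * lam)

theorem ev2_X : Tendsto (fun v => ev v ^ 2 * X4 v) flt (𝓝 (2 * hs ^ 6)) := by
  have h := (((ev_0.pow 4).mul_const ((hs ^ 6)⁻¹)).const_add (hs ^ 6)).const_mul 2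
  rw [zero_pow (by norm_num), zero_mul, add_zero] at h
  refine h.congr fun v => ?_
  rw [X4, Complex.cos, show (2 * v - 3 * lam) * I = I * v + I * v + -(I * ((6 : ℕ) * (lam / 2))) by
    push_cast; ring, show -(2 * v - 3 * lam) * I = -(I * v) + -(I * v) + I * ((6 : ℕ) * (lam / 2)) by
    push_cast; ring]
  simp only [exp_add, hs_neg, hs_exp]
  have h : exp (I * v) * exp (-(I * v)) = 1 := by rw [← exp_add]; simp
  unfold ev
  linear_combination (-2 * hs ^ 6 * (exp (I * v) * exp (-(I * v)) + 1)) * h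

theorem lim_X : Tendsto (fun v => 2 * kc (3 * lam - v) * kc v - X4 v) flt
    (𝓝 (4 * cos (6 * lam))) := by
  obtain ⟨A3, _⟩ := dn_r
  have n3 : hs ^ 5 / 2 ≠ 0 := div_ne_zero (pow_ne_zero _ hs_ne) two_ne_zero
  have hx := ev2_X
  have e2 : Tendsto (fun v => ev v ^ 2) flt (𝓝 0) := by
    have := ev_0.pow 2
    simpa using this
  -- numerator and denominator
  have hnum := (hx.const_mul (cos (6 * lam))).sub (e2.mul_const (2 + 2 * cos (6 * lam)))
  have hden := (hx.const_mul (1 / 4)).sub (e2.mul_const (cos (6 * lam)))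
  have hne : (1 / 4 : ℂ) * (2 * hs ^ 6) - 0 * cos (6 * lam) ≠ 0 := by
    rw [zero_mul, sub_zero]
    exact mul_ne_zero (by norm_num) (mul_ne_zero two_ne_zero (pow_ne_zero _ hs_ne))
  have h := hnum.div hden hne
  have e : (cos (6 * lam) * (2 * hs ^ 6) - 0 * (2 + 2 * cos (6 * lam))) /
      (1 / 4 * (2 * hs ^ 6) - 0 * cos (6 * lam)) = 4 * cos (6 * lam) := by
    rw [div_eq_iff hne]; ring
  rw [e] at h
  refine h.congr' ?_
  filter_upwards [ne_of_lim A3 n3, ne_of_lim den9 n9, hden.eventually_ne hne] with v h3 h9 hd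
  have hev := ev_ne v
  have hd' : X4 v / 4 - cos (6 * lam) ≠ 0 := by
    intro h0
    apply hd
    have : (1 / 4 : ℂ) * (ev v ^ 2 * X4 v) - ev v ^ 2 * cos (6 * lam) =
      ev v ^ 2 * (X4 v / 4 - cos (6 * lam)) := by ring
    rw [this, h0, mul_zero]
  -- product of the sines
  have hp : sin ((9 : ℕ) * (lam / 2) - v) * sin (v + (3 : ℕ) * (lam / 2)) =
      (X4 v / 4 - cos (6 * lam)) / 2 := by
    have e1 : cos (2 * v - 3 * lam) = cos ((v + (3 : ℕ) * (lam / 2)) - ((9 : ℕ) * (lam / 2) - v)) := by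
      congr 1; push_cast; ring
    have e2 : cos (6 * lam) = cos ((v + (3 : ℕ) * (lam / 2)) + ((9 : ℕ) * (lam / 2) - v)) := by
      congr 1; push_cast; ring
    rw [X4, e1, e2, cos_sub (v + (3 : ℕ) * (lam / 2)) ((9 : ℕ) * (lam / 2) - v),
      cos_add (v + (3 : ℕ) * (lam / 2)) ((9 : ℕ) * (lam / 2) - v)]
    ring
  have hq : sin (2 * (3 * lam - v)) * sin (2 * v) = (2 * (X4 v / 4) ^ 2 - 1 - cos (6 * lam)) / 2 := by
    have h1 : cos (2 * (2 * v - 3 * lam)) = 2 * (X4 v / 4) ^ 2 - 1 := by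
      rw [cos_two_mul, X4]; ring
    have e1 : cos (2 * (2 * v - 3 * lam)) = cos (2 * v - 2 * (3 * lam - v)) := by congr 1; ring
    have e2 : cos (6 * lam) = cos (2 * v + 2 * (3 * lam - v)) := by congr 1; ring
    rw [← h1, e1, e2, cos_sub (2 * v) (2 * (3 * lam - v)), cos_add (2 * v) (2 * (3 * lam - v))]
    ring
  have hk : kc (3 * lam - v) * kc v = (2 * (X4 v / 4) ^ 2 - 1 - cos (6 * lam)) /
      (X4 v / 4 - cos (6 * lam)) := by
    rw [kc, kc, Sc, Sc, show 3 * lam / 2 + (3 * lam - v) = (9 : ℕ) * (lam / 2) - v by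
      push_cast; ring, show 3 * lam / 2 + v = v + (3 : ℕ) * (lam / 2) by push_cast; ring,
      div_mul_div_comm, hp, hq]
    field_simp
  show (cos (6 * lam) * (ev v ^ 2 * X4 v) - ev v ^ 2 * (2 + 2 * cos (6 * lam))) /
    (1 / 4 * (ev v ^ 2 * X4 v) - ev v ^ 2 * cos (6 * lam)) = _
  rw [show 2 * kc (3 * lam - v) * kc v = 2 * (kc (3 * lam - v) * kc v) by ring, hk]
  have hd2 : X4 v - 4 * cos (6 * lam) ≠ 0 := by
    intro h0
    apply hd'
    linear_combination h0 / 4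
  rw [show (1 / 4 : ℂ) * (ev v ^ 2 * X4 v) - ev v ^ 2 * cos (6 * lam) =
    ev v ^ 2 * (X4 v / 4 - cos (6 * lam)) by ring, div_eq_iff (mul_ne_zero (pow_ne_zero 2 hev) hd')]
  generalize hY : (2 * (X4 v / 4) ^ 2 - 1 - cos (6 * lam)) / (X4 v / 4 - cos (6 * lam)) = Y
  rw [div_eq_iff hd'] at hY
  linear_combination (2 * ev v ^ 2) * hY

end

end Pool.Agent.EXK
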