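import Pool.Agent.EXK.Exp2

/-!
# The expansion of the double column at the empty state for the honeycomb rows (board EXK, K1)

Main result: `expansion`.
-/

set_option autoImplicit false

namespace Pool.Agent.EXK

open Pool.Agent.EXL Pat Filter Topology Complex Fm

noncomputable section

variable {α : Type*} [DecidableEq α]

theorem lin_M {K : Type*} [CommRing K] (w : α → Wt K) (i : α) (L : List α) : Lin (M w i L) := by
  induction L with
  | nil => intro a b F G; rfl
  | cons j L ih => exact (lin_R _ _ _).comp ih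

theorem lin_TT {K : Type*} [CommRing K] (x x' y y' : K) (w w' : α → Wt K) (l r b t : α)
    (L : List α) : Lin (TT x x' y y' w w' l r b t L) :=
  (lin_bot _ _ _ _ _).comp ((lin_M _ _ _).comp ((lin_M _ _ _).comp (lin_top _ _ _ _ _)))

theorem c6_val : cos (6 * lam) = -((Real.sqrt 2 : ℝ) : ℂ) / 2 := by
  rw [show 6 * lam = Real.pi - ((Real.pi / 4 : ℝ) : ℂ) by rw [lam]; push_cast; ring, cos_pi_sub,
    ← Complex.ofReal_cos, Real.cos_pi_div_four]
  push_cast; ring

theorem sin_lam_ne : sin lam ≠ 0 := by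
  intro h
  have := s1c
  rw [h] at this
  simp at this

/-- The functions that are 1 at the completed state and vanish at the dead states. -/
theorem expansion {l r b t : α} (hlr : l ≠ r) (hlt : l ≠ t) (hrt : r ≠ t)
    (hlb : l ≠ b) (hrb : r ≠ b) (hbt : b ≠ t) (L : List α) (hl : l ∉ L) (hr : r ∉ L)
    (ht : t ∉ L) (hb : b ∉ L) (hL : L.Nodup) {F : Pat α → ℂ} (hF : F (full b t) = 1)
    (hF0 : ∀ q, q b = t → q ≠ full b t → F q = 0) :
    Tendsto (fun v => Tv (fun _ => lam / 2) l r b t L v F Pat.empty - 4 * cos (2 * v - 3 * lam)) flt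
      (𝓝 (F Pat.empty - 2 * ((Real.sqrt 2 : ℝ) : ℂ) + L.length * (4 - 2 * cos lam / sin lam) -
        8 * sin lam ^ 2 * sin (2 * lam) * St F t L Pat.empty -
        8 * sin lam * sin (2 * lam) ^ 2 * St F b L Pat.empty +
        (4 * cos lam - 8 * sin lam) * S2 F b t L)) := by
  classical
  set F1 : Pat α → ℂ := fun q => if q b = t then 0 else F q with hF1
  set F2 : Pat α → ℂ := fun q => if q = full b t then 1 else 0 with hF2
  have fb : (full b t : Pat α) b = t := by
    rw [full, cup_apply ⟨rfl, rfl⟩]; simp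
  have hsum : F = fun q => 1 * F1 q + 1 * F2 q := by
    funext q
    simp only [hF1, hF2, one_mul]
    by_cases h : q = full b t
    · rw [h, if_pos fb, if_pos rfl, hF]; ring
    · rw [if_neg h]
      by_cases h' : q b = t
      · rw [if_pos h', hF0 q h' h]; ring
      · rw [if_neg h']; ring
  have f1 : ∀ q : Pat α, q b = t → F1 q = 0 := fun q hq => if_pos hq
  have ebt : (Pat.empty : Pat α) b ≠ t := hbt
  have F1e : F1 Pat.empty = F Pat.empty := if_neg ebt
  -- the values of F1 at the states of the sums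
  have g1 : ∀ j, j ∈ L → F1 (cup j t Pat.empty) = F (cup j t Pat.empty) := by
    intro j hj
    refine if_neg ?_
    rw [cup_out _ (ne_of_notMem (L := L) hb hj).symm hbt]
    exact hbt
  have g2 : ∀ j, j ∈ L → F1 (cup j b Pat.empty) = F (cup j b Pat.empty) := by
    intro j hj
    have hjb := ne_of_notMem (L := L) hb hj
    have hjt := ne_of_notMem (L := L) ht hj
    refine if_neg ?_
    have : (cup j b (Pat.empty : Pat α)) b = j := by rw [cup_apply ⟨rfl, rfl⟩]; simp [hjb.symm]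
    rw [this]; exact hjt
  have g3 : ∀ i j, i ∈ L → j ∈ L → i ≠ j →
      F1 (cup j t (cup i b Pat.empty)) = F (cup j t (cup i b Pat.empty)) := by
    intro i j hi hj hij
    have hjb := ne_of_notMem (L := L) hb hj
    have hib := ne_of_notMem (L := L) hb hi
    have hit := ne_of_notMem (L := L) ht hi
    refine if_neg ?_
    have : (cup i b (Pat.empty : Pat α)) b = i := by rw [cup_apply ⟨rfl, rfl⟩]; simp [hib.symm]
    rw [cup_out _ hjb.symm hbt, this]; exact hit
  have e1 : St F1 t L Pat.empty = St F t L Pat.empty := by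
    unfold St
    congr 1
    exact List.map_congr_left fun j hj => g1 j hj
  have e2 : St F1 b L Pat.empty = St F b L Pat.empty := by
    unfold St
    congr 1
    exact List.map_congr_left fun j hj => g2 j hj
  have e3 : ∀ L' : List α, L'.Nodup → (∀ j ∈ L', j ∈ L) → S2 F1 b t L' = S2 F b t L' := by
    intro L'
    induction L' with
    | nil => intro _ _; rfl
    | cons i L' ih =>
      intro hn hs
      rw [List.nodup_cons] at hn
      rw [S2_cons, S2_cons, ih hn.2 (fun j hj => hs j (List.mem_cons_of_mem _ hj))]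
      congr 1
      unfold St
      congr 1
      refine List.map_congr_left fun j hj => g3 i j (hs i List.mem_cons_self)
        (hs j (List.mem_cons_of_mem _ hj)) ?_
      rintro rfl
      exact hn.1 hj
  have x1 := lim_TT asy f1 hlr hlt hrt hlb hrb hbt L hl hr ht hb hL lim_Kb lim_kb
  rw [e1, e2, e3 L hL (fun j hj => hj), F1e] at x1
  have x2 := lim_full asy lim_vr lim_vl L.length lim_kb lim_X
  have h := x1.add x2
  have h16 := hs16
  have k1 : hs ^ 3 * (hs ^ 5 - hs ^ 13 + (-hs ^ 13 - hs ^ 5) +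
      hs ^ 10 * (hs ^ 7 - hs ^ 15 + (-hs ^ 11 - hs ^ 3) * hs ^ 12)) =
      -(8 * sin lam ^ 2 * sin (2 * lam)) := by
    rw [s1_eq, s2_eq]
    linear_combination (-hs ^ 16 - hs ^ 20) * h16
  have k2 : hs ^ 3 * (-hs ^ 11 - hs ^ 3 + (hs ^ 7 - hs ^ 15) +
      -hs ^ 6 * (-hs ^ 13 - hs ^ 5 + (hs ^ 5 - hs ^ 13) * -hs ^ 4)) =
      -(8 * sin lam * sin (2 * lam) ^ 2) := by
    rw [s1_eq, s2_eq]
    linear_combination (-hs ^ 6 + hs ^ 10 + hs ^ 14 - hs ^ 18) * h16
  have k3 : hs ^ 3 * hs ^ 3 * ((-hs ^ 11 - hs ^ 3 + (hs ^ 7 - hs ^ 15)) *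
      (hs ^ 5 - hs ^ 13 + (-hs ^ 13 - hs ^ 5)) + (hs ^ 5 - hs ^ 13) * hs ^ 12 *
      (hs ^ 7 - hs ^ 15 + (-hs ^ 11 - hs ^ 3) * hs ^ 12) +
      (-hs ^ 13 - hs ^ 5 + (hs ^ 5 - hs ^ 13) * -hs ^ 4) * ((-hs ^ 11 - hs ^ 3) * -hs ^ 4)) =
      4 * cos lam - 8 * sin lam := by
    rw [s1_eq, c1_eq]
    linear_combination (-2 * hs ^ 2 + 4 * hs ^ 6 - 4 * hs ^ 10 + 2 * hs ^ 14 + hs ^ 18 -
      3 * hs ^ 22 + hs ^ 30 + hs ^ 38) * h16
  have k4 : hs ^ 3 * hs ^ 3 * (2 * (cos lam + cos (3 * lam)) * hs ^ 8 +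
      2 * (cos lam + cos (3 * lam)) * hs ^ 12 + (-hs ^ 11 - hs ^ 3) * (hs ^ 7 - hs ^ 15) +
      (hs ^ 5 - hs ^ 13) * (-hs ^ 13 - hs ^ 5)) = 4 - 2 * cos lam / sin lam := by
    apply mul_right_cancel₀ sin_lam_ne
    rw [sub_mul (4 : ℂ), div_mul_cancel₀ _ sin_lam_ne, s1_eq, c1_eq, c3_eq]
    linear_combination (hs ^ 2 + (-2) * hs ^ 6 + (2) * hs ^ 10 + (-1) * hs ^ 14 + (-1) * hs ^ 18 + (3 / 2) * hs ^ 22 + (-1 / 2) * hs ^ 26) * h16
  rw [k1, k2, k3, k4] at h
  have e : F Pat.empty + -(8 * sin lam ^ 2 * sin (2 * lam)) * St F t L Pat.empty +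
      -(8 * sin lam * sin (2 * lam) ^ 2) * St F b L Pat.empty +
      (4 * cos lam - 8 * sin lam) * S2 F b t L +
      (4 * cos (6 * lam) + L.length * (4 - 2 * cos lam / sin lam)) =
      F Pat.empty - 2 * ((Real.sqrt 2 : ℝ) : ℂ) + L.length * (4 - 2 * cos lam / sin lam) -
        8 * sin lam ^ 2 * sin (2 * lam) * St F t L Pat.empty -
        8 * sin lam * sin (2 * lam) ^ 2 * St F b L Pat.empty +
        (4 * cos lam - 8 * sin lam) * S2 F b t L := by
    rw [c6_val]; ring
  rw [e] at h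
  refine h.congr fun v => ?_
  have hT : Tv (fun _ => lam / 2) l r b t L v F Pat.empty =
      TT (Kc (3 * lam - v)) (kc (3 * lam - v)) (Kc v) (kc v) (fun _ => wr v) (fun _ => wl v)
        l r b t L F Pat.empty := rfl
  have hF2f : F2 (cup b t Pat.empty) = 1 := if_pos rfl
  have hF20 : ∀ q, q ≠ cup b t Pat.empty → F2 q = 0 := fun q hq => if_neg hq
  have hl1 := lin_TT (Kc (3 * lam - v)) (kc (3 * lam - v)) (Kc v) (kc v) (fun _ : α => wr v)
    (fun _ => wl v) l r b t L 1 1 F1 F2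
  rw [← hsum] at hl1
  have hfull := TT_full (w := wr v) (w' := wl v) hF2f hF20 (Kc v) (kc v) (Kc (3 * lam - v))
    (kc (3 * lam - v)) hlr hlt hrt hlb hrb hbt L hl hr ht hb hL
  have hl2 := congrFun hl1 Pat.empty
  rw [hT, hl2]
  show _ + (_ - X4 v) = 1 * _ + 1 * _ - _
  rw [hfull, X4]
  ring

end

end Pool.Agent.EXK
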