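import Mathlib

/-!
# EXK/FinI (helper42): the last step for an increasing sequence

If `B ≥ 0` is increasing, `∑_{m<n} u m ^ 2 ~ q1 n^(3/2)` and `∑_{m<n} B m ^ 2 u m ^ 2 ~ q2 n^3`, then
`B n / n^(3/4) → √(2 q2 / q1)`.
-/

set_option autoImplicit false

namespace EXK

open Filter Topology Finset

private lemma floor_lim {c : ℝ} (hc : 0 < c) : Tendsto (fun n : ℕ => ((⌊c * n⌋₊ : ℕ) : ℝ) / n) atTop (𝓝 c) := by
  have h := (tendsto_nat_floor_mul_div_atTop (R := ℝ) hc.le).comp tendsto_natCast_atTop_atTop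
  exact h

private lemma floor_top {c : ℝ} (hc : 0 < c) : Tendsto (fun n : ℕ => ⌊c * n⌋₊) atTop atTop :=
  tendsto_nat_floor_atTop.comp (tendsto_natCast_atTop_atTop.const_mul_atTop hc)

private lemma scale {Q : ℕ → ℝ} {q p : ℝ} (h : Tendsto (fun n : ℕ => Q n / (n : ℝ) ^ p) atTop (𝓝 q))
    {c : ℝ} (hc : 0 < c) :
    Tendsto (fun n : ℕ => Q ⌊c * n⌋₊ / (n : ℝ) ^ p) atTop (𝓝 (q * c ^ p)) := by
  have h1 := h.comp (floor_top hc)
  have h2 : Tendsto (fun n : ℕ => (((⌊c * n⌋₊ : ℕ) : ℝ) / n) ^ p) atTop (𝓝 (c ^ p)) :=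
    (floor_lim hc).rpow_const (Or.inl hc.ne')
  refine (h1.mul h2).congr' ?_
  filter_upwards [eventually_gt_atTop 0, (floor_top hc).eventually_gt_atTop 0] with n hn hk
  have hn' : (0 : ℝ) < n := by exact_mod_cast hn
  have hk' : (0 : ℝ) < ((⌊c * n⌋₊ : ℕ) : ℝ) := by exact_mod_cast hk
  show Q ⌊c * n⌋₊ / ((⌊c * n⌋₊ : ℕ) : ℝ) ^ p * (((⌊c * n⌋₊ : ℕ) : ℝ) / n) ^ p = Q ⌊c * n⌋₊ / (n : ℝ) ^ p
  rw [Real.div_rpow hk'.le hn'.le]
  have h3 : 0 < ((⌊c * n⌋₊ : ℕ) : ℝ) ^ p := Real.rpow_pos_of_pos hk' p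
  have h4 : 0 < (n : ℝ) ^ p := Real.rpow_pos_of_pos hn' p
  field_simp

/-- the reduction for an increasing sequence -/
theorem fin_inc {u B : ℕ → ℝ} {q1 q2 : ℝ} (hq1 : 0 < q1) (hq2 : 0 < q2) (hB0 : ∀ n, 0 ≤ B n) (hB : Monotone B)
    (h1 : Tendsto (fun n : ℕ => (∑ m ∈ range n, u m ^ 2) / (n : ℝ) ^ (3 / 2 : ℝ)) atTop (𝓝 q1))
    (h2 : Tendsto (fun n : ℕ => (∑ m ∈ range n, B m ^ 2 * u m ^ 2) / (n : ℝ) ^ (3 : ℝ)) atTop (𝓝 q2)) :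
    Tendsto (fun n : ℕ => B n / (n : ℝ) ^ (3 / 4 : ℝ)) atTop (𝓝 (Real.sqrt (2 * (q2 / q1)))) := by
  set Q1 : ℕ → ℝ := fun n => ∑ m ∈ range n, u m ^ 2 with hQ1
  set Q2 : ℕ → ℝ := fun n => ∑ m ∈ range n, B m ^ 2 * u m ^ 2 with hQ2
  set X : ℕ → ℝ := fun n => B n ^ 2 / (n : ℝ) ^ (3 / 2 : ℝ) with hX
  have hsum : ∀ m n : ℕ, m ≤ n → Q1 n - Q1 m = ∑ i ∈ Ico m n, u i ^ 2 := by
    intro m n hmn
    rw [Finset.sum_Ico_eq_sub _ hmn]
  have hsum2 : ∀ m n : ℕ, m ≤ n → Q2 n - Q2 m = ∑ i ∈ Ico m n, B i ^ 2 * u i ^ 2 := by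
    intro m n hmn
    rw [Finset.sum_Ico_eq_sub _ hmn]
  have hlow : ∀ m n : ℕ, m ≤ n → B m ^ 2 * (Q1 n - Q1 m) ≤ Q2 n - Q2 m := by
    intro m n hmn
    rw [hsum m n hmn, hsum2 m n hmn, Finset.mul_sum]
    apply Finset.sum_le_sum
    intro i hi
    rw [Finset.mem_Ico] at hi
    apply mul_le_mul_of_nonneg_right _ (sq_nonneg _)
    exact pow_le_pow_left₀ (hB0 m) (hB hi.1) 2
  have hup : ∀ m n : ℕ, m ≤ n → Q2 n - Q2 m ≤ B n ^ 2 * (Q1 n - Q1 m) := by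
    intro m n hmn
    rw [hsum m n hmn, hsum2 m n hmn, Finset.mul_sum]
    apply Finset.sum_le_sum
    intro i hi
    rw [Finset.mem_Ico] at hi
    apply mul_le_mul_of_nonneg_right _ (sq_nonneg _)
    exact pow_le_pow_left₀ (hB0 i) (hB hi.2.le) 2
  have hXn : ∀ (n : ℕ) (D : ℝ), 0 < n → X n * (D / (n : ℝ) ^ (3 / 2 : ℝ)) = B n ^ 2 * D / (n : ℝ) ^ (3 : ℝ) := by
    intro n D hn
    have hn' : (0 : ℝ) < n := by exact_mod_cast hn
    have h3 : (n : ℝ) ^ (3 : ℝ) = (n : ℝ) ^ (3 / 2 : ℝ) * (n : ℝ) ^ (3 / 2 : ℝ) := by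
      rw [← Real.rpow_add hn']
      norm_num
    rw [hX, h3]
    have h4 : 0 < (n : ℝ) ^ (3 / 2 : ℝ) := Real.rpow_pos_of_pos hn' _
    field_simp
  set g : ℝ := 2 * (q2 / q1) with hg
  have hg0 : 0 < g := by positivity
  have hG : Tendsto (fun c : ℝ => q2 / q1 * (c ^ (3 / 2 : ℝ) + 1)) (𝓝 1) (𝓝 g) := by
    have h3 : ContinuousAt (fun c : ℝ => q2 / q1 * (c ^ (3 / 2 : ℝ) + 1)) 1 := by
      refine ContinuousAt.mul continuousAt_const (ContinuousAt.add ?_ continuousAt_const)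
      exact ContinuousAt.rpow_const continuousAt_id (Or.inl one_ne_zero)
    have h4 := h3.tendsto
    rw [Real.one_rpow] at h4
    rw [hg]
    convert h4 using 2
    ring
  have hcube : ∀ c : ℝ, 0 < c → c ^ (3 : ℝ) = c ^ (3 / 2 : ℝ) * c ^ (3 / 2 : ℝ) := by
    intro c hc
    rw [← Real.rpow_add hc]
    norm_num
  have hlim : Tendsto X atTop (𝓝 g) := by
    rw [tendsto_order]
    constructor
    · intro a ha
      have h3 : ∀ᶠ c in 𝓝[<] (1 : ℝ), a < q2 / q1 * (c ^ (3 / 2 : ℝ) + 1) :=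
        nhdsWithin_le_nhds (hG.eventually (lt_mem_nhds ha))
      have h3' : ∀ᶠ c in 𝓝[<] (1 : ℝ), (0 : ℝ) < c :=
        nhdsWithin_le_nhds (lt_mem_nhds (by norm_num))
      obtain ⟨c, ⟨hc, hc0⟩, hc1⟩ := ((h3.and h3').and self_mem_nhdsWithin).exists
      have hc1' : c < 1 := hc1
      have hp : 0 < 1 - c ^ (3 / 2 : ℝ) := sub_pos.2 (Real.rpow_lt_one hc0.le hc1' (by norm_num))
      have hcc : q2 / q1 * (c ^ (3 / 2 : ℝ) + 1) =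
          (q2 - q2 * c ^ (3 : ℝ)) / (q1 - q1 * c ^ (3 / 2 : ℝ)) := by
        have h5 : q1 - q1 * c ^ (3 / 2 : ℝ) = q1 * (1 - c ^ (3 / 2 : ℝ)) := by ring
        rw [h5, hcube c hc0]
        have := hp.ne'
        have := hq1.ne'
        field_simp
        ring
      rw [hcc] at hc
      have hD1 : Tendsto (fun n : ℕ => (Q1 n - Q1 ⌊c * n⌋₊) / (n : ℝ) ^ (3 / 2 : ℝ)) atTop
          (𝓝 (q1 - q1 * c ^ (3 / 2 : ℝ))) := by
        refine (h1.sub (scale h1 hc0)).congr fun n => ?_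
        rw [sub_div]
      have hD2 : Tendsto (fun n : ℕ => (Q2 n - Q2 ⌊c * n⌋₊) / (n : ℝ) ^ (3 : ℝ)) atTop
          (𝓝 (q2 - q2 * c ^ (3 : ℝ))) := by
        refine (h2.sub (scale h2 hc0)).congr fun n => ?_
        rw [sub_div]
      have hpos : 0 < q1 - q1 * c ^ (3 / 2 : ℝ) := by nlinarith
      have h7 := (hD2.div hD1 hpos.ne').eventually (lt_mem_nhds hc)
      have h8 := hD1.eventually (lt_mem_nhds hpos)
      filter_upwards [h7, h8, eventually_gt_atTop 0] with n h9 h10 hn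
      have hn' : (0 : ℝ) < n := by exact_mod_cast hn
      have h11 : ⌊c * n⌋₊ ≤ n := by
        have h15 : ⌊c * n⌋₊ ≤ ⌊(n : ℝ)⌋₊ := Nat.floor_le_floor (by nlinarith)
        rwa [Nat.floor_natCast] at h15
      have h12 := hup _ n h11
      have h16 : (0 : ℝ) < (n : ℝ) ^ (3 : ℝ) := Real.rpow_pos_of_pos hn' _
      have h13 : (Q2 n - Q2 ⌊c * n⌋₊) / (n : ℝ) ^ (3 : ℝ) ≤
          X n * ((Q1 n - Q1 ⌊c * n⌋₊) / (n : ℝ) ^ (3 / 2 : ℝ)) := by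
        rw [hXn n _ hn]
        exact div_le_div_of_nonneg_right h12 h16.le
      have h14 : (Q2 n - Q2 ⌊c * n⌋₊) / (n : ℝ) ^ (3 : ℝ) / ((Q1 n - Q1 ⌊c * n⌋₊) / (n : ℝ) ^ (3 / 2 : ℝ)) ≤ X n :=
        (div_le_iff₀ h10).2 h13
      exact lt_of_lt_of_le h9 h14
    · intro a ha
      have h3 : ∀ᶠ c in 𝓝[>] (1 : ℝ), q2 / q1 * (c ^ (3 / 2 : ℝ) + 1) < a :=
        nhdsWithin_le_nhds (hG.eventually (gt_mem_nhds ha))
      obtain ⟨c, hc, hc1⟩ := (h3.and self_mem_nhdsWithin).exists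
      have hc1' : 1 < c := hc1
      have hc0 : 0 < c := by linarith
      have hp : 0 < c ^ (3 / 2 : ℝ) - 1 := sub_pos.2 (Real.one_lt_rpow hc1' (by norm_num))
      have hcc : q2 / q1 * (c ^ (3 / 2 : ℝ) + 1) =
          (q2 * c ^ (3 : ℝ) - q2) / (q1 * c ^ (3 / 2 : ℝ) - q1) := by
        have h5 : q1 * c ^ (3 / 2 : ℝ) - q1 = q1 * (c ^ (3 / 2 : ℝ) - 1) := by ring
        rw [h5, hcube c hc0]
        have := hp.ne'
        have := hq1.ne'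
        field_simp
        ring
      rw [hcc] at hc
      have hD1 : Tendsto (fun n : ℕ => (Q1 ⌊c * n⌋₊ - Q1 n) / (n : ℝ) ^ (3 / 2 : ℝ)) atTop
          (𝓝 (q1 * c ^ (3 / 2 : ℝ) - q1)) := by
        refine ((scale h1 hc0).sub h1).congr fun n => ?_
        rw [sub_div]
      have hD2 : Tendsto (fun n : ℕ => (Q2 ⌊c * n⌋₊ - Q2 n) / (n : ℝ) ^ (3 : ℝ)) atTop
          (𝓝 (q2 * c ^ (3 : ℝ) - q2)) := by
        refine ((scale h2 hc0).sub h2).congr fun n => ?_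
        rw [sub_div]
      have hpos : 0 < q1 * c ^ (3 / 2 : ℝ) - q1 := by nlinarith
      have h7 := (hD2.div hD1 hpos.ne').eventually (gt_mem_nhds hc)
      have h8 := hD1.eventually (lt_mem_nhds hpos)
      filter_upwards [h7, h8, eventually_gt_atTop 0] with n h9 h10 hn
      have hn' : (0 : ℝ) < n := by exact_mod_cast hn
      have h11 : n ≤ ⌊c * n⌋₊ := Nat.le_floor (by nlinarith)
      have h12 := hlow n _ h11
      have h16 : (0 : ℝ) < (n : ℝ) ^ (3 : ℝ) := Real.rpow_pos_of_pos hn' _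
      have h13 : X n * ((Q1 ⌊c * n⌋₊ - Q1 n) / (n : ℝ) ^ (3 / 2 : ℝ)) ≤
          (Q2 ⌊c * n⌋₊ - Q2 n) / (n : ℝ) ^ (3 : ℝ) := by
        rw [hXn n _ hn]
        exact div_le_div_of_nonneg_right h12 h16.le
      have h14 : X n ≤ (Q2 ⌊c * n⌋₊ - Q2 n) / (n : ℝ) ^ (3 : ℝ) / ((Q1 ⌊c * n⌋₊ - Q1 n) / (n : ℝ) ^ (3 / 2 : ℝ)) :=
        (le_div_iff₀ h10).2 h13
      exact lt_of_le_of_lt h14 h9
  refine ((Real.continuous_sqrt.tendsto g).comp hlim).congr fun n => ?_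
  show Real.sqrt (B n ^ 2 / (n : ℝ) ^ (3 / 2 : ℝ)) = B n / (n : ℝ) ^ (3 / 4 : ℝ)
  have hn' : (0 : ℝ) ≤ n := Nat.cast_nonneg n
  rw [Real.sqrt_div (sq_nonneg _), Real.sqrt_sq (hB0 n)]
  congr 1
  rw [Real.sqrt_eq_rpow, ← Real.rpow_mul hn']
  norm_num

end EXK
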