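import Pool.Agent.EXK.Lim3

/-!
# The coefficient of the completed state in the double column (board EXK, K1)
-/

set_option autoImplicit false

namespace Pool.Agent.EXK

open Pool.Agent.EXL Pat Filter Topology

section alg

variable {α K : Type*} [DecidableEq α] [CommRing K] {w w' : Wt K} {l r b t : α}

theorem R_inv {i j s : α} (h1 : s ≠ i) (h2 : s ≠ j) (β : Prop) (w : Wt K) {F : Pat α → K}
    (hF : ∀ q, ((q s = s) ↔ β) → F q = 0) (p : Pat α) (hp : (p s = s) ↔ β) : R w i j F p = 0 := by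
  have c1 : F p = 0 := hF p hp
  have c2 : F (cup i j p) = 0 := hF _ (by rw [cup_out p h1 h2]; exact hp)
  have c3 : F (swap i j p) = 0 := hF _ ((swap_fixed h1 h2).trans hp)
  have c4 : F (cut i j p) = 0 := hF _ ((cut_fix_out p h1 h2).trans hp)
  have c5 : F (cup i j (cut i j p)) = 0 := hF _ (by
    rw [cup_out _ h1 h2]; exact (cut_fix_out p h1 h2).trans hp)
  unfold R
  split_ifs <;> simp [c1, c2, c3, c4, c5]

theorem top_inv {i j t s : α} (h1 : s ≠ i) (h2 : s ≠ j) (h3 : s ≠ t) (β : Prop) (x y : K)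
    {F : Pat α → K}
    (hF : ∀ q, ((q s = s) ↔ β) → F q = 0) (p : Pat α) (hp : (p s = s) ↔ β) :
    top x y i j t F p = 0 := by
  have c1 : F p = 0 := hF p hp
  have c2 : F (swap j t p) = 0 := hF _ ((swap_fixed h2 h3).trans hp)
  have c3 : F (swap i t p) = 0 := hF _ ((swap_fixed h1 h3).trans hp)
  have c4 : F (cut i j p) = 0 := hF _ ((cut_fix_out p h1 h2).trans hp)
  unfold top
  split_ifs <;> simp [c1, c2, c3, c4]

theorem MM_inv {s : α} (h1 : s ≠ l) (h2 : s ≠ r) (L : List α) (hs : s ∉ L) (β : Prop)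
    {F : Pat α → K} (hF : ∀ q, ((q s = s) ↔ β) → F q = 0) (p : Pat α) (hp : (p s = s) ↔ β) :
    MM w w' l r L F p = 0 := by
  induction L generalizing p with
  | nil => exact hF p hp
  | cons j L ih =>
    rw [List.mem_cons, not_or] at hs
    rw [MM_cons]
    exact R_inv h2 hs.1 β w (fun q hq => R_inv h1 hs.1 β w' (fun q hq => ih hs.2 q hq) q hq) p hp

/-- the two amplitudes -/
def xy (w w' : Wt K) (kt : K) : ℕ → K × K
  | 0 => (kt, kt)
  | n + 1 => (w.v * (xy w w' kt n).1 + w.u1 * (w'.u1 * (xy w w' kt n).2),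
      w'.v * (xy w w' kt n).2 + w.u2 * (w'.u2 * (xy w w' kt n).1))

theorem MM_full {F : Pat α → K} (hF : F (cup b t Pat.empty) = 1)
    (hF0 : ∀ q, q ≠ cup b t Pat.empty → F q = 0) (x y : K)
    (hlr : l ≠ r) (hlt : l ≠ t) (hrt : r ≠ t)
    (hlb : l ≠ b) (hrb : r ≠ b) (hbt : b ≠ t) (L : List α) (hl : l ∉ L) (hr : r ∉ L)
    (ht : t ∉ L) (hb : b ∉ L) (hL : L.Nodup) :
    MM w w' l r L (top x y l r t F) (cup r b Pat.empty) = (xy w w' y L.length).1 ∧
    MM w w' l r L (top x y l r t F) (cup l b Pat.empty) = (xy w w' y L.length).2 := by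
  have e0 : ∀ x : α, (Pat.empty : Pat α) x = x := fun _ => rfl
  have prr : (cup r b (Pat.empty : Pat α)) r ≠ r := cup_left hrb (e0 r) (e0 b)
  have prl : (cup r b (Pat.empty : Pat α)) l = l := by rw [cup_out _ hlr hlb]; rfl
  have prt : (cup r b (Pat.empty : Pat α)) t = t := by rw [cup_out _ hrt.symm hbt.symm]; rfl
  have pll : (cup l b (Pat.empty : Pat α)) l ≠ l := cup_left hlb (e0 l) (e0 b)
  have plr : (cup l b (Pat.empty : Pat α)) r = r := by rw [cup_out _ hlr.symm hrb]; rfl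
  have plt : (cup l b (Pat.empty : Pat α)) t = t := by rw [cup_out _ hlt.symm hbt.symm]; rfl
  induction L with
  | nil =>
    constructor
    · show top x y l r t F (cup r b Pat.empty) = y
      rw [top_r prl prr prt (swap_cup_mv (e0 r) (e0 b) (e0 t) hrb hrt hbt), hF, mul_one]
    · show top x y l r t F (cup l b Pat.empty) = y
      rw [top_l pll plr plt (swap_cup_mv (e0 l) (e0 b) (e0 t) hlb hlt hbt), hF, mul_one]
  | cons j L ih =>
    rw [List.mem_cons, not_or] at hl hr ht hb
    rw [List.nodup_cons] at hL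
    obtain ⟨ih1, ih2⟩ := ih hl.2 hr.2 ht.2 hb.2 hL.2
    obtain ⟨hlj, hl⟩ := hl
    obtain ⟨hrj, hr⟩ := hr
    obtain ⟨htj, ht⟩ := ht
    obtain ⟨hbj, hb⟩ := hb
    have hlj : l ≠ j := hlj
    have hrj : r ≠ j := hrj
    have htj : t ≠ j := htj
    have hbj : b ≠ j := hbj
    have hjL := hL.1
    -- states with the row j occupied do not contribute
    have van : ∀ q : Pat α, q j ≠ j → MM w w' l r L (top x y l r t F) q = 0 := by
      intro q hq
      refine MM_inv hlj.symm hrj.symm L hjL False (fun q hq => ?_) q (iff_false_intro hq)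
      refine top_inv hlj.symm hrj.symm htj.symm False x y (fun q hq => ?_) q hq
      apply hF0
      intro h
      have hq : q j ≠ j := fun h' => (hq.1 h')
      apply hq
      rw [h, cup_out _ hbj.symm htj.symm]; rfl
    have s1 : cup l j (cup r b (Pat.empty : Pat α)) = cup r b (cup l j Pat.empty) :=
      cup_cup_cm hlr hlb hrj.symm hbj.symm
    have s2 : swap r j (cup r b (Pat.empty : Pat α)) = cup j b Pat.empty := by
      rw [swap_cup_mv (e0 r) (e0 b) (e0 j) hrb hrj hbj, cup_cm]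
    have s3 : swap l j (cup j b (Pat.empty : Pat α)) = cup l b Pat.empty := by
      have : swap l j (cup j b (Pat.empty : Pat α)) = swap j l (cup j b Pat.empty) := by
        unfold swap; simp only [Equiv.swap_comm l j]
      rw [this, swap_cup_mv (e0 j) (e0 b) (e0 l) hbj.symm hlj.symm hlb.symm, cup_cm]
    have s4 : swap l j (cup l b (Pat.empty : Pat α)) = cup j b Pat.empty := by
      rw [swap_cup_mv (e0 l) (e0 b) (e0 j) hlb hlj hbj, cup_cm]
    have s5 : swap l j (cup r j (cup l b (Pat.empty : Pat α))) = cup l r (cup j b Pat.empty) :=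
      swap_cup_three hlr hlb hrb hlj hrj hbj
    have s6 : cut l j (cup r j (cup l b (Pat.empty : Pat α))) = cup r b Pat.empty :=
      cut_cup_three hlr hlb hrb hlj hrj hbj
    have prj : (cup r b (Pat.empty : Pat α)) j = j := by rw [cup_out _ hrj.symm hbj.symm]; rfl
    have plj : (cup l b (Pat.empty : Pat α)) j = j := by rw [cup_out _ hlj.symm hbj.symm]; rfl
    have vjb : (cup j b (Pat.empty : Pat α)) j ≠ j := cup_left hbj.symm (e0 j) (e0 b)
    have v1 : MM w w' l r L (top x y l r t F) (cup j b Pat.empty) = 0 := van _ vjb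
    have v2 : MM w w' l r L (top x y l r t F) (cup r b (cup l j Pat.empty)) = 0 := van _ (by
      rw [cup_out _ hrj.symm hbj.symm]
      exact cup_right hlj (e0 l) (e0 j))
    have v3 : MM w w' l r L (top x y l r t F) (cup l r (cup j b Pat.empty)) = 0 := van _ (by
      rw [cup_out _ hlj.symm hrj.symm]; exact vjb)
    constructor
    · rw [MM_cons, step_01 hlr hlj prj prl prr, s1, s2, s3, v1, v2, ih1, ih2]
      simp only [List.length_cons, xy]; ring
    · rw [MM_cons, step_10 hlr hlj hrj plj pll plr, s4, s5, s6, s1, v1, v2, v3, ih1, ih2]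
      simp only [List.length_cons, xy]; ring

theorem TT_full {F : Pat α → K} (hF : F (cup b t Pat.empty) = 1)
    (hF0 : ∀ q, q ≠ cup b t Pat.empty → F q = 0) (x y x' y' : K)
    (hlr : l ≠ r) (hlt : l ≠ t) (hrt : r ≠ t)
    (hlb : l ≠ b) (hrb : r ≠ b) (hbt : b ≠ t) (L : List α) (hl : l ∉ L) (hr : r ∉ L)
    (ht : t ∉ L) (hb : b ∉ L) (hL : L.Nodup) :
    TT x' y' x y (fun _ => w) (fun _ => w') l r b t L F Pat.empty =
      y' * ((xy w w' y L.length).1 + (xy w w' y L.length).2) := by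
  have e0 : ∀ x : α, (Pat.empty : Pat α) x = x := fun _ => rfl
  obtain ⟨h1, h2⟩ := MM_full hF hF0 (w := w) (w' := w') x y hlr hlt hrt hlb hrb hbt L hl hr ht hb hL
  have van : ∀ q : Pat α, q b = b → MM w w' l r L (top x y l r t F) q = 0 := by
    intro q hq
    refine MM_inv hlb.symm hrb.symm L hb True (fun q hq => ?_) q (iff_true_intro hq)
    refine top_inv hlb.symm hrb.symm hbt True x y (fun q hq => ?_) q hq
    apply hF0
    intro h
    have hq : q b = b := hq.2 trivial
    rw [h] at hq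
    exact cup_left hbt (e0 b) (e0 t) hq
  rw [TT, M_M_eq _ _ hlr hl hr hL, bot_0 rfl rfl rfl rfl rfl rfl, h1, h2, van _ rfl,
    van _ (by rw [cup_out _ hlb.symm hrb.symm]; rfl)]
  ring

end alg

section lim

variable {ι : Type*} {fl : Filter ι} {e : ι → ℂ} {w w' : ι → Wt ℂ} {Kt kt : ι → ℂ}
  {a1 a2 b1 b2 o1 o2 Kt0 κ : ℂ}

theorem xy_smul (w w' : Wt ℂ) (c y : ℂ) (n : ℕ) :
    (xy w w' (c * y) n).1 = c * (xy w w' y n).1 ∧ (xy w w' (c * y) n).2 = c * (xy w w' y n).2 := by
  induction n with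
  | zero => exact ⟨rfl, rfl⟩
  | succ n ih =>
    simp only [xy, ih.1, ih.2]
    constructor <;> ring

theorem lim_xy (A : Asy fl e w w' Kt kt a1 a2 b1 b2 o1 o2 Kt0 κ) {c c' : ℂ}
    (h : Tendsto (fun n => ((w n).v - 1) / e n ^ 2) fl (𝓝 c))
    (h' : Tendsto (fun n => ((w' n).v - 1) / e n ^ 2) fl (𝓝 c')) (N : ℕ) :
    Tendsto (fun n => ((xy (w n) (w' n) 1 N).1 - 1) / e n ^ 2) fl (𝓝 (N * (c + a1 * b1))) ∧
    Tendsto (fun n => ((xy (w n) (w' n) 1 N).2 - 1) / e n ^ 2) fl (𝓝 (N * (c' + a2 * b2))) := by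
  induction N with
  | zero =>
    simp [xy, tendsto_const_nhds]
  | succ N ih =>
    obtain ⟨i1, i2⟩ := ih
    have e2 : Tendsto (fun n => e n ^ 2) fl (𝓝 0) := by
      have := A.e0.pow 2
      simpa using this
    have to1 : ∀ {f : ι → ℂ} {c : ℂ}, Tendsto (fun n => (f n - 1) / e n ^ 2) fl (𝓝 c) →
        Tendsto f fl (𝓝 1) := by
      intro f c hf
      have := (hf.mul e2).add_const 1
      rw [mul_zero, zero_add] at this
      refine this.congr fun n => ?_
      have := A.en n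
      field_simp
      ring
    constructor
    · have hh := ((A.v.mul i1).add h).add (A.u1.mul (A.u1'.mul (to1 i2)))
      have e1 : 1 * (N * (c + a1 * b1)) + c + a1 * (b1 * 1) = ((N + 1 : ℕ) : ℂ) * (c + a1 * b1) := by
        push_cast; ring
      rw [e1] at hh
      refine hh.congr fun n => ?_
      have := A.en n
      simp only [xy]
      field_simp
      ring
    · have hh := ((A.v'.mul i2).add h').add (A.u2.mul (A.u2'.mul (to1 i1)))
      have e1 : 1 * (N * (c' + a2 * b2)) + c' + a2 * (b2 * 1) = ((N + 1 : ℕ) : ℂ) * (c' + a2 * b2) := by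
        push_cast; ring
      rw [e1] at hh
      refine hh.congr fun n => ?_
      have := A.en n
      simp only [xy]
      field_simp
      ring

/-- the coefficient of the completed state -/
theorem lim_full (A : Asy fl e w w' Kt kt a1 a2 b1 b2 o1 o2 Kt0 κ) {c c' : ℂ}
    (h : Tendsto (fun n => ((w n).v - 1) / e n ^ 2) fl (𝓝 c))
    (h' : Tendsto (fun n => ((w' n).v - 1) / e n ^ 2) fl (𝓝 c')) (N : ℕ) {kb : ι → ℂ} {κb d : ℂ}
    {X : ι → ℂ} (hkb : Tendsto (fun n => e n * kb n) fl (𝓝 κb))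
    (hX : Tendsto (fun n => 2 * kb n * kt n - X n) fl (𝓝 d)) :
    Tendsto (fun n => kb n * ((xy (w n) (w' n) (kt n) N).1 + (xy (w n) (w' n) (kt n) N).2) - X n) fl
      (𝓝 (d + N * (κb * κ * (c + c' + a1 * b1 + a2 * b2)))) := by
  obtain ⟨i1, i2⟩ := lim_xy A h h' N
  have hh := hX.add ((hkb.mul A.kt).mul (i1.add i2))
  have e1 : d + κb * κ * (N * (c + a1 * b1) + N * (c' + a2 * b2)) =
      d + N * (κb * κ * (c + c' + a1 * b1 + a2 * b2)) := by ring
  rw [e1] at hh
  refine hh.congr fun n => ?_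
  have := A.en n
  have s := xy_smul (w n) (w' n) (kt n) 1 N
  rw [mul_one] at s
  rw [s.1, s.2]
  field_simp
  ring

end lim

end Pool.Agent.EXK
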