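import Pool.Agent.EXK.ClK
import Pool.Agent.EXL.Closing
import Pool.Agent.EXL.GlLim

/-!
# Glue for `K_T` (board EXK, module K5d, helper38)

From the lattice side (`BF` and `Bs` at distinct nodes, `β → -4 cos (3π/8) B n`) to the node relation
`2 cos 2y - b = ∑ g_j / H`.
-/

set_option autoImplicit false

open Finset Real Filter Topology

namespace EXK

open Pool.Agent.EXL

/-- the node relation for `sin 4y / sin 2y = 2 cos 2y`; definitionally `EXK.NodeRel2E B` (MainT) -/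
def RelK2E (B : ℕ → ℝ) : Prop :=
  ∀ n : ℕ, ∃ b : ℝ → ℝ, Tendsto (fun ε => b ε ^ 2) (𝓝[>] 0) (𝓝 (B n ^ 2)) ∧
    ∀ᶠ ε in 𝓝[>] (0 : ℝ), ∃ g : ℕ → ℝ,
    ∀ k ≤ n, 2 * cos (2 * P2F.xx (k * ε)) - b ε =
      ∑ j ∈ range n, g j / P2F.H (cos (2 * P2F.xx (k * ε))) (cos (2 * P2F.xx ((j + 1) * ε)))

/-- what the lattice side delivers -/
def LatRelK (B : ℕ → ℝ) : Prop :=
  ∀ n, 1 ≤ n → ∃ Bx bx : (Fin n → ℝ) → ℂ,
    Tendsto bx (𝓝[{x | Cl.Nd x}] fun _ => π / 16) (𝓝 (-(4 * (cos (3 * π / 8) : ℝ)) * (B n : ℂ))) ∧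
    ∀ᶠ x in 𝓝[{x | Cl.Nd x}] (fun _ : Fin n => π / 16), ∃ (b : ℂ → ℂ) (ρ : ℂ),
      Cl.BF x b (Bx x) ρ ∧ Cl.Bs b (bx x)

theorem c3_pos : 0 < cos (3 * π / 8) :=
  cos_pos_of_mem_Ioo ⟨by linarith [pi_pos], by linarith [pi_pos]⟩

/-- the node relation at one set of nodes -/
theorem relK {n : ℕ} {z : Fin n → ℝ} (hz : ∀ i, |z i| < 1 / 20) (hinj : Function.Injective z)
    (hx : Cl.Nd fun i => P2F.xx (z i)) {b : ℂ → ℂ} {B ρ β : ℂ}
    (hb : Cl.BF (fun i => P2F.xx (z i)) b B ρ) (hs : Cl.Bs b β) :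
    ∃ t : ℝ, β = -(4 * (cos (3 * π / 8) : ℝ)) * (t : ℂ) ∧
      ∃ g : Fin n → ℝ, ∀ y, (y = π / 16 ∨ ∃ i, y = P2F.xx (z i)) →
        2 * cos (2 * y) - t = ∑ j, g j / P2F.H (cos (2 * y)) (cos (2 * P2F.xx (z j))) := by
  have hpi := pi_pos
  set x : Fin n → ℝ := fun i => P2F.xx (z i) with hxdef
  have s2 : (0 : ℝ) < √2 := sqrt_pos.2 (by norm_num)
  -- the weights
  obtain ⟨a, ha⟩ := Glue.NN_solve hz hinj fun i => sin (2 * x i) / √2
  obtain ⟨a', ha'⟩ := Glue.NN_solve hz hinj fun i => sin (4 * x i) / √2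
  have hK : ∀ i j, Cl.KK (Cl.ep (x i)) (Cl.ep (x j)) = ((√2 * P2W.NN (x i) (x j) : ℝ) : ℂ) :=
    fun i j => Glue.KK_ep' (hx.pos i).le (by linarith [hx.lt i]) (hx.pos j).le (hx.lt j).le
  have hKp : ∀ j, Cl.KK Cl.th (Cl.ep (x j)) = ((√2 * P2W.NN (π / 16) (x j) : ℝ) : ℂ) := by
    intro j
    rw [Glue.th_eq]
    exact Glue.KK_ep' (by positivity) (by linarith) (hx.pos j).le (hx.lt j).le
  have e1 : ∀ i, ∑ j, a j * (√2 * P2W.NN (x i) (x j)) = sin (2 * x i) := by
    intro i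
    have h := ha i
    rw [eq_div_iff s2.ne'] at h
    rw [← h, Finset.sum_mul]
    exact Finset.sum_congr rfl fun j _ => by ring
  have e2 : ∀ i, ∑ j, a' j * (√2 * P2W.NN (x i) (x j)) = sin (4 * x i) := by
    intro i
    have h := ha' i
    rw [eq_div_iff s2.ne'] at h
    rw [← h, Finset.sum_mul]
    exact Finset.sum_congr rfl fun j _ => by ring
  have c1 : ∀ k, Cl.res1 x (fun j => ((a j : ℝ) : ℂ)) (Cl.ep (x k)) = 0 := by
    intro k
    unfold Cl.res1
    rw [Glue.ep_S1]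
    simp_rw [hK]
    rw [← e1 k]
    push_cast
    ring
  have c2 : ∀ k, Cl.resE x 0 (fun j => ((a' j : ℝ) : ℂ)) (Cl.ep (x k)) = 0 := by
    intro k
    unfold Cl.resE
    rw [Glue.ep_S2]
    simp_rw [hK]
    rw [← e2 k]
    push_cast
    ring
  -- the closing
  have hcl := Cl.closing_beta hx hb hs c1 c2
  have hne := Cl.res1_ne hx hb c1 c2
  -- real values at `p`
  set R1 : ℝ := sin (2 * (π / 16)) - ∑ j, a j * (√2 * P2W.NN (π / 16) (x j)) with hR1
  set R2 : ℝ := sin (4 * (π / 16)) - ∑ j, a' j * (√2 * P2W.NN (π / 16) (x j)) with hR2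
  have v1 : Cl.res1 x (fun j => ((a j : ℝ) : ℂ)) Cl.th = (R1 : ℂ) := by
    unfold Cl.res1
    simp_rw [hKp]
    rw [Glue.th_eq, Glue.ep_S1, hR1]
    push_cast
    ring
  have v2 : Cl.resE x 0 (fun j => ((a' j : ℝ) : ℂ)) Cl.th = (R2 : ℂ) := by
    unfold Cl.resE
    simp_rw [hKp]
    rw [Glue.th_eq, Glue.ep_S2, hR2]
    push_cast
    ring
  rw [v1] at hne hcl
  rw [v2] at hcl
  have hR1ne : R1 ≠ 0 := by exact_mod_cast hne
  refine ⟨R2 / R1, ?_, fun j => (a' j - R2 / R1 * a j) * (2 * √2 * sin (2 * x j)), ?_⟩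
  · apply mul_right_cancel₀ hne
    rw [hcl]
    push_cast
    field_simp
  · intro y hy
    have hy0 : 0 < y ∧ y ≤ π / 16 := by
      rcases hy with rfl | ⟨i, rfl⟩
      · exact ⟨by positivity, le_rfl⟩
      · exact ⟨hx.pos i, (hx.lt i).le⟩
    obtain ⟨hy1, hy2⟩ := hy0
    have hsy : 0 < sin (2 * y) := sin_pos_of_pos_of_lt_pi (by linarith) (by linarith)
    -- the combination of the two residuals vanishes at `y`
    have key : (sin (4 * y) - ∑ j, a' j * (√2 * P2W.NN y (x j))) -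
        R2 / R1 * (sin (2 * y) - ∑ j, a j * (√2 * P2W.NN y (x j))) = 0 := by
      rcases hy with rfl | ⟨i, rfl⟩
      · rw [← hR2, ← hR1]
        field_simp
        ring
      · change (sin (4 * x i) - ∑ j, a' j * (√2 * P2W.NN (x i) (x j))) -
          R2 / R1 * (sin (2 * x i) - ∑ j, a j * (√2 * P2W.NN (x i) (x j))) = 0
        rw [e1 i, e2 i]
        ring
    have hS : ∑ j, (a' j - R2 / R1 * a j) * (2 * √2 * sin (2 * x j)) /
        P2F.H (cos (2 * y)) (cos (2 * P2F.xx (z j))) * sin (2 * y) =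
        ∑ j, a' j * (√2 * P2W.NN y (x j)) -
          R2 / R1 * ∑ j, a j * (√2 * P2W.NN y (x j)) := by
      rw [Finset.mul_sum, ← Finset.sum_sub_distrib]
      refine Finset.sum_congr rfl fun j _ => ?_
      rw [Glue.NN_H hy1.le (by linarith) (hx.pos j).le (hx.lt j).le]
      ring
    have h4 : sin (4 * y) = 2 * cos (2 * y) * sin (2 * y) := by
      rw [show 4 * y = 2 * (2 * y) by ring, sin_two_mul]
      ring
    apply mul_right_cancel₀ hsy.ne'
    rw [Finset.sum_mul, hS]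
    linear_combination key - h4

/-- **K5d: the glue.** -/
theorem relK2E {B : ℕ → ℝ} (hB0 : B 0 = 2 * cos (π / 8)) (h : LatRelK B) : RelK2E B := by
  intro n
  have hc3 := c3_pos
  rcases Nat.eq_zero_or_pos n with rfl | hn
  · refine ⟨fun _ => 2 * cos (π / 8), ?_, ?_⟩
    · rw [hB0]
      exact tendsto_const_nhds
    · refine Filter.Eventually.of_forall fun ε => ⟨fun _ => 0, ?_⟩
      intro k hk
      obtain rfl : k = 0 := Nat.le_zero.1 hk
      simp only [Nat.cast_zero, zero_mul, Finset.range_zero, Finset.sum_empty]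
      rw [P2F.xx_zero, show 2 * (π / 16) = π / 8 by ring]
      ring
  · obtain ⟨Bx, bx, hlim, hout⟩ := h n hn
    let P : ℝ → ℝ → Prop := fun ε t =>
      bx (fun i => P2F.xx (Glue.zs n ε i)) = -(4 * (cos (3 * π / 8) : ℝ)) * (t : ℂ) ∧
      ∃ g : ℕ → ℝ, ∀ k ≤ n, 2 * cos (2 * P2F.xx (k * ε)) - t =
        ∑ j ∈ range n, g j / P2F.H (cos (2 * P2F.xx (k * ε))) (cos (2 * P2F.xx ((j + 1) * ε)))
    have hP : ∀ᶠ ε in 𝓝[>] (0 : ℝ), ∃ t, P ε t := by
      filter_upwards [(Glue.tendsto_zs n).eventually hout, Glue.small_ev n, self_mem_nhdsWithin]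
        with ε h1 h2 h3
      have h3' : (0 : ℝ) < ε := h3
      have hs := fun i => Glue.zs_small h3' h2 i
      have hs' : ∀ i, |Glue.zs n ε i| < 1 / 20 := fun i => by
        rw [abs_of_pos (hs i).1]; exact (hs i).2
      obtain ⟨b, ρ, hbf, hbs⟩ := h1
      obtain ⟨t, ht, g, hg⟩ := relK hs' (Glue.zs_inj h3') (Glue.nd_zs h3' h2) hbf hbs
      refine ⟨t, ht, fun j => if hj : j < n then g ⟨j, hj⟩ else 0, ?_⟩
      intro k hk
      have hy : P2F.xx (k * ε) = π / 16 ∨ ∃ i : Fin n, P2F.xx (k * ε) = P2F.xx (Glue.zs n ε i) := by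
        rcases Nat.eq_zero_or_pos k with rfl | hk0
        · left
          rw [Nat.cast_zero, zero_mul, P2F.xx_zero]
        · right
          refine ⟨⟨k - 1, by omega⟩, ?_⟩
          unfold Glue.zs
          rw [Nat.cast_sub (by omega)]
          push_cast
          rw [sub_add_cancel]
      rw [hg _ hy, Finset.sum_range]
      refine Finset.sum_congr rfl fun j _ => ?_
      beta_reduce
      rw [dif_pos j.2]
      rfl
    classical
    refine ⟨fun ε => if hh : ∃ t, P ε t then hh.choose else 0, ?_, ?_⟩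
    · have hre : Tendsto (fun ε : ℝ => (bx (fun i => P2F.xx (Glue.zs n ε i))).re /
          (-(4 * cos (3 * π / 8)))) (𝓝[>] 0) (𝓝 (B n)) := by
        have h1 := hlim.comp (Glue.tendsto_zs n)
        have h2 := ((Complex.continuous_re.tendsto _).comp h1).div_const (-(4 * cos (3 * π / 8)))
        have h3 : (-(4 * (cos (3 * π / 8) : ℝ)) * (B n : ℂ)).re / (-(4 * cos (3 * π / 8))) = B n := by
          have : (-(4 * (cos (3 * π / 8) : ℝ)) * (B n : ℂ)) = ((-(4 * cos (3 * π / 8)) * B n : ℝ) : ℂ) := by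
            push_cast; ring
          rw [this, Complex.ofReal_re]
          field_simp
        rw [h3] at h2
        exact h2
      refine (hre.pow 2).congr' ?_
      filter_upwards [hP] with ε hε
      rw [dif_pos hε]
      have h1 := hε.choose_spec.1
      congr 1
      rw [h1]
      have : (-(4 * (cos (3 * π / 8) : ℝ)) * (hε.choose : ℂ)) =
          ((-(4 * cos (3 * π / 8)) * hε.choose : ℝ) : ℂ) := by
        push_cast; ring
      rw [this, Complex.ofReal_re]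
      field_simp
    · filter_upwards [hP] with ε hε
      rw [dif_pos hε]
      exact hε.choose_spec.2

end EXK
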