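import Pool.Agent.EXK.IdL
import Pool.Agent.EXL.ParDecay
import Pool.Agent.HexStep.KUp

/-!
# The parallelogram: walks between the half edges of its boundary (board EXK, K3)
-/

set_option autoImplicit false

namespace Pool.Agent.EXK.Hf

open HexObs HexObs.LP Finset

/-- weighted sum over the walks of Ω from the half edge p to the half edge q -/
noncomputable def WW (f : ℤ → ℝ) (Ω : Finset Pt) (p q : Pt × Pt) : ℝ :=
  ∑ t ∈ (exits Ω p.1 p.2).filter (fun t => rv (le p t) = q), f (wind t) * xc ^ t.length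

theorem ex0_eq {Ω : Finset Pt} {p : Pt × Pt} (hp : p.1 ∉ Ω) : ex0 Ω p = exits Ω p.1 p.2 := by
  ext t
  unfold ex0
  rw [Finset.mem_filter, mem_arr0, mem_exits]
  constructor
  · rintro ⟨h1, h2⟩
    refine ⟨⟨h1.mem, fun i k hik hk => ?_⟩, h2⟩
    rcases Nat.eq_zero_or_pos i with h | h
    · subst h
      intro e
      have := h1.mem k (by omega) hk
      rw [← e] at this
      exact hp this
    · exact h1.inj i k h hik hk
  · rintro ⟨h1, h2⟩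
    exact ⟨⟨h1.mem, fun i k h hik hk => h1.inj i k hik hk⟩, h2⟩

theorem rv_le_iff {p q : Pt × Pt} {t : List Bool} :
    rv (le p t) = q ↔ tip p.1 p.2 t = q.1 ∧ dx p.2 t t.length = -q.2 := by
  have e : rv (le p t) = (tip p.1 p.2 t, -(dx p.2 t t.length)) := rfl
  rw [e, Prod.ext_iff]
  simp only
  constructor
  · rintro ⟨h1, h2⟩
    exact ⟨h1, by rw [← h2, neg_neg]⟩
  · rintro ⟨h1, h2⟩
    exact ⟨h1, by rw [h2, neg_neg]⟩

theorem mem_W {Ω : Finset Pt} {p q : Pt × Pt} {t : List Bool} :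
    t ∈ (exits Ω p.1 p.2).filter (fun t => rv (le p t) = q) ↔
      t ∈ outAt (Ω : Set Pt) p.1 p.2 q.1 (-q.2) := by
  rw [Finset.mem_filter, mem_exits, rv_le_iff]
  unfold outAt out
  simp only [Set.mem_ofPred_eq, saw_coe]
  constructor
  · rintro ⟨⟨h1, h2⟩, h3, h4⟩
    exact ⟨⟨h1, h2, h4⟩, h3⟩
  · rintro ⟨⟨h1, h2, h4⟩, h3⟩
    exact ⟨⟨h1, h2⟩, h3, h4⟩

/-- reversal -/
theorem WW_rev (f : ℤ → ℝ) {Ω : Finset Pt} {p q : Pt × Pt} (hp : p.1 ∉ Ω) (hq : q.1 ∉ Ω) :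
    WW f Ω p q = WW (fun n => f (-n)) Ω q p := by
  unfold WW
  refine Finset.sum_nbij' rev rev ?_ ?_ (fun t _ => rev_rev t) (fun t _ => rev_rev t) ?_
  · intro t ht
    rw [mem_W] at ht
    rw [mem_W]
    have := rev_mem (by simpa using hp) ht
    rwa [neg_neg] at this
  · intro t ht
    rw [mem_W] at ht
    rw [mem_W]
    have := rev_mem (by simpa using hq) ht
    rwa [neg_neg] at this
  · intro t _
    simp only [wind_rev, rev_length, neg_neg]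

theorem WW_nonneg {f : ℤ → ℝ} (hf : ∀ n, 0 ≤ f n) (Ω : Finset Pt) (p q : Pt × Pt) : 0 ≤ WW f Ω p q :=
  Finset.sum_nonneg fun _ _ => mul_nonneg (hf _) (pow_nonneg xc_pos.le _)

/-- the weight of the walks from p to q -/
noncomputable def W1 (Ω : Finset Pt) (p q : Pt × Pt) : ℝ := WW (fun _ => 1) Ω p q

theorem W1_nonneg (Ω : Finset Pt) (p q : Pt × Pt) : 0 ≤ W1 Ω p q := WW_nonneg (fun _ => zero_le_one) _ _ _

theorem W1_rev {Ω : Finset Pt} {p q : Pt × Pt} (hp : p.1 ∉ Ω) (hq : q.1 ∉ Ω) : W1 Ω p q = W1 Ω q p :=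
  WW_rev _ hp hq

theorem W1_eq (Ω : Finset Pt) (p q : Pt × Pt) :
    W1 Ω p q = ∑ t ∈ (exits Ω p.1 p.2).filter (fun t => rv (le p t) = q), xc ^ t.length := by
  unfold W1 WW
  simp only [one_mul]

/-- constant winding -/
theorem WW_const {f : ℤ → ℝ} {Ω : Finset Pt} {p q : Pt × Pt} {c : ℝ}
    (h : ∀ t ∈ exits Ω p.1 p.2, dx p.2 t t.length = -q.2 → tip p.1 p.2 t = q.1 → f (wind t) = c) :
    WW f Ω p q = c * W1 Ω p q := by
  rw [W1_eq, Finset.mul_sum]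
  unfold WW
  refine Finset.sum_congr rfl fun t ht => ?_
  rw [Finset.mem_filter, rv_le_iff] at ht
  rw [h t ht.1 ht.2.2 ht.2.1]

section wind

variable {f : ℤ → ℝ} {Ω : Finset Pt} {p q : Pt × Pt}

theorem WW_0 (h : GoodDom Ω p.1 p.2) (hq : -q.2 = p.2) : WW f Ω p q = f 0 * W1 Ω p q := by
  refine WW_const fun t ht hd _ => ?_
  obtain ⟨⟨a1, a2, a3, a4, a5⟩, ⟨b1, b2, b3, b4⟩, ⟨c1, c2, c3⟩, ⟨e1, e2⟩, f1⟩ := dirs_distinct p.2 h.dir
  rcases h.wind ht with ⟨hd', hw⟩ | ⟨hd', hw⟩ | ⟨hd', hw⟩ | ⟨hd', hw⟩ | ⟨hd', hw⟩ | ⟨hd', hw⟩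
  · rw [hw]
  all_goals (rw [hd, hq] at hd'; exact absurd hd'.symm (by assumption))

theorem WW_1 (h : GoodDom Ω p.1 p.2) (hq : -q.2 = rotL p.2) : WW f Ω p q = f 1 * W1 Ω p q := by
  refine WW_const fun t ht hd _ => ?_
  obtain ⟨⟨a1, a2, a3, a4, a5⟩, ⟨b1, b2, b3, b4⟩, ⟨c1, c2, c3⟩, ⟨e1, e2⟩, f1⟩ := dirs_distinct p.2 h.dir
  rcases h.wind ht with ⟨hd', hw⟩ | ⟨hd', hw⟩ | ⟨hd', hw⟩ | ⟨hd', hw⟩ | ⟨hd', hw⟩ | ⟨hd', hw⟩
  · rw [hd, hq] at hd'; exact absurd hd' a1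
  · rw [hw]
  all_goals (rw [hd, hq] at hd'; exact absurd hd'.symm (by assumption))

theorem WW_m1 (h : GoodDom Ω p.1 p.2) (hq : -q.2 = rotR p.2) : WW f Ω p q = f (-1) * W1 Ω p q := by
  refine WW_const fun t ht hd _ => ?_
  obtain ⟨⟨a1, a2, a3, a4, a5⟩, ⟨b1, b2, b3, b4⟩, ⟨c1, c2, c3⟩, ⟨e1, e2⟩, f1⟩ := dirs_distinct p.2 h.dir
  rcases h.wind ht with ⟨hd', hw⟩ | ⟨hd', hw⟩ | ⟨hd', hw⟩ | ⟨hd', hw⟩ | ⟨hd', hw⟩ | ⟨hd', hw⟩
  · rw [hd, hq] at hd'; exact absurd hd' a2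
  · rw [hd, hq] at hd'; exact absurd hd' b1
  · rw [hw]
  all_goals (rw [hd, hq] at hd'; exact absurd hd'.symm (by assumption))

theorem WW_2 (h : GoodDom Ω p.1 p.2) (hq : -q.2 = rotL (rotL p.2)) : WW f Ω p q = f 2 * W1 Ω p q := by
  refine WW_const fun t ht hd _ => ?_
  obtain ⟨⟨a1, a2, a3, a4, a5⟩, ⟨b1, b2, b3, b4⟩, ⟨c1, c2, c3⟩, ⟨e1, e2⟩, f1⟩ := dirs_distinct p.2 h.dir
  rcases h.wind ht with ⟨hd', hw⟩ | ⟨hd', hw⟩ | ⟨hd', hw⟩ | ⟨hd', hw⟩ | ⟨hd', hw⟩ | ⟨hd', hw⟩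
  · rw [hd, hq] at hd'; exact absurd hd' a3
  · rw [hd, hq] at hd'; exact absurd hd' b2
  · rw [hd, hq] at hd'; exact absurd hd' c1
  · rw [hw]
  all_goals (rw [hd, hq] at hd'; exact absurd hd'.symm (by assumption))

theorem WW_m2 (h : GoodDom Ω p.1 p.2) (hq : -q.2 = rotR (rotR p.2)) :
    WW f Ω p q = f (-2) * W1 Ω p q := by
  refine WW_const fun t ht hd _ => ?_
  obtain ⟨⟨a1, a2, a3, a4, a5⟩, ⟨b1, b2, b3, b4⟩, ⟨c1, c2, c3⟩, ⟨e1, e2⟩, f1⟩ := dirs_distinct p.2 h.dir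
  rcases h.wind ht with ⟨hd', hw⟩ | ⟨hd', hw⟩ | ⟨hd', hw⟩ | ⟨hd', hw⟩ | ⟨hd', hw⟩ | ⟨hd', hw⟩
  · rw [hd, hq] at hd'; exact absurd hd' a4
  · rw [hd, hq] at hd'; exact absurd hd' b3
  · rw [hd, hq] at hd'; exact absurd hd' c2
  · rw [hd, hq] at hd'; exact absurd hd' e1
  · rw [hw]
  all_goals (rw [hd, hq] at hd'; exact absurd hd'.symm (by assumption))

/-- the side of the start, even functions -/
theorem WW_3 (h : GoodDom Ω p.1 p.2) (hq : q.2 = p.2) (hf : f (-3) = f 3) :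
    WW f Ω p q = f 3 * W1 Ω p q := by
  refine WW_const fun t ht hd _ => ?_
  rw [hq] at hd
  rcases h.bottom ht hd with ⟨_, hw⟩ | ⟨_, hw⟩
  · rw [hw]
  · rw [hw, hf]

/-- the side of the start, on the left -/
theorem WW_3l (h : GoodDom Ω p.1 p.2) (hq : q.2 = p.2) (hc : 0 < cross p.2 (q.1 - p.1)) :
    WW f Ω p q = f 3 * W1 Ω p q := by
  refine WW_const fun t ht hd htip => ?_
  rw [hq] at hd
  rcases h.bottom ht hd with ⟨_, hw⟩ | ⟨hc', _⟩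
  · rw [hw]
  · rw [htip] at hc'
    exact absurd (hc.trans hc') (lt_irrefl _)

/-- the side of the start, on the right -/
theorem WW_3r (h : GoodDom Ω p.1 p.2) (hq : q.2 = p.2) (hc : cross p.2 (q.1 - p.1) < 0) :
    WW f Ω p q = f (-3) * W1 Ω p q := by
  refine WW_const fun t ht hd htip => ?_
  rw [hq] at hd
  rcases h.bottom ht hd with ⟨hc', _⟩ | ⟨_, hw⟩
  · rw [htip] at hc'
    exact absurd (hc'.trans hc) (lt_irrefl _)
  · rw [hw]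

/-- no walk returns to its first half edge -/
theorem W1_self (h : GoodDom Ω p.1 p.2) : W1 Ω p p = 0 := by
  rw [W1_eq]
  apply Finset.sum_eq_zero
  intro t ht
  exfalso
  rw [Finset.mem_filter, rv_le_iff] at ht
  rcases h.bottom ht.1 ht.2.2 with ⟨hc, _⟩ | ⟨hc, _⟩
  · rw [ht.2.1, sub_self] at hc
    simp [cross] at hc
  · rw [ht.2.1, sub_self] at hc
    simp [cross] at hc

end wind

end Pool.Agent.EXK.Hf
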