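import Pool.Agent.EXK.Half1

/-!
# The parallelogram: the sums over the half edges of the boundary (board EXK, K3)
-/

set_option autoImplicit false

namespace Pool.Agent.EXK.Hf

open HexObs HexObs.LP Finset Pool.Agent.EXL

/-- the foot k -/
def fe (k : ℕ) : Pt × Pt := (_root_.EXL.B k (-1), ((0, 1) : Pt))

/-- the top k -/
def te (N k : ℕ) : Pt × Pt := (_root_.EXL.A k N, ((0, -1) : Pt))

/-- the half edge of the left side in the row j -/
def lfE (j : ℕ) : Pt × Pt := (_root_.EXL.B (-1) j, ((1, -1) : Pt))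

theorem fe_out (N m k : ℕ) : (fe k).1 ∉ _root_.EXL.par N m := by
  show _root_.EXL.B k (-1) ∉ _
  rw [_root_.EXL.B_mem]
  omega

theorem te_out (N m k : ℕ) : (te N k).1 ∉ _root_.EXL.par N m := by
  show _root_.EXL.A k N ∉ _
  rw [_root_.EXL.A_mem]
  omega

theorem lfE_out (N m j : ℕ) : (lfE j).1 ∉ _root_.EXL.par N m := by
  show _root_.EXL.B (-1) j ∉ _
  rw [_root_.EXL.B_mem]
  omega

theorem De_all {p : Pt × Pt} (hp : De p) (t : List Bool) (i : ℕ) :
    De (vx p.1 p.2 t i, dx p.2 t i) := by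
  induction i with
  | zero => exact hp
  | succ i ih => exact Net.De_turn ih (tf t i)

/-- the exits of the parallelogram -/
theorem exit_bd {N m : ℕ} {p : Pt × Pt} (hp : De p) (h2 : p.1 + p.2 ∈ _root_.EXL.par N m)
    {t : List Bool} (ht : t ∈ exits (_root_.EXL.par N m) p.1 p.2) :
    (∃ k, k < m ∧ rv (le p t) = fe k) ∨ (∃ k, k < m ∧ rv (le p t) = te N k) ∨
      (∃ j, j < N ∧ rv (le p t) = cutE m j) ∨ (∃ j, j < N ∧ rv (le p t) = lfE j) := by
  obtain ⟨harr, hout⟩ := mem_exits.1 ht
  have hl : 1 ≤ t.length := by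
    by_contra hc
    have : t = [] := by
      rw [← List.length_eq_zero_iff]
      omega
    subst this
    exact hout h2
  have hv := harr.mem t.length hl le_rfl
  have hD := De_all hp t t.length
  have htip : tip p.1 p.2 t = vx p.1 p.2 t t.length + dx p.2 t t.length := rfl
  rw [htip] at hout
  have hrv : rv (le p t) = (vx p.1 p.2 t t.length + dx p.2 t t.length, -dx p.2 t t.length) := rfl
  rw [hrv]
  generalize vx p.1 p.2 t t.length = v at hv hD hout ⊢
  generalize dx p.2 t t.length = e at hD hout ⊢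
  obtain ⟨k, i, ⟨k0, k1⟩, ⟨i0, i1⟩, h | h⟩ := _root_.EXL.mem_par.1 hv
  · subst h
    obtain ⟨k, rfl⟩ := Int.eq_ofNat_of_zero_le k0
    obtain ⟨i, rfl⟩ := Int.eq_ofNat_of_zero_le i0
    rcases Net.Tot.De_A hD with rfl | rfl | rfl
    · rw [_root_.EXL.A_down, _root_.EXL.B_mem] at hout
      rw [_root_.EXL.A_down]
      have hi : i = 0 := by omega
      subst hi
      exact Or.inl ⟨k, by omega, rfl⟩
    · rw [_root_.EXL.A_left, _root_.EXL.B_mem] at hout
      rw [_root_.EXL.A_left]
      have hi : k = 0 := by omega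
      subst hi
      exact Or.inr (Or.inr (Or.inr ⟨i, by omega, rfl⟩))
    · rw [_root_.EXL.A_right, _root_.EXL.B_mem] at hout
      exfalso
      apply hout
      omega
  · subst h
    obtain ⟨k, rfl⟩ := Int.eq_ofNat_of_zero_le k0
    obtain ⟨i, rfl⟩ := Int.eq_ofNat_of_zero_le i0
    rcases Net.Tot.De_B hD with rfl | rfl | rfl
    · rw [_root_.EXL.B_up, _root_.EXL.A_mem] at hout
      rw [_root_.EXL.B_up]
      have hi : i + 1 = N := by omega
      refine Or.inr (Or.inl ⟨k, by omega, ?_⟩)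
      unfold te
      rw [← hi]
      push_cast
      rfl
    · rw [_root_.EXL.B_right, _root_.EXL.A_mem] at hout
      rw [_root_.EXL.B_right]
      have hi : k + 1 = m := by omega
      refine Or.inr (Or.inr (Or.inl ⟨i, by omega, ?_⟩))
      unfold cutE
      rw [← hi]
      push_cast
      rfl
    · rw [_root_.EXL.B_left, _root_.EXL.A_mem] at hout
      exfalso
      apply hout
      omega

theorem fe_inj : Function.Injective fe := by
  intro a b h
  have h1 : _root_.EXL.B a (-1) = _root_.EXL.B b (-1) := congrArg Prod.fst h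
  have h2 : (2 * (a : ℤ) + (-1) + 1) = 2 * b + (-1) + 1 := congrArg Prod.fst h1
  omega

theorem te_inj (N : ℕ) : Function.Injective (te N) := by
  intro a b h
  have h1 : _root_.EXL.A a N = _root_.EXL.A b N := congrArg Prod.fst h
  have h2 : (2 * (a : ℤ) + N) = 2 * b + N := congrArg Prod.fst h1
  omega

theorem cutE_inj' (m : ℕ) : Function.Injective (cutE m) := by
  intro a b h
  by_contra hab
  exact cutE_inj hab h

theorem lfE_inj : Function.Injective lfE := by
  intro a b h
  have h1 : _root_.EXL.B (-1) a = _root_.EXL.B (-1) b := congrArg Prod.fst h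
  have h2 : (2 * (-1 : ℤ) + a + 1) = 2 * (-1) + b + 1 := congrArg Prod.fst h1
  omega

/-- the sum over all exits -/
theorem sum_exits (f : ℤ → ℝ) {N m : ℕ} {p : Pt × Pt} (hp : De p)
    (h2 : p.1 + p.2 ∈ _root_.EXL.par N m) :
    ∑ t ∈ exits (_root_.EXL.par N m) p.1 p.2, f (wind t) * xc ^ t.length =
      ∑ k ∈ range m, WW f (_root_.EXL.par N m) p (fe k) +
      ∑ k ∈ range m, WW f (_root_.EXL.par N m) p (te N k) +
      ∑ j ∈ range N, WW f (_root_.EXL.par N m) p (cutE m j) +
      ∑ j ∈ range N, WW f (_root_.EXL.par N m) p (lfE j) := by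
  classical
  set E := exits (_root_.EXL.par N m) p.1 p.2 with hE
  have key : ∀ (n : ℕ) (g : ℕ → Pt × Pt), Function.Injective g →
      ∑ k ∈ range n, WW f (_root_.EXL.par N m) p (g k) =
        ∑ t ∈ E, if rv (le p t) ∈ (range n).image g then f (wind t) * xc ^ t.length else 0 := by
    intro n g hg
    unfold WW
    simp only [Finset.sum_filter]
    rw [Finset.sum_comm]
    refine Finset.sum_congr rfl fun t _ => ?_
    split_ifs with h
    · obtain ⟨k, hk, hkt⟩ := Finset.mem_image.1 h
      rw [Finset.sum_eq_single k, if_pos hkt.symm]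
      · intro b _ hb
        rw [if_neg]
        intro hh
        exact hb (hg (hh.symm.trans hkt.symm))
      · exact fun hh => absurd hk hh
    · apply Finset.sum_eq_zero
      intro k hk
      rw [if_neg]
      intro hh
      exact h (Finset.mem_image.2 ⟨k, hk, hh.symm⟩)
  rw [key m fe fe_inj, key m (te N) (te_inj N), key N (cutE m) (cutE_inj' m), key N lfE lfE_inj,
    ← Finset.sum_add_distrib, ← Finset.sum_add_distrib, ← Finset.sum_add_distrib]
  refine Finset.sum_congr rfl fun t ht => ?_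
  -- directions
  have d1 : rv (le p t) ∈ (range m).image fe → (rv (le p t)).2 = (0, 1) := by
    intro h
    obtain ⟨k, _, hk⟩ := Finset.mem_image.1 h
    rw [← hk]
    rfl
  have d2 : rv (le p t) ∈ (range m).image (te N) → (rv (le p t)).2 = (0, -1) := by
    intro h
    obtain ⟨k, _, hk⟩ := Finset.mem_image.1 h
    rw [← hk]
    rfl
  have d3 : rv (le p t) ∈ (range N).image (cutE m) → (rv (le p t)).2 = (-1, 1) := by
    intro h
    obtain ⟨k, _, hk⟩ := Finset.mem_image.1 h
    rw [← hk]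
    rfl
  have d4 : rv (le p t) ∈ (range N).image lfE → (rv (le p t)).2 = (1, -1) := by
    intro h
    obtain ⟨k, _, hk⟩ := Finset.mem_image.1 h
    rw [← hk]
    rfl
  have e12 : ((0, 1) : Pt) ≠ (0, -1) := by decide
  have e13 : ((0, 1) : Pt) ≠ (-1, 1) := by decide
  have e14 : ((0, 1) : Pt) ≠ (1, -1) := by decide
  have e23 : ((0, -1) : Pt) ≠ (-1, 1) := by decide
  have e24 : ((0, -1) : Pt) ≠ (1, -1) := by decide
  have e34 : ((-1, 1) : Pt) ≠ (1, -1) := by decide
  rcases exit_bd hp h2 ht with ⟨k, hk, h⟩ | ⟨k, hk, h⟩ | ⟨k, hk, h⟩ | ⟨k, hk, h⟩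
  · have m1 : rv (le p t) ∈ (range m).image fe := Finset.mem_image.2 ⟨k, Finset.mem_range.2 hk, h.symm⟩
    rw [if_pos m1, if_neg (fun h' => e12 ((d1 m1).symm.trans (d2 h'))),
      if_neg (fun h' => e13 ((d1 m1).symm.trans (d3 h'))),
      if_neg (fun h' => e14 ((d1 m1).symm.trans (d4 h')))]
    ring
  · have m1 : rv (le p t) ∈ (range m).image (te N) :=
      Finset.mem_image.2 ⟨k, Finset.mem_range.2 hk, h.symm⟩
    rw [if_pos m1, if_neg (fun h' => e12 ((d1 h').symm.trans (d2 m1))),
      if_neg (fun h' => e23 ((d2 m1).symm.trans (d3 h'))),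
      if_neg (fun h' => e24 ((d2 m1).symm.trans (d4 h')))]
    ring
  · have m1 : rv (le p t) ∈ (range N).image (cutE m) :=
      Finset.mem_image.2 ⟨k, Finset.mem_range.2 hk, h.symm⟩
    rw [if_pos m1, if_neg (fun h' => e13 ((d1 h').symm.trans (d3 m1))),
      if_neg (fun h' => e23 ((d2 h').symm.trans (d3 m1))),
      if_neg (fun h' => e34 ((d3 m1).symm.trans (d4 h')))]
    ring
  · have m1 : rv (le p t) ∈ (range N).image lfE :=
      Finset.mem_image.2 ⟨k, Finset.mem_range.2 hk, h.symm⟩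
    rw [if_pos m1, if_neg (fun h' => e14 ((d1 h').symm.trans (d4 m1))),
      if_neg (fun h' => e24 ((d2 h').symm.trans (d4 m1))),
      if_neg (fun h' => e34 ((d3 h').symm.trans (d4 m1)))]
    ring

/-- cosine -/
noncomputable def cz (n : ℤ) : ℝ := Real.cos (n * (Real.pi / 8))

/-- sine -/
noncomputable def sz (n : ℤ) : ℝ := Real.sin (n * (Real.pi / 8))

theorem cz_neg (n : ℤ) : cz (-n) = cz n := by
  unfold cz
  push_cast
  rw [neg_mul, Real.cos_neg]

theorem sz_neg (n : ℤ) : sz (-n) = -sz n := by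
  unfold sz
  push_cast
  rw [neg_mul, Real.sin_neg]

section rows

variable {N m : ℕ} (hm : 1 ≤ m)
include hm

theorem good_cut {j : ℕ} (hj : j < N) :
    GoodDom (_root_.EXL.par N m) (cutE m j).1 (cutE m j).2 :=
  _root_.EXL.good_right hm (by positivity) (by exact_mod_cast hj)

/-- real part, row j -/
theorem re_cut {j : ℕ} (hj : j < N) :
    cz 2 * ∑ k ∈ range m, W1 (_root_.EXL.par N m) (cutE m j) (fe k) +
      cz 1 * ∑ k ∈ range m, W1 (_root_.EXL.par N m) (cutE m j) (te N k) +
      cz 3 * ∑ i ∈ range N, W1 (_root_.EXL.par N m) (cutE m j) (cutE m i) +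
      ∑ i ∈ range N, W1 (_root_.EXL.par N m) (cutE m j) (lfE i) = 1 := by
  have hg := good_cut hm hj
  have h := sum_exits cz (cutE_De m j) (cutE_in hm hj)
  have h1 : ∑ t ∈ exits (_root_.EXL.par N m) (cutE m j).1 (cutE m j).2,
      cz (wind t) * xc ^ t.length = 1 := identity_re _ hg.dir hg.half
  rw [h1] at h
  have e1 : ∀ k, WW cz (_root_.EXL.par N m) (cutE m j) (fe k) =
      cz 2 * W1 (_root_.EXL.par N m) (cutE m j) (fe k) := fun k =>
    WW_2 hg (by show -((0, 1) : Pt) = rotL (rotL (-1, 1)); decide)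
  have e2 : ∀ k, WW cz (_root_.EXL.par N m) (cutE m j) (te N k) =
      cz 1 * W1 (_root_.EXL.par N m) (cutE m j) (te N k) := fun k => by
    rw [← cz_neg 1]
    exact WW_m1 hg (by show -((0, -1) : Pt) = rotR (-1, 1); decide)
  have e3 : ∀ i, WW cz (_root_.EXL.par N m) (cutE m j) (cutE m i) =
      cz 3 * W1 (_root_.EXL.par N m) (cutE m j) (cutE m i) := fun i => WW_3 hg rfl (cz_neg 3)
  have e4 : ∀ i, WW cz (_root_.EXL.par N m) (cutE m j) (lfE i) =
      W1 (_root_.EXL.par N m) (cutE m j) (lfE i) := fun i => by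
    rw [WW_0 hg (by show -((1, -1) : Pt) = (-1, 1); decide)]
    unfold cz
    simp
  simp only [e1, e2, e3, e4, ← Finset.mul_sum] at h
  exact h.symm

/-- imaginary part, row j -/
theorem im_cut {j : ℕ} (hj : j < N) :
    sz 2 * ∑ k ∈ range m, W1 (_root_.EXL.par N m) (cutE m j) (fe k) -
      sz 1 * ∑ k ∈ range m, W1 (_root_.EXL.par N m) (cutE m j) (te N k) +
      ∑ i ∈ range N, WW sz (_root_.EXL.par N m) (cutE m j) (cutE m i) = 0 := by
  have hg := good_cut hm hj
  have h := sum_exits sz (cutE_De m j) (cutE_in hm hj)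
  have h1 : ∑ t ∈ exits (_root_.EXL.par N m) (cutE m j).1 (cutE m j).2,
      sz (wind t) * xc ^ t.length = 0 := identity_im _ hg.dir hg.half
  rw [h1] at h
  have e1 : ∀ k, WW sz (_root_.EXL.par N m) (cutE m j) (fe k) =
      sz 2 * W1 (_root_.EXL.par N m) (cutE m j) (fe k) := fun k =>
    WW_2 hg (by show -((0, 1) : Pt) = rotL (rotL (-1, 1)); decide)
  have e2 : ∀ k, WW sz (_root_.EXL.par N m) (cutE m j) (te N k) =
      -sz 1 * W1 (_root_.EXL.par N m) (cutE m j) (te N k) := fun k => by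
    rw [← sz_neg 1]
    exact WW_m1 hg (by show -((0, -1) : Pt) = rotR (-1, 1); decide)
  have e4 : ∀ i, WW sz (_root_.EXL.par N m) (cutE m j) (lfE i) = 0 := fun i => by
    rw [WW_0 hg (by show -((1, -1) : Pt) = (-1, 1); decide)]
    unfold sz
    simp
  simp only [e1, e2, e4, ← Finset.mul_sum, Finset.sum_const_zero, add_zero] at h
  linarith

/-- imaginary part, foot k -/
theorem im_foot (hN : 1 ≤ N) {k : ℕ} (hk : k < m) :
    sz 3 * (∑ k' ∈ range m, if k' < k then W1 (_root_.EXL.par N m) (fe k) (fe k') else 0) -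
      sz 3 * (∑ k' ∈ range m, if k < k' then W1 (_root_.EXL.par N m) (fe k) (fe k') else 0) +
      sz 1 * ∑ i ∈ range N, W1 (_root_.EXL.par N m) (fe k) (lfE i) -
      sz 2 * ∑ i ∈ range N, W1 (_root_.EXL.par N m) (fe k) (cutE m i) = 0 := by
  have hg : GoodDom (_root_.EXL.par N m) (fe k).1 (fe k).2 :=
    _root_.EXL.good_floor hN (by positivity) (by exact_mod_cast hk)
  have hD : De (fe k) := by
    have h := (Net.Tot.De_A' (k : ℤ) 0).1
    have h2 := Net.De_rv h
    have e : rv (_root_.EXL.A k 0, ((0, -1) : Pt)) = fe k := by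
      unfold rv fe
      simp only
      rw [_root_.EXL.A_down]
      norm_num
    rwa [e] at h2
  have hin : (fe k).1 + (fe k).2 ∈ _root_.EXL.par N m := by
    show _root_.EXL.B k (-1) + (0, 1) ∈ _
    rw [_root_.EXL.B_up, _root_.EXL.A_mem]
    omega
  have h := sum_exits sz hD hin
  have h1 : ∑ t ∈ exits (_root_.EXL.par N m) (fe k).1 (fe k).2,
      sz (wind t) * xc ^ t.length = 0 := identity_im _ hg.dir hg.half
  rw [h1] at h
  have e1 : ∀ k', WW sz (_root_.EXL.par N m) (fe k) (fe k') =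
      sz 3 * (if k' < k then W1 (_root_.EXL.par N m) (fe k) (fe k') else 0) -
      sz 3 * (if k < k' then W1 (_root_.EXL.par N m) (fe k) (fe k') else 0) := fun k' => by
    have hc : cross (fe k).2 ((fe k').1 - (fe k).1) = 2 * ((k : ℤ) - k') := by
      show cross (0, 1) (_root_.EXL.B k' (-1) - _root_.EXL.B k (-1)) = _
      simp only [cross, _root_.EXL.B, Prod.fst_sub, Prod.snd_sub]
      ring
    rcases lt_trichotomy k k' with h | h | h
    · rw [WW_3r (q := fe k') hg rfl (by rw [hc]; omega), if_neg (by omega), if_pos h, sz_neg 3]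
      ring
    · subst h
      rw [if_neg (lt_irrefl _)]
      have z : W1 (_root_.EXL.par N m) (fe k) (fe k) = 0 := W1_self hg
      rw [W1_eq] at z
      have z2 : (exits (_root_.EXL.par N m) (fe k).1 (fe k).2).filter
          (fun t => rv (le (fe k) t) = fe k) = ∅ := by
        rw [Finset.sum_eq_zero_iff_of_nonneg (fun _ _ => pow_nonneg xc_pos.le _)] at z
        rw [Finset.eq_empty_iff_forall_notMem]
        intro t ht
        exact absurd (z t ht) (pow_pos xc_pos _).ne'
      unfold WW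
      rw [z2]
      simp
    · rw [WW_3l (q := fe k') hg rfl (by rw [hc]; omega), if_pos h, if_neg (by omega)]
      ring
  have e2 : ∀ k', WW sz (_root_.EXL.par N m) (fe k) (te N k') = 0 := fun k' => by
    rw [WW_0 hg (by show -((0, -1) : Pt) = (0, 1); decide)]
    unfold sz
    simp
  have e3 : ∀ i, WW sz (_root_.EXL.par N m) (fe k) (cutE m i) =
      -sz 2 * W1 (_root_.EXL.par N m) (fe k) (cutE m i) := fun i => by
    rw [← sz_neg 2]
    exact WW_m2 hg (by show -((-1, 1) : Pt) = rotR (rotR (0, 1)); decide)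
  have e4 : ∀ i, WW sz (_root_.EXL.par N m) (fe k) (lfE i) =
      sz 1 * W1 (_root_.EXL.par N m) (fe k) (lfE i) := fun i =>
    WW_1 hg (by show -((1, -1) : Pt) = rotL (0, 1); decide)
  simp only [e1, e2, e3, e4, ← Finset.mul_sum, Finset.sum_const_zero, add_zero,
    Finset.sum_sub_distrib] at h
  linarith

end rows

end Pool.Agent.EXK.Hf
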