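import Pool.Agent.EXK.Half2

/-!
# The parallelogram: sums over the rows and over a window of feet (board EXK, K3)
-/

set_option autoImplicit false

namespace Pool.Agent.EXK.Hf

open HexObs HexObs.LP Finset Pool.Agent.EXL

/-- floor -/
noncomputable def SPm (N m : ℕ) : ℝ :=
  ∑ j ∈ range N, ∑ k ∈ range m, W1 (_root_.EXL.par N m) (cutE m j) (fe k)

/-- top -/
noncomputable def SQm (N m : ℕ) : ℝ :=
  ∑ j ∈ range N, ∑ k ∈ range m, W1 (_root_.EXL.par N m) (cutE m j) (te N k)

/-- cut -/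
noncomputable def SLm (N m : ℕ) : ℝ :=
  ∑ i ∈ range N, ∑ j ∈ range N, if i < j then W1 (_root_.EXL.par N m) (cutE m i) (cutE m j) else 0

/-- left side -/
noncomputable def S0m (N m : ℕ) : ℝ :=
  ∑ j ∈ range N, ∑ i ∈ range N, W1 (_root_.EXL.par N m) (cutE m j) (lfE i)

theorem W1_self_cut {N m j : ℕ} (hm : 1 ≤ m) (hj : j < N) :
    W1 (_root_.EXL.par N m) (cutE m j) (cutE m j) = 0 := W1_self (good_cut hm hj)

theorem cut_sum {N m : ℕ} (hm : 1 ≤ m) :
    ∑ j ∈ range N, ∑ i ∈ range N, W1 (_root_.EXL.par N m) (cutE m j) (cutE m i) = 2 * SLm N m := by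
  have e : ∀ i ∈ range N, ∀ j ∈ range N, W1 (_root_.EXL.par N m) (cutE m i) (cutE m j) =
      (if i < j then W1 (_root_.EXL.par N m) (cutE m i) (cutE m j) else 0) +
      (if j < i then W1 (_root_.EXL.par N m) (cutE m j) (cutE m i) else 0) := by
    intro i hi j _
    rcases lt_trichotomy i j with h | h | h
    · rw [if_pos h, if_neg (by omega), add_zero]
    · subst h
      rw [if_neg (lt_irrefl _), W1_self_cut hm (Finset.mem_range.1 hi)]
      simp
    · rw [if_neg (by omega), if_pos h, zero_add]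
      exact W1_rev (cutE_out N m i) (cutE_out N m j)
  rw [Finset.sum_congr rfl fun i hi => Finset.sum_congr rfl fun j hj => e i hi j hj]
  simp only [Finset.sum_add_distrib]
  have e2 : ∑ i ∈ range N, ∑ j ∈ range N,
      (if j < i then W1 (_root_.EXL.par N m) (cutE m j) (cutE m i) else 0) = SLm N m := by
    rw [Finset.sum_comm]
    rfl
  rw [e2]
  unfold SLm
  ring

/-- real part, all rows -/
theorem re_rows {N m : ℕ} (hm : 1 ≤ m) :
    cz 2 * SPm N m + cz 1 * SQm N m + 2 * cz 3 * SLm N m + S0m N m = N := by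
  have h : ∑ j ∈ range N, (cz 2 * ∑ k ∈ range m, W1 (_root_.EXL.par N m) (cutE m j) (fe k) +
      cz 1 * ∑ k ∈ range m, W1 (_root_.EXL.par N m) (cutE m j) (te N k) +
      cz 3 * ∑ i ∈ range N, W1 (_root_.EXL.par N m) (cutE m j) (cutE m i) +
      ∑ i ∈ range N, W1 (_root_.EXL.par N m) (cutE m j) (lfE i)) = ∑ _j ∈ range N, (1 : ℝ) :=
    Finset.sum_congr rfl fun j hj => re_cut hm (Finset.mem_range.1 hj)
  simp only [Finset.sum_add_distrib, ← Finset.mul_sum, Finset.sum_const, Finset.card_range,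
    nsmul_eq_mul, mul_one] at h
  rw [cut_sum hm] at h
  unfold SPm SQm S0m
  linarith

/-- imaginary part, all rows -/
theorem im_rows {N m : ℕ} (hm : 1 ≤ m) : sz 1 * SQm N m = sz 2 * SPm N m := by
  have h : ∑ j ∈ range N, (sz 2 * ∑ k ∈ range m, W1 (_root_.EXL.par N m) (cutE m j) (fe k) -
      sz 1 * ∑ k ∈ range m, W1 (_root_.EXL.par N m) (cutE m j) (te N k) +
      ∑ i ∈ range N, WW sz (_root_.EXL.par N m) (cutE m j) (cutE m i)) = ∑ _j ∈ range N, (0 : ℝ) :=
    Finset.sum_congr rfl fun j hj => im_cut hm (Finset.mem_range.1 hj)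
  simp only [Finset.sum_add_distrib, Finset.sum_sub_distrib, ← Finset.mul_sum,
    Finset.sum_const_zero] at h
  have e : ∑ j ∈ range N, ∑ i ∈ range N, WW sz (_root_.EXL.par N m) (cutE m j) (cutE m i) =
      -∑ j ∈ range N, ∑ i ∈ range N, WW sz (_root_.EXL.par N m) (cutE m j) (cutE m i) := by
    conv_lhs => rw [Finset.sum_comm]
    rw [← Finset.sum_neg_distrib]
    refine Finset.sum_congr rfl fun i _ => ?_
    rw [← Finset.sum_neg_distrib]
    refine Finset.sum_congr rfl fun j _ => ?_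
    rw [WW_rev sz (cutE_out N m j) (cutE_out N m i)]
    unfold WW
    rw [← Finset.sum_neg_distrib]
    refine Finset.sum_congr rfl fun t _ => ?_
    simp only [sz_neg, neg_mul]
  have e2 : ∑ j ∈ range N, ∑ i ∈ range N, WW sz (_root_.EXL.par N m) (cutE m j) (cutE m i) = 0 := by
    linarith
  rw [e2] at h
  unfold SPm SQm
  linarith

/-- arcs from the window to the feet on its left -/
noncomputable def LA (N m M : ℕ) : ℝ :=
  ∑ k ∈ Ico M m, ∑ k' ∈ range M, W1 (_root_.EXL.par N m) (fe k) (fe k')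

/-- from the window to the left side -/
noncomputable def LE (N m M : ℕ) : ℝ :=
  ∑ k ∈ Ico M m, ∑ i ∈ range N, W1 (_root_.EXL.par N m) (fe k) (lfE i)

/-- from the window to the cut -/
noncomputable def RE (N m M : ℕ) : ℝ :=
  ∑ k ∈ Ico M m, ∑ i ∈ range N, W1 (_root_.EXL.par N m) (fe k) (cutE m i)

/-- the identity of the window -/
theorem window {N m M : ℕ} (hN : 1 ≤ N) (hM : M ≤ m) :
    sz 3 * LA N m M + sz 1 * LE N m M = sz 2 * RE N m M := by
  have h : ∑ k ∈ Ico M m,
      (sz 3 * (∑ k' ∈ range m, if k' < k then W1 (_root_.EXL.par N m) (fe k) (fe k') else 0) -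
      sz 3 * (∑ k' ∈ range m, if k < k' then W1 (_root_.EXL.par N m) (fe k) (fe k') else 0) +
      sz 1 * ∑ i ∈ range N, W1 (_root_.EXL.par N m) (fe k) (lfE i) -
      sz 2 * ∑ i ∈ range N, W1 (_root_.EXL.par N m) (fe k) (cutE m i)) = ∑ _k ∈ Ico M m, (0 : ℝ) := by
    refine Finset.sum_congr rfl fun k hk => ?_
    rw [Finset.mem_Ico] at hk
    exact im_foot (by omega) hN hk.2
  simp only [Finset.sum_add_distrib, Finset.sum_sub_distrib, ← Finset.mul_sum,
    Finset.sum_const_zero] at h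
  have e1 : ∀ k ∈ Ico M m, (∑ k' ∈ range m, if k' < k then W1 (_root_.EXL.par N m) (fe k) (fe k') else 0) =
      ∑ k' ∈ range M, W1 (_root_.EXL.par N m) (fe k) (fe k') +
      ∑ k' ∈ Ico M m, if k' < k then W1 (_root_.EXL.par N m) (fe k) (fe k') else 0 := by
    intro k hk
    rw [Finset.mem_Ico] at hk
    rw [← Finset.sum_range_add_sum_Ico _ hM]
    congr 1
    refine Finset.sum_congr rfl fun k' hk' => ?_
    rw [Finset.mem_range] at hk'
    rw [if_pos (by omega)]
  have e2 : ∀ k ∈ Ico M m, (∑ k' ∈ range m, if k < k' then W1 (_root_.EXL.par N m) (fe k) (fe k') else 0) =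
      ∑ k' ∈ Ico M m, if k < k' then W1 (_root_.EXL.par N m) (fe k) (fe k') else 0 := by
    intro k hk
    rw [Finset.mem_Ico] at hk
    rw [← Finset.sum_range_add_sum_Ico _ hM, Finset.sum_eq_zero, zero_add]
    intro k' hk'
    rw [Finset.mem_range] at hk'
    rw [if_neg (by omega)]
  rw [Finset.sum_congr rfl e1, Finset.sum_congr rfl e2, Finset.sum_add_distrib] at h
  have e3 : ∑ k ∈ Ico M m, ∑ k' ∈ Ico M m,
      (if k' < k then W1 (_root_.EXL.par N m) (fe k) (fe k') else 0) =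
      ∑ k ∈ Ico M m, ∑ k' ∈ Ico M m,
      (if k < k' then W1 (_root_.EXL.par N m) (fe k) (fe k') else 0) := by
    rw [Finset.sum_comm]
    refine Finset.sum_congr rfl fun k _ => Finset.sum_congr rfl fun k' _ => ?_
    split_ifs with h
    · exact W1_rev (fe_out N m k') (fe_out N m k)
    · rfl
  rw [e3] at h
  unfold LA LE RE
  linarith

end Pool.Agent.EXK.Hf
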