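import Pool.Agent.EXK.IdL
import Pool.Agent.HexStep.Defs

/-!
# The sums of the half strip function over the rows (board EXK: interface of K3)
-/

set_option autoImplicit false

namespace Pool.Agent.EXK

open Pool.Agent.EXL Pat HexObs

/-- walks from the cut to the floor -/
noncomputable def SPh (N : ℕ) : ℝ := ∑ j : Fin N, Fh N (cup (Site.row j) Site.tp Pat.empty)

/-- walks from the cut to the top -/
noncomputable def SQh (N : ℕ) : ℝ := ∑ j : Fin N, Fh N (cup (Site.row j) Site.fl Pat.empty)

/-- walks from the cut to the cut -/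
noncomputable def SLh (N : ℕ) : ℝ := ∑ i : Fin N, ∑ j : Fin N,
  if i < j then Fh N (cup (Site.row j) Site.tp (cup (Site.row i) Site.fl Pat.empty)) else 0

/-- K3 -/
structure HalfIds (N : ℕ) : Prop where
  im : Real.sin (Real.pi / 8) * SQh N = Real.sin (Real.pi / 4) * SPh N
  re : Real.cos (Real.pi / 4) * SPh N + Real.cos (Real.pi / 8) * SQh N +
    2 * Real.cos (3 * Real.pi / 8) * SLh N = N
  kt : Real.sin (3 * Real.pi / 8) * (SP.KT N).toReal = Real.sin (Real.pi / 4) * SPh N

end Pool.Agent.EXK
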