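import Pool.Agent.EXK.Half3
import Pool.Agent.EXK.HalfDefs

/-!
# Limits of the sums over the rows (board EXK, K3)
-/

set_option autoImplicit false

namespace Pool.Agent.EXK.Hf

open HexObs HexObs.LP Finset Pool.Agent.EXL Filter Topology

/-- the sum over the ends in the image of an injective map -/
theorem sum_image_W1 {Ω : Finset Pt} {p : Pt × Pt} (n : ℕ) (g : ℕ → Pt × Pt)
    (hg : Function.Injective g) : ∑ k ∈ range n, W1 Ω p (g k) =
      ∑ t ∈ (exits Ω p.1 p.2).filter (fun t => rv (le p t) ∈ (range n).image g), xc ^ t.length := by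
  classical
  simp only [W1_eq]
  simp only [Finset.sum_filter]
  rw [Finset.sum_comm]
  refine Finset.sum_congr rfl fun t _ => ?_
  split_ifs with h
  · obtain ⟨k, hk, hkt⟩ := Finset.mem_image.1 h
    rw [Finset.sum_eq_single k, if_pos hkt.symm]
    · intro b _ hb
      rw [if_neg]
      intro hh
      exact hb (hg (hh.symm.trans hkt.symm))
    · exact fun hh => absurd hk hh
  · apply Finset.sum_eq_zero
    intro k hk
    rw [if_neg]
    intro hh
    exact h (Finset.mem_image.2 ⟨k, hk, hh.symm⟩)

variable {N : ℕ} (hN : 1 ≤ N)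
include hN

theorem lim_SP : Tendsto (fun m => SPm N m) atTop (𝓝 (SPh N)) := by
  unfold SPm SPh
  have h : ∀ j : Fin N, Tendsto (fun m => ∑ k ∈ range m, W1 (_root_.EXL.par N m) (cutE m j) (fe k)) atTop
      (𝓝 (Fh N (Pat.cup (Site.row j) Site.tp Pat.empty))) := by
    intro j
    refine (Fh_tp hN j).congr fun m => ?_
    rw [sum_image_W1 m fe fe_inj, ex0_eq (cutE_out N m j)]
    rfl
  have h2 := tendsto_finsetSum (Finset.univ : Finset (Fin N)) fun j _ => h j
  refine h2.congr fun m => ?_
  rw [Finset.sum_range]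

theorem lim_SQ : Tendsto (fun m => SQm N m) atTop (𝓝 (SQh N)) := by
  unfold SQm SQh
  have h : ∀ j : Fin N, Tendsto (fun m => ∑ k ∈ range m, W1 (_root_.EXL.par N m) (cutE m j) (te N k)) atTop
      (𝓝 (Fh N (Pat.cup (Site.row j) Site.fl Pat.empty))) := by
    intro j
    refine (Fh_fl hN j).congr fun m => ?_
    rw [sum_image_W1 m (te N) (te_inj N), ex0_eq (cutE_out N m j)]
    rfl
  have h2 := tendsto_finsetSum (Finset.univ : Finset (Fin N)) fun j _ => h j
  refine h2.congr fun m => ?_
  rw [Finset.sum_range]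

theorem lim_SL : Tendsto (fun m => SLm N m) atTop (𝓝 (SLh N)) := by
  unfold SLm SLh
  have h : ∀ i j : Fin N, Tendsto (fun m => if i < j then W1 (_root_.EXL.par N m) (cutE m i) (cutE m j) else 0)
      atTop (𝓝 (if i < j then
        Fh N (Pat.cup (Site.row j) Site.tp (Pat.cup (Site.row i) Site.fl Pat.empty)) else 0)) := by
    intro i j
    by_cases hij : i < j
    · simp only [if_pos hij]
      refine (Fh_two hN hij).congr fun m => ?_
      rw [W1_eq, ex0_eq (cutE_out N m i)]
    · simp only [if_neg hij]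
      exact tendsto_const_nhds
  have h2 := tendsto_finsetSum (Finset.univ : Finset (Fin N)) fun i _ =>
    tendsto_finsetSum (Finset.univ : Finset (Fin N)) fun j _ => h i j
  refine h2.congr fun m => ?_
  rw [Finset.sum_range]
  refine Finset.sum_congr rfl fun i _ => ?_
  rw [Finset.sum_range]
  refine Finset.sum_congr rfl fun j _ => ?_
  exact if_congr Iff.rfl rfl rfl

omit hN in
theorem lim_S0 : Tendsto (fun m => S0m N m) atTop (𝓝 0) := by
  have hr0 := _root_.EXL.rho_nonneg N
  have hr1 := _root_.EXL.rho_lt_one N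
  have hlim : Tendsto (fun m : ℕ => (N : ℝ) * (N * _root_.EXL.rho N ^ (m - 1))) atTop (𝓝 0) := by
    have h1 : Tendsto (fun m : ℕ => _root_.EXL.rho N ^ (m - 1)) atTop (𝓝 0) :=
      (tendsto_pow_atTop_nhds_zero_of_lt_one hr0 hr1).comp (tendsto_sub_atTop_nat 1)
    have h2 := (h1.const_mul (N : ℝ)).const_mul (N : ℝ)
    simpa using h2
  refine tendsto_of_tendsto_of_tendsto_of_le_of_le' tendsto_const_nhds hlim ?_ ?_
  · exact Eventually.of_forall fun m => Finset.sum_nonneg fun j _ => Finset.sum_nonneg fun i _ =>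
      W1_nonneg _ _ _
  · filter_upwards [eventually_ge_atTop 1] with m hm
    have hb : ∀ j ∈ range N, ∑ i ∈ range N, W1 (_root_.EXL.par N m) (cutE m j) (lfE i) ≤
        N * _root_.EXL.rho N ^ (m - 1) := by
      intro j hj
      have h1 : ∀ i ∈ range N, W1 (_root_.EXL.par N m) (cutE m j) (lfE i) ≤ _root_.EXL.rho N ^ (m - 1) := by
        intro i _
        have h2 := _root_.EXL.cross_decay (T := N) hm (k := (j : ℤ)) (by positivity)
          (by exact_mod_cast Finset.mem_range.1 hj)
        refine le_trans ?_ h2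
        rw [W1_eq]
        unfold Ex
        refine Finset.sum_le_sum_of_subset_of_nonneg ?_ fun _ _ _ => pow_nonneg xc_pos.le _
        intro t ht
        rw [Finset.mem_filter, rv_le_iff] at ht
        rw [Finset.mem_filter]
        refine ⟨ht.1, ?_⟩
        rw [show dx (-1, 1) t t.length = -(lfE i).2 from ht.2.2]
        show -((1, -1) : Pt) = (-1, 1)
        decide
      refine (Finset.sum_le_sum h1).trans ?_
      rw [Finset.sum_const, Finset.card_range, nsmul_eq_mul]
    unfold S0m
    refine (Finset.sum_le_sum hb).trans ?_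
    rw [Finset.sum_const, Finset.card_range, nsmul_eq_mul]

theorem half_im : Real.sin (Real.pi / 8) * SQh N = Real.sin (Real.pi / 4) * SPh N := by
  have e1 : sz 1 = Real.sin (Real.pi / 8) := by unfold sz; push_cast; rw [one_mul]
  have e2 : sz 2 = Real.sin (Real.pi / 4) := by
    unfold sz; push_cast; congr 1; ring
  have h1 := (lim_SQ hN).const_mul (sz 1)
  have h2 := (lim_SP hN).const_mul (sz 2)
  rw [← e1, ← e2]
  refine tendsto_nhds_unique h1 (h2.congr' ?_)
  filter_upwards [eventually_ge_atTop 1] with m hm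
  exact (im_rows hm).symm

theorem half_re : Real.cos (Real.pi / 4) * SPh N + Real.cos (Real.pi / 8) * SQh N +
    2 * Real.cos (3 * Real.pi / 8) * SLh N = N := by
  have e1 : cz 1 = Real.cos (Real.pi / 8) := by unfold cz; push_cast; rw [one_mul]
  have e2 : cz 2 = Real.cos (Real.pi / 4) := by
    unfold cz; push_cast; congr 1; ring
  have e3 : cz 3 = Real.cos (3 * Real.pi / 8) := by
    unfold cz; push_cast; congr 1; ring
  have h := ((((lim_SP hN).const_mul (cz 2)).add ((lim_SQ hN).const_mul (cz 1))).add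
    ((lim_SL hN).const_mul (2 * cz 3))).add (lim_S0 (N := N))
  rw [add_zero, e1, e2, e3] at h
  refine tendsto_nhds_unique h (tendsto_const_nhds.congr' ?_)
  filter_upwards [eventually_ge_atTop 1] with m hm
  rw [← e1, ← e2, ← e3]
  exact (re_rows hm).symm

end Pool.Agent.EXK.Hf
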