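import Pool.Agent.EXK.Half4

/-!
# The window: the two sides (board EXK, K3)
-/

set_option autoImplicit false

namespace Pool.Agent.EXK.Hf

open HexObs HexObs.LP Finset Pool.Agent.EXL Filter Topology

/-- monotone arrays with bounded sums have small tails -/
theorem mono_tail {a : ℕ → ℕ → ℝ} (h0 : ∀ m k, 0 ≤ a m k) (hm : ∀ m k, k < m → a m k ≤ a (m + 1) k)
    {C : ℝ} (hC : ∀ m, 1 ≤ m → ∑ k ∈ range m, a m k ≤ C) :
    Tendsto (fun n : ℕ => ∑ k ∈ Ico n (2 * n), a (2 * n) k) atTop (𝓝 0) := by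
  set S : ℕ → ℝ := fun m => ∑ k ∈ range m, a m k with hS
  have hmk : ∀ k m m', k < m → m ≤ m' → a m k ≤ a m' k := by
    intro k m m' hk h
    induction m', h using Nat.le_induction with
    | base => exact le_rfl
    | succ m' h ih => exact ih.trans (hm m' k (by omega))
  have hmono : Monotone S := by
    refine monotone_nat_of_le_succ fun m => ?_
    show ∑ k ∈ range m, a m k ≤ ∑ k ∈ range (m + 1), a (m + 1) k
    rw [Finset.sum_range_succ]
    have : ∑ k ∈ range m, a m k ≤ ∑ k ∈ range m, a (m + 1) k :=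
      Finset.sum_le_sum fun k hk => hm m k (Finset.mem_range.1 hk)
    linarith [h0 (m + 1) m]
  have hbdd : BddAbove (Set.range S) := by
    refine ⟨max C (S 0), ?_⟩
    rintro _ ⟨m, rfl⟩
    rcases Nat.eq_zero_or_pos m with rfl | h
    · exact le_max_right _ _
    · exact (hC m h).trans (le_max_left _ _)
  have hlim : Tendsto S atTop (𝓝 (⨆ m, S m)) := tendsto_atTop_ciSup hmono hbdd
  set L := ⨆ m, S m with hL
  rw [Metric.tendsto_atTop] at hlim ⊢
  intro ε hε
  obtain ⟨n0, hn0⟩ := hlim ε hε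
  refine ⟨n0 + 1, fun n hn => ?_⟩
  have h1 := hn0 n0 le_rfl
  rw [Real.dist_eq, abs_lt] at h1
  have h2 : S (2 * n) ≤ L := le_ciSup hbdd (2 * n)
  have h3 : S n0 ≤ ∑ k ∈ range n, a (2 * n) k := by
    calc S n0 = ∑ k ∈ range n0, a n0 k := rfl
      _ ≤ ∑ k ∈ range n0, a (2 * n) k := Finset.sum_le_sum fun k hk =>
          hmk k n0 (2 * n) (Finset.mem_range.1 hk) (by omega)
      _ ≤ ∑ k ∈ range n, a (2 * n) k := Finset.sum_le_sum_of_subset_of_nonneg
          (Finset.range_subset_range.2 (by omega)) fun _ _ _ => h0 _ _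
  have h4 : ∑ k ∈ range n, a (2 * n) k + ∑ k ∈ Ico n (2 * n), a (2 * n) k = S (2 * n) :=
    Finset.sum_range_add_sum_Ico _ (by omega)
  have h5 : 0 ≤ ∑ k ∈ Ico n (2 * n), a (2 * n) k := Finset.sum_nonneg fun _ _ => h0 _ _
  rw [Real.dist_eq, sub_zero, abs_of_nonneg h5]
  linarith [h1.1]

/-- a larger domain, shifted -/
theorem W1_le {Ω Ω' : Finset Pt} {p q : Pt × Pt} (c : Pt) (h : ∀ v ∈ Ω, v + c ∈ Ω')
    (hp : p.1 + c ∉ Ω') (hq : q.1 + c ∉ Ω') :
    W1 Ω p q ≤ W1 Ω' (p.1 + c, p.2) (q.1 + c, q.2) := by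
  rw [W1_eq, W1_eq]
  refine Finset.sum_le_sum_of_subset_of_nonneg ?_ fun _ _ _ => pow_nonneg xc_pos.le _
  intro t ht
  rw [Finset.mem_filter, rv_le_iff, mem_exits] at ht ⊢
  obtain ⟨⟨harr, hout⟩, h1, h2⟩ := ht
  have htip : tip (p.1 + c) p.2 t = q.1 + c := by
    have : tip (p.1 + c) p.2 t = tip p.1 p.2 t + c := _root_.EXL.vx_shift p.1 c p.2 t _
    rw [this, h1]
  refine ⟨⟨⟨fun i hi hl => ?_, fun i k hik hk => ?_⟩, ?_⟩, htip, h2⟩
  · show vx (p.1 + c) p.2 t i ∈ Ω'
    rw [_root_.EXL.vx_shift]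
    exact h _ (harr.mem i hi hl)
  · show vx (p.1 + c) p.2 t i ≠ vx (p.1 + c) p.2 t k
    rw [_root_.EXL.vx_shift, _root_.EXL.vx_shift]
    intro e
    exact harr.inj i k hik hk (add_right_cancel e)
  · show tip (p.1 + c) p.2 t ∉ Ω'
    rw [htip]
    exact hq

theorem par_mono (N m : ℕ) : ∀ v ∈ _root_.EXL.par N m, v + (0, 0) ∈ _root_.EXL.par N (m + 1) := by
  intro v hv
  have e : v + ((0, 0) : Pt) = v := add_zero v
  rw [e]
  rw [_root_.EXL.mem_par] at hv ⊢
  obtain ⟨j, k, h1, h2, h3⟩ := hv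
  refine ⟨j, k, ?_, h2, h3⟩
  push_cast
  omega

theorem par_shift (N m : ℕ) : ∀ v ∈ _root_.EXL.par N m, v + (2, -1) ∈ _root_.EXL.par N (m + 1) := by
  intro v hv
  rw [_root_.EXL.mem_par] at hv ⊢
  obtain ⟨j, k, h1, h2, h3⟩ := hv
  refine ⟨j + 1, k, ?_, h2, ?_⟩
  · push_cast
    omega
  · rcases h3 with rfl | rfl
    · left
      ext <;> simp only [_root_.EXL.A, Prod.fst_add, Prod.snd_add] <;> ring
    · right
      ext <;> simp only [_root_.EXL.B, Prod.fst_add, Prod.snd_add] <;> ring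

theorem fe_shift (k : ℕ) : ((fe k).1 + (2, -1), (fe k).2) = fe (k + 1) := by
  unfold fe
  refine Prod.ext ?_ rfl
  ext <;> simp only [_root_.EXL.B, Prod.fst_add, Prod.snd_add] <;> push_cast <;> ring

theorem cutE_shift (m j : ℕ) : ((cutE m j).1 + (2, -1), (cutE m j).2) = cutE (m + 1) j := by
  unfold cutE
  refine Prod.ext ?_ rfl
  ext <;> simp only [_root_.EXL.A, Prod.fst_add, Prod.snd_add] <;> push_cast <;> ring

variable {N : ℕ} (hN : 1 ≤ N)
include hN

omit hN in
theorem SPm_nonneg (m : ℕ) : 0 ≤ SPm N m :=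
  Finset.sum_nonneg fun _ _ => Finset.sum_nonneg fun _ _ => W1_nonneg _ _ _

omit hN in
theorem cz_pos {n : ℤ} (h0 : 0 ≤ n) (h : n ≤ 3) : 0 < cz n := by
  unfold cz
  have hpi := Real.pi_pos
  have h0' : (0 : ℝ) ≤ n := by exact_mod_cast h0
  have h3' : (n : ℝ) ≤ 3 := by exact_mod_cast h
  apply Real.cos_pos_of_mem_Ioo
  constructor
  · nlinarith
  · nlinarith

omit hN in
theorem sz_pos {n : ℤ} (h0 : 1 ≤ n) (h : n ≤ 3) : 0 < sz n := by
  unfold sz
  have hpi := Real.pi_pos
  have h0' : (1 : ℝ) ≤ n := by exact_mod_cast h0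
  have h3' : (n : ℝ) ≤ 3 := by exact_mod_cast h
  apply Real.sin_pos_of_pos_of_lt_pi
  · nlinarith
  · nlinarith

omit hN in
theorem SPm_le {m : ℕ} (hm : 1 ≤ m) : SPm N m ≤ N / cz 2 := by
  have h := re_rows (N := N) hm
  have h1 : 0 ≤ SQm N m := Finset.sum_nonneg fun _ _ => Finset.sum_nonneg fun _ _ => W1_nonneg _ _ _
  have h2 : 0 ≤ SLm N m := Finset.sum_nonneg fun _ _ => Finset.sum_nonneg fun _ _ => by
    split_ifs
    · exact W1_nonneg _ _ _
    · exact le_rfl
  have h3 : 0 ≤ S0m N m := Finset.sum_nonneg fun _ _ => Finset.sum_nonneg fun _ _ => W1_nonneg _ _ _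
  have c1 := cz_pos (n := 1) (by norm_num) (by norm_num)
  have c2 := cz_pos (n := 2) (by norm_num) (by norm_num)
  have c3 := cz_pos (n := 3) (by norm_num) (by norm_num)
  rw [le_div_iff₀ c2]
  nlinarith [mul_nonneg c1.le h1, mul_nonneg c3.le h2]

omit hN in
/-- all feet -/
theorem RE_zero (m : ℕ) : RE N m 0 = SPm N m := by
  unfold RE SPm
  rw [← Finset.range_eq_Ico, Finset.sum_comm]
  exact Finset.sum_congr rfl fun i _ => Finset.sum_congr rfl fun k _ =>
    W1_rev (fe_out N m k) (cutE_out N m i)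

/-- the left side -/
theorem lim_LE : Tendsto (fun n : ℕ => LE N (2 * n) n) atTop (𝓝 0) := by
  refine mono_tail (a := fun m k => ∑ i ∈ range N, W1 (_root_.EXL.par N m) (fe k) (lfE i))
    (C := sz 2 / sz 1 * (N / cz 2)) (fun m k => Finset.sum_nonneg fun _ _ => W1_nonneg _ _ _) ?_ ?_
  · intro m k _
    refine Finset.sum_le_sum fun i _ => ?_
    have h := W1_le (p := fe k) (q := lfE i) (0, 0) (par_mono N m) (by
      have e : (fe k).1 + ((0, 0) : Pt) = (fe k).1 := add_zero _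
      rw [e]; exact fe_out N (m + 1) k) (by
      have e : (lfE i).1 + ((0, 0) : Pt) = (lfE i).1 := add_zero _
      rw [e]; exact lfE_out N (m + 1) i)
    have e1 : ((fe k).1 + ((0, 0) : Pt), (fe k).2) = fe k := Prod.ext (add_zero _) rfl
    have e2 : ((lfE i).1 + ((0, 0) : Pt), (lfE i).2) = lfE i := Prod.ext (add_zero _) rfl
    rw [e1, e2] at h
    exact h
  · intro m hm
    have h := window (N := N) (m := m) (M := 0) hN (Nat.zero_le _)
    rw [RE_zero] at h
    have hLA : LA N m 0 = 0 := by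
      unfold LA
      simp
    rw [hLA, mul_zero, zero_add] at h
    have h1 : LE N m 0 = ∑ k ∈ range m, ∑ i ∈ range N, W1 (_root_.EXL.par N m) (fe k) (lfE i) := by
      unfold LE
      rw [← Finset.range_eq_Ico]
    rw [h1] at h
    have s1 := sz_pos (n := 1) (by norm_num) (by norm_num)
    have s2 := sz_pos (n := 2) (by norm_num) (by norm_num)
    have h2 := SPm_le (N := N) hm
    rw [div_mul_eq_mul_div, le_div_iff₀ s1, mul_comm _ (sz 1), h]
    exact mul_le_mul_of_nonneg_left h2 s2.le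

/-- the cut -/
theorem lim_RE : Tendsto (fun n : ℕ => RE N (2 * n) n) atTop (𝓝 (SPh N)) := by
  have htail := mono_tail (a := fun m k => ∑ i ∈ range N, W1 (_root_.EXL.par N m) (fe (m - 1 - k)) (cutE m i))
    (C := N / cz 2) (fun m k => Finset.sum_nonneg fun _ _ => W1_nonneg _ _ _) ?_ ?_
  · have h1 : Tendsto (fun n : ℕ => SPm N (2 * n)) atTop (𝓝 (SPh N)) :=
      (lim_SP hN).comp (tendsto_id.const_mul_atTop' (by norm_num : 0 < 2))
    have h2 := h1.sub htail
    rw [sub_zero] at h2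
    refine h2.congr fun n => ?_
    rw [← RE_zero]
    unfold RE
    have e1 : ∑ k ∈ Ico n (2 * n), ∑ i ∈ range N,
        W1 (_root_.EXL.par N (2 * n)) (fe (2 * n - 1 - k)) (cutE (2 * n) i) =
        ∑ k ∈ range n, ∑ i ∈ range N, W1 (_root_.EXL.par N (2 * n)) (fe k) (cutE (2 * n) i) := by
      refine Finset.sum_nbij' (fun k => 2 * n - 1 - k) (fun k => 2 * n - 1 - k) ?_ ?_ ?_ ?_ ?_
      · intro k hk
        rw [Finset.mem_Ico] at hk
        rw [Finset.mem_range]
        omega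
      · intro k hk
        rw [Finset.mem_range] at hk
        rw [Finset.mem_Ico]
        omega
      · intro k hk
        rw [Finset.mem_Ico] at hk
        omega
      · intro k hk
        rw [Finset.mem_range] at hk
        omega
      · intro k _
        rfl
    rw [e1, ← Finset.range_eq_Ico, ← Finset.sum_range_add_sum_Ico _ (show n ≤ 2 * n by omega)]
    ring
  · intro m k hk
    refine Finset.sum_le_sum fun i _ => ?_
    have h := W1_le (p := fe (m - 1 - k)) (q := cutE m i) (2, -1) (par_shift N m) (by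
      have e := congrArg Prod.fst (fe_shift (m - 1 - k))
      simp only at e
      rw [e]; exact fe_out N (m + 1) _) (by
      have e := congrArg Prod.fst (cutE_shift m i)
      simp only at e
      rw [e]; exact cutE_out N (m + 1) i)
    rw [fe_shift, cutE_shift] at h
    have e3 : m - 1 - k + 1 = m + 1 - 1 - k := by omega
    rw [e3] at h
    exact h
  · intro m hm
    rw [Finset.sum_range_reflect (fun k => ∑ i ∈ range N, W1 (_root_.EXL.par N m) (fe k) (cutE m i)) m]
    have := SPm_le (N := N) hm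
    rw [← RE_zero] at this
    unfold RE at this
    rwa [← Finset.range_eq_Ico] at this

/-- the arcs across the middle -/
theorem lim_LA_mul : Tendsto (fun n : ℕ => sz 3 * LA N (2 * n) n) atTop (𝓝 (sz 2 * SPh N)) := by
  have h := ((lim_RE hN).const_mul (sz 2)).sub ((lim_LE hN).const_mul (sz 1))
  rw [mul_zero, sub_zero] at h
  refine h.congr fun n => ?_
  have := window (N := N) (m := 2 * n) (M := n) hN (by omega)
  linarith

end Pool.Agent.EXK.Hf
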