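import Pool.Agent.EXK.Half5
import Pool.Agent.HexStep.XBound

/-!
# The arcs across the middle: their total weight tends to K_N (board EXK, K3)
-/

set_option autoImplicit false

namespace Pool.Agent.EXK.Hf

open HexObs HexObs.LP Finset Pool.Agent.EXL Filter Topology ENNReal

theorem fe_foot (k : ℕ) : (fe k).1 = oo + (2 * (k : ℤ), -(k : ℤ)) := by
  unfold fe oo
  ext <;> simp only [_root_.EXL.B, Prod.fst_add, Prod.snd_add] <;> ring

theorem par_iff {N m : ℕ} {v : Pt} : v ∈ _root_.EXL.par N m ↔ v ∈ St N ∧ -1 ≤ SP.nn v ∧ SP.nn v < 3 * m - 1 := by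
  rw [SP.XB.mem_St'', _root_.EXL.mem_par]
  unfold SP.lv SP.nn
  constructor
  · rintro ⟨j, k, h1, h2, h3⟩
    rcases h3 with rfl | rfl <;> simp only [_root_.EXL.A, _root_.EXL.B] <;> omega
  · rintro ⟨⟨h1, h2, h3⟩, h4, h5⟩
    have hr : (v.1 + 2 * v.2) % 3 = 2 ∨ (v.1 + 2 * v.2) % 3 = 0 := by omega
    rcases hr with hr | hr
    · refine ⟨(v.1 - v.2 + 1) / 3, (v.1 + 2 * v.2 - 2) / 3, by omega, by omega, Or.inl ?_⟩
      refine Prod.ext ?_ ?_
      · simp only [_root_.EXL.A]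
        omega
      · simp only [_root_.EXL.A]
        omega
    · refine ⟨(v.1 - v.2) / 3, (v.1 + 2 * v.2 - 3) / 3, by omega, by omega, Or.inr ?_⟩
      refine Prod.ext ?_ ?_
      · simp only [_root_.EXL.B]
        omega
      · simp only [_root_.EXL.B]
        omega

theorem nn_add (v w : Pt) : SP.nn (v + w) = SP.nn v + SP.nn w := by
  unfold SP.nn
  simp only [Prod.fst_add, Prod.snd_add]
  ring

theorem lv_add (v w : Pt) : SP.lv (v + w) = SP.lv v + SP.lv w := by
  unfold SP.lv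
  simp only [Prod.fst_add, Prod.snd_add]
  ring

/-- the words of the arcs of the window -/
theorem mem_win {N n i j : ℕ} (hj : j < n) {t : List Bool} :
    t ∈ (exits (_root_.EXL.par N (2 * n)) (fe (n + i)).1 (fe (n + i)).2).filter
      (fun t => rv (le (fe (n + i)) t) = fe (n - 1 - j)) ↔
    t ∈ Arc (St N) ∅ oo up (foot oo up (-1 * ((i : ℤ) + j + 1))) ∧
      ∀ l, 1 ≤ l → l ≤ t.length → vx (fe (n + i)).1 up t l ∈ _root_.EXL.par N (2 * n) := by
  have hv : ∀ l, vx (fe (n + i)).1 up t l = vx oo up t l + (2 * ((n + i : ℕ) : ℤ), -((n + i : ℕ) : ℤ)) := by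
    intro l
    rw [fe_foot, _root_.EXL.vx_shift]
  have hup : (fe (n + i)).2 = up := rfl
  have htip : tip (fe (n + i)).1 up t = (fe (n - 1 - j)).1 ↔
      tip oo up t = foot oo up (-1 * ((i : ℤ) + j + 1)) := by
    unfold tip
    rw [hv, fe_foot, k4_foot]
    unfold oo
    constructor
    · intro h
      have h5 := congrArg Prod.fst h
      have h6 := congrArg Prod.snd h
      simp only [Prod.fst_add, Prod.snd_add] at h5 h6
      refine Prod.ext ?_ ?_
      · simp only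
        omega
      · simp only
        omega
    · intro h
      rw [h]
      refine Prod.ext ?_ ?_
      · simp only [Prod.fst_add]
        omega
      · simp only [Prod.snd_add]
        omega
  rw [Finset.mem_filter, rv_le_iff, mem_exits, hup]
  unfold Arc HexObs.Dn
  simp only [Set.mem_ofPred_eq, Set.sdiff_empty]
  rw [htip]
  have hd : (fe (n - 1 - j)).2 = up := rfl
  rw [hd]
  constructor
  · rintro ⟨⟨h1, h2⟩, h3, h4⟩
    refine ⟨⟨⟨⟨fun l hl hl' => ?_, fun a b hab hb e => ?_⟩, ?_, h4⟩, h3⟩, fun l hl hl' => h1.mem l hl hl'⟩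
    · have h := (par_iff.1 (h1.mem l hl hl')).1
      rw [hv, SP.XB.mem_St'', lv_add] at h
      rw [SP.XB.mem_St'']
      have e0 : SP.lv ((2 * ((n + i : ℕ) : ℤ), -((n + i : ℕ) : ℤ)) : Pt) = 0 := by
        unfold SP.lv
        ring
      rw [e0, add_zero] at h
      exact h
    · refine h1.inj a b hab hb ?_
      rw [hv, hv, e]
    · rw [h3]
      exact k2_foot_notMem N _
  · rintro ⟨⟨⟨⟨h1, h2⟩, h3, h4⟩, h5⟩, h6⟩
    refine ⟨⟨⟨h6, fun a b hab hb e => ?_⟩, ?_⟩, h5, h4⟩
    · rw [hv, hv] at e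
      exact h2 a b hab hb (add_right_cancel e)
    · have h7 := htip.2 h5
      rw [h7]
      exact fe_out N (2 * n) _

/-- the words that do not fit -/
def Bad (N n : ℕ) : Set (ℕ × ℕ × List Bool) :=
  {a | ¬ (a.1 < n ∧ a.2.1 < n ∧ ∀ l, 1 ≤ l → l ≤ a.2.2.length →
    vx (fe (n + a.1)).1 up a.2.2 l ∈ _root_.EXL.par N (2 * n))}

/-- all arcs -/
noncomputable def fA (N : ℕ) (a : ℕ × ℕ × List Bool) : ℝ≥0∞ :=
  (Arc (St N) ∅ oo up (foot oo up (-1 * ((a.1 : ℤ) + a.2.1 + 1)))).indicator wE a.2.2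

theorem fA_sum {N : ℕ} (hN : 1 ≤ N) : ∑' a, fA N a = SP.KT N := by
  obtain ⟨T, rfl⟩ : ∃ T, N = T + 1 := ⟨N - 1, by omega⟩
  exact SP.KU.total T (-1) (Or.inr rfl)

/-- an arc that is in the strip and not bad eventually -/
theorem bad_ev (N : ℕ) (a : ℕ × ℕ × List Bool) (ha : fA N a ≠ 0) : ∃ M, ∀ m, M ≤ m → a ∉ Bad N m := by
  have hmem : a.2.2 ∈ Arc (St N) ∅ oo up (foot oo up (-1 * ((a.1 : ℤ) + a.2.1 + 1))) := by
    by_contra h
    apply ha
    unfold fA
    rw [Set.indicator_of_notMem h]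
  refine ⟨a.1 + a.2.1 + a.2.2.length + 2, fun m hm => ?_⟩
  unfold Bad
  rw [Set.mem_ofPred_eq, not_not]
  refine ⟨by omega, by omega, fun l hl hl' => ?_⟩
  have h1 := (hmem.1.1.mem l hl hl').1
  rw [par_iff, fe_foot, _root_.EXL.vx_shift, nn_add]
  have e0 : SP.nn ((2 * ((m + a.1 : ℕ) : ℤ), -((m + a.1 : ℕ) : ℤ)) : Pt) = 3 * (m + a.1) := by
    unfold SP.nn
    push_cast
    ring
  have e1 : SP.lv ((2 * ((m + a.1 : ℕ) : ℤ), -((m + a.1 : ℕ) : ℤ)) : Pt) = 0 := by
    unfold SP.lv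
    ring
  rw [e0]
  have h5 := abs_le.1 (SP.KU.nn_bd a.2.2 l)
  refine ⟨?_, ?_, ?_⟩
  · rw [SP.XB.mem_St'', lv_add, e1, add_zero]
    exact SP.XB.mem_St''.1 h1
  · have h6 : (l : ℤ) ≤ a.2.2.length := by exact_mod_cast hl'
    have h7 : ((a.1 + a.2.1 + a.2.2.length + 2 : ℕ) : ℤ) ≤ m := by exact_mod_cast hm
    push_cast at h7
    linarith [h5.1]
  · have h6 : (l : ℤ) ≤ a.2.2.length := by exact_mod_cast hl'
    have h7 : ((a.1 + a.2.1 + a.2.2.length + 2 : ℕ) : ℤ) ≤ m := by exact_mod_cast hm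
    push_cast at h7 ⊢
    linarith [h5.2]

/-- the good arcs -/
theorem good_sum (N n : ℕ) : ∑' a, (Bad N n)ᶜ.indicator (fA N) a = ENNReal.ofReal (LA N (2 * n) n) := by
  have hW : ∀ i j : ℕ, i < n → j < n → ∑' t : List Bool, (Bad N n)ᶜ.indicator (fA N) (i, j, t) =
      ENNReal.ofReal (W1 (_root_.EXL.par N (2 * n)) (fe (n + i)) (fe (n - 1 - j))) := by
    intro i j hi hj
    rw [W1_eq, ENNReal.ofReal_sum_of_nonneg (fun _ _ => pow_nonneg xc_pos.le _)]
    rw [tsum_eq_sum (s := (exits (_root_.EXL.par N (2 * n)) (fe (n + i)).1 (fe (n + i)).2).filter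
      (fun t => rv (le (fe (n + i)) t) = fe (n - 1 - j)))]
    · refine Finset.sum_congr rfl fun t ht => ?_
      rw [mem_win hj] at ht
      have h1 : ((i, j, t) : ℕ × ℕ × List Bool) ∈ (Bad N n)ᶜ := by
        rw [Set.mem_compl_iff]
        unfold Bad
        rw [Set.mem_ofPred_eq, not_not]
        exact ⟨hi, hj, ht.2⟩
      rw [Set.indicator_of_mem h1]
      unfold fA
      rw [Set.indicator_of_mem ht.1]
      rfl
    · intro t ht
      by_cases h1 : ((i, j, t) : ℕ × ℕ × List Bool) ∈ (Bad N n)ᶜ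
      · rw [Set.indicator_of_mem h1]
        unfold fA
        rw [Set.indicator_of_notMem]
        intro h2
        apply ht
        rw [mem_win hj]
        rw [Set.mem_compl_iff] at h1
        unfold Bad at h1
        rw [Set.mem_ofPred_eq, not_not] at h1
        exact ⟨h2, h1.2.2⟩
      · rw [Set.indicator_of_notMem h1]
  have h0 : ∀ i j : ℕ, ¬ (i < n ∧ j < n) → ∀ t : List Bool, (Bad N n)ᶜ.indicator (fA N) (i, j, t) = 0 := by
    intro i j hij t
    apply Set.indicator_of_notMem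
    rw [Set.mem_compl_iff, not_not]
    unfold Bad
    rw [Set.mem_ofPred_eq]
    intro h
    exact hij ⟨h.1, h.2.1⟩
  have hj : ∀ i : ℕ, i < n → ∑' b : ℕ × List Bool, (Bad N n)ᶜ.indicator (fA N) (i, b) =
      ∑ j ∈ range n, ENNReal.ofReal (W1 (_root_.EXL.par N (2 * n)) (fe (n + i)) (fe (n - 1 - j))) := by
    intro i hi
    rw [ENNReal.tsum_prod' (f := fun b : ℕ × List Bool => (Bad N n)ᶜ.indicator (fA N) (i, b))]
    rw [tsum_eq_sum (s := range n)]
    · exact Finset.sum_congr rfl fun j hj => hW i j hi (Finset.mem_range.1 hj)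
    · intro j hj
      rw [Finset.mem_range] at hj
      rw [ENNReal.tsum_eq_zero]
      exact h0 i j fun h => hj h.2
  rw [ENNReal.tsum_prod' (f := fun a : ℕ × ℕ × List Bool => (Bad N n)ᶜ.indicator (fA N) a)]
  rw [tsum_eq_sum (s := range n)]
  · rw [Finset.sum_congr rfl fun i hi => hj i (Finset.mem_range.1 hi)]
    unfold LA
    rw [ENNReal.ofReal_sum_of_nonneg (fun _ _ => Finset.sum_nonneg fun _ _ => W1_nonneg _ _ _),
      Finset.sum_Ico_eq_sum_range]
    have e : 2 * n - n = n := by omega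
    rw [e]
    refine Finset.sum_congr rfl fun i _ => ?_
    rw [ENNReal.ofReal_sum_of_nonneg (fun _ _ => W1_nonneg _ _ _)]
    exact Finset.sum_range_reflect
      (fun j => ENNReal.ofReal (W1 (_root_.EXL.par N (2 * n)) (fe (n + i)) (fe j))) n
  · intro i hi
    rw [Finset.mem_range] at hi
    rw [ENNReal.tsum_eq_zero]
    intro b
    exact h0 i b.1 (fun h => hi h.1) b.2

/-- the weight of the arcs across the middle -/
theorem lim_LA {N : ℕ} (hN : 1 ≤ N) :
    Tendsto (fun n : ℕ => LA N (2 * n) n) atTop (𝓝 (SP.KT N).toReal) := by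
  have hK : SP.KT N ≠ ∞ := (SP.two (T := N) hN).1
  have hs : ∀ n, ENNReal.ofReal (LA N (2 * n) n) + ∑' a, (Bad N n).indicator (fA N) a = SP.KT N := by
    intro n
    rw [← good_sum, ← ENNReal.tsum_add, ← fA_sum hN]
    refine tsum_congr fun a => ?_
    rw [← Set.indicator_compl_add_self_apply (Bad N n) (fA N) a]
  have hfin : ∀ n, ∑' a, (Bad N n).indicator (fA N) a ≠ ∞ := by
    intro n h
    have := hs n
    rw [h, add_top] at this
    exact hK this.symm
  have h1 : ∀ n, LA N (2 * n) n + (∑' a, (Bad N n).indicator (fA N) a).toReal = (SP.KT N).toReal := by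
    intro n
    rw [← hs n, ENNReal.toReal_add ENNReal.ofReal_ne_top (hfin n), ENNReal.toReal_ofReal]
    exact Finset.sum_nonneg fun _ _ => Finset.sum_nonneg fun _ _ => W1_nonneg _ _ _
  have h2 : Tendsto (fun n => ∑' a, (Bad N n).indicator (fA N) a) atTop (𝓝 0) := by
    rw [ENNReal.tendsto_nhds_zero]
    intro ε hε
    have hf : ∑' a, fA N a ≠ ∞ := by
      rw [fA_sum hN]
      exact hK
    obtain ⟨M, hM⟩ := SP.KU.tannery hf (B := fun m => Bad N m ∩ {a | fA N a ≠ 0}) (fun a => by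
      by_cases ha : fA N a = 0
      · exact ⟨0, fun m _ h => h.2 ha⟩
      · obtain ⟨M, hM⟩ := bad_ev N a ha
        exact ⟨M, fun m hm h => hM m hm h.1⟩) hε
    refine (eventually_ge_atTop M).mono fun m hm => ?_
    refine le_trans (le_of_eq ?_) (hM m hm)
    refine tsum_congr fun a => ?_
    by_cases ha : fA N a = 0
    · rw [Set.indicator_apply_eq_zero.2 fun _ => ha, Set.indicator_apply_eq_zero.2 fun _ => ha]
    · by_cases hb : a ∈ Bad N m
      · rw [Set.indicator_of_mem hb, Set.indicator_of_mem (show a ∈ Bad N m ∩ {a | fA N a ≠ 0} from ⟨hb, ha⟩)]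
      · rw [Set.indicator_of_notMem hb, Set.indicator_of_notMem (fun h => hb h.1)]
  have h3 := (ENNReal.tendsto_toReal (by simp : (0 : ℝ≥0∞) ≠ ∞)).comp h2
  have h4 := (tendsto_const_nhds (x := (SP.KT N).toReal) (f := (atTop : Filter ℕ))).sub h3
  rw [ENNReal.toReal_zero, sub_zero] at h4
  refine h4.congr fun n => ?_
  have := h1 n
  simp only [Function.comp_apply]
  linarith

/-- K3: the arcs -/
theorem half_kt {N : ℕ} (hN : 1 ≤ N) :
    Real.sin (3 * Real.pi / 8) * (SP.KT N).toReal = Real.sin (Real.pi / 4) * SPh N := by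
  have h := tendsto_nhds_unique ((lim_LA hN).const_mul (sz 3)) (lim_LA_mul hN)
  have e3 : sz 3 = Real.sin (3 * Real.pi / 8) := by
    unfold sz
    congr 1
    push_cast
    ring
  have e2 : sz 2 = Real.sin (Real.pi / 4) := by
    unfold sz
    congr 1
    push_cast
    ring
  rw [e3, e2] at h
  exact h

end Pool.Agent.EXK.Hf

namespace Pool.Agent.EXK

/-- K3 -/
theorem half_ids {N : ℕ} (hN : 1 ≤ N) : HalfIds N :=
  ⟨Hf.half_im hN, Hf.half_re hN, Hf.half_kt hN⟩

end Pool.Agent.EXK
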