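import Pool.Agent.EXK.IdNet
import Pool.Agent.EXL.Ident

/-!
# The half strip function at the states with one arc and two arcs (board EXK, K4)
-/

set_option autoImplicit false

namespace Pool.Agent.EXK

open Pool.Agent.EXL Pat HexObs HexObs.LP Filter Topology

/-- the cut edge of the row j, pointing to the left -/
def cutE (m j : ℕ) : Pt × Pt := (_root_.EXL.A m j, ((-1, 1) : Pt))

theorem cutE_De (m j : ℕ) : De (cutE m j) := (Net.Tot.De_A' m j).2.1

theorem cutE_out (N m j : ℕ) : (cutE m j).1 ∉ _root_.EXL.par N m := by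
  show _root_.EXL.A m j ∉ _
  rw [_root_.EXL.A_mem]
  omega

theorem cutE_in {N m j : ℕ} (hm : 1 ≤ m) (hj : j < N) :
    (cutE m j).1 + (cutE m j).2 ∈ _root_.EXL.par N m := by
  show _root_.EXL.A m j + (-1, 1) ∈ _
  rw [_root_.EXL.A_left, _root_.EXL.B_mem]
  omega

theorem feet_out {N m : ℕ} : ∀ h ∈ feetS m, h.1 ∉ _root_.EXL.par N m := by
  intro h hh
  unfold feetS at hh
  rw [Finset.mem_image] at hh
  obtain ⟨j, hj, rfl⟩ := hh
  show _root_.EXL.B j (-1) ∉ _
  rw [_root_.EXL.B_mem]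
  omega

theorem tops_out {N m : ℕ} : ∀ h ∈ topsS N m, h.1 ∉ _root_.EXL.par N m := by
  intro h hh
  unfold topsS at hh
  rw [Finset.mem_image] at hh
  obtain ⟨j, hj, rfl⟩ := hh
  show _root_.EXL.A j N ∉ _
  rw [_root_.EXL.A_mem]
  omega

theorem feet_tops (N m : ℕ) : Disjoint (feetS m) (topsS N m) := by
  rw [Finset.disjoint_left]
  intro h h1 h2
  unfold feetS at h1
  unfold topsS at h2
  rw [Finset.mem_image] at h1 h2
  obtain ⟨j, -, rfl⟩ := h1
  obtain ⟨j', -, h3⟩ := h2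
  have h4 : ((0, -1) : Pt) = (0, 1) := congrArg (fun h => h.2) h3
  exact absurd h4 (by decide)

theorem cutE_feet (m m' j : ℕ) : cutE m j ∉ feetS m' := by
  intro h
  unfold feetS at h
  rw [Finset.mem_image] at h
  obtain ⟨j', -, h3⟩ := h
  have h4 : ((0, 1) : Pt) = (-1, 1) := congrArg (fun h => h.2) h3
  exact absurd h4 (by decide)

theorem cutE_tops (N m m' j : ℕ) : cutE m j ∉ topsS N m' := by
  intro h
  unfold topsS at h
  rw [Finset.mem_image] at h
  obtain ⟨j', -, h3⟩ := h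
  have h4 : ((0, -1) : Pt) = (-1, 1) := congrArg (fun h => h.2) h3
  exact absurd h4 (by decide)

theorem FF_net {N m : ℕ} (hN : 1 ≤ N) (hm : 1 ≤ m) (q : Pat (Site N))
    (hq : q (Site.ax 0) = Site.ax 0) :
    HS.FF Site.fl Site.tp (colH N) m q =
      Net.Net xc (_root_.EXL.par N m) (feetS m) (topsS N m) (Net.dlt ℝ) (Net.L N ((m : ℤ) - 1) 0 q) := by
  have h := Net.Net_eq_tot (K := ℝ) xc hN hm
  have h2 : Net.Net xc (_root_.EXL.par N m) (feetS m) (topsS N m) =
      (Net.tot xc N m : Net.Op Net.Lab ℝ) := h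
  rw [h2, Net.tot_lft xc m q hq]
  unfold HS.FF
  rw [← ind_eq]
  rfl

theorem L_empty' {N : ℕ} (k : ℤ) (j : ℕ) : Net.L N k j Pat.empty = Pat.empty := by
  ext y : 2
  unfold Net.L
  by_cases hx : ∃ b, Net.kap N k j b = y
  · obtain ⟨b, rfl⟩ := hx
    rw [lft_apply]
    rfl
  · rw [lft_of_notMem _ _ _ hx]
    rfl

theorem kap_row {N : ℕ} (m : ℕ) (j : Fin N) :
    Net.kap N ((m : ℤ) - 1) 0 (Site.row j) = Net.hf (cutE m j) := by
  rw [Net.kap_row_ge (by omega), sub_add_cancel]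
  rfl

theorem cup_ax {N : ℕ} (i j : Site N) (hi : i ≠ Site.ax 0) (hj : j ≠ Site.ax 0) (q : Pat (Site N))
    (hq : q (Site.ax 0) = Site.ax 0) : cup i j q (Site.ax 0) = Site.ax 0 := by
  simp only [cup]
  split_ifs with h1 h2 h3
  · exact absurd h2.symm hi
  · exact absurd h3.symm hj
  · exact hq
  · exact hq

/-- the top end enters through the cut edge of the row j -/
theorem FF_tp {N m : ℕ} (hN : 1 ≤ N) (hm : 1 ≤ m) (j : Fin N) :
    HS.FF Site.fl Site.tp (colH N) m (cup (Site.row j) Site.tp Pat.empty) =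
      Net.Ws xc (_root_.EXL.par N m) (feetS m) (cutE m j) := by
  rw [FF_net hN hm _ (cup_ax _ _ (by simp) (by simp) _ rfl)]
  have e : Net.L N ((m : ℤ) - 1) 0 (cup (Site.row j) Site.tp Pat.empty) =
      cup (Net.hf (cutE m j)) Net.ta Pat.empty := by
    have h := cup_lft (Net.kap N ((m : ℤ) - 1) 0) (Net.kap_inj N _ 0) Pat.empty (Site.row j) Site.tp
    rw [kap_row] at h
    have h2 : lft (Net.kap N ((m : ℤ) - 1) 0) (Net.kap_inj N _ 0) Pat.empty = Pat.empty := L_empty' _ _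
    rw [h2] at h
    exact h.symm
  rw [e]
  exact Net.net_ts xc (cutE_De m j) (cutE_out N m j) (cutE_in hm j.2) feet_out tops_out
    (feet_tops N m) (cutE_feet m m j)

/-- the floor end enters through the cut edge of the row j -/
theorem FF_fl {N m : ℕ} (hN : 1 ≤ N) (hm : 1 ≤ m) (j : Fin N) :
    HS.FF Site.fl Site.tp (colH N) m (cup (Site.row j) Site.fl Pat.empty) =
      Net.Ws xc (_root_.EXL.par N m) (topsS N m) (cutE m j) := by
  rw [FF_net hN hm _ (cup_ax _ _ (by simp) (by simp) _ rfl)]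
  have e : Net.L N ((m : ℤ) - 1) 0 (cup (Site.row j) Site.fl Pat.empty) = Net.st (cutE m j) := by
    have h := cup_lft (Net.kap N ((m : ℤ) - 1) 0) (Net.kap_inj N _ 0) Pat.empty (Site.row j) Site.fl
    rw [kap_row] at h
    have h2 : lft (Net.kap N ((m : ℤ) - 1) 0) (Net.kap_inj N _ 0) Pat.empty = Pat.empty := L_empty' _ _
    rw [h2] at h
    unfold Net.st
    rw [Net.cup_symm Net.be]
    exact h.symm
  rw [e]
  exact Net.net_st xc (cutE_De m j) (cutE_out N m j) (cutE_in hm j.2) feet_out tops_out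
    (cutE_tops N m m j)

theorem cutE_inj {m i j : ℕ} (h : i ≠ j) : cutE m i ≠ cutE m j := by
  intro e
  have h1 : _root_.EXL.A m i = _root_.EXL.A m j := congrArg Prod.fst e
  have h2 : (2 * (m : ℤ) + i) = 2 * m + j := congrArg Prod.fst h1
  omega

/-- the two ends enter through the cut edges of two rows -/
theorem FF_two {N m : ℕ} (hN : 1 ≤ N) (hm : 1 ≤ m) {i j : Fin N} (hij : i ≠ j) :
    HS.FF Site.fl Site.tp (colH N) m
      (cup (Site.row j) Site.tp (cup (Site.row i) Site.fl Pat.empty)) =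
      Net.Ws xc (_root_.EXL.par N m) {cutE m j} (cutE m i) := by
  rw [FF_net hN hm _ (cup_ax _ _ (by simp) (by simp) _ (cup_ax _ _ (by simp) (by simp) _ rfl))]
  have hij' : (i : ℕ) ≠ j := fun h => hij (Fin.ext h)
  have e : Net.L N ((m : ℤ) - 1) 0 (cup (Site.row j) Site.tp (cup (Site.row i) Site.fl Pat.empty)) =
      cup (Net.hf (cutE m j)) Net.ta (Net.st (cutE m i)) := by
    have h := cup_lft (Net.kap N ((m : ℤ) - 1) 0) (Net.kap_inj N _ 0) Pat.empty (Site.row i) Site.fl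
    rw [kap_row] at h
    have h2 : lft (Net.kap N ((m : ℤ) - 1) 0) (Net.kap_inj N _ 0) Pat.empty = Pat.empty := L_empty' _ _
    rw [h2] at h
    have h' := cup_lft (Net.kap N ((m : ℤ) - 1) 0) (Net.kap_inj N _ 0)
      (cup (Site.row i) Site.fl Pat.empty) (Site.row j) Site.tp
    rw [kap_row, ← h] at h'
    unfold Net.st
    rw [Net.cup_symm Net.be]
    exact h'.symm
  rw [e]
  exact Net.net_two xc (cutE_De m i) (cutE_out N m i) (cutE_in hm i.2) (cutE_out N m j)
    (cutE_inj hij') feet_out tops_out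

/-- the sum in the form of the exits -/
theorem Ws_ex0 {Ω : Finset Pt} {T : Finset (Pt × Pt)} (hT : ∀ h ∈ T, h.1 ∉ Ω) (p : Pt × Pt) :
    Net.Ws xc Ω T p = ∑ t ∈ (ex0 Ω p).filter (fun t => rv (le p t) ∈ T), xc ^ t.length := by
  unfold Net.Ws
  refine Finset.sum_congr ?_ (fun _ _ => rfl)
  ext t
  simp only [Finset.mem_filter, ex0]
  constructor
  · rintro ⟨m1, m2⟩
    exact ⟨⟨m1, hT _ m2⟩, m2⟩
  · rintro ⟨⟨m1, -⟩, m2⟩
    exact ⟨m1, m2⟩

end Pool.Agent.EXK
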