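import Pool.Agent.EXK.IdK
import Pool.Agent.EXL.Reach

/-!
# The half strip function at the states with one arc and two arcs: limits (board EXK, K4)
-/

set_option autoImplicit false

namespace Pool.Agent.EXK

open Pool.Agent.EXL Pat HexObs HexObs.LP Filter Topology

variable {N : ℕ}

theorem AN_tp (j : Fin N) : AN N (cup (Site.row j) Site.tp Pat.empty) :=
  PD.cup rk_injOn (fun k => by simp) (fun k => by simp) (AN_empty N) (fun k hk => absurd rfl hk)

theorem AN_fl (j : Fin N) : AN N (cup (Site.row j) Site.fl Pat.empty) :=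
  PD.cup rk_injOn (fun k => by simp) (fun k => by simp) (AN_empty N) (fun k hk => absurd rfl hk)

theorem AN_two {i j : Fin N} (hij : i < j) :
    AN N (cup (Site.row j) Site.tp (cup (Site.row i) Site.fl Pat.empty)) := by
  refine PD.cup rk_injOn (fun k => by simp) (fun k => by simp) (AN_fl i) (fun k hk => ?_)
  have hij' : (i : ℕ) < j := hij
  have hi := i.2
  have hj := j.2
  have e : k = Site.row i ∨ k = Site.fl := by
    by_contra hc
    rw [not_or] at hc
    apply hk
    rw [pcup_apply rfl rfl, if_neg hc.1, if_neg hc.2]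
    rfl
  rcases e with rfl | rfl
  · simp only [Site.rk]
    omega
  · simp only [Site.rk]
    omega

theorem ne_emp {i j : Site N} (hij : i ≠ j) {q : Pat (Site N)} (h1 : q i = i) (h2 : q j = j) :
    cup i j q ≠ Pat.empty := by
  intro h
  have := congrArg (fun p : Pat (Site N) => p i) h
  simp only [pcup_apply h1 h2, if_true] at this
  exact hij this.symm

theorem step_beta (hN : 1 ≤ N) (m : ℕ) :
    HS.FF Site.fl Site.tp (colH N) (m + 1) Pat.empty - HS.FF Site.fl Site.tp (colH N) m Pat.empty ≤ bT N := by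
  rw [FF_eq, FF_eq, Zm_eq_Zw hN, Zm_eq_Zw hN]
  exact (Zw_step_le hN m).2

/-- the half strip function at the honeycomb point -/
noncomputable def Fh (N : ℕ) : Pat (Site N) → ℝ := HS.Flim Site.fl Site.tp (AN N) (colH N)

theorem Fh_tendsto (hN : 1 ≤ N) {q : Pat (Site N)} (hA : AN N q) (hne : q ≠ Pat.empty) :
    Tendsto (fun m => HS.FF Site.fl Site.tp (colH N) m q) atTop (𝓝 (Fh N q)) :=
  HS.Flim_tendsto (posOp_colH N) (good_colH N) (step_beta hN) (reach N) hA hne

/-- walks from the cut edge of the row j to the floor -/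
theorem Fh_tp (hN : 1 ≤ N) (j : Fin N) :
    Tendsto (fun m => ∑ t ∈ (ex0 (_root_.EXL.par N m) (cutE m j)).filter
      (fun t => rv (le (cutE m j) t) ∈ feetS m), xc ^ t.length) atTop
      (𝓝 (Fh N (cup (Site.row j) Site.tp Pat.empty))) := by
  refine (Fh_tendsto hN (AN_tp j) (ne_emp (by simp) rfl rfl)).congr' ?_
  filter_upwards [eventually_ge_atTop 1] with m hm
  rw [FF_tp hN hm, Ws_ex0 feet_out]

/-- walks from the cut edge of the row j to the top -/
theorem Fh_fl (hN : 1 ≤ N) (j : Fin N) :
    Tendsto (fun m => ∑ t ∈ (ex0 (_root_.EXL.par N m) (cutE m j)).filter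
      (fun t => rv (le (cutE m j) t) ∈ topsS N m), xc ^ t.length) atTop
      (𝓝 (Fh N (cup (Site.row j) Site.fl Pat.empty))) := by
  refine (Fh_tendsto hN (AN_fl j) (ne_emp (by simp) rfl rfl)).congr' ?_
  filter_upwards [eventually_ge_atTop 1] with m hm
  rw [FF_fl hN hm, Ws_ex0 tops_out]

/-- walks from the cut edge of the row i to the cut edge of the row j -/
theorem Fh_two (hN : 1 ≤ N) {i j : Fin N} (hij : i < j) :
    Tendsto (fun m => ∑ t ∈ (ex0 (_root_.EXL.par N m) (cutE m i)).filter
      (fun t => rv (le (cutE m i) t) = cutE m j), xc ^ t.length) atTop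
      (𝓝 (Fh N (cup (Site.row j) Site.tp (cup (Site.row i) Site.fl Pat.empty)))) := by
  have hne : cup (Site.row j) Site.tp (cup (Site.row i) Site.fl Pat.empty) ≠ Pat.empty := by
    apply ne_emp (by simp)
    · rw [pcup_apply rfl rfl, if_neg (by simpa using hij.ne'), if_neg (by simp)]
      rfl
    · rw [pcup_apply rfl rfl, if_neg (by simp), if_neg (by simp)]
      rfl
  refine (Fh_tendsto hN (AN_two hij) hne).congr' ?_
  filter_upwards [eventually_ge_atTop 1] with m hm
  rw [FF_two hN hm hij.ne, Ws_ex0 (fun h hh => by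
    rw [Finset.mem_singleton.1 hh]
    exact cutE_out N m j)]
  simp only [Finset.mem_singleton]

theorem Fh_empty : Fh N Pat.empty = 0 := by
  unfold Fh HS.Flim
  rw [if_neg (fun h => h.2 rfl)]

end Pool.Agent.EXK
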