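import Pool.Agent.EXL.ZNet

/-!
# The network of a domain at the states with one open end or two open ends (board EXK, K4)
-/

set_option autoImplicit false

namespace Pool.Agent.EXL.Net

open Pool.Agent.EXL Pat HexObs HexObs.LP

section perm

variable {α : Type*} {K : Type*} [CommRing K]

/-- the state with permuted labels -/
def pm (e : Equiv.Perm α) (p : Pat α) : Pat α where
  f x := e (p (e.symm x))
  inv x := by simp

variable (e : Equiv.Perm α) (p : Pat α)

theorem pm_apply (x : α) : pm e p (e x) = e (p x) := by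
  show e (p (e.symm (e x))) = _
  rw [Equiv.symm_apply_apply]

theorem pm_eq_iff (x y : α) : pm e p (e x) = e y ↔ p x = y := by
  rw [pm_apply, e.injective.eq_iff]

theorem pm_inj {p q : Pat α} (h : pm e p = pm e q) : p = q := by
  ext x
  have := congrArg (fun r : Pat α => r (e x)) h
  simp only [pm_apply] at this
  exact e.injective this

theorem pm_empty : pm e (empty : Pat α) = empty := by
  ext x
  show e (e.symm x) = x
  simp

variable [DecidableEq α]

theorem pm_cup (i j : α) : pm e (cup i j p) = cup (e i) (e j) (pm e p) := by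
  ext x
  obtain ⟨y, rfl⟩ := e.surjective x
  rw [pm_apply]
  simp only [cup, pm_apply, e.injective.eq_iff]
  split_ifs <;> rfl

theorem pm_cut (i j : α) : pm e (cut i j p) = cut (e i) (e j) (pm e p) := by
  ext x
  obtain ⟨y, rfl⟩ := e.surjective x
  rw [pm_apply]
  simp only [cut, pm_apply, ne_eq, e.injective.eq_iff]
  split_ifs <;> rfl

/-- B is the operator B' with permuted labels -/
def Pm (B B' : Op α K) : Prop := ∀ F p, B F (pm e p) = B' (fun q => F (pm e q)) p

omit [DecidableEq α] in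
theorem Pm.mul {A A' B B' : Op α K} (hA : Pm e A A') (hB : Pm e B B') : Pm e (A * B) (A' * B') := by
  intro F p
  rw [Module.End.mul_apply, Module.End.mul_apply, hA (B F) p]
  have h : (fun q => B F (pm e q)) = B' (fun q => F (pm e q)) := funext fun q => hB F q
  rw [h]

omit [DecidableEq α] in
theorem Pm.add {A A' B B' : Op α K} (hA : Pm e A A') (hB : Pm e B B') : Pm e (A + B) (A' + B') := by
  intro F p
  simp only [LinearMap.add_apply, Pi.add_apply]
  rw [hA F p, hB F p]

omit [DecidableEq α] in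
theorem Pm.smul {A A' : Op α K} (hA : Pm e A A') (x : K) : Pm e (x • A) (x • A') := by
  intro F p
  simp only [LinearMap.smul_apply, Pi.smul_apply]
  rw [hA F p]

omit [DecidableEq α] in
theorem Pm.one : Pm e (1 : Op α K) 1 := fun _ _ => rfl

theorem Pm.cupO (i j : α) : Pm e (cupO (e i) (e j) : Op α K) (cupO i j) := by
  intro F p
  rw [cupO_apply, cupO_apply, pm_cup]
  simp only [pm_eq_iff]

theorem Pm.Co (i j : α) : Pm e (Co (e i) (e j) : Op α K) (Co i j) := by
  intro F p
  rw [Co_apply, Co_apply, pm_cut]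
  simp only [pm_eq_iff]

theorem Pm.En (i j : α) : Pm e (En (e i) (e j) : Op α K) (En i j) :=
  (Pm.one e).add e (Pm.cupO e i j)

theorem Pm.Cr (x : K) (i j k : α) : Pm e (Cr x (e i) (e j) (e k) : Op α K) (Cr x i j k) :=
  (Pm.one e).add e (((((Pm.cupO e i j).add e (Pm.cupO e i k))).add e (Pm.cupO e j k)).smul e x)

end perm

variable {K : Type*} [CommRing K]

/-- exchange of the two ends -/
def sw : Equiv.Perm Lab := Equiv.swap be ta

theorem sw_hf (h : Pt × Pt) : sw (hf h) = hf h := Equiv.swap_apply_of_ne_of_ne (by simp) (by simp)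

theorem sw_inr (b : Bool) : sw (Sum.inr b) = Sum.inr (!b) := by
  cases b
  · exact Equiv.swap_apply_left _ _
  · exact Equiv.swap_apply_right _ _

theorem sw_Crv (x : K) (v : Pt) : Pm sw (Crv x v : Op Lab K) (Crv x v) := by
  unfold Crv
  have h := Pm.Cr (K := K) sw x (hf (v, dv v)) (hf (v, rotL (rotL (dv v)))) (hf (v, rotR (rotR (dv v))))
  simp only [sw_hf] at h
  exact h

theorem sw_CR (x : K) (A : Finset Pt) : Pm sw (CR x A : Op Lab K) (CR x A) := by
  exact Finset.noncommProd_induction A (Crv x) _ (fun B : Op Lab K => Pm sw B B)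
    (fun a b ha hb => ha.mul sw hb) (Pm.one sw) (fun v _ => sw_Crv x v)

theorem sw_CO (E : Finset (Sym2 Lab)) (hE : ∀ e ∈ E, ∃ h, e = ed h) :
    Pm sw (CO K E hE : Op Lab K) (CO K E hE) := by
  refine Finset.noncommProd_induction E _ _ (fun B : Op Lab K => Pm sw B B)
    (fun a b ha hb => ha.mul sw hb) (Pm.one sw) (fun e he => ?_)
  obtain ⟨h, rfl⟩ := hE e he
  rw [CoS_ed]
  have := Pm.Co (K := K) sw (hf h) (hf (rv h))
  simp only [sw_hf] at this
  exact this

theorem sw_EN (b : Bool) (s : Finset (Pt × Pt)) : Pm sw (EN K b s : Op Lab K) (EN K (!b) s) := by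
  classical
  induction s using Finset.induction_on with
  | empty => unfold EN; rw [Finset.noncommProd_empty, Finset.noncommProd_empty]; exact Pm.one sw
  | insert a s ha ih =>
    unfold EN
    rw [Finset.noncommProd_insert_of_notMem _ _ _ _ ha, Finset.noncommProd_insert_of_notMem _ _ _ _ ha]
    refine Pm.mul sw ?_ ih
    have := Pm.En (K := K) sw (Sum.inr (!b)) (hf a)
    rw [sw_hf, sw_inr, Bool.not_not] at this
    exact this

theorem sw_full : pm sw full = full := by
  unfold full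
  rw [pm_cup, pm_empty]
  have h1 : sw be = ta := sw_inr false
  have h2 : sw ta = be := sw_inr true
  rw [h1, h2, cup_symm]

theorem sw_dlt (p : Pat Lab) : dlt K (pm sw p) = dlt K p := by
  unfold dlt
  by_cases h : p = full
  · rw [h, sw_full]
  · rw [if_neg h, if_neg]
    intro h'
    rw [← sw_full] at h'
    exact h (pm_inj sw h')

theorem st_sw (h : Pt × Pt) : pm sw (st h) = cup (hf h) ta Pat.empty := by
  unfold st
  rw [pm_cup, pm_empty, sw_hf]
  have h1 : sw be = ta := sw_inr false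
  rw [h1, cup_symm]

theorem EN_comm_EN (b : Bool) (s s' : Finset (Pt × Pt)) (hd : Disjoint s s') :
    Commute (EN K b s : Op Lab K) (EN K (!b) s') := by
  refine Finset.noncommProd_commute s' _ _ _ (fun h hh => ?_)
  refine (Finset.noncommProd_commute s _ _ _ (fun h' hh' => ?_)).symm
  have hne : h ≠ h' := fun e => Finset.disjoint_left.1 hd hh' (e ▸ hh)
  refine En_comm ?_ (by simp) (by simp) ?_
  · rw [Ne, Sum.inr.injEq]
    cases b <;> decide
  · rw [Ne, Sum.inl.injEq]
    exact hne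

/-- the ends do nothing if the end is occupied -/
theorem EN_occ (b : Bool) (s : Finset (Pt × Pt)) (G : Pat Lab → K) {q : Pat Lab}
    (hq : q (Sum.inr b) ≠ Sum.inr b) : EN K b s G q = G q := by
  classical
  induction s using Finset.induction_on with
  | empty => unfold EN; rw [Finset.noncommProd_empty]; rfl
  | insert a s ha ih =>
    unfold EN
    rw [Finset.noncommProd_insert_of_notMem _ _ _ _ ha]
    have e : (En (Sum.inr b) (hf a) : Op Lab K) (EN K b s G) q = EN K b s G q := by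
      unfold En
      simp only [LinearMap.add_apply, Module.End.one_apply, Pi.add_apply]
      rw [cupO_apply, if_neg (fun h => hq h.1), add_zero]
    exact e.trans ih

theorem CR_EN_comm (x : K) (Ω : Finset Pt) (b : Bool) {B : Finset (Pt × Pt)} (hB : ∀ h ∈ B, h.1 ∉ Ω) :
    Commute (CR x Ω : Op Lab K) (EN K b B) := by
  refine Finset.noncommProd_commute B _ _ _ (fun h hh => ?_)
  exact (En_CR_comm x b (hB h hh)).symm

theorem Net_eq1 (x : K) {Ω : Finset Pt} {Bt Tp : Finset (Pt × Pt)} (hB : ∀ h ∈ Bt, h.1 ∉ Ω) :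
    Net x Ω Bt Tp = EN K false Bt * (CR x Ω * EN K true Tp * CO K (edg Ω) (edg_Edg Ω).ex) := by
  unfold Net
  rw [(CR_EN_comm x Ω false hB).eq]
  simp only [mul_assoc]

theorem Net_eq2 (x : K) {Ω : Finset Pt} {Bt Tp : Finset (Pt × Pt)} (hT : ∀ h ∈ Tp, h.1 ∉ Ω)
    (hd : Disjoint Bt Tp) :
    Net x Ω Bt Tp = EN K true Tp * (CR x Ω * EN K false Bt * CO K (edg Ω) (edg_Edg Ω).ex) := by
  have c := (EN_comm_EN (K := K) false Bt Tp hd).eq
  simp only [Bool.not_false] at c
  unfold Net
  calc _ = CR x Ω * (EN K false Bt * EN K true Tp) * CO K (edg Ω) edg_ed := by simp only [mul_assoc]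
    _ = (CR x Ω * EN K true Tp) * EN K false Bt * CO K (edg Ω) edg_ed := by
      rw [c]
      simp only [mul_assoc]
    _ = _ := by
      rw [(CR_EN_comm x Ω true hT).eq]
      simp only [mul_assoc]

/-- one open end: the floor end enters through the half edge p -/
theorem net_st (x : K) {Ω : Finset Pt} {Bt Tp : Finset (Pt × Pt)} {p : Pt × Pt} (hp : De p)
    (h1 : p.1 ∉ Ω) (h2 : p.1 + p.2 ∈ Ω) (hB : ∀ h ∈ Bt, h.1 ∉ Ω) (hT : ∀ h ∈ Tp, h.1 ∉ Ω)
    (h4 : p ∉ Tp) : Net x Ω Bt Tp (dlt K) (st p) = Ws x Ω Tp p := by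
  rw [Net_eq1 x hB, Module.End.mul_apply, EN_occ]
  · refine main x Tp Ω.card Ω rfl (edg Ω) (edg_Edg Ω) p hp h1 ?_ ?_ hT h4
    · rw [← ed_rv, mem_edg]
      exact ⟨rv p, h2, De_rv hp, rfl⟩
    · intro w hw d hd
      exact mem_edg.2 ⟨(w, d), hw, hd, rfl⟩
  · rw [st_be]
    simp

/-- one open end: the top end enters through the half edge p -/
theorem net_ts (x : K) {Ω : Finset Pt} {Bt Tp : Finset (Pt × Pt)} {p : Pt × Pt} (hp : De p)
    (h1 : p.1 ∉ Ω) (h2 : p.1 + p.2 ∈ Ω) (hB : ∀ h ∈ Bt, h.1 ∉ Ω) (hT : ∀ h ∈ Tp, h.1 ∉ Ω)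
    (hd : Disjoint Bt Tp) (h4 : p ∉ Bt) :
    Net x Ω Bt Tp (dlt K) (cup (hf p) ta Pat.empty) = Ws x Ω Bt p := by
  rw [Net_eq2 x hT hd, Module.End.mul_apply, EN_occ]
  · rw [← st_sw]
    have h := ((sw_CR x Ω).mul sw (sw_EN (K := K) false Bt)).mul sw (sw_CO (K := K) (edg Ω) (edg_Edg Ω).ex)
    rw [h (dlt K) (st p)]
    have e : (fun q => dlt K (pm sw q)) = dlt K := funext fun q => sw_dlt q
    rw [e, Bool.not_false]
    refine main x Bt Ω.card Ω rfl (edg Ω) (edg_Edg Ω) p hp h1 ?_ ?_ hB h4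
    · rw [← ed_rv, mem_edg]
      exact ⟨rv p, h2, De_rv hp, rfl⟩
    · intro w hw d hd
      exact mem_edg.2 ⟨(w, d), hw, hd, rfl⟩
  · simp [cup, Pat.empty]

/-- two open ends -/
theorem net_two (x : K) {Ω : Finset Pt} {Bt Tp : Finset (Pt × Pt)} {p p' : Pt × Pt} (hp : De p)
    (h1 : p.1 ∉ Ω) (h2 : p.1 + p.2 ∈ Ω) (h1' : p'.1 ∉ Ω) (hpp : p ≠ p')
    (hB : ∀ h ∈ Bt, h.1 ∉ Ω) (hT : ∀ h ∈ Tp, h.1 ∉ Ω) :
    Net x Ω Bt Tp (dlt K) (cup (hf p') ta (st p)) = Ws x Ω {p'} p := by
  have e0 : (st p) ta = ta := by simp [st, cup, Pat.empty]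
  have e1 : (st p) (hf p') = hf p' := st_o (Ne.symm hpp)
  have c1 : cup (hf p') ta (st p) (Sum.inr false) ≠ Sum.inr false := by
    simp [cup, st, Pat.empty]
  have c2 : cup (hf p') ta (st p) (Sum.inr true) ≠ Sum.inr true := by
    rw [cup_symm]
    simp only [cup, e0, e1, and_self, if_true]
    simp
  rw [Net_eq1 x hB, Module.End.mul_apply, EN_occ false Bt _ c1, (CR_EN_comm x Ω true hT).eq, mul_assoc,
    Module.End.mul_apply, EN_occ true Tp _ c2]
  set G : Pat Lab → K := (CR x Ω * CO K (edg Ω) (edg_Edg Ω).ex : Op Lab K) (dlt K) with hG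
  have key : ∀ w ∈ Ω, ∀ d, De (w, d) → ed (w, d) ∈ edg Ω := fun w hw d hd =>
    mem_edg.2 ⟨(w, d), hw, hd, rfl⟩
  have he : ed p ∈ edg Ω := by
    rw [← ed_rv, mem_edg]
    exact ⟨rv p, h2, De_rv hp, rfl⟩
  have m1 := main x {p'} Ω.card Ω rfl (edg Ω) (edg_Edg Ω) p hp h1 he key
    (fun h hh => by rw [Finset.mem_singleton.1 hh]; exact h1') (by simpa using hpp)
  have m0 := main x ∅ Ω.card Ω rfl (edg Ω) (edg_Edg Ω) p hp h1 he key
    (fun h hh => by simp at hh) (by simp)
  have n0 : (CR x Ω * EN K true ∅ * CO K (edg Ω) (edg_Edg Ω).ex : Op Lab K) (dlt K) = G := by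
    have : (EN K true ∅ : Op Lab K) = 1 := by
      unfold EN
      exact Finset.noncommProd_empty _ _
    rw [this, mul_one]
  have n1 : (CR x Ω * EN K true {p'} * CO K (edg Ω) (edg_Edg Ω).ex : Op Lab K) (dlt K) =
      En ta (hf p') G := by
    have h3 : (EN K true {p'} : Op Lab K) = En ta (hf p') := by
      unfold EN
      exact Finset.noncommProd_singleton _ _
    have c := (CR_EN_comm (K := K) x Ω true (B := {p'})
      (fun h hh => by rw [Finset.mem_singleton.1 hh]; exact h1')).eq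
    rw [c, mul_assoc, h3, Module.End.mul_apply]
  rw [n1] at m1
  rw [n0] at m0
  have z : Ws x Ω ∅ p = 0 := by
    unfold Ws
    apply Finset.sum_eq_zero
    intro t ht
    simp at ht
  rw [z] at m0
  unfold En at m1
  simp only [LinearMap.add_apply, Module.End.one_apply, Pi.add_apply] at m1
  rw [m0, zero_add, cupO_apply, if_pos ⟨e0, e1⟩, cup_symm] at m1
  exact m1

end Pool.Agent.EXL.Net
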