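import Pool.Agent.EXK.Step

/-!
# Identities between states (board EXK, K1)
-/

set_option autoImplicit false

namespace Pool.Agent.EXK

open Pool.Agent.EXL Pat

variable {α : Type*} [DecidableEq α] {a b i j l r t : α} {p : Pat α}

theorem cup_cm (i j : α) (p : Pat α) : cup i j p = cup j i p := by
  ext x
  simp only [cup]
  grind

/-- the end at `a` moves to `t` -/
theorem swap_cup_mv (ha : p a = a) (hj : p j = j) (ht : p t = t) (h1 : a ≠ j) (h2 : a ≠ t)
    (h3 : j ≠ t) : swap a t (cup a j p) = cup j t p := by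
  have inv := p.inv
  ext x
  simp only [swap, cup, Equiv.swap_apply_def]
  grind

/-- the auxiliary pair moves -/
theorem cup_cup_cm (h1 : l ≠ r) (h2 : l ≠ b) (h3 : i ≠ r) (h4 : i ≠ b) :
    cup l i (cup r b (empty : Pat α)) = cup r b (cup l i empty) := by
  ext x
  simp only [cup, empty, id]
  grind

theorem cut_two (h1 : l ≠ r) (h2 : l ≠ b) (h3 : l ≠ i) (h4 : r ≠ b) (h5 : r ≠ i) (h6 : b ≠ i) :
    cut l r (cup r b (cup l i (empty : Pat α))) = cup i b empty := by
  ext x
  simp only [cut, cup, empty, id]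
  grind

theorem cut_swap_two (h1 : l ≠ r) (h2 : l ≠ b) (h3 : l ≠ i) (h4 : r ≠ b) (h5 : r ≠ i) (h6 : b ≠ i)
    (h7 : l ≠ j) (h8 : r ≠ j) (h9 : b ≠ j) (h10 : i ≠ j) :
    cut l j (swap r j (cup r b (cup l i (empty : Pat α)))) = cup i b empty := by
  ext x
  simp only [cut, swap, cup, empty, id, Equiv.swap_apply_def]
  grind

theorem swap_cup_three (h1 : l ≠ r) (h2 : l ≠ b) (h4 : r ≠ b) (h7 : l ≠ j) (h8 : r ≠ j)
    (h9 : b ≠ j) :
    swap l j (cup r j (cup l b (empty : Pat α))) = cup l r (cup j b empty) := by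
  ext x
  simp only [swap, cup, empty, id, Equiv.swap_apply_def]
  grind

theorem cut_cup_three (h1 : l ≠ r) (h2 : l ≠ b) (h4 : r ≠ b) (h7 : l ≠ j) (h8 : r ≠ j)
    (h9 : b ≠ j) :
    cut l j (cup r j (cup l b (empty : Pat α))) = cup r b empty := by
  ext x
  simp only [cut, cup, empty, id]
  grind

end Pool.Agent.EXK
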