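import Pool.Agent.Ex.P2Form

/-!
# EXK/NodeDef: the node relation of the second closing
-/

set_option autoImplicit false

open Filter Topology Real

namespace EXK

/-- the node relation for `sin 4y / sin 2y = 2 cos 2y` -/
def NodeRel2E (B : ℕ → ℝ) : Prop :=
  ∀ n : ℕ, ∃ b : ℝ → ℝ, Tendsto (fun ε => b ε ^ 2) (𝓝[>] 0) (𝓝 (B n ^ 2)) ∧
    ∀ᶠ ε in 𝓝[>] (0 : ℝ), ∃ g : ℕ → ℝ,
    ∀ k ≤ n, 2 * cos (2 * P2F.xx (k * ε)) - b ε =
      ∑ j ∈ Finset.range n, g j / P2F.H (cos (2 * P2F.xx (k * ε))) (cos (2 * P2F.xx ((j + 1) * ε)))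

end EXK
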