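import Pool.Agent.EXG.SharpB
import Pool.Agent.EXK.ConstR
import Pool.Agent.EXK.FinI
import Pool.Agent.EXK.Coef3
import Pool.Agent.EXK.NodeDef

/-!
# EXK/MainT (helper42, after helper81's Main): the increasing sequence tau2

From the node relation with `2 cos 2y` in place of `m_*(cos 2y)`: `A n / n^(3/4) → C3 w(1/2) / (C1 w(0))`.
-/

set_option autoImplicit false

namespace EXK

open Real MeasureTheory Filter Topology Set Ex.P2
open EXG (X L2N eps IsStep Fv tr AA RR Kf coefG1_val lim_sums_T ker_ext inner_vv_Kf exists_step step_tendsto' PX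
  PX_opNorm dens limA' FA_full RR_norm RR_symm step_eq cG1 q_val)

/-- the constant of the coefficients of F3 -/
noncomputable def cG3 : ℝ := P2F.K1 * (4 * P2F.h0)

theorem sums_tau {B : ℕ → ℝ}
    (hP : ∀ n : ℕ, ∃ b : ℝ → ℝ, Tendsto (fun ε => b ε ^ 2) (𝓝[>] 0) (𝓝 (B n ^ 2)) ∧
      ∀ᶠ ε in 𝓝[>] (0 : ℝ), ∃ g : ℕ → ℝ, ∀ k ≤ n,
        P2F.F1f (k * ε) * (2 * EXG.cf (k * ε)) - b ε * P2F.F1f (k * ε) =
        ∑ j ∈ Finset.range n, g j * inner ℝ (P2F.vv (k * ε)) (P2F.vv ((j + 1) * ε))) :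
    ∃ u : ℕ → ℝ,
      Tendsto (fun n : ℕ => (∑ m ∈ Finset.range n, u m ^ 2) / (n : ℝ) ^ (3 / 2 : ℝ)) atTop
        (𝓝 (cG1 ^ 2 * (2 / 3 * EXG.Carl.w 0 ^ 2))) ∧
      Tendsto (fun n : ℕ => (∑ m ∈ Finset.range n, B m ^ 2 * u m ^ 2) / (n : ℝ) ^ (3 : ℝ)) atTop
        (𝓝 (cG3 ^ 2 * (32 / 81))) := by
  obtain ⟨F1, hF1, hlim1⟩ := coefG1_val
  obtain ⟨F2, hF2, hlim2⟩ := coefG3_val
  obtain ⟨T, hS, hTv, u, hu⟩ := lim_sums_T (H := Lp ℝ 2 (volume : Measure ℝ)) (v := P2F.vv)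
    (f1 := P2F.F1f) (f2 := fun z => P2F.F1f z * (2 * EXG.cf z)) (del := 1 / 20)
    (by norm_num) (by norm_num) (fun a z hz => P2F.hv a z hz)
    (fun z hz => hF1 z (hz.trans (by norm_num))) (fun z hz => hF2 z (hz.trans (by norm_num))) hP
  have hT : ∀ s t : ℝ, |s| < 1 → |t| < 1 → inner ℝ (T (kv s)) (T (kv t)) = Kf s t := by
    apply ker_ext
    intro s t hs ht
    rw [hTv s hs, hTv t ht, inner_vv_Kf hs ht]
  choose x1 x2 hx1 hx2 he1 he2 hs1 hs2 using hu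
  have hIp : ∀ n : ℕ, ∃ I : L2N →ₗᵢ[ℝ] X, IsStep (n + 1) 1 I := fun n => exists_step (by omega) (Or.inl rfl)
  choose Ip hIp using hIp
  have sp : ∀ n, 1 ≤ n → IsStep n 1 ((fun n => Ip (n - 1)) n) := by
    intro n hn
    have := hIp (n - 1)
    rwa [Nat.sub_add_cancel hn] at this
  have shift : ∀ {α : Type} [TopologicalSpace α] {f : ℕ → α} {a : α}, Tendsto f atTop (𝓝 a) →
      Tendsto (fun n => f (n + 1)) atTop (𝓝 a) := fun {α} _ {f a} h => (tendsto_add_atTop_iff_nat 1).2 h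
  obtain ⟨V1, hV1, hV1lim⟩ := step_tendsto' (s := 1) (Or.inl rfl) (I := fun n => Ip (n - 1)) sp
    (β := 1 / 4) (C := cG1) (by norm_num) hlim1
  obtain ⟨V2, hV2, hV2lim⟩ := step_tendsto' (s := 1) (Or.inl rfl) (I := fun n => Ip (n - 1)) sp
    (G := F2) (β := 1) (C := cG3) (by norm_num) hlim2
  have e1 : ∀ (F : ℕ → ℝ) (n : ℕ), Fv (fun i => (1 : ℝ) ^ i * F i) n = Fv F n := by
    intro F n
    simp
  have v1 : Tendsto (fun n : ℕ => (((n + 1 : ℕ) : ℝ) ^ (-(1 / 2) - (1 / 4) : ℝ)) • Ip n (Fv F1 (n + 1))) atTop (𝓝 V1) := by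
    have := shift hV1lim
    simpa only [e1, Nat.add_sub_cancel] using this
  have v2 : Tendsto (fun n : ℕ => (((n + 1 : ℕ) : ℝ) ^ (-(1 / 2) - 1 : ℝ)) • Ip n (Fv F2 (n + 1))) atTop (𝓝 V2) := by
    have := shift hV2lim
    simpa only [e1, Nat.add_sub_cancel] using this
  have hlimA : ∀ a : ℝ, 0 < a → Tendsto (fun n => RR (Ip n) (AA T) (eps a)) atTop
      (𝓝 ((1 / (2 * π)) • ∫ η : ℝ, (exp (-(2 * η / 3)) / cosh η) • eps (a * exp (-(4 * η / 3))))) := by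
    intro a ha
    have := shift (limA' hT (I := fun n => Ip (n - 1)) sp ha)
    simpa only [Nat.add_sub_cancel] using this
  have full : ∀ (β : ℝ) (F : ℕ → ℝ) (x : ℕ → L2N) (V : X),
      Tendsto (fun n : ℕ => (((n + 1 : ℕ) : ℝ) ^ β) • Ip n (Fv F (n + 1))) atTop (𝓝 V) →
      (∀ n, x n = Fv F n + tr n (AA T (x n))) →
      ∃ (S : X →L[ℝ] X) (U0 : X), ‖S‖ ≤ 1 / 2 ∧ (∀ f g, inner ℝ (S f) g = inner ℝ f (S g)) ∧
        (∀ a : ℝ, 0 < a → S (eps a) = (1 / (2 * π)) • ∫ η : ℝ, (exp (-(2 * η / 3)) / cosh η) •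
          eps (a * exp (-(4 * η / 3)))) ∧ U0 = V + PX (S U0) ∧
        Tendsto (fun n => inner ℝ ((((n + 1 : ℕ) : ℝ) ^ β) • Ip n (Fv F (n + 1)))
          ((((n + 1 : ℕ) : ℝ) ^ β) • Ip n (x (n + 1)))) atTop (𝓝 (inner ℝ V U0)) := by
    intro β F x V hV hx
    obtain ⟨S, U0, hSn, hSlim, hU0, hU0eq⟩ := FA_full (fun n => RR (Ip n) (AA T)) (fun n => RR_norm hS (Ip n)) _ dens
      (by
        rintro f ⟨k, rfl⟩
        exact ⟨_, hlimA ((k : ℝ) + 1) (by positivity)⟩)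
      PX PX_opNorm _ (fun n => (((n + 1 : ℕ) : ℝ) ^ β) • Ip n (x (n + 1))) V hV
      (fun n => step_eq (by omega) (hIp n) T _ (hx (n + 1)))
    refine ⟨S, U0, hSn, ?_, fun a ha => tendsto_nhds_unique (hSlim _) (hlimA a ha), hU0eq,
      Filter.Tendsto.inner (𝕜 := ℝ) hV hU0⟩
    intro f g
    have t1 : Tendsto (fun n => inner ℝ (RR (Ip n) (AA T) f) g) atTop (𝓝 (inner ℝ (S f) g)) :=
      (hSlim f).inner tendsto_const_nhds
    have t2 : Tendsto (fun n => inner ℝ f (RR (Ip n) (AA T) g)) atTop (𝓝 (inner ℝ f (S g))) :=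
      tendsto_const_nhds.inner (hSlim g)
    exact tendsto_nhds_unique t1 (t2.congr fun n => (RR_symm (Ip n) T f g).symm)
  obtain ⟨S1, U1, a1, a2, a3, a4, hq1⟩ := full _ F1 x1 V1 v1 he1
  obtain ⟨S2, U2, b1, b2, b3, b4, hq2⟩ := full _ F2 x2 V2 v2 he2
  rw [q_val a1 a2 a3 hV1 a4] at hq1
  rw [q_half b1 b2 b3 hV2 b4] at hq2
  have pw : ∀ (n : ℕ) (b : ℝ), 0 < n → ((n : ℝ) ^ (-b : ℝ)) * ((n : ℝ) ^ (-b : ℝ)) = 1 / (n : ℝ) ^ (2 * b) := by
    intro n b hn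
    have hn0 : (0 : ℝ) < n := by exact_mod_cast hn
    rw [← rpow_add hn0, one_div, ← rpow_neg hn0.le]
    congr 1
    ring
  have i1 : ∀ n : ℕ, inner ℝ ((((n + 1 : ℕ) : ℝ) ^ (-(1 / 2) - (1 / 4) : ℝ)) • Ip n (Fv F1 (n + 1)))
      ((((n + 1 : ℕ) : ℝ) ^ (-(1 / 2) - (1 / 4) : ℝ)) • Ip n (x1 (n + 1))) =
      (∑ m ∈ Finset.range (n + 1), u m ^ 2) / ((n + 1 : ℕ) : ℝ) ^ (3 / 2 : ℝ) := by
    intro n
    rw [real_inner_smul_left, real_inner_smul_right, (Ip n).inner_map_map, ← hs1, ← mul_assoc,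
      show (-(1 / 2) - (1 / 4) : ℝ) = -(3 / 4) by norm_num, pw (n + 1) (3 / 4) (by omega)]
    rw [show (2 * (3 / 4) : ℝ) = 3 / 2 by norm_num]
    ring
  have i2 : ∀ n : ℕ, inner ℝ ((((n + 1 : ℕ) : ℝ) ^ (-(1 / 2) - 1 : ℝ)) • Ip n (Fv F2 (n + 1)))
      ((((n + 1 : ℕ) : ℝ) ^ (-(1 / 2) - 1 : ℝ)) • Ip n (x2 (n + 1))) =
      (∑ m ∈ Finset.range (n + 1), B m ^ 2 * u m ^ 2) / ((n + 1 : ℕ) : ℝ) ^ (3 : ℝ) := by
    intro n
    rw [real_inner_smul_left, real_inner_smul_right, (Ip n).inner_map_map, ← hs2, ← mul_assoc,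
      show (-(1 / 2) - 1 : ℝ) = -(3 / 2) by norm_num, pw (n + 1) (3 / 2) (by omega)]
    rw [show (2 * (3 / 2) : ℝ) = 3 by norm_num]
    ring
  refine ⟨u, ?_, ?_⟩
  · refine (tendsto_add_atTop_iff_nat 1).1 ?_
    exact hq1.congr i1
  · refine (tendsto_add_atTop_iff_nat 1).1 ?_
    exact hq2.congr i2

/-- the hypothesis in the form of the Hilbert space -/
theorem node_to_vv2 {B : ℕ → ℝ} (hP : NodeRel2E B) (n : ℕ) :
    ∃ b : ℝ → ℝ, Tendsto (fun ε => b ε ^ 2) (𝓝[>] 0) (𝓝 (B n ^ 2)) ∧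
      ∀ᶠ ε in 𝓝[>] (0 : ℝ), ∃ g : ℕ → ℝ, ∀ k ≤ n,
        P2F.F1f (k * ε) * (2 * EXG.cf (k * ε)) - b ε * P2F.F1f (k * ε) =
        ∑ j ∈ Finset.range n, g j * inner ℝ (P2F.vv (k * ε)) (P2F.vv ((j + 1) * ε)) := by
  obtain ⟨b, hb, h1⟩ := hP n
  refine ⟨b, hb, ?_⟩
  have h2 : ∀ᶠ ε in 𝓝[>] (0 : ℝ), (n : ℝ) * ε < 1 / 20 := by
    have : Tendsto (fun ε : ℝ => (n : ℝ) * ε) (𝓝[>] 0) (𝓝 0) := by
      have : Tendsto (fun ε : ℝ => (n : ℝ) * ε) (𝓝 0) (𝓝 ((n : ℝ) * 0)) :=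
        (continuous_const.mul continuous_id).tendsto 0
      rw [mul_zero] at this
      exact this.mono_left nhdsWithin_le_nhds
    exact this.eventually (gt_mem_nhds (by norm_num))
  filter_upwards [h1, h2, self_mem_nhdsWithin] with ε he1 he2 he3
  have he3' : (0 : ℝ) < ε := he3
  have small : ∀ k : ℕ, k ≤ n → |(k : ℝ) * ε| < 1 / 20 := by
    intro k hk
    have : (k : ℝ) ≤ n := by exact_mod_cast hk
    rw [abs_of_nonneg (by positivity)]
    exact lt_of_le_of_lt (mul_le_mul_of_nonneg_right this he3'.le) he2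
  obtain ⟨g, hg⟩ := he1
  refine ⟨fun j => g j / P2F.gam ((j + 1) * ε), ?_⟩
  intro k hk
  have hk' := small k hk
  rw [← P2F.gam_F1f hk', cf_eq hk']
  have h3 := hg k hk
  calc P2F.gam (k * ε) * (2 * cos (2 * P2F.xx (k * ε))) - b ε * P2F.gam (k * ε)
      = P2F.gam (k * ε) * (2 * cos (2 * P2F.xx (k * ε)) - b ε) := by ring
    _ = P2F.gam (k * ε) * ∑ j ∈ Finset.range n, g j /
          P2F.H (cos (2 * P2F.xx (k * ε))) (cos (2 * P2F.xx ((j + 1) * ε))) := by rw [h3]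
    _ = _ := by
        rw [Finset.mul_sum]
        refine Finset.sum_congr rfl fun j hj => ?_
        have hj' : |((j : ℝ) + 1) * ε| < 1 / 20 := by
          have := small (j + 1) (Finset.mem_range.1 hj)
          push_cast at this
          exact this
        rw [P2F.inner_vv hk' hj']
        have hg1 := (P2F.gam_pos hj').ne'
        beta_reduce
        generalize P2F.gam (((j : ℝ) + 1) * ε) = G at hg1 ⊢
        generalize P2F.H (cos (2 * P2F.xx ((k : ℝ) * ε))) (cos (2 * P2F.xx (((j : ℝ) + 1) * ε))) = K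
        generalize P2F.gam ((k : ℝ) * ε) = G'
        rw [div_mul_div_comm, show g j * (G' * G) = G * (G' * g j) by ring,
          mul_div_mul_left _ _ hg1, mul_div_assoc]

/-- the limit of tau2 -/
noncomputable def bT : ℝ := cG3 * (8 / (3 * √6)) / (cG1 * EXG.Carl.w 0)

/-- **the increasing sequence** -/
theorem sharp_tau {A B : ℕ → ℝ} (hA0 : ∀ n, 0 ≤ A n) (hA : Monotone A)
    (hAB : ∀ n, A n ^ 2 = B n ^ 2) (hP : NodeRel2E B) :
    Tendsto (fun n : ℕ => A n / (n : ℝ) ^ (3 / 4 : ℝ)) atTop (𝓝 bT) := by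
  obtain ⟨u, h1, h2⟩ := sums_tau (node_to_vv2 hP)
  have hK := P2F.K1_pos
  have hh : 0 < P2F.h0 := by unfold P2F.h0; positivity
  have hG : 0 < Real.Gamma (5 / 4) := Real.Gamma_pos_of_pos (by norm_num)
  have hc1 : 0 < cG1 := by unfold cG1; positivity
  have hc3 : 0 < cG3 := by unfold cG3; positivity
  have hw : 0 < EXG.Carl.w 0 := by
    rw [EXG.Carl.w_zero]
    have := Real.Gamma_pos_of_pos (s := 5 / 12) (by norm_num)
    have := Real.Gamma_pos_of_pos (s := 13 / 12) (by norm_num)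
    positivity
  have h3 := fin_inc (q1 := cG1 ^ 2 * (2 / 3 * EXG.Carl.w 0 ^ 2)) (q2 := cG3 ^ 2 * (32 / 81)) (by positivity)
    (by positivity) hA0 hA h1 (by simpa only [hAB] using h2)
  have e : Real.sqrt (2 * (cG3 ^ 2 * (32 / 81) / (cG1 ^ 2 * (2 / 3 * EXG.Carl.w 0 ^ 2)))) = bT := by
    have h6 : √6 ^ 2 = 6 := Real.sq_sqrt (by norm_num)
    have h6' : 0 < √6 := by positivity
    have : 2 * (cG3 ^ 2 * (32 / 81) / (cG1 ^ 2 * (2 / 3 * EXG.Carl.w 0 ^ 2))) = bT ^ 2 := by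
      unfold bT
      rw [div_pow, mul_pow, mul_pow, div_pow, mul_pow, h6]
      field_simp
      norm_num
    rw [this, Real.sqrt_sq (by unfold bT; positivity)]
  rwa [e] at h3

/-- the ratio with the constant of the bridges -/
theorem bT_div_bB : bT / EXG.bB = √3 / (2 * sin (π / 8)) := by
  rw [← EXG.bB_eq]
  have hK := P2F.K1_pos
  have hG : 0 < Real.Gamma (5 / 4) := Real.Gamma_pos_of_pos (by norm_num)
  have hh : 0 < P2F.h0 := by unfold P2F.h0; positivity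
  have hc1 : 0 < cG1 := by unfold cG1; positivity
  have hw : 0 < EXG.Carl.w 0 := by
    rw [EXG.Carl.w_zero]
    have := Real.Gamma_pos_of_pos (s := 5 / 12) (by norm_num)
    have := Real.Gamma_pos_of_pos (s := 13 / 12) (by norm_num)
    positivity
  have hs : 0 < sin (π / 8) := sin_pos_of_pos_of_lt_pi (by positivity) (by linarith [pi_pos])
  have s2 : 0 < √2 := by positivity
  have s3 : 0 < √3 := by positivity
  have s6 : √6 = √2 * √3 := by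
    rw [← Real.sqrt_mul (by norm_num)]
    norm_num
  have s22 : √2 * √2 = 2 := Real.mul_self_sqrt (by norm_num)
  have s33 : √3 * √3 = 3 := Real.mul_self_sqrt (by norm_num)
  have e1 : bT / (EXG.cG2 / (cG1 * EXG.Carl.w 0)) = cG3 * (8 / (3 * √6)) / EXG.cG2 := by
    unfold bT
    rw [div_div_div_cancel_right₀ (by positivity)]
  rw [e1]
  unfold cG3 EXG.cG2
  rw [EXG.r2_eq, s6]
  unfold P2F.h0
  field_simp
  nlinarith

end EXK
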