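import Pool.Agent.EXK.GlK
import Pool.Agent.EXK.MainT
import Pool.Agent.HexStep.KUp

/-!
# The limits of `K_T / T^(3/4)` and of `K_T / (T B_T)` (board EXK, K6, helper38)
-/

set_option autoImplicit false

open Real Filter Topology

namespace EXK

/-- the sequence of the second closing in terms of `K` -/
noncomputable def tau2 (K : ℕ → ℝ) (n : ℕ) : ℝ :=
  √2 / (2 * cos (3 * π / 8)) + 2 * (sin (3 * π / 8) / cos (3 * π / 8)) * K n

theorem c3_eq : cos (3 * π / 8) = sin (π / 8) := by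
  rw [show 3 * π / 8 = π / 2 - π / 8 by ring, cos_pi_div_two_sub]

theorem s3_eq : sin (3 * π / 8) = cos (π / 8) := by
  rw [show 3 * π / 8 = π / 2 - π / 8 by ring, sin_pi_div_two_sub]

theorem s1_pos : 0 < sin (π / 8) := sin_pos_of_pos_of_lt_pi (by positivity) (by linarith [pi_pos])

theorem c1_pos : 0 < cos (π / 8) := cos_pos_of_mem_Ioo ⟨by linarith [pi_pos], by linarith [pi_pos]⟩

theorem tau2_zero {K : ℕ → ℝ} (h : K 0 = 0) : tau2 K 0 = 2 * cos (π / 8) := by
  have h1 := s1_pos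
  have h2 := sin_two_mul (π / 8)
  rw [show 2 * (π / 8) = π / 4 by ring, sin_pi_div_four] at h2
  unfold tau2
  rw [h, c3_eq, mul_zero, add_zero, div_eq_iff (by positivity)]
  linarith

/-- **sharp asymptotics of `K`** -/
theorem K_sharp {K : ℕ → ℝ} (hK0 : K 0 = 0) (hm : Monotone K) (hL : LatRelK (tau2 K)) :
    Tendsto (fun n : ℕ => K n / (n : ℝ) ^ (3 / 4 : ℝ)) atTop
      (𝓝 (EXG.bB * (√3 / (4 * sin (3 * π / 8))))) := by
  have h1 := s1_pos
  have h2 := c1_pos
  have hKn : ∀ n, 0 ≤ K n := fun n => by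
    have := hm (Nat.zero_le n)
    rwa [hK0] at this
  have ht0 : ∀ n, 0 ≤ tau2 K n := by
    intro n
    unfold tau2
    rw [c3_eq, s3_eq]
    have := hKn n
    positivity
  have htm : Monotone (tau2 K) := by
    intro m n hmn
    unfold tau2
    rw [c3_eq, s3_eq]
    have := hm hmn
    gcongr
  have hrel := relK2E (tau2_zero hK0) hL
  have h3 := sharp_tau (B := tau2 K) ht0 htm (fun _ => rfl) hrel
  -- subtract the constant
  have h4 : Tendsto (fun n : ℕ => √2 / (2 * cos (3 * π / 8)) / (n : ℝ) ^ (3 / 4 : ℝ)) atTop (𝓝 0) :=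
    tendsto_const_nhds.div_atTop ((tendsto_rpow_atTop (by norm_num)).comp tendsto_natCast_atTop_atTop)
  have h5 := (h3.sub h4).mul_const (cos (3 * π / 8) / (2 * sin (3 * π / 8)))
  have e : (bT - 0) * (cos (3 * π / 8) / (2 * sin (3 * π / 8))) =
      EXG.bB * (√3 / (4 * sin (3 * π / 8))) := by
    have h6 := bT_div_bB
    have h7 := EXG.bB_pos
    rw [div_eq_iff h7.ne'] at h6
    rw [h6, c3_eq, s3_eq]
    field_simp
    ring
  rw [e] at h5
  refine h5.congr fun n => ?_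
  unfold tau2
  rw [c3_eq, s3_eq]
  field_simp
  ring

/-- the ratio -/
theorem ratio {K b : ℕ → ℝ}
    (hK : Tendsto (fun n : ℕ => K n / (n : ℝ) ^ (3 / 4 : ℝ)) atTop
      (𝓝 (EXG.bB * (√3 / (4 * sin (3 * π / 8))))))
    (hb : Tendsto (fun n : ℕ => b n * (n : ℝ) ^ (1 / 4 : ℝ)) atTop (𝓝 EXG.bB)) :
    Tendsto (fun n : ℕ => K n / ((n : ℝ) * b n)) atTop (𝓝 (√3 / (4 * sin (3 * π / 8)))) := by
  have h7 := EXG.bB_pos
  have h := hK.div hb h7.ne'
  rw [mul_div_cancel_left₀ _ h7.ne'] at h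
  refine h.congr' ?_
  filter_upwards [eventually_gt_atTop 0] with n hn
  have hn' : (0 : ℝ) < n := by exact_mod_cast hn
  simp only [Pi.div_apply]
  have e : (n : ℝ) = (n : ℝ) ^ (3 / 4 : ℝ) * (n : ℝ) ^ (1 / 4 : ℝ) := by
    rw [← Real.rpow_add hn']
    norm_num
  rw [div_div]
  congr 1
  calc (n : ℝ) ^ (3 / 4 : ℝ) * (b n * (n : ℝ) ^ (1 / 4 : ℝ))
      = ((n : ℝ) ^ (3 / 4 : ℝ) * (n : ℝ) ^ (1 / 4 : ℝ)) * b n := by ring
    _ = (n : ℝ) * b n := by rw [← e]

/-! ### the floor arcs of the strip -/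

/-- `K_T` as a real number, `0` at `T = 0` -/
noncomputable def KR (T : ℕ) : ℝ := if T = 0 then 0 else (HexObs.SP.KT T).toReal

theorem KR_zero : KR 0 = 0 := if_pos rfl

theorem KR_eq {T : ℕ} (hT : 1 ≤ T) : KR T = (HexObs.SP.KT T).toReal := if_neg (by omega)

theorem KR_mono : Monotone KR := by
  refine monotone_nat_of_le_succ fun T => ?_
  rcases Nat.eq_zero_or_pos T with rfl | hT
  · rw [KR_zero, KR_eq le_rfl]
    exact ENNReal.toReal_nonneg
  · rw [KR_eq hT, KR_eq (by omega)]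
    refine ENNReal.toReal_mono (HexObs.SP.two (T := T + 1) (by omega)).1 ?_
    rw [HexObs.SP.K_eq hT]
    exact le_self_add

end EXK
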