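import Pool.Agent.EXK.BetaC
import Pool.Agent.EXK.Half6
import Pool.Agent.EXK.Rat
import Pool.Agent.EXK.Exp3
import Pool.Agent.EXL.GlFin

/-!
# The lattice side for `K_T` (board EXK)

Main results: `latRelK : LatRelK (tau2 KR)`, `K_asym`, `K_ratio`.
-/

set_option autoImplicit false

open Filter Topology

namespace Pool.Agent.EXK

open Pool.Agent.EXL Pat Fm

/-! ### The double column at constant rapidities -/

theorem M_congr_w {α : Type*} [DecidableEq α] {K : Type*} [CommRing K] {w w' : α → Wt K} (i : α)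
    {L : List α} (h : ∀ j ∈ L, w j = w' j) (F : Pat α → K) :
    Pool.Agent.EXL.M w i L F = Pool.Agent.EXL.M w' i L F := by
  induction L with
  | nil => rfl
  | cons j L ih =>
    rw [Pool.Agent.EXL.M_cons, Pool.Agent.EXL.M_cons, ih (fun k hk => h k (List.mem_cons_of_mem _ hk)),
      h j List.mem_cons_self]

theorem T_const {ι α : Type*} [DecidableEq ι] [DecidableEq α] {L : LabMap ι α} {c : ℂ} {i j : ι} {v : ℂ}
    {rows : List ι} (hij : i ≠ j) (hi : i ∉ rows) (hj : j ∉ rows) (F : Pat α → ℂ) :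
    (ops L).T (fun _ => c) i j v rows F =
      Tv (fun _ => c) (L.lab i) (L.lab j) L.flo L.cei (rows.map L.lab) v F := by
  rw [T_apply hij hi hj]
  have e : ∀ s ∈ rows.map L.lab, Fm.ext L (fun _ => c) s = c := by
    intro s hs
    obtain ⟨r, -, rfl⟩ := List.mem_map.1 hs
    exact Fm.ext_lab (L := L) (fun _ => c) r
  unfold Tv TT
  rw [M_congr_w (w := fun s => Wc (3 * lam - v - Fm.ext L (fun _ => c) s)) (w' := fun _ => Wc (3 * lam - v - c)) _
    (fun s hs => by rw [e s hs]),
    M_congr_w (w := fun s => Wc (v - Fm.ext L (fun _ => c) s)) (w' := fun _ => Wc (v - c)) _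
    (fun s hs => by rw [e s hs])]

/-! ### The sums over the rows -/

theorem St_rows {N : ℕ} (F : Pat (Site N) → ℂ) (t : Site N) (l : List (Fin N)) (q : Pat (Site N)) :
    St F t (l.map Site.row) q = (l.map fun j => F (cup (Site.row j) t q)).sum := by
  unfold St
  rw [List.map_map]
  rfl

theorem S2_rows {N : ℕ} (F : Pat (Site N) → ℂ) (b t : Site N) (l : List (Fin N))
    (hl : l.Pairwise (· < ·)) :
    S2 F b t (l.map Site.row) = (l.map fun i => (l.map fun j =>
      if i < j then F (cup (Site.row j) t (cup (Site.row i) b Pat.empty)) else 0).sum).sum := by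
  induction l with
  | nil => rfl
  | cons i l ih =>
    rw [List.pairwise_cons] at hl
    have h1 : (l.map fun j => if i < j then F (cup (Site.row j) t (cup (Site.row i) b Pat.empty)) else 0) =
        l.map fun j => F (cup (Site.row j) t (cup (Site.row i) b Pat.empty)) :=
      List.map_congr_left fun j hj => if_pos (hl.1 j hj)
    have h2 : (l.map fun i' => ((i :: l).map fun j =>
        if i' < j then F (cup (Site.row j) t (cup (Site.row i') b Pat.empty)) else 0).sum) =
        l.map fun i' => (l.map fun j =>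
        if i' < j then F (cup (Site.row j) t (cup (Site.row i') b Pat.empty)) else 0).sum := by
      refine List.map_congr_left fun i' hi' => ?_
      rw [List.map_cons, List.sum_cons, if_neg (not_lt.2 (hl.1 i' hi').le), zero_add]
    rw [List.map_cons, S2_cons, St_rows, ih hl.2, List.map_cons, List.sum_cons, h2, List.map_cons, List.sum_cons,
      if_neg (lt_irrefl i), zero_add, h1]

variable {N : ℕ}

/-- the half strip function, complex -/
noncomputable def Fc (N : ℕ) (p : Pat (Site N)) : ℂ := (Fh N p : ℂ)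

theorem St_tp (N : ℕ) : St (Fc N) Site.tp (LsN N) Pat.empty = (SPh N : ℂ) := by
  unfold LsN
  rw [St_rows, ← Fin.sum_univ_def]
  unfold SPh Fc
  push_cast
  rfl

theorem St_fl (N : ℕ) : St (Fc N) Site.fl (LsN N) Pat.empty = (SQh N : ℂ) := by
  unfold LsN
  rw [St_rows, ← Fin.sum_univ_def]
  unfold SQh Fc
  push_cast
  rfl

theorem S2_fl_tp (N : ℕ) : S2 (Fc N) Site.fl Site.tp (LsN N) = (SLh N : ℂ) := by
  unfold LsN
  rw [S2_rows _ _ _ _ (List.pairwise_lt_finRange N)]
  simp only [← Fin.sum_univ_def]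
  unfold SLh Fc
  push_cast
  refine Finset.sum_congr rfl fun i _ => Finset.sum_congr rfl fun j _ => ?_
  split_ifs
  · rfl
  · rfl

/-- the algebra of the limit -/
theorem beta_alg {SP SQ SL K n : ℝ} (h1 : Real.sin (Real.pi / 8) * SQ = Real.sin (Real.pi / 4) * SP)
    (h2 : Real.cos (Real.pi / 4) * SP + Real.cos (Real.pi / 8) * SQ + 2 * Real.cos (3 * Real.pi / 8) * SL = n)
    (h3 : Real.sin (3 * Real.pi / 8) * K = Real.sin (Real.pi / 4) * SP) :
    0 - 2 * Real.sqrt 2 + n * (4 - 2 * Real.cos (Real.pi / 8) / Real.sin (Real.pi / 8)) -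
      8 * Real.sin (Real.pi / 8) ^ 2 * Real.sin (2 * (Real.pi / 8)) * SP -
      8 * Real.sin (Real.pi / 8) * Real.sin (2 * (Real.pi / 8)) ^ 2 * SQ +
      (4 * Real.cos (Real.pi / 8) - 8 * Real.sin (Real.pi / 8)) * SL =
    -2 * Real.sqrt 2 - 8 * Real.sin (3 * Real.pi / 8) * K := by
  have hs : 0 < Real.sin (Real.pi / 8) := Real.sin_pos_of_pos_of_lt_pi (by positivity) (by linarith [Real.pi_pos])
  have e1 : 2 * (Real.pi / 8) = Real.pi / 4 := by ring
  have e3 : Real.cos (3 * Real.pi / 8) = Real.sin (Real.pi / 8) := by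
    rw [← Real.cos_pi_div_two_sub]
    congr 1
    ring
  have e4 : Real.sin (Real.pi / 4) = 2 * Real.sin (Real.pi / 8) * Real.cos (Real.pi / 8) := by
    rw [← e1, Real.sin_two_mul]
  have e5 : Real.cos (Real.pi / 4) = 2 * Real.sin (Real.pi / 8) * Real.cos (Real.pi / 8) := by
    rw [← e4, Real.cos_pi_div_four, Real.sin_pi_div_four]
  have e6 : Real.cos (Real.pi / 4) = 1 - 2 * Real.sin (Real.pi / 8) ^ 2 := by
    rw [← e1, Real.cos_two_mul, ← Real.sin_sq_add_cos_sq (Real.pi / 8)]
    ring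
  have e7 := Real.sin_sq_add_cos_sq (Real.pi / 8)
  rw [e1, e4]
  rw [e4] at h1 h3
  rw [e5, e3] at h2
  rw [e5] at e6
  set s := Real.sin (Real.pi / 8) with hs'
  set c := Real.cos (Real.pi / 8) with hc'
  have hSQ : SQ = 2 * c * SP := by
    have : s * (SQ - 2 * c * SP) = 0 := by linarith
    rcases mul_eq_zero.1 this with h | h
    · exact absurd h hs.ne'
    · linarith
  rw [← h2, hSQ, show 8 * Real.sin (3 * Real.pi / 8) * K = 8 * (Real.sin (3 * Real.pi / 8) * K) by ring, h3]
  have hdiv : 2 * c / s * s = 2 * c := div_mul_cancel₀ _ hs.ne'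
  set d := 2 * c / s with hd
  have h4 : (4 - d) * s = 4 * s - 2 * c := by rw [sub_mul, hdiv]
  have h5 : (2 * s * c * SP + c * (2 * c * SP) + 2 * s * SL) * (4 - d) =
      2 * c * SP * ((4 - d) * s) + 2 * c * (c * SP) * (4 - d) + 2 * SL * ((4 - d) * s) := by ring
  rw [h5, h4]
  have h6 : c * d = 4 * c + 2 * s := by
    have : s * (c * d - (4 * c + 2 * s)) = 0 := by
      linear_combination c * hdiv + 2 * e7 - 2 * e6
    rcases mul_eq_zero.1 this with h | h
    · exact absurd h hs.ne'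
    · linarith
  have hU : (2 * s * c) ^ 2 = 1 / 2 := by
    linear_combination (1 / 2) * ((2 * s * c + (1 - 2 * s ^ 2)) * e6 + 4 * s ^ 2 * e7)
  linear_combination SP * (-4 * e7 + 2 * e6 - 8 * s * c * e6 + 4 * hU - 16 * s * c * hU) - 2 * c * SP * h6

theorem Fc_full {N : ℕ} (hN : 1 ≤ N) : Fc N (Fm.full Site.fl Site.tp) = 1 :=
  (half_colC hN (AN_full N) (AN_empty N) (Glue.presH N) (reach N)).fullv

theorem Fc_dead {N : ℕ} (hN : 1 ≤ N) (q : Pat (Site N)) (h1 : q Site.fl = Site.tp)
    (h2 : q ≠ Fm.full Site.fl Site.tp) : Fc N q = 0 := by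
  by_cases hA : AN N q
  · rcases HS.full_or_dead h1 with h | h
    · exact absurd h h2
    · exact (half_colC hN (AN_full N) (AN_empty N) (Glue.presH N) (reach N)).dead q hA h
  · unfold Fc Fh HS.Flim
    rw [if_neg (fun h => hA h.1)]
    rfl

/-- the subleading coefficient at the honeycomb point -/
theorem beta0 {N : ℕ} (hN : 1 ≤ N) :
    Tendsto (fun v => (ops (LN N)).T (fun _ => ((Real.pi / 16 : ℝ) : ℂ)) (Sum.inr 1) (Sum.inr 2) v (rowsN N)
      (Fc N) Pat.empty - 4 * Complex.cos (2 * v - 3 * lam)) flt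
      (𝓝 (-(4 * (Real.cos (3 * Real.pi / 8) : ℝ)) * (_root_.EXK.tau2 _root_.EXK.KR N : ℂ))) := by
  have h := expansion (l := Site.ax 1) (r := Site.ax 2) (b := Site.fl) (t := Site.tp) (by simp) (by simp)
    (by simp) (by simp) (by simp) (by simp) (LsN N) (by simp [LsN]) (by simp [LsN]) (by simp [LsN])
    (by simp [LsN]) ((List.nodup_finRange N).map fun a b hab => by simpa using hab) (F := Fc N)
    (Fc_full hN) (Fc_dead hN)
  have hlen : (LsN N).length = N := by simp [LsN]
  rw [St_tp, St_fl, S2_fl_tp, hlen] at h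
  have he : Fc N Pat.empty = 0 := by
    unfold Fc
    rw [Fh_empty]
    simp
  rw [he] at h
  have hK := half_ids hN
  have halg := beta_alg hK.im hK.re hK.kt
  have hlim : (0 : ℂ) - 2 * ((Real.sqrt 2 : ℝ) : ℂ) + N * (4 - 2 * Complex.cos lam / Complex.sin lam) -
        8 * Complex.sin lam ^ 2 * Complex.sin (2 * lam) * (SPh N : ℂ) -
        8 * Complex.sin lam * Complex.sin (2 * lam) ^ 2 * (SQh N : ℂ) +
        (4 * Complex.cos lam - 8 * Complex.sin lam) * (SLh N : ℂ) =
      -(4 * (Real.cos (3 * Real.pi / 8) : ℝ)) * (_root_.EXK.tau2 _root_.EXK.KR N : ℂ) := by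
    have e1 : Complex.cos lam = ((Real.cos (Real.pi / 8) : ℝ) : ℂ) := by
      rw [lam]; push_cast; rfl
    have e2 : Complex.sin lam = ((Real.sin (Real.pi / 8) : ℝ) : ℂ) := by
      rw [lam]; push_cast; rfl
    have e3 : Complex.sin (2 * lam) = ((Real.sin (2 * (Real.pi / 8)) : ℝ) : ℂ) := by
      rw [lam]; push_cast; rfl
    rw [e1, e2, e3]
    have hc : 0 < Real.cos (3 * Real.pi / 8) := _root_.EXK.c3_pos
    have e4 : -(4 * Real.cos (3 * Real.pi / 8)) * _root_.EXK.tau2 _root_.EXK.KR N =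
        -2 * Real.sqrt 2 - 8 * Real.sin (3 * Real.pi / 8) * (HexObs.SP.KT N).toReal := by
      unfold _root_.EXK.tau2
      rw [_root_.EXK.KR_eq hN]
      field_simp
      ring
    rw [← e4] at halg
    exact_mod_cast halg
  rw [hlim] at h
  refine h.congr fun v => ?_
  rw [T_const (by simp) (row_notMem N _ ⟨1, rfl⟩) (row_notMem N _ ⟨2, rfl⟩), rowsN_map]
  have e : ((Real.pi / 16 : ℝ) : ℂ) = lam / 2 := by
    rw [lam]; push_cast; ring
  rw [e]
  rfl

end Pool.Agent.EXK

namespace EXK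

open Pool.Agent.EXL Pool.Agent.EXL.Glue

/-- **the lattice side for `K_T`** -/
theorem latRelK : LatRelK (tau2 KR) := by
  intro N hN
  obtain ⟨Bx, bx, -, h2, h3⟩ := lat_atK (setupN N) (Ins.laws (LN N)) (row := fun i => Sum.inl i)
    Sum.inl_injective rfl (aux4N N) (c := Sum.inr 0) ⟨0, rfl⟩ (F₀ := Pool.Agent.EXK.Fc N)
    (β := (HexObs.bT N : ℂ))
    (by
      rw [opsC_eq]
      exact inj_colC hN (AN_full N) (AN_empty N) (presH N) (reach N) (coReach fun p h => AN_axE h))
    (by
      rw [opsC_eq]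
      exact half_colC hN (AN_full N) (AN_empty N) (presH N) (reach N))
    (by
      unfold Pool.Agent.EXK.Fc
      rw [Pool.Agent.EXK.Fh_empty]
      simp)
    (fun p hp => by
      unfold Pool.Agent.EXK.Fc Pool.Agent.EXK.Fh HS.Flim
      rw [if_neg (fun h => hp h.1)]
      rfl)
    (Pool.Agent.EXK.beta0 hN)
  exact ⟨Bx, bx, h2, h3⟩

/-- **`K_T / T^(3/4)`** -/
theorem KR_asym : Tendsto (fun n : ℕ => KR n / (n : ℝ) ^ (3 / 4 : ℝ)) atTop
    (𝓝 (EXG.bB * (Real.sqrt 3 / (4 * Real.sin (3 * Real.pi / 8))))) :=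
  K_sharp KR_zero KR_mono latRelK

end EXK
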