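import Pool.Agent.EXK.Bd
import Pool.Agent.EXK.Ids

/-!
# The limits of the values of the double column (board EXK, K1)
-/

set_option autoImplicit false

namespace Pool.Agent.EXK

open Pool.Agent.EXL Pat Filter Topology Asymptotics

variable {α ι : Type*} [DecidableEq α] {fl : Filter ι}
  {e : ι → ℂ} {w w' : ι → Wt ℂ} {Kt kt : ι → ℂ} {a1 a2 b1 b2 o1 o2 Kt0 κ : ℂ}
  {l r b t : α} {F : Pat α → ℂ}

section

variable (A : Asy fl e w w' Kt kt a1 a2 b1 b2 o1 o2 Kt0 κ)

include A

/-- one occupied line ends at the top -/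
theorem lim1 (hlr : l ≠ r) (L : List α) (hl : l ∉ L) (hr : r ∉ L)
    (ht : t ∉ L) (p : Pat α) (hL : L.Nodup) (hp : ∀ k ∈ L, p k = k) (pt : p t = t) :
    (p l = l → p r ≠ r → Tendsto (fun n => e n * GG w w' Kt kt l r t F L p n) fl
      (𝓝 (κ * F (swap r t p)))) ∧
    (p l ≠ l → p r = r → Tendsto (fun n => e n * GG w w' Kt kt l r t F L p n) fl
      (𝓝 (κ * F (swap l t p)))) := by
  induction L generalizing p with
  | nil =>
    constructor
    · intro h1 h2
      refine (A.kt.mul_const (F (swap r t p))).congr fun n => ?_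
      show _ = e n * top (Kt n) (kt n) l r t F p
      rw [top_r h1 h2 pt rfl]; ring
    · intro h1 h2
      refine (A.kt.mul_const (F (swap l t p))).congr fun n => ?_
      show _ = e n * top (Kt n) (kt n) l r t F p
      rw [top_l h1 h2 pt rfl]; ring
  | cons j L ih =>
    rw [List.mem_cons, not_or] at hl hr ht
    rw [List.nodup_cons] at hL
    have ih' := fun p hp => ih hl.2 hr.2 ht.2 p hL.2 hp
    have hj : p j = j := hp j List.mem_cons_self
    have hp' : ∀ k ∈ L, p k = k := fun k hk => hp k (List.mem_cons_of_mem _ hk)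
    obtain ⟨hlj, hl⟩ := hl
    obtain ⟨hrj, hr⟩ := hr
    obtain ⟨htj, ht⟩ := ht
    have hlj : l ≠ j := hlj
    have hrj : r ≠ j := hrj
    have hjL := hL.1
    have bd' := fun p hp => bd A (F := F) (t := t) hlr L hl hr p hL.2 hp
    constructor
    · intro h1 h2
      have g0 := (ih' p hp' pt).1 h1 h2
      have g1 := (bd' (cup l j p) (rows_cup hl hjL hp')).2 (by
        rw [cup_out p hlr.symm hrj]
        exact iff_of_false (cup_left hlj h1 hj) h2)
      have g2 := (bd' (swap r j p) (rows_swap hr hjL hp')).2 (by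
        rw [swap_fixed hlr hlj, swap_left]
        exact iff_of_true h1 hj)
      have g3 := (bd' (swap l j (swap r j p)) (rows_swap hl hjL (rows_swap hr hjL hp'))).1 (by
        rw [swap_left, swap_fixed hlr.symm hrj, swap_right, swap_left]
        exact fun h => h2 (h.2 hj))
      have z1 := O1.zero (A.e0.mul A.u2'_0 |>.trans (by rw [mul_zero])) ((O1.of A.v).mul g1)
      have z2 := O1.zero (A.e0.mul A.u1_0 |>.trans (by rw [mul_zero])) ((O1.of A.v').mul g2)
      have z3 := O1.zero (A.u1_0.mul A.u1'_0 |>.trans (by rw [mul_zero])) g3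
      have h := ((A.v.mul g0).add z1).add (z2.add z3)
      rw [one_mul, add_zero, add_zero, add_zero] at h
      refine h.congr fun n => ?_
      show _ = e n * R (w n) r j (R (w' n) l j _) p
      rw [step_01 hlr hlj hj h1 h2]
      unfold GG
      ring
    · intro h1 h2
      have hc : cup r j p l = p l := cup_out p hlr hlj
      have hc1 : cup r j p l ≠ l := by rw [hc]; exact h1
      have hcj : cup r j p j = r := by rw [cup_apply ⟨h2, hj⟩]; simp [hrj.symm]
      have hct : CtOK l j (cup r j p) := by
        refine ⟨hlj, hc1, by rw [hcj]; exact hrj, ?_⟩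
        rw [hc]
        intro h
        apply hlj
        rw [← p.inv l, h, hj]
      have g0 := (ih' p hp' pt).2 h1 h2
      have g1 := (bd' (swap l j p) (rows_swap hl hjL hp')).2 (by
        rw [swap_left, swap_fixed hlr.symm hrj]
        exact iff_of_true hj h2)
      have g2 := (bd' (swap l j (cup r j p)) (rows_swap hl hjL (rows_cup hr hjL hp'))).2 (by
        rw [swap_left, swap_fixed hlr.symm hrj]
        exact iff_of_false (cup_right hrj h2 hj) (cup_left hrj h2 hj))
      have g3 := (bd' (cut l j (cup r j p)) (rows_cut hl hjL (rows_cup hr hjL hp'))).1 (by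
        rw [cut_fix_out _ hlr.symm hrj]
        exact fun h => cup_left hrj h2 hj (h.1 (cut_left hct)))
      have g4 := (bd' (cup l j (cut l j (cup r j p)))
        (rows_cup hl hjL (rows_cut hl hjL (rows_cup hr hjL hp')))).2 (by
        rw [cup_out _ hlr.symm hrj, cut_fix_out _ hlr.symm hrj]
        exact iff_of_false (cup_left hlj (cut_left hct) (cut_right hct)) (cup_left hrj h2 hj))
      have z1 := O1.zero (A.e0.mul A.u1'_0 |>.trans (by rw [mul_zero])) g1
      have z2 := O1.zero (A.e0.mul A.u2_0 |>.trans (by rw [mul_zero])) ((O1.of A.w1').mul g2)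
      have z3 := O1.zero (A.u2_0.mul A.u2'_0 |>.trans (by rw [mul_zero])) g3
      have z4 := O1.zero (A.e0.mul A.u2_0 |>.trans (by rw [mul_zero])) ((O1.of A.w2').mul g4)
      have h := ((A.v'.mul g0).add z1).add ((z2.add z3).add z4)
      rw [one_mul, add_zero, add_zero, add_zero, add_zero] at h
      refine h.congr fun n => ?_
      show _ = e n * R (w n) r j (R (w' n) l j _) p
      rw [step_10 hlr hlj hrj hj h1 h2]
      unfold GG
      ring

end

end Pool.Agent.EXK
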