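import Pool.Agent.EXK.Lim1

/-!
# The limits of the values of the double column, states without one occupied line (board EXK, K1)
-/

set_option autoImplicit false

namespace Pool.Agent.EXK

open Pool.Agent.EXL Pat Filter Topology Asymptotics

variable {α ι : Type*} [DecidableEq α] {fl : Filter ι}
  {e : ι → ℂ} {w w' : ι → Wt ℂ} {Kt kt : ι → ℂ} {a1 a2 b1 b2 o1 o2 Kt0 κ : ℂ}
  {l r b t : α} {F : Pat α → ℂ}

/-- the sum over the rows of `F` at the state with the arc from the row to the top -/
def St (F : Pat α → ℂ) (t : α) (L : List α) (q : Pat α) : ℂ := (L.map fun j => F (cup j t q)).sum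

theorem St_cons (F : Pat α → ℂ) (t j : α) (L : List α) (q : Pat α) :
    St F t (j :: L) q = F (cup j t q) + St F t L q := by
  simp [St]

section

variable (A : Asy fl e w w' Kt kt a1 a2 b1 b2 o1 o2 Kt0 κ)

include A

/-- both lines empty -/
theorem lim0 (hlr : l ≠ r) (hlt : l ≠ t) (hrt : r ≠ t) (L : List α) (hl : l ∉ L) (hr : r ∉ L)
    (ht : t ∉ L) (p : Pat α) (hL : L.Nodup) (hp : ∀ k ∈ L, p k = k) (pt : p t = t)
    (pl : p l = l) (pr : p r = r) :
    Tendsto (fun n => GG w w' Kt kt l r t F L p n) fl (𝓝 (F p + κ * (a2 + b2) * St F t L p)) := by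
  induction L with
  | nil =>
    have : F p + κ * (a2 + b2) * St F t [] p = F p := by simp [St]
    rw [this]
    refine tendsto_const_nhds.congr fun n => ?_
    show _ = top (Kt n) (kt n) l r t F p
    rw [top_0 pl pr]
  | cons j L ih =>
    rw [List.mem_cons, not_or] at hl hr ht
    rw [List.nodup_cons] at hL
    have hj : p j = j := hp j List.mem_cons_self
    have hp' : ∀ k ∈ L, p k = k := fun k hk => hp k (List.mem_cons_of_mem _ hk)
    have ih' := ih hl.2 hr.2 ht.2 hL.2 hp'
    obtain ⟨hlj, hl⟩ := hl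
    obtain ⟨hrj, hr⟩ := hr
    obtain ⟨htj, ht⟩ := ht
    have hlj : l ≠ j := hlj
    have hrj : r ≠ j := hrj
    have htj : t ≠ j := htj
    have hjL := hL.1
    have g1 := (lim1 A (F := F) hlr L hl hr ht (cup l j p) hL.2 (rows_cup hl hjL hp')
      (by rw [cup_out p hlt.symm htj, pt])).2 (cup_left hlj pl hj) (by
        rw [cup_out p hlr.symm hrj, pr])
    have g2 := (lim1 A (F := F) hlr L hl hr ht (cup r j p) hL.2 (rows_cup hr hjL hp')
      (by rw [cup_out p hrt.symm htj, pt])).1 (by rw [cup_out p hlr hlj, pl]) (cup_left hrj pr hj)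
    have g3 := (bd A (F := F) (t := t) hlr L hl hr (swap l j (cup r j p)) hL.2
      (rows_swap hl hjL (rows_cup hr hjL hp'))).2 (by
        rw [swap_left, swap_fixed hlr.symm hrj]
        exact iff_of_false (cup_right hrj pr hj) (cup_left hrj pr hj))
    rw [swap_cup_mv pl hj pt hlj hlt htj.symm] at g1
    rw [swap_cup_mv pr hj pt hrj hrt htj.symm] at g2
    have z3 := O1.zero (A.u2_0.mul A.u1'_0 |>.trans (by rw [mul_zero])) g3
    have h := (ih'.add (A.u2'.mul g1)).add ((A.u2.mul (A.v'.mul g2)).add z3)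
    have e1 : F p + κ * (a2 + b2) * St F t L p + b2 * (κ * F (cup j t p)) +
        (a2 * (1 * (κ * F (cup j t p))) + 0) = F p + κ * (a2 + b2) * St F t (j :: L) p := by
      rw [St_cons]; ring
    rw [e1] at h
    refine h.congr fun n => ?_
    have := A.en n
    show _ = R (w n) r j (R (w' n) l j _) p
    rw [step_00 hlr hlj hrj hj pl pr]
    unfold GG
    field_simp

/-- the two lines are joined -/
theorem limlr (hlr : l ≠ r) (hlt : l ≠ t) (hrt : r ≠ t) (L : List α) (hl : l ∉ L) (hr : r ∉ L)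
    (ht : t ∉ L) (q : Pat α) (hL : L.Nodup) (hp : ∀ k ∈ L, q k = k) (qt : q t = t)
    (ql : q l = l) (qr : q r = r) :
    Tendsto (fun n => GG w w' Kt kt l r t F L (cup l r q) n) fl
      (𝓝 (κ * (b1 + a1 * o1) * St F t L q)) := by
  have pl : cup l r q l = r := by rw [cup_apply ⟨ql, qr⟩]; simp
  have pl' : cup l r q l ≠ l := by rw [pl]; exact hlr.symm
  have pr : cup l r q r ≠ r := cup_right hlr ql qr
  have pt : cup l r q t = t := by rw [cup_out q hlt.symm hrt.symm, qt]
  induction L with
  | nil =>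
    have : κ * (b1 + a1 * o1) * St F t [] q = 0 := by simp [St]
    rw [this]
    refine tendsto_const_nhds.congr fun n => ?_
    show _ = top (Kt n) (kt n) l r t F (cup l r q)
    rw [top_z3 hlr pl]
  | cons j L ih =>
    rw [List.mem_cons, not_or] at hl hr ht
    rw [List.nodup_cons] at hL
    have hj : q j = j := hp j List.mem_cons_self
    have hp' : ∀ k ∈ L, q k = k := fun k hk => hp k (List.mem_cons_of_mem _ hk)
    have ih' := ih hl.2 hr.2 ht.2 hL.2 hp'
    obtain ⟨hlj, hl⟩ := hl
    obtain ⟨hrj, hr⟩ := hr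
    obtain ⟨htj, ht⟩ := ht
    have hlj : l ≠ j := hlj
    have hrj : r ≠ j := hrj
    have htj : t ≠ j := htj
    have hjL := hL.1
    have pj : cup l r q j = j := by rw [cup_out q hlj.symm hrj.symm, hj]
    have s1 : swap l j (cup l r q) = cup r j q := swap_cup_mv ql qr hj hlr hlj hrj
    have s2 : swap r j (cup l r q) = cup l j q := by
      rw [cup_cm l r]
      exact swap_cup_mv qr ql hj hlr.symm hrj hlj
    have g1 := (lim1 A (F := F) hlr L hl hr ht (cup r j q) hL.2 (rows_cup hr hjL hp')
      (by rw [cup_out q hrt.symm htj, qt])).1 (by rw [cup_out q hlr hlj, ql]) (cup_left hrj qr hj)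
    have g2 := (lim1 A (F := F) hlr L hl hr ht (cup l j q) hL.2 (rows_cup hl hjL hp')
      (by rw [cup_out q hlt.symm htj, qt])).2 (cup_left hlj ql hj) (by
        rw [cup_out q hlr.symm hrj, qr])
    rw [swap_cup_mv qr hj qt hrj hrt htj.symm] at g1
    rw [swap_cup_mv ql hj qt hlj hlt htj.symm] at g2
    have h := ((A.v.mul (A.v'.mul ih')).add (A.v.mul (A.u1'.mul g1))).add
      (A.u1.mul (A.w1'.mul g2))
    have e1 : 1 * (1 * (κ * (b1 + a1 * o1) * St F t L q)) + 1 * (b1 * (κ * F (cup j t q))) +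
        a1 * (o1 * (κ * F (cup j t q))) = κ * (b1 + a1 * o1) * St F t (j :: L) q := by
      rw [St_cons]; ring
    rw [e1] at h
    refine h.congr fun n => ?_
    have := A.en n
    show _ = R (w n) r j (R (w' n) l j _) (cup l r q)
    rw [step_11j hlr hlj pj pl, s1, s2]
    unfold GG
    field_simp

/-- the line `r` is joined to the floor end, the line `l` to a row below -/
theorem lim11 (hF : ∀ q, q b = t → F q = 0) (hlr : l ≠ r) (hlt : l ≠ t) (hrt : r ≠ t)
    (hlb : l ≠ b) (hrb : r ≠ b) (hbt : b ≠ t) {i : α} (hli : l ≠ i) (hri : r ≠ i) (hbi : b ≠ i)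
    (hti : t ≠ i) (L : List α) (hl : l ∉ L) (hr : r ∉ L) (ht : t ∉ L) (hb : b ∉ L) (hi : i ∉ L)
    (hL : L.Nodup) :
    Tendsto (fun n => GG w w' Kt kt l r t F L (cup r b (cup l i Pat.empty)) n) fl
      (𝓝 (Kt0 * F (cup i b Pat.empty) + κ * (a1 * o2) * St F t L (cup i b Pat.empty))) := by
  have e0 : ∀ x : α, (Pat.empty : Pat α) x = x := fun _ => rfl
  set p : Pat α := cup r b (cup l i Pat.empty) with hpdef
  have pc : ∀ x, p x = if x = r then b else if x = b then r else if x = l then i else
      if x = i then l else x := by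
    intro x
    have h1 : (cup l i (Pat.empty : Pat α)) r = r ∧ (cup l i (Pat.empty : Pat α)) b = b := by
      rw [cup_out _ hlr.symm hri, cup_out _ hlb.symm hbi]
      exact ⟨rfl, rfl⟩
    rw [hpdef, cup_apply h1, cup_apply ⟨e0 l, e0 i⟩]
    simp only [e0]
  have pl : p l ≠ l := by rw [pc]; simp [hlr, hlb, hli.symm]
  have pr : p r ≠ r := by rw [pc]; simp [hrb.symm]
  have plr : p l ≠ r := by rw [pc]; simp [hlr, hlb, hri.symm]
  have pt : p t = t := by rw [pc]; simp [hrt.symm, hbt.symm, hlt.symm, hti]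
  have pb : p b = r := by rw [pc]; simp [hrb.symm]
  induction L with
  | nil =>
    have : Kt0 * F (cup i b Pat.empty) + κ * (a1 * o2) * St F t [] (cup i b Pat.empty) =
      Kt0 * F (cup i b Pat.empty) := by simp [St]
    rw [this]
    refine (A.Kt.mul_const (F (cup i b Pat.empty))).congr fun n => ?_
    show _ = top (Kt n) (kt n) l r t F p
    rw [top_d pl pr plr (cut_two hlr hlb hli hrb hri hbi)]
  | cons j L ih =>
    rw [List.mem_cons, not_or] at hl hr ht hb hi
    rw [List.nodup_cons] at hL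
    have ih' := ih hl.2 hr.2 ht.2 hb.2 hi.2 hL.2
    obtain ⟨hlj, hl⟩ := hl
    obtain ⟨hrj, hr⟩ := hr
    obtain ⟨htj, ht⟩ := ht
    obtain ⟨hbj, hb⟩ := hb
    obtain ⟨hij, hi⟩ := hi
    have hlj : l ≠ j := hlj
    have hrj : r ≠ j := hrj
    have htj : t ≠ j := htj
    have hbj : b ≠ j := hbj
    have hij : i ≠ j := hij
    have hjL := hL.1
    have hp' : ∀ k ∈ L, p k = k := by
      intro k hk
      have h1 := ne_of_notMem hl hk
      have h2 := ne_of_notMem hr hk
      have h3 := ne_of_notMem hb hk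
      have h4 := ne_of_notMem hi hk
      rw [pc]; simp [h1, h2, h3, h4]
    have hj : p j = j := by rw [pc]; simp [hlj.symm, hrj.symm, hbj.symm, hij.symm]
    have hpj : p l ≠ j := by rw [pc]; simp [hlr, hlb, hij]
    have hs : swap r j p l = p l := by
      rw [Pool.Agent.EXL.swap_apply, Equiv.swap_apply_of_ne_of_ne hlr hlj,
        Equiv.swap_apply_of_ne_of_ne plr hpj]
    have hct : CtOK l j (swap r j p) := by
      refine ⟨hlj, by rw [hs]; exact pl, fun h => pr (swap_right.1 h), by rw [hs]; exact hpj⟩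
    have cs : cut l j (swap r j p) = cup i b Pat.empty :=
      cut_swap_two hlr hlb hli hrb hri hbi hlj hrj hbj hij
    have t1 : swap l j p t = t := (swap_fixed hlt.symm htj).2 pt
    have t2 : swap l j (swap r j p) t = t :=
      (swap_fixed hlt.symm htj).2 ((swap_fixed hrt.symm htj).2 pt)
    -- the line r alone
    have g1 := (lim1 A (F := F) hlr L hl hr ht (swap l j p) hL.2 (rows_swap hl hjL hp') t1).1
      (swap_left.2 hj) (fun h => pr ((swap_fixed hlr.symm hrj).1 h))
    have f1 : swap r t (swap l j p) b = t := by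
      rw [Pool.Agent.EXL.swap_apply, Equiv.swap_apply_of_ne_of_ne hrb.symm hbt,
        Pool.Agent.EXL.swap_apply, Equiv.swap_apply_of_ne_of_ne hlb.symm hbj, pb,
        Equiv.swap_apply_of_ne_of_ne hlr.symm hrj, Equiv.swap_apply_left]
    rw [hF _ f1, mul_zero] at g1
    have g2 := (lim1 A (F := F) hlr L hl hr ht (swap l j (swap r j p)) hL.2
      (rows_swap hl hjL (rows_swap hr hjL hp')) t2).2
      (fun h => pr (swap_right.1 (swap_left.1 h)))
      ((swap_fixed hlr.symm hrj).2 (swap_left.2 hj))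
    have f2 : swap l t (swap l j (swap r j p)) b = t := by
      rw [Pool.Agent.EXL.swap_apply, Equiv.swap_apply_of_ne_of_ne hlb.symm hbt,
        Pool.Agent.EXL.swap_apply, Equiv.swap_apply_of_ne_of_ne hlb.symm hbj,
        Pool.Agent.EXL.swap_apply, Equiv.swap_apply_of_ne_of_ne hrb.symm hbj, pb,
        Equiv.swap_apply_left, Equiv.swap_apply_right, Equiv.swap_apply_left]
    rw [hF _ f2, mul_zero] at g2
    have g3 := (bd A (F := F) (t := t) hlr L hl hr (cut l j (swap r j p)) hL.2
      (rows_cut hl hjL (rows_swap hr hjL hp'))).2 (by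
        rw [cut_fix_out _ hlr.symm hrj, swap_left]
        exact iff_of_true (cut_left hct) hj)
    have hibl : (cup i b (Pat.empty : Pat α)) l = l := by rw [cup_out _ hli hlb]; rfl
    have hibr : (cup i b (Pat.empty : Pat α)) r = r := by rw [cup_out _ hri hrb]; rfl
    have hibj : (cup i b (Pat.empty : Pat α)) j = j := by
      rw [cup_out _ hij.symm hbj.symm]; rfl
    have hibt : (cup i b (Pat.empty : Pat α)) t = t := by rw [cup_out _ hti hbt.symm]; rfl
    have g4 := (lim1 A (F := F) hlr L hl hr ht (cup l j (cut l j (swap r j p))) hL.2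
      (rows_cup hl hjL (rows_cut hl hjL (rows_swap hr hjL hp')))
      (by rw [cup_out _ hlt.symm htj, cs, hibt])).2
      (cup_left hlj (cut_left hct) (cut_right hct))
      (by rw [cup_out _ hlr.symm hrj, cs, hibr])
    rw [cs, swap_cup_mv hibl hibj hibt hlj hlt htj.symm] at g4
    have z3 := O1.zero (A.u1_0.mul A.u2'_0 |>.trans (by rw [mul_zero])) g3
    have h := ((A.v.mul (A.v'.mul ih')).add (A.v.mul (A.u1'.mul g1))).add
      (((A.u1.mul (A.w1'.mul g2)).add z3).add (A.u1.mul (A.w2'.mul g4)))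
    have e1 : 1 * (1 * (Kt0 * F (cup i b Pat.empty) +
        κ * (a1 * o2) * St F t L (cup i b Pat.empty))) + 1 * (b1 * 0) +
        ((a1 * (o1 * 0) + 0) + a1 * (o2 * (κ * F (cup j t (cup i b Pat.empty))))) =
        Kt0 * F (cup i b Pat.empty) + κ * (a1 * o2) * St F t (j :: L) (cup i b Pat.empty) := by
      rw [St_cons]; ring
    rw [e1] at h
    refine h.congr fun n => ?_
    have := A.en n
    show _ = R (w n) r j (R (w' n) l j _) p
    rw [step_11 hlr hlj hj pl pr plr, cs]
    unfold GG
    field_simp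

end

end Pool.Agent.EXK
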