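import Pool.Agent.EXK.Lim2

/-!
# The limit of the double column at the empty state (board EXK, K1)
-/

set_option autoImplicit false

namespace Pool.Agent.EXK

open Pool.Agent.EXL Pat Filter Topology Asymptotics

variable {α ι : Type*} [DecidableEq α] {fl : Filter ι}
  {e : ι → ℂ} {w w' : ι → Wt ℂ} {Kt kt : ι → ℂ} {a1 a2 b1 b2 o1 o2 Kt0 κ : ℂ}
  {l r b t : α} {F : Pat α → ℂ}

/-- the sum over the pairs of rows (the lower one is joined to the floor end, the upper one to the
top end) -/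
def S2 (F : Pat α → ℂ) (b t : α) : List α → ℂ
  | [] => 0
  | j :: L => St F t L (cup j b Pat.empty) + S2 F b t L

theorem S2_cons (F : Pat α → ℂ) (b t j : α) (L : List α) :
    S2 F b t (j :: L) = St F t L (cup j b Pat.empty) + S2 F b t L := rfl

section

variable (A : Asy fl e w w' Kt kt a1 a2 b1 b2 o1 o2 Kt0 κ)

include A

omit [DecidableEq α] in
theorem Asy.dv {f : ι → ℂ} {c : ℂ} (hf : Tendsto (fun n => f n / e n) fl (𝓝 c)) :
    Tendsto f fl (𝓝 0) := by
  have := hf.mul A.e0
  rw [mul_zero] at this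
  exact this.congr (fun n => div_mul_cancel₀ _ (A.en n))

/-- one line joined to the floor end -/
theorem limb (hF : ∀ q, q b = t → F q = 0) (hlr : l ≠ r) (hlt : l ≠ t) (hrt : r ≠ t)
    (hlb : l ≠ b) (hrb : r ≠ b) (hbt : b ≠ t) (L : List α) (hl : l ∉ L) (hr : r ∉ L)
    (ht : t ∉ L) (hb : b ∉ L) (hL : L.Nodup) :
    Tendsto (fun n => GG w w' Kt kt l r t F L (cup r b Pat.empty) n / e n) fl
      (𝓝 ((a1 + b2 * Kt0) * St F b L Pat.empty +
        κ * (b2 * (a1 * o2) + a1 * (a2 + b2)) * S2 F b t L)) ∧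
    Tendsto (fun n => GG w w' Kt kt l r t F L (cup l b Pat.empty) n / e n) fl
      (𝓝 ((b1 + a2 * o2 * Kt0) * St F b L Pat.empty +
        κ * (b1 * (a2 + b2) + a2 * o1 * (b1 + a1 * o1) + a2 * o2 * (a1 * o2)) * S2 F b t L)) := by
  have e0 : ∀ x : α, (Pat.empty : Pat α) x = x := fun _ => rfl
  have prr : (cup r b (Pat.empty : Pat α)) r ≠ r := cup_left hrb (e0 r) (e0 b)
  have prl : (cup r b (Pat.empty : Pat α)) l = l := by rw [cup_out _ hlr hlb]; rfl
  have prt : (cup r b (Pat.empty : Pat α)) t = t := by rw [cup_out _ hrt.symm hbt.symm]; rfl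
  have pll : (cup l b (Pat.empty : Pat α)) l ≠ l := cup_left hlb (e0 l) (e0 b)
  have plr : (cup l b (Pat.empty : Pat α)) r = r := by rw [cup_out _ hlr.symm hrb]; rfl
  have plt : (cup l b (Pat.empty : Pat α)) t = t := by rw [cup_out _ hlt.symm hbt.symm]; rfl
  induction L with
  | nil =>
    have f1 : (cup b t (Pat.empty : Pat α)) b = t := by rw [cup_apply ⟨e0 b, e0 t⟩]; simp
    constructor
    · have : (a1 + b2 * Kt0) * St F b [] Pat.empty +
        κ * (b2 * (a1 * o2) + a1 * (a2 + b2)) * S2 F b t [] = 0 := by simp [St, S2]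
      rw [this]
      refine tendsto_const_nhds.congr fun n => ?_
      show _ = top (Kt n) (kt n) l r t F (cup r b Pat.empty) / e n
      rw [top_r prl prr prt (swap_cup_mv (e0 r) (e0 b) (e0 t) hrb hrt hbt), hF _ f1]
      simp
    · have : (b1 + a2 * o2 * Kt0) * St F b [] Pat.empty +
        κ * (b1 * (a2 + b2) + a2 * o1 * (b1 + a1 * o1) + a2 * o2 * (a1 * o2)) * S2 F b t [] = 0 := by
        simp [St, S2]
      rw [this]
      refine tendsto_const_nhds.congr fun n => ?_
      show _ = top (Kt n) (kt n) l r t F (cup l b Pat.empty) / e n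
      rw [top_l pll plr plt (swap_cup_mv (e0 l) (e0 b) (e0 t) hlb hlt hbt), hF _ f1]
      simp
  | cons j L ih =>
    rw [List.mem_cons, not_or] at hl hr ht hb
    rw [List.nodup_cons] at hL
    obtain ⟨ih1, ih2⟩ := ih hl.2 hr.2 ht.2 hb.2 hL.2
    obtain ⟨hlj, hl⟩ := hl
    obtain ⟨hrj, hr⟩ := hr
    obtain ⟨htj, ht⟩ := ht
    obtain ⟨hbj, hb⟩ := hb
    have hlj : l ≠ j := hlj
    have hrj : r ≠ j := hrj
    have htj : t ≠ j := htj
    have hbj : b ≠ j := hbj
    have hjL := hL.1
    have rows0 : ∀ k ∈ L, (Pat.empty : Pat α) k = k := fun k _ => rfl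
    have hjbl : (cup j b (Pat.empty : Pat α)) l = l := by rw [cup_out _ hlj hlb]; rfl
    have hjbr : (cup j b (Pat.empty : Pat α)) r = r := by rw [cup_out _ hrj hrb]; rfl
    have hjbt : (cup j b (Pat.empty : Pat α)) t = t := by rw [cup_out _ htj hbt.symm]; rfl
    have x0 := lim0 A (F := F) hlr hlt hrt L hl hr ht (cup j b Pat.empty) hL.2
      (rows_cup hjL hb rows0) hjbt hjbl hjbr
    have xlr := limlr A (F := F) hlr hlt hrt L hl hr ht (cup j b Pat.empty) hL.2
      (rows_cup hjL hb rows0) hjbt hjbl hjbr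
    have x11 := lim11 A (F := F) hF hlr hlt hrt hlb hrb hbt hlj hrj hbj htj L hl hr ht hb hjL hL.2
    -- the states of the two steps
    have s1 : cup l j (cup r b (Pat.empty : Pat α)) = cup r b (cup l j Pat.empty) :=
      cup_cup_cm hlr hlb hrj.symm hbj.symm
    have s2 : swap r j (cup r b (Pat.empty : Pat α)) = cup j b Pat.empty := by
      rw [swap_cup_mv (e0 r) (e0 b) (e0 j) hrb hrj hbj, cup_cm]
    have s3 : swap l j (cup j b (Pat.empty : Pat α)) = cup l b Pat.empty := by
      have : swap l j (cup j b (Pat.empty : Pat α)) = swap j l (cup j b Pat.empty) := by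
        unfold swap; simp only [Equiv.swap_comm l j]
      rw [this, swap_cup_mv (e0 j) (e0 b) (e0 l) hbj.symm hlj.symm hlb.symm, cup_cm]
    have s4 : swap l j (cup l b (Pat.empty : Pat α)) = cup j b Pat.empty := by
      rw [swap_cup_mv (e0 l) (e0 b) (e0 j) hlb hlj hbj, cup_cm]
    have s5 : swap l j (cup r j (cup l b (Pat.empty : Pat α))) = cup l r (cup j b Pat.empty) :=
      swap_cup_three hlr hlb hrb hlj hrj hbj
    have s6 : cut l j (cup r j (cup l b (Pat.empty : Pat α))) = cup r b Pat.empty :=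
      cut_cup_three hlr hlb hrb hlj hrj hbj
    have prj : (cup r b (Pat.empty : Pat α)) j = j := by rw [cup_out _ hrj.symm hbj.symm]; rfl
    have plj : (cup l b (Pat.empty : Pat α)) j = j := by rw [cup_out _ hlj.symm hbj.symm]; rfl
    have c1 : St F b (j :: L) Pat.empty = F (cup j b Pat.empty) + St F b L Pat.empty :=
      St_cons F b j L Pat.empty
    constructor
    · have z : Tendsto (fun n => (w n).u1 / e n * ((w' n).u1 *
          GG w w' Kt kt l r t F L (cup l b Pat.empty) n)) fl (𝓝 (a1 * (0 * 0))) :=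
        A.u1.mul (A.u1'_0.mul (A.dv ih2))
      have h := ((A.v.mul ih1).add (A.v.mul (A.u2'.mul x11))).add
        ((A.u1.mul (A.v'.mul x0)).add z)
      have e1 : 1 * ((a1 + b2 * Kt0) * St F b L Pat.empty +
          κ * (b2 * (a1 * o2) + a1 * (a2 + b2)) * S2 F b t L) +
          1 * (b2 * (Kt0 * F (cup j b Pat.empty) + κ * (a1 * o2) * St F t L (cup j b Pat.empty))) +
          (a1 * (1 * (F (cup j b Pat.empty) + κ * (a2 + b2) * St F t L (cup j b Pat.empty))) +
            a1 * (0 * 0)) =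
          (a1 + b2 * Kt0) * St F b (j :: L) Pat.empty +
          κ * (b2 * (a1 * o2) + a1 * (a2 + b2)) * S2 F b t (j :: L) := by
        rw [c1, S2_cons]; ring
      rw [e1] at h
      refine h.congr fun n => ?_
      have := A.en n
      show _ = R (w n) r j (R (w' n) l j _) (cup r b Pat.empty) / e n
      rw [step_01 hlr hlj prj prl prr, s1, s2, s3]
      unfold GG
      field_simp
    · have z : Tendsto (fun n => (w n).u2 / e n * ((w' n).u2 *
          GG w w' Kt kt l r t F L (cup r b Pat.empty) n)) fl (𝓝 (a2 * (0 * 0))) :=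
        A.u2.mul (A.u2'_0.mul (A.dv ih1))
      have h := ((A.v'.mul ih2).add (A.u1'.mul x0)).add
        (((A.u2.mul (A.w1'.mul xlr)).add z).add (A.u2.mul (A.w2'.mul x11)))
      have e1 : 1 * ((b1 + a2 * o2 * Kt0) * St F b L Pat.empty +
          κ * (b1 * (a2 + b2) + a2 * o1 * (b1 + a1 * o1) + a2 * o2 * (a1 * o2)) * S2 F b t L) +
          b1 * (F (cup j b Pat.empty) + κ * (a2 + b2) * St F t L (cup j b Pat.empty)) +
          ((a2 * (o1 * (κ * (b1 + a1 * o1) * St F t L (cup j b Pat.empty))) + a2 * (0 * 0)) +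
            a2 * (o2 * (Kt0 * F (cup j b Pat.empty) +
              κ * (a1 * o2) * St F t L (cup j b Pat.empty)))) =
          (b1 + a2 * o2 * Kt0) * St F b (j :: L) Pat.empty +
          κ * (b1 * (a2 + b2) + a2 * o1 * (b1 + a1 * o1) + a2 * o2 * (a1 * o2)) *
            S2 F b t (j :: L) := by
        rw [c1, S2_cons]; ring
      rw [e1] at h
      refine h.congr fun n => ?_
      have := A.en n
      show _ = R (w n) r j (R (w' n) l j _) (cup l b Pat.empty) / e n
      rw [step_10 hlr hlj hrj plj pll plr, s4, s5, s6, s1]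
      unfold GG
      field_simp

/-- **the limit of the double column at the empty state** for functions that vanish at the
completed states -/
theorem lim_TT (hF : ∀ q, q b = t → F q = 0) (hlr : l ≠ r) (hlt : l ≠ t) (hrt : r ≠ t)
    (hlb : l ≠ b) (hrb : r ≠ b) (hbt : b ≠ t) (L : List α) (hl : l ∉ L) (hr : r ∉ L)
    (ht : t ∉ L) (hb : b ∉ L) (hL : L.Nodup) {Kb kb : ι → ℂ} {Kb0 κb : ℂ}
    (hKb : Tendsto Kb fl (𝓝 Kb0)) (hkb : Tendsto (fun n => e n * kb n) fl (𝓝 κb)) :
    Tendsto (fun n => TT (Kb n) (kb n) (Kt n) (kt n) (fun _ => w n) (fun _ => w' n) l r b t L F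
      Pat.empty) fl (𝓝 (F Pat.empty +
        κ * ((a2 + b2) + Kb0 * (b1 + a1 * o1)) * St F t L Pat.empty +
        κb * ((a1 + b1) + Kt0 * (b2 + a2 * o2)) * St F b L Pat.empty +
        κb * κ * ((a1 + b1) * (a2 + b2) + a2 * o1 * (b1 + a1 * o1) +
          (b2 + a2 * o2) * (a1 * o2)) * S2 F b t L)) := by
  have rows0 : ∀ k ∈ L, (Pat.empty : Pat α) k = k := fun k _ => rfl
  have x0 := lim0 A (F := F) hlr hlt hrt L hl hr ht Pat.empty hL rows0 rfl rfl rfl
  have xlr := limlr A (F := F) hlr hlt hrt L hl hr ht Pat.empty hL rows0 rfl rfl rfl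
  obtain ⟨y1, y2⟩ := limb A hF hlr hlt hrt hlb hrb hbt L hl hr ht hb hL
  have h := (x0.add (hKb.mul xlr)).add (hkb.mul (y2.add y1))
  have e1 : F Pat.empty + κ * (a2 + b2) * St F t L Pat.empty +
      Kb0 * (κ * (b1 + a1 * o1) * St F t L Pat.empty) +
      κb * (((b1 + a2 * o2 * Kt0) * St F b L Pat.empty +
        κ * (b1 * (a2 + b2) + a2 * o1 * (b1 + a1 * o1) + a2 * o2 * (a1 * o2)) * S2 F b t L) +
        ((a1 + b2 * Kt0) * St F b L Pat.empty +
        κ * (b2 * (a1 * o2) + a1 * (a2 + b2)) * S2 F b t L)) =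
      F Pat.empty +
        κ * ((a2 + b2) + Kb0 * (b1 + a1 * o1)) * St F t L Pat.empty +
        κb * ((a1 + b1) + Kt0 * (b2 + a2 * o2)) * St F b L Pat.empty +
        κb * κ * ((a1 + b1) * (a2 + b2) + a2 * o1 * (b1 + a1 * o1) +
          (b2 + a2 * o2) * (a1 * o2)) * S2 F b t L := by ring
  rw [e1] at h
  refine h.congr fun n => ?_
  have := A.en n
  rw [TT, M_M_eq _ _ hlr hl hr hL, bot_0 rfl rfl rfl rfl rfl rfl]
  unfold GG
  field_simp

end

end Pool.Agent.EXK
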