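import Pool.Agent.EXL.Col
import Pool.Agent.EXL.Comm

/-!
# The auxiliary double column, both lines at once (board EXK, K1)

`MM w w' l r L` = the rows of `L` from the bottom to the top, each row is crossed by the line `r`
(weights `w`) and the line `l` (weights `w'`).
-/

set_option autoImplicit false

namespace Pool.Agent.EXK

open Pool.Agent.EXL Pat

variable {α K : Type*} [DecidableEq α] [CommRing K]

/-- both lines through the rows -/
def MM (w w' : Wt K) (l r : α) : List α → (Pat α → K) → (Pat α → K)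
  | [], F => F
  | j :: L, F => R w r j (R w' l j (MM w w' l r L F))

theorem MM_nil (w w' : Wt K) (l r : α) (F : Pat α → K) : MM w w' l r [] F = F := rfl

theorem MM_cons (w w' : Wt K) (l r j : α) (L : List α) (F : Pat α → K) :
    MM w w' l r (j :: L) F = R w r j (R w' l j (MM w w' l r L F)) := rfl

theorem R_M_comm (w w' : Wt K) {l r j : α} {L : List α} (hlr : l ≠ r) (hlj : l ≠ j) (hrj : r ≠ j)
    (hl : l ∉ L) (hr : r ∉ L) (hj : j ∉ L) (F : Pat α → K) :
    M (fun _ => w) r L (R w' l j F) = R w' l j (M (fun _ => w) r L F) := by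
  induction L with
  | nil => rfl
  | cons i L ih =>
    rw [List.mem_cons, not_or] at hl hj hr
    rw [M_cons, M_cons, ih hl.2 hr.2 hj.2]
    exact R_comm w w' hr.1 hlj hlr hl.1 (Ne.symm hrj) hj.1 _

theorem M_M_eq (w w' : Wt K) {l r : α} {L : List α} (hlr : l ≠ r)
    (hl : l ∉ L) (hr : r ∉ L) (hL : L.Nodup) (F : Pat α → K) :
    M (fun _ => w) r L (M (fun _ => w') l L F) = MM w w' l r L F := by
  induction L with
  | nil => rfl
  | cons j L ih =>
    rw [List.mem_cons, not_or] at hl hr
    rw [List.nodup_cons] at hL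
    rw [M_cons, M_cons, MM_cons, R_M_comm w w' hlr hl.1 hr.1 hl.2 hr.2 hL.1, ih hl.2 hr.2 hL.2]

/-! ### one row, exactly -/

section step

variable {w w' : Wt K} {l r j : α} {G : Pat α → K} {p : Pat α}

theorem step_00 (hlr : l ≠ r) (hlj : l ≠ j) (hrj : r ≠ j) (hj : p j = j) (hl : p l = l)
    (hr : p r = r) :
    R w r j (R w' l j G) p = G p + w'.u2 * G (cup l j p) +
      w.u2 * (w'.v * G (cup r j p) + w'.u1 * G (swap l j (cup r j p))) := by
  have h1 : cup r j p l = l := by rw [cup_out p hlr hlj, hl]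
  have h2 : cup r j p j = r := by rw [cup_apply ⟨hr, hj⟩]; simp [hrj.symm]
  have h3 : cup r j p j ≠ j := by rw [h2]; exact hrj
  rw [R, if_pos hr, if_pos hj, R, if_pos hl, if_pos hj, R, if_pos h1, if_neg h3]

theorem step_01 (hlr : l ≠ r) (hlj : l ≠ j) (hj : p j = j) (hl : p l = l)
    (hr : p r ≠ r) :
    R w r j (R w' l j G) p = w.v * (G p + w'.u2 * G (cup l j p)) +
      w.u1 * (w'.v * G (swap r j p) + w'.u1 * G (swap l j (swap r j p))) := by
  have h1 : swap r j p l = l := (swap_eq_out p hlr hlj hlr hlj).2 hl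
  have h3 : swap r j p j ≠ j := by
    rw [Pool.Agent.EXL.swap_apply, Equiv.swap_apply_right]
    intro h
    apply hr
    have := congrArg (Equiv.swap r j) h
    simpa using this
  rw [R, if_neg hr, if_pos hj, R, if_pos hl, if_pos hj, R, if_pos h1, if_neg h3]

theorem step_10 (hlr : l ≠ r) (hlj : l ≠ j) (hrj : r ≠ j) (hj : p j = j) (hl : p l ≠ l)
    (hr : p r = r) :
    R w r j (R w' l j G) p = w'.v * G p + w'.u1 * G (swap l j p) +
      w.u2 * (w'.w1 * G (swap l j (cup r j p)) + w'.u2 * G (cut l j (cup r j p)) +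
        w'.w2 * G (cup l j (cut l j (cup r j p)))) := by
  have h0 : cup r j p l = p l := cup_out p hlr hlj
  have h1 : cup r j p l ≠ l := by rw [h0]; exact hl
  have h2 : cup r j p j = r := by rw [cup_apply ⟨hr, hj⟩]; simp [hrj.symm]
  have h3 : cup r j p j ≠ j := by rw [h2]; exact hrj
  have h4 : cup r j p l ≠ j := by
    rw [h0]
    intro h
    apply hlj
    rw [← p.inv l, h, hj]
  rw [R, if_pos hr, if_pos hj, R, if_neg hl, if_pos hj, R, if_neg h1, if_neg h3, if_neg h4]

theorem step_11j (hlr : l ≠ r) (hlj : l ≠ j) (hj : p j = j) (hl : p l = r) :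
    R w r j (R w' l j G) p = w.v * (w'.v * G p + w'.u1 * G (swap l j p)) +
      w.u1 * (w'.w1 * G (swap r j p)) := by
  have hl' : p l ≠ l := by rw [hl]; exact hlr.symm
  have hr : p r = l := by rw [← hl, p.inv]
  have hr' : p r ≠ r := by rw [hr]; exact hlr
  have h1 : swap r j p l = j := by
    rw [Pool.Agent.EXL.swap_apply, Equiv.swap_apply_of_ne_of_ne hlr hlj, hl, Equiv.swap_apply_left]
  have h2 : swap r j p j = l := by
    have := (swap r j p).inv l
    rw [h1] at this
    exact this
  have h3 : swap r j p l ≠ l := by rw [h1]; exact hlj.symm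
  have h4 : swap r j p j ≠ j := by rw [h2]; exact hlj
  rw [R, if_neg hr', if_pos hj, R, if_neg hl', if_pos hj, R, if_neg h3, if_neg h4, if_pos h1]

theorem step_11 (hlr : l ≠ r) (hlj : l ≠ j) (hj : p j = j) (hl : p l ≠ l)
    (hr : p r ≠ r) (h : p l ≠ r) :
    R w r j (R w' l j G) p = w.v * (w'.v * G p + w'.u1 * G (swap l j p)) +
      w.u1 * (w'.w1 * G (swap l j (swap r j p)) + w'.u2 * G (cut l j (swap r j p)) +
        w'.w2 * G (cup l j (cut l j (swap r j p)))) := by
  have hlpj : p l ≠ j := by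
    intro h
    apply hlj
    rw [← p.inv l, h, hj]
  have h0 : swap r j p l = p l := by
    rw [Pool.Agent.EXL.swap_apply, Equiv.swap_apply_of_ne_of_ne hlr hlj,
      Equiv.swap_apply_of_ne_of_ne h hlpj]
  have h1 : swap r j p l ≠ l := by rw [h0]; exact hl
  have h3 : swap r j p j ≠ j := by
    rw [Pool.Agent.EXL.swap_apply, Equiv.swap_apply_right]
    intro h
    apply hr
    have := congrArg (Equiv.swap r j) h
    simpa using this
  have h4 : swap r j p l ≠ j := by rw [h0]; exact hlpj
  rw [R, if_neg hr, if_pos hj, R, if_neg hl, if_pos hj, R, if_neg h1, if_neg h3, if_neg h4]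

end step

/-! ### the empty sites of the new states -/

section facts

variable {i j k : α} {p : Pat α}

theorem swap_fixed (h1 : k ≠ i) (h2 : k ≠ j) : swap i j p k = k ↔ p k = k :=
  swap_eq_out p h1 h2 h1 h2

theorem swap_left : swap i j p i = i ↔ p j = j := by
  rw [Pool.Agent.EXL.swap_apply, Equiv.swap_apply_left]
  constructor
  · intro h
    have := congrArg (Equiv.swap i j) h
    simpa using this
  · intro h
    rw [h, Equiv.swap_apply_right]

theorem swap_right : swap i j p j = j ↔ p i = i := by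
  rw [Pool.Agent.EXL.swap_apply, Equiv.swap_apply_right]
  constructor
  · intro h
    have := congrArg (Equiv.swap i j) h
    simpa using this
  · intro h
    rw [h, Equiv.swap_apply_left]

theorem cup_left (h : i ≠ j) (hi : p i = i) (hj : p j = j) : ¬ cup i j p i = i := by
  rw [cup_apply ⟨hi, hj⟩]; simp [h.symm]

theorem cup_right (h : i ≠ j) (hi : p i = i) (hj : p j = j) : ¬ cup i j p j = j := by
  rw [cup_apply ⟨hi, hj⟩]; simp [h, h.symm]

theorem cut_left (h : CtOK i j p) : cut i j p i = i := by rw [cut_apply h]; simp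

theorem cut_right (h : CtOK i j p) : cut i j p j = j := by rw [cut_apply h]; simp [h.1.symm]

variable {L : List α}

theorem ne_of_notMem (hi : i ∉ L) (hk : k ∈ L) : k ≠ i := by
  rintro rfl
  exact hi hk

theorem rows_swap (hi : i ∉ L) (hj : j ∉ L) (h : ∀ k ∈ L, p k = k) : ∀ k ∈ L, swap i j p k = k := by
  intro k hk
  exact (swap_fixed (ne_of_notMem hi hk) (ne_of_notMem hj hk)).2 (h k hk)

theorem rows_cup (hi : i ∉ L) (hj : j ∉ L) (h : ∀ k ∈ L, p k = k) : ∀ k ∈ L, cup i j p k = k := by
  intro k hk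
  rw [cup_out p (ne_of_notMem hi hk) (ne_of_notMem hj hk)]
  exact h k hk

theorem rows_cut (hi : i ∉ L) (hj : j ∉ L) (h : ∀ k ∈ L, p k = k) : ∀ k ∈ L, cut i j p k = k := by
  intro k hk
  exact (cut_fix_out p (ne_of_notMem hi hk) (ne_of_notMem hj hk)).2 (h k hk)

end facts

end Pool.Agent.EXK
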